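import Pool.Agent.H820R2.SC.Core

/-!
# Lists and bin packing; cliques of the bit graph
-/

namespace Pool.Agent.H820R2.SC

open Finset Pool.Agent.NPC Pool.Agent.H557R2.Fpt

theorem T10_sum_shift (s : List ℕ) (p : ℕ → Prop) [DecidablePred p] :
    ∑ c ∈ (range (s.length + 1)).filter (fun c => p c), (0 :: s).getD c 0 =
      ∑ c ∈ (range s.length).filter (fun c => p (c + 1)), s.getD c 0 := by
  rw [Finset.sum_filter, Finset.sum_filter, Finset.sum_range_succ']
  simp

/-- T10a -/
theorem pack_parOf {s tg : List ℕ} (h : Adm s tg) : (parOf s tg h).Pack ↔ PackL s tg := by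
  constructor
  · rintro ⟨f, _, hf⟩
    refine ⟨fun c => f (c + 1), fun i hi => ?_⟩
    have h1 : ∑ c ∈ (range (s.length + 1)).filter (fun c => f c = i), (0 :: s).getD c 0 =
        (tg ++ [s.sum - tg.sum]).getD i 0 := hf i (show i ≤ tg.length from hi.le)
    rw [T10_sum_shift] at h1
    rw [h1, List.getD_append _ _ _ _ hi]
  · rintro ⟨f, hf⟩
    let F : ℕ → ℕ := fun c => if c = 0 then tg.length else
      if f (c - 1) < tg.length then f (c - 1) else tg.length
    have hF : ∀ c, F c ≤ tg.length := by
      intro c
      simp only [F]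
      split_ifs <;> omega
    have hlt : ∀ i < tg.length,
        ∑ c ∈ (range (s.length + 1)).filter (fun c => F c = i), (0 :: s).getD c 0 =
          tg.getD i 0 := by
      intro i hi
      rw [T10_sum_shift, ← hf i hi]
      congr 1
      ext c
      simp only [mem_filter, mem_range, F]
      have : c + 1 ≠ 0 := by omega
      simp only [this, if_false, Nat.add_sub_cancel]
      constructor
      · rintro ⟨h1, h2⟩
        refine ⟨h1, ?_⟩
        split_ifs at h2 <;> omega
      · rintro ⟨h1, h2⟩
        refine ⟨h1, ?_⟩
        split_ifs <;> omega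
    refine ⟨F, fun c _ => hF c, fun i hi => ?_⟩
    show ∑ c ∈ (range (s.length + 1)).filter (fun c => F c = i), (0 :: s).getD c 0 =
        (tg ++ [s.sum - tg.sum]).getD i 0
    have hi' : i ≤ tg.length := hi
    rcases Nat.lt_or_ge i tg.length with h1 | h1
    · rw [hlt i h1, List.getD_append _ _ _ _ h1]
    · have hi2 : i = tg.length := by omega
      subst hi2
      have h2 : ∑ i ∈ range (tg.length + 1),
          ∑ c ∈ (range (s.length + 1)).filter (fun c => F c = i), (0 :: s).getD c 0 =
            ∑ c ∈ range (s.length + 1), (0 :: s).getD c 0 := by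
        apply Finset.sum_fiberwise_of_maps_to
        intro c _
        have := hF c
        simp only [mem_range]
        omega
      rw [Finset.sum_range_succ, Finset.sum_congr rfl (fun i hi => hlt i (mem_range.1 hi)),
        sum_getD] at h2
      have h3 := sum_getD (0 :: s)
      rw [List.length_cons] at h3
      rw [h3, List.sum_cons, zero_add] at h2
      have h4 := h.le
      rw [List.getD_append_right _ _ _ _ le_rfl, Nat.sub_self]
      simp only [List.getD_cons_zero]
      omega

/-- T12b -/
theorem clq_iff (n k : ℕ) (x : List Bool) :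
    ¬ (bitGraph n x).CliqueFree k ↔ Clq n k (adB n x) := by
  rw [SimpleGraph.not_cliqueFree_iff_top_isContained]
  constructor
  · rintro ⟨f⟩
    refine ⟨fun a => if h : a < k then (f ⟨a, h⟩).1 else 0, ?_, ?_⟩
    · intro a ha
      simp only [ha, dif_pos]
      exact (f ⟨a, ha⟩).2
    · intro a b hab hb
      have ha : a < k := by omega
      simp only [ha, hb, dif_pos]
      have h1 : (bitGraph n x).Adj (f ⟨a, ha⟩) (f ⟨b, hb⟩) := by
        apply f.toHom.map_adj
        simp only [SimpleGraph.top_adj, ne_eq, Fin.mk.injEq]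
        omega
      have h2 : f ⟨a, ha⟩ ≠ f ⟨b, hb⟩ := h1.1
      have h3 := h1.2
      simp only [adB, Bool.and_eq_true, decide_eq_true_eq]
      exact ⟨fun h => h2 (Fin.ext h), h3⟩
  · rintro ⟨w, hw, hadj⟩
    have hne : ∀ a b, a < b → b < k → w a ≠ w b := by
      intro a b hab hb
      have := hadj a b hab hb
      simp only [adB, Bool.and_eq_true, decide_eq_true_eq] at this
      exact this.1
    have hinj : ∀ a b : Fin k, w a = w b → a = b := by
      intro a b hab
      rcases lt_trichotomy a.1 b.1 with h | h | h
      · exact absurd hab (hne _ _ h b.2)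
      · exact Fin.ext h
      · exact absurd hab.symm (hne _ _ h a.2)
    have hA : ∀ a b : Fin k, a.1 < b.1 →
        (bitGraph n x).Adj ⟨w a, hw _ a.2⟩ ⟨w b, hw _ b.2⟩ := by
      intro a b hab
      have := hadj a b hab b.2
      simp only [adB, Bool.and_eq_true, decide_eq_true_eq] at this
      refine ⟨?_, this.2⟩
      intro h
      exact this.1 (congrArg Fin.val h)
    refine ⟨⟨⟨fun a => ⟨w a, hw _ a.2⟩, ?_⟩, ?_⟩⟩
    · intro a b h
      rw [SimpleGraph.top_adj] at h
      rcases lt_or_gt_of_ne (fun h' => h (Fin.ext h') : a.1 ≠ b.1) with h1 | h1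
      · exact hA a b h1
      · exact (hA b a h1).symm
    · intro a b hab
      exact hinj a b (congrArg Fin.val hab)

end Pool.Agent.H820R2.SC
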