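import Pool.Agent.H820R2.SC.Core

/-!
# From a clique to a digit packing
-/

namespace Pool.Agent.H820R2.SC

open Finset Pool.Agent.NPC Pool.Agent.H557R2.Fpt

theorem T11_mem_x {n k : ℕ} {ad : ℕ → ℕ → Bool} {a b v : ℕ} :
    It.x a b v ∈ its n k ad ↔ a < k ∧ b < k ∧ b ≠ a ∧ v < n := by
  simp only [its, List.mem_append, List.mem_flatMap, List.mem_map, List.mem_filter,
    List.mem_range, decide_eq_true_eq]
  constructor
  · rintro (⟨a', ha, b', ⟨hb, hne⟩, v', hv, h⟩ | ⟨a', ha, v', hv, h⟩ |
      ⟨a', ha, b', hb, u', hu, v', hv, h⟩)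
    · injection h with h1 h2 h3
      subst h1; subst h2; subst h3
      exact ⟨ha, hb, hne, hv⟩
    · exact absurd h (by simp)
    · exact absurd h (by simp)
  · rintro ⟨ha, hb, hne, hv⟩
    exact Or.inl ⟨a, ha, b, ⟨hb, hne⟩, v, hv, rfl⟩

theorem T11_mem_y {n k : ℕ} {ad : ℕ → ℕ → Bool} {a v : ℕ} :
    It.y a v ∈ its n k ad ↔ a < k ∧ v < n := by
  simp only [its, List.mem_append, List.mem_flatMap, List.mem_map, List.mem_filter,
    List.mem_range, decide_eq_true_eq]
  constructor
  · rintro (⟨a', ha, b', ⟨hb, hne⟩, v', hv, h⟩ | ⟨a', ha, v', hv, h⟩ |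
      ⟨a', ha, b', hb, u', hu, v', hv, h⟩)
    · exact absurd h (by simp)
    · injection h with h1 h2
      subst h1; subst h2
      exact ⟨ha, hv⟩
    · exact absurd h (by simp)
  · rintro ⟨ha, hv⟩
    exact Or.inr (Or.inl ⟨a, ha, v, hv, rfl⟩)

theorem T11_mem_z {n k : ℕ} {ad : ℕ → ℕ → Bool} {a b u v : ℕ} :
    It.z a b u v ∈ its n k ad ↔ a < k ∧ b < k ∧ a < b ∧ u < n ∧ v < n ∧ ad u v = true := by
  simp only [its, List.mem_append, List.mem_flatMap, List.mem_map, List.mem_filter,
    List.mem_range, decide_eq_true_eq]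
  constructor
  · rintro (⟨a', ha, b', ⟨hb, hne⟩, v', hv, h⟩ | ⟨a', ha, v', hv, h⟩ |
      ⟨a', ha, b', ⟨hb, hab⟩, u', hu, v', ⟨hv, had⟩, h⟩)
    · exact absurd h (by simp)
    · exact absurd h (by simp)
    · injection h with h1 h2 h3 h4
      subst h1; subst h2; subst h3; subst h4
      exact ⟨ha, hb, hab, hu, hv, had⟩
  · rintro ⟨ha, hb, hab, hu, hv, had⟩
    exact Or.inr (Or.inr ⟨a, ha, b, ⟨hb, hab⟩, u, hu, v, ⟨hv, had⟩, rfl⟩)

theorem T11_enc {k a b a' b' : ℕ} (hb : b < k) (hb' : b' < k) (h : a * k + b = a' * k + b') :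
    a = a' ∧ b = b' := by
  have hk : 0 < k := by omega
  have h1 : (b + a * k) / k = (b' + a' * k) / k := by rw [add_comm b, add_comm b', h]
  rw [Nat.add_mul_div_right _ _ hk, Nat.add_mul_div_right _ _ hk, Nat.div_eq_of_lt hb,
    Nat.div_eq_of_lt hb', zero_add, zero_add] at h1
  subst h1
  exact ⟨rfl, by omega⟩

theorem T11_tgs_length (n k : ℕ) : (tgs n k).length = k + k * k := by
  simp [tgs, List.length_flatMap]

theorem T11_flat (k : ℕ) (f : ℕ → ℕ → List ℕ) (m : ℕ) (a b : ℕ) (ha : a < m) (hb : b < k) :
    ((List.range m).flatMap fun a => (List.range k).map fun b => f a b).getD (a * k + b) [] =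
      f a b := by
  induction m generalizing a with
  | zero => omega
  | succ m ih =>
    have hlen : ((List.range m).flatMap fun a => (List.range k).map fun b => f a b).length =
        m * k := by
      simp [List.length_flatMap]
    rw [List.range_succ, List.flatMap_append]
    rcases Nat.lt_or_ge a m with h | h
    · rw [List.getD_append, ih a h]
      rw [hlen]
      have : (a + 1) * k ≤ m * k := Nat.mul_le_mul_right _ h
      nlinarith
    · have ham : a = m := by omega
      subst ham
      rw [List.getD_append_right, hlen, Nat.add_sub_cancel_left]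
      · simp [List.getD_eq_getElem?_getD, hb]
      · rw [hlen]; omega

theorem T11_tgs_node (n k i : ℕ) (hi : i < k) : (tgs n k).getD i [] = nodeT n k i := by
  unfold tgs
  rw [List.getD_append]
  · simp [List.getD_eq_getElem?_getD, hi]
  · simpa using hi

theorem T11_tgs_edge (n k a b : ℕ) (ha : a < k) (hb : b < k) :
    (tgs n k).getD (k + (a * k + b)) [] = edgeT n k a b := by
  unfold tgs
  have hlen : ((List.range k).map fun a => nodeT n k a).length = k := by simp
  rw [List.getD_append_right]
  · rw [hlen, Nat.add_sub_cancel_left, T11_flat k _ k a b ha hb]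
  · rw [hlen]; omega

/-- the packing of a clique -/
def T11_g (k : ℕ) (w : ℕ → ℕ) : It → ℕ
  | .x a b v => if v ≠ w a then a else k + (min a b * k + max a b)
  | .y a v => if v = w a then a else k + k * k
  | .z a b u v => if u = w a ∧ v = w b then k + (a * k + b) else k + k * k

theorem T11_enc_lt {k a b : ℕ} (ha : a < k) (hb : b < k) : a * k + b < k * k := by
  have : (a + 1) * k ≤ k * k := Nat.mul_le_mul_right _ ha
  nlinarith

theorem T11_node {n k : ℕ} {ad : ℕ → ℕ → Bool} {w : ℕ → ℕ} (hw : ∀ a < k, w a < n) {i : ℕ}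
    (hi : i < k) :
    (its n k ad).toFinset.filter (fun y => T11_g k w y = i) =
      insert (It.y i (w i)) ((((range k).erase i) ×ˢ ((range n).erase (w i))).image
        (fun p => It.x i p.1 p.2)) := by
  ext y
  rw [mem_filter, List.mem_toFinset, mem_insert, mem_image]
  cases y with
  | x a b v =>
    rw [T11_mem_x]
    simp only [T11_g, Prod.exists, mem_product, mem_erase, mem_range]
    constructor
    · rintro ⟨⟨ha, hb, hne, hv⟩, h⟩
      right
      split_ifs at h with h1
      · subst h
        exact ⟨b, v, ⟨⟨hne, hb⟩, h1, hv⟩, rfl⟩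
      · omega
    · rintro (h | ⟨b', v', ⟨⟨h1, h2⟩, h3, h4⟩, h⟩)
      · exact absurd h (by simp)
      · injection h with e1 e2 e3
        subst e1; subst e2; subst e3
        exact ⟨⟨hi, h2, h1, h4⟩, by rw [if_pos h3]⟩
  | y a v =>
    rw [T11_mem_y]
    simp only [T11_g, Prod.exists, mem_product, mem_erase, mem_range]
    constructor
    · rintro ⟨⟨ha, hv⟩, h⟩
      left
      split_ifs at h with h1
      · subst h; rw [h1]
      · omega
    · rintro (h | ⟨b', v', _, h⟩)
      · injection h with e1 e2
        subst e1; subst e2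
        exact ⟨⟨hi, hw _ hi⟩, by rw [if_pos rfl]⟩
      · exact absurd h (by simp)
  | z a b u v =>
    simp only [T11_g]
    constructor
    · rintro ⟨_, h⟩
      split_ifs at h <;> omega
    · rintro (h | ⟨p, _, h⟩)
      · exact absurd h (by simp)
      · exact absurd h (by simp)

theorem T11_minmax {k a b a₀ b₀ : ℕ} (ha : a < k) (hb : b < k) (hb₀ : b₀ < k)
    (h : k + (min a b * k + max a b) = k + (a₀ * k + b₀)) :
    a₀ = min a b ∧ b₀ = max a b := by
  have := T11_enc (k := k) (a := min a b) (b := max a b) (a' := a₀) (b' := b₀)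
    (by simp [ha, hb]) hb₀ (by omega)
  exact ⟨this.1.symm, this.2.symm⟩

theorem T11_edge {n k : ℕ} {ad : ℕ → ℕ → Bool} {w : ℕ → ℕ} (hw : ∀ a < k, w a < n)
    (had : ∀ a b, a < b → b < k → ad (w a) (w b) = true) {a₀ b₀ : ℕ}
    (ha₀ : a₀ < b₀) (hb₀ : b₀ < k) :
    (its n k ad).toFinset.filter (fun y => T11_g k w y = k + (a₀ * k + b₀)) =
      {It.x a₀ b₀ (w a₀), It.x b₀ a₀ (w b₀), It.z a₀ b₀ (w a₀) (w b₀)} := by
  have hlt := T11_enc_lt (show a₀ < k by omega) hb₀
  ext y
  rw [mem_filter, List.mem_toFinset, mem_insert, mem_insert, mem_singleton]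
  cases y with
  | x a b v =>
    rw [T11_mem_x]
    simp only [T11_g]
    constructor
    · rintro ⟨⟨ha, hb, hne, hv⟩, h⟩
      split_ifs at h with h1
      · omega
      · push Not at h1
        subst h1
        obtain ⟨e1, e2⟩ := T11_minmax ha hb hb₀ h
        rcases lt_or_gt_of_ne hne with h2 | h2
        · rw [min_eq_right h2.le] at e1
          rw [max_eq_left h2.le] at e2
          subst e1; subst e2
          right; left; rfl
        · rw [min_eq_left h2.le] at e1
          rw [max_eq_right h2.le] at e2
          subst e1; subst e2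
          left; rfl
    · rintro (h | h | h)
      · injection h with e1 e2 e3
        subst e1; subst e2; subst e3
        refine ⟨⟨by omega, hb₀, by omega, hw _ (by omega)⟩, ?_⟩
        rw [if_neg (by simp), min_eq_left ha₀.le, max_eq_right ha₀.le]
      · injection h with e1 e2 e3
        subst e1; subst e2; subst e3
        refine ⟨⟨hb₀, by omega, by omega, hw _ (by omega)⟩, ?_⟩
        rw [if_neg (by simp), min_eq_right ha₀.le, max_eq_left ha₀.le]
      · exact absurd h (by simp)
  | y a v =>
    rw [T11_mem_y]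
    simp only [T11_g]
    constructor
    · rintro ⟨⟨ha, hv⟩, h⟩
      split_ifs at h <;> omega
    · rintro (h | h | h) <;> exact absurd h (by simp)
  | z a b u v =>
    rw [T11_mem_z]
    simp only [T11_g]
    constructor
    · rintro ⟨⟨ha, hb, hab, hu, hv, hadj⟩, h⟩
      split_ifs at h with h1
      · obtain ⟨e1, e2⟩ := T11_enc (k := k) hb hb₀ (by omega : a * k + b = a₀ * k + b₀)
        subst e1; subst e2
        rw [h1.1, h1.2]
        right; right; rfl
      · omega
    · rintro (h | h | h)
      · exact absurd h (by simp)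
      · exact absurd h (by simp)
      · injection h with e1 e2 e3 e4
        subst e1; subst e2; subst e3; subst e4
        refine ⟨⟨by omega, hb₀, ha₀, hw _ (by omega), hw _ hb₀, had _ _ ha₀ hb₀⟩, ?_⟩
        rw [if_pos ⟨rfl, rfl⟩]

theorem T11_empty {n k : ℕ} {ad : ℕ → ℕ → Bool} {w : ℕ → ℕ} {a₀ b₀ : ℕ}
    (ha₀ : a₀ < k) (hb₀ : b₀ < k) (hab : ¬ a₀ < b₀) :
    (its n k ad).toFinset.filter (fun y => T11_g k w y = k + (a₀ * k + b₀)) = ∅ := by
  have hlt := T11_enc_lt ha₀ hb₀
  rw [Finset.filter_eq_empty_iff]
  intro y hy h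
  rw [List.mem_toFinset] at hy
  cases y with
  | x a b v =>
    rw [T11_mem_x] at hy
    obtain ⟨ha, hb, hne, hv⟩ := hy
    simp only [T11_g] at h
    split_ifs at h with h1
    · omega
    · obtain ⟨e1, e2⟩ := T11_minmax ha hb hb₀ h
      omega
  | y a v =>
    rw [T11_mem_y] at hy
    simp only [T11_g] at h
    split_ifs at h <;> omega
  | z a b u v =>
    rw [T11_mem_z] at hy
    obtain ⟨ha, hb, hlt', _⟩ := hy
    simp only [T11_g] at h
    split_ifs at h with h1
    · obtain ⟨e1, e2⟩ := T11_enc (k := k) hb hb₀ (by omega : a * k + b = a₀ * k + b₀)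
      omega
    · omega

theorem T11_lrange (n : ℕ) (f : ℕ → ℕ) :
    ((List.range n).map f).sum = ∑ v ∈ range n, f v := by
  induction n with
  | zero => simp
  | succ n ih => rw [List.range_succ, List.map_append, List.sum_append, ih,
      Finset.sum_range_succ]; simp

theorem T11_lsum (k i : ℕ) (f : ℕ → ℕ) :
    (((List.range k).filter fun b => decide (b ≠ i)).map f).sum =
      ∑ b ∈ (range k).erase i, f b := by
  rw [← List.sum_toFinset _ (List.nodup_range.filter _)]
  apply Finset.sum_congr _ (fun _ _ => rfl)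
  ext b
  simp [and_comm]

theorem T11_gt {k i : ℕ} (hi : i < k) (c : ℕ) :
    ∑ b ∈ (range k).erase i, (if i < b then c else 0) = (k - 1 - i) * c := by
  rw [← Finset.sum_filter, Finset.sum_const, smul_eq_mul]
  congr 1
  have : ((range k).erase i).filter (fun b => i < b) = Ico (i + 1) k := by
    ext b
    simp only [mem_filter, mem_erase, mem_range, mem_Ico]
    omega
  rw [this, Nat.card_Ico]
  omega

theorem T11_lt {k i : ℕ} (hi : i < k) (c : ℕ) :
    ∑ b ∈ (range k).erase i, (if i < b then 0 else c) = i * c := by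
  have h1 : ∑ b ∈ (range k).erase i, (if i < b then 0 else c) =
      ∑ b ∈ (range k).erase i, (if ¬ i < b then c else 0) := by
    apply Finset.sum_congr rfl
    intro b _
    split_ifs <;> rfl
  rw [h1, ← Finset.sum_filter, Finset.sum_const, smul_eq_mul]
  congr 1
  have : ((range k).erase i).filter (fun b => ¬ i < b) = range i := by
    ext b
    simp only [mem_filter, mem_erase, mem_range]
    omega
  rw [this, card_range]

theorem T11_node_sum {n k : ℕ} {w : ℕ} (hw : w < n) {i : ℕ} (hi : i < k) (d : ℕ) (hd : d < 11) :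
    (dg n k (.y i w)).getD d 0 + ∑ b ∈ (range k).erase i, ∑ v ∈ (range n).erase w,
      (dg n k (.x i b v)).getD d 0 = (nodeT n k i).getD d 0 := by
  have hcv : ((range n).erase w).card = n - 1 := by
    rw [card_erase_of_mem (mem_range.2 hw), card_range]
  have hcb : ((range k).erase i).card = k - 1 := by
    rw [card_erase_of_mem (mem_range.2 hi), card_range]
  have hs1 : w + ∑ v ∈ (range n).erase w, v = (List.range n).sum := by
    have := T11_lrange n id
    rw [List.map_id] at this
    rw [this]
    exact Finset.add_sum_erase _ id (mem_range.2 hw)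
  have hs2 : w * w + ∑ v ∈ (range n).erase w, v * v = ((List.range n).map fun v => v * v).sum := by
    rw [T11_lrange]
    exact Finset.add_sum_erase _ (fun v => v * v) (mem_range.2 hw)
  interval_cases d
  · simp [dg, nodeT, hcv, hcb]
  · simp [dg, nodeT]
  · simp [dg, nodeT]
  · simp only [dg, nodeT, List.getD_cons_succ, List.getD_cons_zero, sum_const, smul_eq_mul, hcv,
      hcb]
    ring
  · simp only [dg, nodeT, List.getD_cons_succ, List.getD_cons_zero, sum_const, smul_eq_mul, hcv,
      hcb]
    ring
  · simp only [dg, nodeT, List.getD_cons_succ, List.getD_cons_zero, sum_const, smul_eq_mul, hcv,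
      T11_lsum, ← Finset.mul_sum, zero_add]
  · simp only [dg, nodeT, List.getD_cons_succ, List.getD_cons_zero, sum_const, smul_eq_mul, hcv,
      T11_lsum, ← Finset.mul_sum, zero_add]
  · simp only [dg, nodeT, List.getD_cons_succ, List.getD_cons_zero]
    have : ∀ b, ∑ v ∈ (range n).erase w, (if i < b then v else 0) =
        if i < b then ∑ v ∈ (range n).erase w, v else 0 := by
      intro b; split_ifs <;> simp
    simp only [this, T11_gt hi]
    rw [← mul_add, hs1]
  · simp only [dg, nodeT, List.getD_cons_succ, List.getD_cons_zero]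
    have : ∀ b, ∑ v ∈ (range n).erase w, (if i < b then v * v else 0) =
        if i < b then ∑ v ∈ (range n).erase w, v * v else 0 := by
      intro b; split_ifs <;> simp
    simp only [this, T11_gt hi]
    rw [← mul_add, hs2]
  · simp only [dg, nodeT, List.getD_cons_succ, List.getD_cons_zero]
    have : ∀ b, ∑ v ∈ (range n).erase w, (if i < b then 0 else v) =
        if i < b then 0 else ∑ v ∈ (range n).erase w, v := by
      intro b; split_ifs <;> simp
    simp only [this, T11_lt hi]
    rw [← mul_add, hs1]
  · simp only [dg, nodeT, List.getD_cons_succ, List.getD_cons_zero]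
    have : ∀ b, ∑ v ∈ (range n).erase w, (if i < b then 0 else v * v) =
        if i < b then 0 else ∑ v ∈ (range n).erase w, v * v := by
      intro b; split_ifs <;> simp
    simp only [this, T11_lt hi]
    rw [← mul_add, hs2]

/-- T11 -/
theorem packD_of_clq {n k : ℕ} {ad : ℕ → ℕ → Bool} (hk : 1 ≤ k) (h : Clq n k ad) :
    PackD n k ad := by
  obtain ⟨w, hw, had⟩ := h
  refine ⟨T11_g k w, ?_⟩
  intro i hi d hd
  rw [T11_tgs_length] at hi
  rcases Nat.lt_or_ge i k with h1 | h1
  · rw [T11_tgs_node n k i h1, T11_node hw h1, Finset.sum_insert, Finset.sum_image,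
      Finset.sum_product]
    · exact T11_node_sum (hw i h1) h1 d hd
    · rintro ⟨b, v⟩ _ ⟨b', v'⟩ _ h
      injection h with e1 e2 e3
      exact Prod.ext e2 e3
    · simp
  · obtain ⟨j, rfl⟩ : ∃ j, i = k + j := ⟨i - k, by omega⟩
    have hj : j < k * k := by omega
    have hk0 : 0 < k := by omega
    have hja : j / k < k := Nat.div_lt_of_lt_mul hj
    have hjb : j % k < k := Nat.mod_lt _ hk0
    have hjj : j = j / k * k + j % k := by rw [mul_comm]; exact (Nat.div_add_mod j k).symm
    generalize j / k = a at *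
    generalize j % k = b at *
    subst hjj
    rw [T11_tgs_edge n k a b hja hjb]
    by_cases hab : a < b
    · rw [T11_edge hw had hab hjb, Finset.sum_insert, Finset.sum_insert, Finset.sum_singleton]
      · have hwa := hw a (by omega)
        have hwb := hw b hjb
        have hsym : eid k b a = eid k a b := by
          unfold eid; rw [min_comm, max_comm]
        have hba : ¬ b < a := by omega
        have q1 : w a * w a ≤ n * n := Nat.mul_le_mul hwa.le hwa.le
        have q2 : w b * w b ≤ n * n := Nat.mul_le_mul hwb.le hwb.le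
        interval_cases d <;>
          simp only [dg, edgeT, if_pos hab, if_neg hba, hsym, List.getD_cons_succ,
            List.getD_cons_zero] <;> omega
      · simp
      · simp; omega
    · rw [T11_empty hja hjb hab, Finset.sum_empty]
      unfold edgeT
      rw [if_neg hab]
      interval_cases d <;> rfl

end Pool.Agent.H820R2.SC
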