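import Pool.Agent.H820R2.SC.Core

/-!
# T12: a digit packing gives a clique
-/

namespace Pool.Agent.H820R2.SC

open Finset

namespace T12

/-- Convexity: if the values and their squares have the right sums then all values are `c`. -/
theorem conv {ι : Type*} (A : Finset ι) (φ : ι → ℕ) (c : ℕ) (h1 : ∑ y ∈ A, φ y = A.card * c)
    (h2 : ∑ y ∈ A, φ y * φ y = A.card * (c * c)) : ∀ y ∈ A, φ y = c := by
  have h3 : ∑ y ∈ A, ((φ y : ℤ) - c) ^ 2 = 0 := by
    have e1 : (∑ y ∈ A, (φ y : ℤ)) = A.card * c := by exact_mod_cast h1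
    have e2 : (∑ y ∈ A, (φ y : ℤ) * φ y) = A.card * (c * c) := by exact_mod_cast h2
    have : ∑ y ∈ A, ((φ y : ℤ) - c) ^ 2
        = (∑ y ∈ A, (φ y : ℤ) * φ y) - 2 * c * (∑ y ∈ A, (φ y : ℤ)) + ∑ _y ∈ A, (c : ℤ) * c := by
      rw [Finset.mul_sum, ← Finset.sum_sub_distrib, ← Finset.sum_add_distrib]
      exact Finset.sum_congr rfl fun y _ => by ring
    rw [this, e1, e2, Finset.sum_const, nsmul_eq_mul]
    ring
  intro y hy
  have := (Finset.sum_eq_zero_iff_of_nonneg (fun y _ => sq_nonneg ((φ y : ℤ) - c))).1 h3 y hy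
  have h4 : (φ y : ℤ) - c = 0 := by simpa using this
  omega

theorem length_rows {α : Type*} (F : ℕ → ℕ → α) (k m : ℕ) :
    ((List.range m).flatMap fun a => (List.range k).map fun b => F a b).length = m * k := by
  induction m with
  | zero => simp
  | succ m ih =>
    rw [List.range_succ, List.flatMap_append, List.length_append, ih]
    simp
    ring

theorem getD_rows {α : Type*} (F : ℕ → ℕ → α) (d : α) (k m : ℕ) {a b : ℕ} (ha : a < m)
    (hb : b < k) :
    ((List.range m).flatMap fun a => (List.range k).map fun b => F a b).getD (a * k + b) d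
      = F a b := by
  induction m with
  | zero => omega
  | succ m ih =>
    rw [List.range_succ, List.flatMap_append]
    rcases Nat.lt_succ_iff_lt_or_eq.1 ha with h | h
    · rw [List.getD_append _ _ _ _ (by rw [length_rows]; nlinarith)]
      exact ih h
    · subst h
      rw [List.getD_append_right _ _ _ _ (by rw [length_rows]; omega), length_rows]
      have : a * k + b - a * k = b := by omega
      rw [this]
      simp [List.getD_eq_getElem?_getD, hb]

theorem length_tgs (n k : ℕ) : (tgs n k).length = k + k * k := by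
  unfold tgs
  rw [List.length_append, length_rows]
  simp

theorem tgs_node {n k a : ℕ} (ha : a < k) : (tgs n k).getD a [] = nodeT n k a := by
  unfold tgs
  rw [List.getD_append _ _ _ _ (by simpa using ha)]
  simp [List.getD_eq_getElem?_getD, ha]

theorem tgs_edge {n k a b : ℕ} (ha : a < k) (hb : b < k) :
    (tgs n k).getD (k + (a * k + b)) [] = edgeT n k a b := by
  unfold tgs
  rw [List.getD_append_right _ _ _ _ (by simp)]
  have : k + (a * k + b) - (List.map (fun a => nodeT n k a) (List.range k)).length = a * k + b := by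
    simp
  rw [this, getD_rows _ _ _ _ ha hb]

theorem mem_x {n k : ℕ} {ad : ℕ → ℕ → Bool} {a b v : ℕ} :
    It.x a b v ∈ (its n k ad).toFinset ↔ a < k ∧ b < k ∧ b ≠ a ∧ v < n := by
  simp [its]
  aesop

theorem mem_y {n k : ℕ} {ad : ℕ → ℕ → Bool} {a v : ℕ} :
    It.y a v ∈ (its n k ad).toFinset ↔ a < k ∧ v < n := by
  simp [its]

theorem mem_z {n k : ℕ} {ad : ℕ → ℕ → Bool} {a b u v : ℕ} :
    It.z a b u v ∈ (its n k ad).toFinset ↔ a < k ∧ b < k ∧ a < b ∧ u < n ∧ v < n ∧
      ad u v = true := by
  simp [its]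
  aesop

theorem dsum (n k : ℕ) (y : It) :
    (dg n k y).getD 0 0 + (dg n k y).getD 1 0 + (dg n k y).getD 2 0 = 1 := by
  cases y <;> rfl

theorem card_eq (n k : ℕ) (A : Finset It) : A.card = ∑ y ∈ A, (dg n k y).getD 0 0 +
    ∑ y ∈ A, (dg n k y).getD 1 0 + ∑ y ∈ A, (dg n k y).getD 2 0 := by
  rw [← Finset.sum_add_distrib, ← Finset.sum_add_distrib, Finset.card_eq_sum_ones]
  exact Finset.sum_congr rfl fun y _ => (dsum n k y).symm

theorem sum_map_range (h : ℕ → ℕ) (n : ℕ) : ((List.range n).map h).sum = ∑ v ∈ range n, h v := by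
  induction n with
  | zero => simp
  | succ n ih => rw [List.range_succ, List.map_append, List.sum_append, ih,
      Finset.sum_range_succ]; simp

theorem eid_inj {k a b a' b' : ℕ} (ha : a < k) (hb : b < k) (ha' : a' < k) (hb' : b' < k)
    (h : eid k a b = eid k a' b') : (a = a' ∧ b = b') ∨ (a = b' ∧ b = a') := by
  unfold eid at h
  have h1 : max a b < k := max_lt ha hb
  have h2 : max a' b' < k := max_lt ha' hb'
  have hk : 0 < k := by omega
  have h3 : min a b = min a' b' := by
    rcases lt_trichotomy (min a b) (min a' b') with h3 | h3 | h3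
    · have : (min a b + 1) * k ≤ min a' b' * k := Nat.mul_le_mul_right _ h3
      rw [Nat.succ_mul] at this
      omega
    · exact h3
    · have : (min a' b' + 1) * k ≤ min a b * k := Nat.mul_le_mul_right _ h3
      rw [Nat.succ_mul] at this
      omega
  rw [h3] at h
  omega

variable {n k : ℕ} {ad : ℕ → ℕ → Bool} {g : It → ℕ}

/-- The items in a bin. -/
abbrev bin (n k : ℕ) (ad : ℕ → ℕ → Bool) (g : It → ℕ) (i : ℕ) : Finset It :=
  (its n k ad).toFinset.filter (fun y => g y = i)

/-- The edge bins. -/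
theorem edge_bin (H : ∀ i < (tgs n k).length, ∀ d < 11,
    ∑ y ∈ bin n k ad g i, (dg n k y).getD d 0 = ((tgs n k).getD i []).getD d 0)
    {a b : ℕ} (hab : a < b) (hb : b < k) :
    ∃ u v, u < n ∧ v < n ∧ ad u v = true ∧ g (.x a b u) = k + (a * k + b) ∧
      g (.x b a v) = k + (a * k + b) := by
  have ha : a < k := by omega
  have hi : k + (a * k + b) < (tgs n k).length := by rw [length_tgs]; nlinarith
  have H' := H _ hi
  rw [tgs_edge ha hb] at H'
  set A := bin n k ad g (k + (a * k + b)) with hA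
  have h0 : ∑ y ∈ A, (dg n k y).getD 0 0 = 2 := by simpa [edgeT, hab] using H' 0 (by norm_num)
  have h1 : ∑ y ∈ A, (dg n k y).getD 1 0 = 0 := by simpa [edgeT, hab] using H' 1 (by norm_num)
  have h2 : ∑ y ∈ A, (dg n k y).getD 2 0 = 1 := by simpa [edgeT, hab] using H' 2 (by norm_num)
  have h3 : ∑ y ∈ A, (dg n k y).getD 3 0 = a + b := by simpa [edgeT, hab] using H' 3 (by norm_num)
  have h5 : ∑ y ∈ A, (dg n k y).getD 5 0 = 3 * eid k a b := by
    simpa [edgeT, hab] using H' 5 (by norm_num)
  have h6 : ∑ y ∈ A, (dg n k y).getD 6 0 = 3 * (eid k a b * eid k a b) := by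
    simpa [edgeT, hab] using H' 6 (by norm_num)
  have h7 : ∑ y ∈ A, (dg n k y).getD 7 0 = n := by simpa [edgeT, hab] using H' 7 (by norm_num)
  have h9 : ∑ y ∈ A, (dg n k y).getD 9 0 = n := by simpa [edgeT, hab] using H' 9 (by norm_num)
  have hcard : A.card = 3 := by rw [card_eq n k A, h0, h1, h2]
  have hid : ∀ y ∈ A, (dg n k y).getD 5 0 = eid k a b := by
    refine conv A _ _ (by rw [h5, hcard]) ?_
    rw [hcard, ← h6]
    refine Finset.sum_congr rfl fun y _ => ?_
    cases y <;> rfl
  have hny : ∀ y ∈ A, (dg n k y).getD 1 0 = 0 := Finset.sum_eq_zero_iff.1 h1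
  -- the z item
  obtain ⟨z0, hz0, hz1⟩ : ∃ y ∈ A, (dg n k y).getD 2 0 ≠ 0 := by
    by_contra hcon
    push Not at hcon
    rw [Finset.sum_eq_zero hcon] at h2
    omega
  have hz0' := Finset.sum_erase_add A (fun y => (dg n k y).getD 2 0) hz0
  have hrest : ∀ y ∈ A.erase z0, (dg n k y).getD 2 0 = 0 := by
    apply Finset.sum_eq_zero_iff.1
    omega
  have hc2 : (A.erase z0).card = 2 := by rw [Finset.card_erase_of_mem hz0, hcard]
  obtain ⟨p, q, hpq, hpq'⟩ := Finset.card_eq_two.1 hc2
  have hp : p ∈ A.erase z0 := by rw [hpq']; simp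
  have hq : q ∈ A.erase z0 := by rw [hpq']; simp
  have hpA := Finset.mem_of_mem_erase hp
  have hqA := Finset.mem_of_mem_erase hq
  have hsum : ∀ f : It → ℕ, ∑ y ∈ A, f y = f p + f q + f z0 := by
    intro f
    rw [← Finset.sum_erase_add A f hz0, hpq', Finset.sum_pair hpq]
  rw [hsum] at h3 h7 h9
  have hp1 := hrest p hp
  have hq1 := hrest q hq
  have hp2 := hny p hpA
  have hq2 := hny q hqA
  have hp3 := hid p hpA
  have hq3 := hid q hqA
  have hz3 := hid z0 hz0
  have hpI := (Finset.mem_filter.1 hpA)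
  have hqI := (Finset.mem_filter.1 hqA)
  have hzI := (Finset.mem_filter.1 hz0)
  clear_value A
  rcases z0 with _ | _ | ⟨a0, b0, u, v⟩
  · simp [dg] at hz1
  · simp [dg] at hz1
  rcases p with ⟨a1, b1, u1⟩ | _ | _
  rotate_left
  · simp [dg] at hp2
  · simp [dg] at hp1
  rcases q with ⟨a2, b2, u2⟩ | _ | _
  rotate_left
  · simp [dg] at hq2
  · simp [dg] at hq1
  rw [mem_x] at hpI hqI
  rw [mem_z] at hzI
  simp only [dg, List.getD_cons_succ, List.getD_cons_zero] at h3 h7 h9 hp3 hq3 hz3
  have e0 := eid_inj (by omega) (by omega) ha hb hz3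
  have e1 := eid_inj (by omega) (by omega) ha hb hp3
  have e2 := eid_inj (by omega) (by omega) ha hb hq3
  obtain ⟨⟨_, _, hab0, hu0, hv0, had⟩, _⟩ := hzI
  refine ⟨u, v, hu0, hv0, had, ?_, ?_⟩
  · rcases e1 with ⟨rfl, rfl⟩ | ⟨rfl, rfl⟩
    · rcases e2 with ⟨rfl, rfl⟩ | ⟨rfl, rfl⟩
      · omega
      · rw [if_pos hab, if_neg (by omega)] at h7
        have : u1 = u := by omega
        rw [← this]
        exact hpI.2
    · rcases e2 with ⟨rfl, rfl⟩ | ⟨rfl, rfl⟩
      · rw [if_pos hab, if_neg (by omega)] at h7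
        have : u2 = u := by omega
        rw [← this]
        exact hqI.2
      · omega
  · rcases e1 with ⟨rfl, rfl⟩ | ⟨rfl, rfl⟩
    · rcases e2 with ⟨rfl, rfl⟩ | ⟨rfl, rfl⟩
      · omega
      · rw [if_pos hab, if_neg (by omega)] at h9
        have : u2 = v := by omega
        rw [← this]
        exact hqI.2
    · rcases e2 with ⟨rfl, rfl⟩ | ⟨rfl, rfl⟩
      · rw [if_pos hab, if_neg (by omega)] at h9
        have : u1 = v := by omega
        rw [← this]
        exact hpI.2
      · omega

/-- The node bins. -/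
theorem node_bin (H : ∀ i < (tgs n k).length, ∀ d < 11,
    ∑ y ∈ bin n k ad g i, (dg n k y).getD d 0 = ((tgs n k).getD i []).getD d 0)
    {a : ℕ} (ha : a < k) :
    ∃ w < n, ∃ D : Finset (ℕ × ℕ), D.card = (k - 1) * (n - 1) ∧
      (∀ p ∈ D, p.1 < k ∧ p.1 ≠ a ∧ p.2 < n ∧ g (.x a p.1 p.2) = a) ∧
      ∀ f : It → ℕ, ∑ y ∈ bin n k ad g a, f y = ∑ p ∈ D, f (.x a p.1 p.2) + f (.y a w) := by
  have hi : a < (tgs n k).length := by rw [length_tgs]; nlinarith
  have H' := H _ hi
  rw [tgs_node ha] at H'
  set A := bin n k ad g a with hA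
  have h0 : ∑ y ∈ A, (dg n k y).getD 0 0 = (k - 1) * (n - 1) := by
    simpa [nodeT] using H' 0 (by norm_num)
  have h1 : ∑ y ∈ A, (dg n k y).getD 1 0 = 1 := by simpa [nodeT] using H' 1 (by norm_num)
  have h2 : ∑ y ∈ A, (dg n k y).getD 2 0 = 0 := by simpa [nodeT] using H' 2 (by norm_num)
  have h3 : ∑ y ∈ A, (dg n k y).getD 3 0 = ((k - 1) * (n - 1) + 1) * a := by
    simpa [nodeT] using H' 3 (by norm_num)
  have h4 : ∑ y ∈ A, (dg n k y).getD 4 0 = ((k - 1) * (n - 1) + 1) * (a * a) := by
    simpa [nodeT] using H' 4 (by norm_num)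
  have hcard : A.card = (k - 1) * (n - 1) + 1 := by rw [card_eq n k A, h0, h1, h2]
  have hid : ∀ y ∈ A, (dg n k y).getD 3 0 = a := by
    refine conv A _ _ (by rw [h3, hcard]) ?_
    rw [hcard, ← h4]
    refine Finset.sum_congr rfl fun y _ => ?_
    cases y <;> rfl
  have hnz : ∀ y ∈ A, (dg n k y).getD 2 0 = 0 := Finset.sum_eq_zero_iff.1 h2
  obtain ⟨y0, hy0, hy1⟩ : ∃ y ∈ A, (dg n k y).getD 1 0 ≠ 0 := by
    by_contra hcon
    push Not at hcon
    rw [Finset.sum_eq_zero hcon] at h1
    omega
  have hy0' := Finset.sum_erase_add A (fun y => (dg n k y).getD 1 0) hy0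
  have hrest : ∀ y ∈ A.erase y0, (dg n k y).getD 1 0 = 0 := by
    apply Finset.sum_eq_zero_iff.1
    omega
  have hyI := (Finset.mem_filter.1 hy0)
  have hy3 := hid y0 hy0
  rcases y0 with _ | ⟨a0, w⟩ | _
  · simp [dg] at hy1
  rotate_left
  · simp [dg] at hy1
  rw [mem_y] at hyI
  have hy4 : a0 = a := by simpa [dg] using hy3
  subst hy4
  refine ⟨w, hyI.1.2, (range k ×ˢ range n).filter (fun p => It.x a0 p.1 p.2 ∈ A), ?_, ?_, ?_⟩
  rotate_left
  · intro p hp
    rw [Finset.mem_filter, hA, Finset.mem_filter, mem_x] at hp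
    exact ⟨hp.2.1.2.1, hp.2.1.2.2.1, hp.2.1.2.2.2, hp.2.2⟩
  · intro f
    rw [← Finset.sum_erase_add A f hy0]
    congr 1
    symm
    refine Finset.sum_bij (fun p _ => It.x a0 p.1 p.2) ?_ ?_ ?_ ?_
    · intro p hp
      rw [Finset.mem_filter] at hp
      exact Finset.mem_erase.2 ⟨by simp, hp.2⟩
    · intro p _ q _ h
      simp only [It.x.injEq] at h
      exact Prod.ext h.2.1 h.2.2
    · intro y hy
      have hyA := Finset.mem_of_mem_erase hy
      have e1 := hrest y hy
      have e2 := hnz y hyA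
      have e3 := hid y hyA
      have e4 := (Finset.mem_filter.1 hyA).1
      rcases y with ⟨a1, b1, v1⟩ | _ | _
      · have : a1 = a0 := by simpa [dg] using e3
        subst this
        rw [mem_x] at e4
        exact ⟨(b1, v1), by simpa [e4.2.1, e4.2.2.2] using hyA, rfl⟩
      · simp [dg] at e1
      · simp [dg] at e2
    · intro p _
      rfl
  · have hc : (A.erase (It.y a0 w)).card = (k - 1) * (n - 1) := by
      rw [Finset.card_erase_of_mem hy0, hcard]; simp
    rw [← hc]
    refine Finset.card_bij (fun p _ => It.x a0 p.1 p.2) ?_ ?_ ?_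
    · intro p hp
      rw [Finset.mem_filter] at hp
      exact Finset.mem_erase.2 ⟨by simp, hp.2⟩
    · intro p _ q _ h
      simp only [It.x.injEq] at h
      exact Prod.ext h.2.1 h.2.2
    · intro y hy
      have hyA := Finset.mem_of_mem_erase hy
      have e1 := hrest y hy
      have e2 := hnz y hyA
      have e3 := hid y hyA
      have e4 := (Finset.mem_filter.1 hyA).1
      rcases y with ⟨a1, b1, v1⟩ | _ | _
      · have : a1 = a0 := by simpa [dg] using e3
        subst this
        rw [mem_x] at e4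
        exact ⟨(b1, v1), by simpa [e4.2.1, e4.2.2.2] using hyA, rfl⟩
      · simp [dg] at e1
      · simp [dg] at e2

theorem inner (n : ℕ) (h : ℕ → ℕ) {s : ℕ} (hs : s < n) :
    ∑ v ∈ range n, (if v ≠ s then h v else 0) + h s = ∑ v ∈ range n, h v := by
  rw [← Finset.sum_erase_add (range n) h (mem_range.2 hs), ← Finset.sum_filter]
  congr 1
  refine Finset.sum_congr ?_ fun _ _ => rfl
  ext v
  simp [and_comm]

/-- The sum over a node bin. -/
theorem node_sum {a : ℕ} (T : Finset ℕ) (s : ℕ → ℕ) (hs : ∀ b ∈ T, s b < n) (h : ℕ → ℕ) {w : ℕ}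
    (hT : ∀ b ∈ T, b < k ∧ b ≠ a)
    (he : ∑ p ∈ ((range k).erase a ×ˢ range n).filter (fun p => p.2 ≠ s p.1),
      (if p.1 ∈ T then h p.2 else 0) + T.card * h w = T.card * ∑ v ∈ range n, h v) :
    ∑ b ∈ T, h (s b) = T.card * h w := by
  have h1 : ∑ p ∈ ((range k).erase a ×ˢ range n).filter (fun p => p.2 ≠ s p.1),
      (if p.1 ∈ T then h p.2 else 0) = ∑ b ∈ T, ∑ v ∈ range n, (if v ≠ s b then h v else 0) := by
    rw [Finset.sum_filter, Finset.sum_product]
    have : T = ((range k).erase a).filter (fun b => b ∈ T) := by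
      ext b
      simp only [Finset.mem_filter, Finset.mem_erase, Finset.mem_range]
      exact ⟨fun hb => ⟨⟨(hT b hb).2, (hT b hb).1⟩, hb⟩, fun hb => hb.2⟩
    conv_rhs => rw [this, Finset.sum_filter]
    refine Finset.sum_congr rfl fun b _ => ?_
    by_cases hb : b ∈ T
    · simp [hb]
    · simp [hb]
  rw [h1] at he
  have h2 : ∑ b ∈ T, ∑ v ∈ range n, (if v ≠ s b then h v else 0) + ∑ b ∈ T, h (s b)
      = T.card * ∑ v ∈ range n, h v := by
    rw [← Finset.sum_add_distrib, Finset.sum_congr rfl (fun b hb => inner n h (hs b hb)),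
      Finset.sum_const, smul_eq_mul]
  omega

end T12

open T12 in
/-- T12 -/
theorem clq_of_packD {n k : ℕ} {ad : ℕ → ℕ → Bool} (hk : 1 ≤ k) (h : PackD n k ad) :
    Clq n k ad := by
  obtain ⟨g, H⟩ := h
  have hedge : ∀ a b, a < b → b < k → ∃ u v, u < n ∧ v < n ∧ ad u v = true ∧
      g (.x a b u) = k + (a * k + b) ∧ g (.x b a v) = k + (a * k + b) :=
    fun a b hab hb => edge_bin H hab hb
  choose! U V hU using hedge
  set s : ℕ → ℕ → ℕ := fun a b => if a < b then U a b else V b a with hs
  have hs1 : ∀ a b, a < k → b < k → a ≠ b → s a b < n ∧ g (.x a b (s a b)) ≠ a := by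
    intro a b ha hb hab
    rcases lt_or_gt_of_ne hab with h | h
    · have := hU a b h hb
      simp only [hs, if_pos h]
      refine ⟨this.1, ?_⟩
      rw [this.2.2.2.1]
      omega
    · have := hU b a h ha
      simp only [hs, if_neg (not_lt.2 h.le)]
      refine ⟨this.2.1, ?_⟩
      rw [this.2.2.2.2]
      omega
  have hnode : ∀ a, a < k → ∃ w < n, (∀ b, a < b → b < k → s a b = w) ∧ ∀ b < a, s a b = w := by
    intro a ha
    obtain ⟨w, hw, D, hD1, hD2, hD3⟩ := node_bin H ha
    have hi : a < (tgs n k).length := by rw [length_tgs]; nlinarith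
    have H' := H _ hi
    rw [tgs_node ha] at H'
    -- the set of x items
    have hDE : D = ((range k).erase a ×ˢ range n).filter (fun p => p.2 ≠ s a p.1) := by
      apply Finset.eq_of_subset_of_card_le
      · intro p hp
        have hp' := hD2 p hp
        rw [Finset.mem_filter, Finset.mem_product, Finset.mem_erase, Finset.mem_range,
          Finset.mem_range]
        refine ⟨⟨⟨hp'.2.1, hp'.1⟩, hp'.2.2.1⟩, fun hcon => ?_⟩
        apply (hs1 a p.1 ha hp'.1 (Ne.symm hp'.2.1)).2
        rw [← hcon]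
        exact hp'.2.2.2
      · rw [hD1, Finset.card_eq_sum_ones, Finset.sum_filter, Finset.sum_product]
        have : ∀ b ∈ (range k).erase a, ∑ v ∈ range n, (if v ≠ s a b then 1 else 0) = n - 1 := by
          intro b hb
          rw [Finset.mem_erase, Finset.mem_range] at hb
          have := inner n (fun _ => 1) (hs1 a b ha hb.2 hb.1.symm).1
          simp only [Finset.sum_const, Finset.card_range, smul_eq_mul, mul_one] at this
          omega
        rw [Finset.sum_congr rfl this, Finset.sum_const, smul_eq_mul,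
          Finset.card_erase_of_mem (mem_range.2 ha), Finset.card_range]
    refine ⟨w, hw, ?_, ?_⟩
    · -- columns to the right
      have hT : ∀ b ∈ Ioo a k, b < k ∧ b ≠ a := by
        intro b hb
        rw [Finset.mem_Ioo] at hb
        omega
      have hsT : ∀ b ∈ Ioo a k, s a b < n := fun b hb =>
        (hs1 a b ha (hT b hb).1 (hT b hb).2.symm).1
      have hcard : (Ioo a k).card = k - 1 - a := by rw [Nat.card_Ioo]; omega
      have main : ∀ h : ℕ → ℕ, ∑ p ∈ D, (if a < p.1 then h p.2 else 0) + (k - 1 - a) * h w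
          = (k - 1 - a) * ∑ v ∈ range n, h v →
          ∑ b ∈ Ioo a k, h (s a b) = (Ioo a k).card * h w := by
        intro h hh
        apply node_sum (n := n) (k := k) (a := a) (Ioo a k) (s a) hsT h hT
        rw [hcard, ← hh, hDE]
        congr 1
        refine Finset.sum_congr rfl fun p hp => ?_
        rw [Finset.mem_filter, Finset.mem_product, Finset.mem_erase, Finset.mem_range] at hp
        by_cases hap : a < p.1
        · rw [if_pos (Finset.mem_Ioo.2 ⟨hap, hp.1.1.2⟩), if_pos hap]
        · rw [if_neg (fun hc => hap (Finset.mem_Ioo.1 hc).1), if_neg hap]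
      have h7 := H' 7 (by norm_num)
      have h8 := H' 8 (by norm_num)
      rw [hD3] at h7 h8
      simp only [dg, nodeT, List.getD_cons_succ, List.getD_cons_zero] at h7 h8
      rw [sum_map_range] at h8
      have h7' : (List.range n).sum = ∑ v ∈ range n, v := by
        rw [← sum_map_range (fun v => v) n]; simp
      rw [h7'] at h7
      have m7 := main (fun v => v) h7
      have m8 := main (fun v => v * v) h8
      intro b hab hb
      exact conv (Ioo a k) (fun b => s a b) w m7 m8 b (Finset.mem_Ioo.2 ⟨hab, hb⟩)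
    · have hT : ∀ b ∈ range a, b < k ∧ b ≠ a := by
        intro b hb
        rw [Finset.mem_range] at hb
        omega
      have hsT : ∀ b ∈ range a, s a b < n := fun b hb =>
        (hs1 a b ha (hT b hb).1 (hT b hb).2.symm).1
      have hcard : (range a).card = a := Finset.card_range a
      have main : ∀ h : ℕ → ℕ, ∑ p ∈ D, (if a < p.1 then 0 else h p.2) + a * h w
          = a * ∑ v ∈ range n, h v →
          ∑ b ∈ range a, h (s a b) = (range a).card * h w := by
        intro h hh
        apply node_sum (n := n) (k := k) (a := a) (range a) (s a) hsT h hT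
        rw [hcard, ← hh, hDE]
        congr 1
        refine Finset.sum_congr rfl fun p hp => ?_
        rw [Finset.mem_filter, Finset.mem_product, Finset.mem_erase, Finset.mem_range] at hp
        by_cases hap : a < p.1
        · rw [if_neg (fun hc => by rw [Finset.mem_range] at hc; omega), if_pos hap]
        · rw [if_pos (Finset.mem_range.2 (by have := hp.1.1.1; omega)), if_neg hap]
      have h7 := H' 9 (by norm_num)
      have h8 := H' 10 (by norm_num)
      rw [hD3] at h7 h8
      simp only [dg, nodeT, List.getD_cons_succ, List.getD_cons_zero] at h7 h8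
      rw [sum_map_range] at h8
      have h7' : (List.range n).sum = ∑ v ∈ range n, v := by
        rw [← sum_map_range (fun v => v) n]; simp
      rw [h7'] at h7
      have m7 := main (fun v => v) h7
      have m8 := main (fun v => v * v) h8
      intro b hb
      exact conv (range a) (fun b => s a b) w m7 m8 b (Finset.mem_range.2 hb)
  choose! w hw using hnode
  refine ⟨w, fun a ha => (hw a ha).1, ?_⟩
  intro a b hab hb
  have e1 := (hw a (by omega)).2.1 b hab hb
  have e2 := (hw b hb).2.2 a hab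
  rw [← e1, ← e2]
  have := (hU a b hab hb).2.2.1
  simpa [hs, hab, not_lt.2 hab.le] using this

end Pool.Agent.H820R2.SC
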