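import Pool.Agent.H820R2.SC.Core

/-!
# T13a: the matrix of the gadget is the adjacency matrix of a model
-/

namespace Pool.Agent.H820R2.SC

open Finset Pool.Agent.NPC Pool.Agent.H557R2.Fpt

section
variable {s tg : List ℕ} (h : Adm s tg)

theorem t13_R : (parOf s tg h).R = 2 * tg.length := rfl

theorem t13_m : (parOf s tg h).m = s.length := rfl

theorem t13_S : (parOf s tg h).S = s.sum := by
  have h1 := sum_getD (0 :: s)
  rw [List.length_cons] at h1
  unfold Par.S parOf
  simp only
  rw [h1]
  simp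

theorem t13_Lam : (parOf s tg h).Lam = LamL s := by
  unfold Par.Lam LamL
  rw [t13_S]

theorem t13_DM : (parOf s tg h).DM = DML s tg := by
  unfold Par.DM DML
  rw [t13_Lam]
  rfl

theorem t13_base : (parOf s tg h).base = baseL s := by
  unfold Par.base baseL
  rw [t13_Lam]
  rfl

theorem t13_D (j : ℕ) : (parOf s tg h).D j = DL s tg j := by
  unfold Par.D DL
  rw [t13_base, t13_S]
  rfl

theorem t13_Q (j c : ℕ) : (parOf s tg h).Q j c = QL tg j c := rfl

theorem t13_sz (c : ℕ) : (parOf s tg h).sz c = (0 :: s).getD c 0 := rfl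

theorem t13_mem_xlist (x : GX) : x ∈ xlist s tg ↔ (parOf s tg h).XV x := by
  unfold xlist
  cases x with
  | q j c =>
    simp only [List.mem_append, List.mem_flatMap, List.mem_range, List.mem_filter, List.mem_map,
      decide_eq_true_eq, List.mem_cons, List.not_mem_nil, Par.XV, t13_R, t13_m, reduceCtorEq,
      and_false, exists_false, or_false, GX.q.injEq]
    constructor
    · rintro ⟨j, h1, c, ⟨h2, h3⟩, rfl, rfl⟩
      refine ⟨by omega, by omega, fun h4 => ?_⟩
      rcases h3 with h3 | h3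
      · exact absurd h4 h3
      · exact h3
    · rintro ⟨h1, h2, h3⟩
      refine ⟨j, by omega, c, ⟨by omega, ?_⟩, rfl, rfl⟩
      by_cases h4 : j = 0 ∨ j = 2 * tg.length
      · exact Or.inr (h3 h4)
      · exact Or.inl h4
  | _ =>
    simp only [List.mem_append, List.mem_flatMap, List.mem_range, List.mem_filter, List.mem_map,
      decide_eq_true_eq, List.mem_cons, List.not_mem_nil, Par.XV, t13_R, t13_m, reduceCtorEq,
      and_false, exists_false, or_false, false_or, GX.u.injEq, GX.z.injEq,
      GX.l.injEq, GX.zr.injEq, GX.o.injEq]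
    first
    | (constructor
       · rintro ⟨i, h1, c, h2, rfl, rfl⟩
         omega
       · rintro ⟨h1, h2⟩
         exact ⟨_, h1, _, by omega, rfl, rfl⟩)
    | (constructor
       · rintro ⟨i, h1, rfl⟩
         omega
       · intro h1
         exact ⟨_, by omega, rfl⟩)

theorem t13_disj {α : Type} {l₁ l₂ : List α} (hd : ∀ a, a ∈ l₁ → a ∈ l₂ → False) :
    List.Disjoint l₁ l₂ := fun a h1 h2 => hd a h1 h2

theorem t13_pw {α β : Type} {l : List α} (hl : l.Nodup) (f : α → List β)
    (hd : ∀ a b, a ≠ b → ∀ x, x ∈ f a → x ∈ f b → False) :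
    l.Pairwise (fun a b => List.Disjoint (f a) (f b)) :=
  hl.imp (fun hab => t13_disj (hd _ _ hab))

theorem t13_nodup_xlist : (xlist s tg).Nodup := by
  unfold xlist
  rw [List.nodup_append', List.nodup_append', List.nodup_append']
  refine ⟨?_, ⟨?_, ⟨?_, ?_, ?_⟩, ?_⟩, ?_⟩
  · rw [List.nodup_flatMap]
    refine ⟨fun j _ => ?_, ?_⟩
    · exact ((List.nodup_range).filter _).map (fun a b hab => by simpa using hab)
    · refine t13_pw List.nodup_range _ ?_
      intro a b hab x h1 h2
      simp only [List.mem_map] at h1 h2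
      obtain ⟨c, -, rfl⟩ := h1
      obtain ⟨d, -, h3⟩ := h2
      simp only [GX.q.injEq] at h3
      exact hab h3.1.symm
  · rw [List.nodup_flatMap]
    refine ⟨fun i _ => ?_, ?_⟩
    · rw [List.nodup_flatMap]
      refine ⟨fun c _ => by simp, ?_⟩
      refine t13_pw List.nodup_range _ ?_
      intro a b hab x h1 h2
      simp only [List.mem_cons, List.not_mem_nil, or_false] at h1 h2
      rcases h1 with rfl | rfl | rfl <;> simp at h2 <;> exact hab h2
    · refine t13_pw List.nodup_range _ ?_
      intro a b hab x h1 h2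
      simp only [List.mem_flatMap, List.mem_cons, List.not_mem_nil, or_false] at h1 h2
      obtain ⟨c, -, h1⟩ := h1
      obtain ⟨d, -, h2⟩ := h2
      rcases h1 with rfl | rfl | rfl <;> simp at h2 <;> exact hab h2.1
  · exact List.nodup_range.map (fun a b hab => by simpa using hab)
  · exact List.nodup_range.map (fun a b hab => by simpa using hab)
  · refine t13_disj fun a h1 h2 => ?_
    simp only [List.mem_map] at h1 h2
    obtain ⟨c, -, rfl⟩ := h1
    obtain ⟨d, -, h3⟩ := h2
    simp at h3
  · refine t13_disj fun a h1 h2 => ?_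
    simp only [List.mem_flatMap, List.mem_cons, List.not_mem_nil, or_false, List.mem_append,
      List.mem_map] at h1 h2
    obtain ⟨i, -, c, -, h1⟩ := h1
    rcases h1 with rfl | rfl | rfl <;> simp at h2
  · refine t13_disj fun a h1 h2 => ?_
    simp only [List.mem_flatMap, List.mem_cons, List.not_mem_nil, or_false, List.mem_append,
      List.mem_map] at h1 h2
    obtain ⟨i, -, c, -, rfl⟩ := h1
    simp at h2

theorem t13_mem_blist (e : GB × GX × GX × ℕ) : e ∈ blist s tg ↔ (parOf s tg h).BV e.1 ∧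
    e.2 = ((parOf s tg h).bp e.1, (parOf s tg h).bq e.1, (parOf s tg h).bμ e.1) := by
  obtain ⟨b, e⟩ := e
  unfold blist
  cases b <;>
    simp only [List.mem_append, List.mem_flatMap, List.mem_range, List.mem_map,
      List.mem_cons, List.not_mem_nil, Prod.mk.injEq, reduceCtorEq, false_and, and_false,
      exists_false, or_false, false_or, Par.BV, Par.bp, Par.bq, Par.bμ, t13_R, t13_m, t13_Lam,
      t13_S, t13_D, t13_DM, t13_sz, t13_Q, t_parOf, GB.uR.injEq, GB.uL.injEq, GB.lR.injEq,
      GB.lL.injEq, GB.uz.injEq, GB.zl.injEq, GB.qz.injEq, GB.zo.injEq, GB.ch.injEq]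
  all_goals first
    | (constructor
       · rintro ⟨i, h1, c, h2, ⟨rfl, rfl⟩, rfl⟩
         exact ⟨⟨h1, by omega⟩, rfl⟩
       · rintro ⟨⟨h1, h2⟩, rfl⟩
         exact ⟨_, h1, _, by omega, ⟨rfl, rfl⟩, rfl⟩)
    | (constructor
       · rintro ⟨i, h1, rfl, rfl⟩
         exact ⟨by omega, rfl⟩
       · rintro ⟨h1, rfl⟩
         exact ⟨_, by omega, rfl, rfl⟩)

theorem t13_nodup_blist : ((blist s tg).map Prod.fst).Nodup := by
  unfold blist
  rw [List.map_append, List.map_append, List.map_flatMap, List.map_flatMap, List.map_map]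
  rw [List.nodup_append', List.nodup_append']
  refine ⟨?_, ⟨?_, ?_, ?_⟩, ?_⟩
  · rw [List.nodup_flatMap]
    refine ⟨fun i _ => ?_, ?_⟩
    · rw [List.map_flatMap, List.nodup_flatMap]
      refine ⟨fun c _ => by simp, ?_⟩
      refine t13_pw List.nodup_range _ ?_
      intro a b hab x h1 h2
      simp only [List.map_cons, List.map_nil, List.mem_cons, List.not_mem_nil, or_false] at h1 h2
      rcases h1 with rfl | rfl | rfl | rfl | rfl | rfl <;> simp at h2 <;> exact hab h2
    · refine t13_pw List.nodup_range _ ?_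
      intro a b hab x h1 h2
      simp only [List.map_flatMap, List.mem_flatMap, List.map_cons, List.map_nil, List.mem_cons,
        List.not_mem_nil, or_false] at h1 h2
      obtain ⟨c, -, h1⟩ := h1
      obtain ⟨d, -, h2⟩ := h2
      rcases h1 with rfl | rfl | rfl | rfl | rfl | rfl <;> simp at h2 <;> exact hab h2.1
  · rw [List.nodup_flatMap]
    refine ⟨fun c _ => by simp, ?_⟩
    refine t13_pw List.nodup_range _ ?_
    intro a b hab x h1 h2
    simp only [List.map_cons, List.map_nil, List.mem_cons, List.not_mem_nil, or_false] at h1 h2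
    rcases h1 with rfl | rfl <;> simp at h2 <;> exact hab h2
  · exact List.nodup_range.map (fun a b hab => by simpa using hab)
  · refine t13_disj fun a h1 h2 => ?_
    simp only [List.mem_flatMap, List.map_cons, List.map_nil, List.mem_cons, List.not_mem_nil,
      or_false, List.mem_map, Function.comp] at h1 h2
    obtain ⟨i, -, h1⟩ := h1
    rcases h1 with rfl | rfl <;> simp at h2
  · refine t13_disj fun a h1 h2 => ?_
    simp only [List.mem_flatMap, List.map_cons, List.map_nil, List.map_flatMap, List.mem_cons,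
      List.not_mem_nil, or_false, List.mem_append, List.mem_map, Function.comp] at h1 h2
    obtain ⟨i, -, c, -, h1⟩ := h1
    rcases h1 with rfl | rfl | rfl | rfl | rfl | rfl <;> simp at h2

theorem t13_bμ_le (b : GB) (hb : (parOf s tg h).BV b) :
    (parOf s tg h).bμ b ≤ (parOf s tg h).t := by
  set P := parOf s tg h
  have h1 := P.cell_le
  have h2 : P.t = 2 * P.DM + 1 := rfl
  have h3 : ∀ c, c ≤ P.m → P.sz c ≤ P.S := by
    intro c hc
    unfold Par.S
    exact single_le_sum (f := P.sz) (fun _ _ => Nat.zero_le _) (mem_range.2 (by omega))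
  cases b with
  | uL i c =>
    have h4 := h3 c hb.2
    simp only [Par.bμ]
    split_ifs <;> omega
  | lL i c =>
    have h4 := h3 c hb.2
    simp only [Par.bμ]
    split_ifs <;> omega
  | _ => simp only [Par.bμ]; omega

variable {N : ℕ} (hN : tOf s tg ≤ N)

include hN in
theorem t13_mem_vlist (x : GX ⊕ (GB × ℕ)) : x ∈ vlist N s tg ↔ (parOf s tg h).sys.Valid x := by
  unfold vlist
  rcases x with x | ⟨b, l⟩
  · simp only [List.mem_append, List.mem_map, List.mem_flatMap, reduceCtorEq, and_false,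
      exists_false, or_false, Sum.inl.injEq, exists_eq_right, Sys.Valid]
    exact t13_mem_xlist h x
  · simp only [List.mem_append, List.mem_map, List.mem_flatMap, reduceCtorEq, and_false,
      exists_false, false_or, Sum.inr.injEq, Prod.mk.injEq, Sys.Valid, rg, List.mem_filter,
      List.mem_range, decide_eq_true_eq]
    constructor
    · rintro ⟨e, h1, l', ⟨h2, h3⟩, rfl, rfl⟩
      rw [t13_mem_blist h] at h1
      refine ⟨(parOf s tg h).mem_bundF.2 h1.1, ?_⟩
      rw [h1.2] at h3
      exact h3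
    · rintro ⟨h1, h2⟩
      have h3 := (parOf s tg h).mem_bundF.1 h1
      have h4 := t13_bμ_le h b h3
      rw [t_parOf] at h4
      refine ⟨(b, (parOf s tg h).bp b, (parOf s tg h).bq b, (parOf s tg h).bμ b),
        (t13_mem_blist h _).2 ⟨h3, rfl⟩, l, ⟨?_, h2⟩, rfl, rfl⟩
      have h5 : l < (parOf s tg h).bμ b := h2
      omega

theorem t13_nodup_vlist : (vlist N s tg).Nodup := by
  unfold vlist
  rw [List.nodup_append']
  refine ⟨?_, ?_, ?_⟩
  · exact t13_nodup_xlist.map Sum.inl_injective
  · rw [List.nodup_flatMap]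
    refine ⟨fun b _ => ?_, ?_⟩
    · unfold rg
      exact ((List.nodup_range).filter _).map (fun a b hab => by simpa using hab)
    · have h1 := (t13_nodup_blist (s := s) (tg := tg))
      unfold List.Nodup at h1
      rw [List.pairwise_map] at h1
      refine h1.imp ?_
      intro a b hab
      refine t13_disj fun x h1 h2 => ?_
      simp only [List.mem_map] at h1 h2
      obtain ⟨l, -, rfl⟩ := h1
      obtain ⟨l', -, h3⟩ := h2
      simp only [Sum.inr.injEq, Prod.mk.injEq] at h3
      exact hab h3.1.symm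
  · refine t13_disj fun a h1 h2 => ?_
    simp only [List.mem_map, List.mem_flatMap] at h1 h2
    obtain ⟨c, -, rfl⟩ := h1
    obtain ⟨b, -, l, -, h3⟩ := h2
    exact absurd h3 (by simp)

include hN in
theorem t13_adj (x y : GX ⊕ (GB × ℕ)) (hx : (parOf s tg h).sys.Valid x)
    (hy : (parOf s tg h).sys.Valid y) : (parOf s tg h).sys.adj x y ↔
    ∃ e ∈ elist N s tg, (e.1 = x ∧ e.2 = y) ∨ (e.1 = y ∧ e.2 = x) := by
  have key : ∀ (a : GX) (b : GB) (l : ℕ), (parOf s tg h).sys.Valid (Sum.inr (b, l)) →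
      ((a = (parOf s tg h).bp b ∨ a = (parOf s tg h).bq b) ↔
        ((Sum.inl a, Sum.inr (b, l)) : (GX ⊕ (GB × ℕ)) × (GX ⊕ (GB × ℕ))) ∈ elist N s tg) := by
    intro a b l hv
    unfold elist
    simp only [List.mem_flatMap, List.mem_cons, List.not_mem_nil, or_false, Prod.mk.injEq,
      Sum.inl.injEq, Sum.inr.injEq]
    have hv1 := (parOf s tg h).mem_bundF.1 hv.1
    have hv2 : l < (parOf s tg h).bμ b := hv.2
    have h4 := t13_bμ_le h b hv1
    rw [t_parOf] at h4
    constructor
    · intro h1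
      refine ⟨(b, (parOf s tg h).bp b, (parOf s tg h).bq b, (parOf s tg h).bμ b),
        (t13_mem_blist h _).2 ⟨hv1, rfl⟩, l, ?_, ?_⟩
      · simp only [rg, List.mem_filter, List.mem_range, decide_eq_true_eq]
        omega
      · rcases h1 with h1 | h1
        · exact Or.inl ⟨h1, rfl, rfl⟩
        · exact Or.inr ⟨h1, rfl, rfl⟩
    · rintro ⟨e, h1, l', h2, h3⟩
      rw [t13_mem_blist h] at h1
      rcases h3 with ⟨h3, h5, h6⟩ | ⟨h3, h5, h6⟩
      · left
        rw [h3, h1.2, h5]
      · right
        rw [h3, h1.2, h5]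
  have hel : ∀ e ∈ elist N s tg, ∃ a b l, e = (Sum.inl a, Sum.inr (b, l)) := by
    intro e he
    unfold elist at he
    simp only [List.mem_flatMap, List.mem_cons, List.not_mem_nil, or_false] at he
    obtain ⟨e', -, l, -, rfl | rfl⟩ := he
    · exact ⟨_, _, _, rfl⟩
    · exact ⟨_, _, _, rfl⟩
  rcases x with a | ⟨b, l⟩ <;> rcases y with a' | ⟨b', l'⟩
  · simp only [Sys.adj, false_iff]
    rintro ⟨e, he, h1⟩
    obtain ⟨a1, b1, l1, rfl⟩ := hel e he
    rcases h1 with ⟨h1, h2⟩ | ⟨h1, h2⟩ <;> simp at h2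
  · refine (key a b' l' hy).trans ⟨fun h1 => ⟨_, h1, Or.inl ⟨rfl, rfl⟩⟩, ?_⟩
    rintro ⟨⟨e1, e2⟩, he, h1⟩
    rcases h1 with ⟨h1, h2⟩ | ⟨h1, h2⟩
    · simp only at h1 h2
      rw [h1, h2] at he
      exact he
    · obtain ⟨a1, b1, l1, h3⟩ := hel _ he
      simp only [Prod.mk.injEq] at h3
      rw [h3.1] at h1
      simp at h1
  · refine (key a' b l hx).trans ⟨fun h1 => ⟨_, h1, Or.inr ⟨rfl, rfl⟩⟩, ?_⟩
    rintro ⟨⟨e1, e2⟩, he, h1⟩
    rcases h1 with ⟨h1, h2⟩ | ⟨h1, h2⟩
    · obtain ⟨a1, b1, l1, h3⟩ := hel _ he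
      simp only [Prod.mk.injEq] at h3
      rw [h3.1] at h1
      simp at h1
    · simp only at h1 h2
      rw [h1, h2] at he
      exact he
  · simp only [Sys.adj, false_iff]
    rintro ⟨e, he, h1⟩
    obtain ⟨a1, b1, l1, rfl⟩ := hel e he
    rcases h1 with ⟨h1, h2⟩ | ⟨h1, h2⟩ <;> simp at h1

theorem t13_map_eq_ofFn {α β : Type} (l : List α) (f : α → β) :
    l.map f = List.ofFn (fun i => f (l.get i)) := by
  conv_lhs => rw [← List.ofFn_get l]
  rw [List.map_ofFn]
  rfl

end

/-- T13a -/
theorem model_mtx {s tg : List ℕ} (h : Adm s tg) {N : ℕ} (hN : tOf s tg ≤ N) :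
    ∃ G : SimpleGraph (Fin (vlist N s tg).length), matOf G = mtx N s tg ∧
      (parOf s tg h).sys.IsModel G (fun i => (vlist N s tg).get i) := by
  classical
  have hval : ∀ i, (parOf s tg h).sys.Valid ((vlist N s tg).get i) := fun i =>
    (t13_mem_vlist h hN _).1 (List.get_mem _ _)
  have hsymm : ∀ x y, (parOf s tg h).sys.adj x y → (parOf s tg h).sys.adj y x := by
    intro x y hxy
    rcases x with a | ⟨b, l⟩ <;> rcases y with a' | ⟨b', l'⟩ <;> exact hxy
  refine ⟨{ Adj := fun i j => (parOf s tg h).sys.adj ((vlist N s tg).get i) ((vlist N s tg).get j)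
            symm := ⟨fun i j hij => hsymm _ _ hij⟩
            loopless := ⟨?_⟩ }, ?_, ?_⟩
  · intro i hi
    rcases hg : (vlist N s tg).get i with a | ⟨b, l⟩
    · rw [hg] at hi
      exact hi
    · rw [hg] at hi
      exact hi
  · unfold matOf mtx
    rw [t13_map_eq_ofFn]
    congr 1
    funext i
    rw [t13_map_eq_ofFn]
    congr 1
    funext j
    rw [Bool.eq_iff_iff]
    rw [List.any_eq_true]
    simp only [decide_eq_true_eq, Bool.or_eq_true, Bool.and_eq_true]
    exact t13_adj h hN _ _ (hval i) (hval j)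
  · refine ⟨?_, hval, ?_, fun _ _ => Iff.rfl⟩
    · intro i j hij
      exact (List.nodup_iff_injective_get.1 t13_nodup_vlist) hij
    · intro x hx
      have := (t13_mem_vlist h hN x).2 hx
      obtain ⟨i, hi⟩ := List.mem_iff_get.1 this
      exact ⟨i, hi⟩

end Pool.Agent.H820R2.SC
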