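import Pool.Agent.H820R2.SC.Core
import Pool.Agent.H671R2.PolyAuto

/-!
# The adjacency matrix of the gadget is computed in polynomial time (task T13b, helper455)
-/

namespace Pool.Agent.H820R2.SC

open Finset Pool.Agent.NPC Pool.Agent.H557R2.Fpt

namespace T13b

variable {α : Type} [TEnc α]

theorem pq {f g : α → ℕ} (hf : Poly f) (hg : Poly g) : Poly (fun a => GX.q (f a) (g a)) :=
  Poly.of_toT ((Poly.pair (NPC.Poly.const 0) (Poly.pair hf hg)).toT')
theorem pu {f g : α → ℕ} (hf : Poly f) (hg : Poly g) : Poly (fun a => GX.u (f a) (g a)) :=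
  Poly.of_toT ((Poly.pair (NPC.Poly.const 1) (Poly.pair hf hg)).toT')
theorem pz {f g : α → ℕ} (hf : Poly f) (hg : Poly g) : Poly (fun a => GX.z (f a) (g a)) :=
  Poly.of_toT ((Poly.pair (NPC.Poly.const 2) (Poly.pair hf hg)).toT')
theorem pl {f g : α → ℕ} (hf : Poly f) (hg : Poly g) : Poly (fun a => GX.l (f a) (g a)) :=
  Poly.of_toT ((Poly.pair (NPC.Poly.const 3) (Poly.pair hf hg)).toT')
theorem pzr {f : α → ℕ} (hf : Poly f) : Poly (fun a => GX.zr (f a)) :=
  Poly.of_toT ((Poly.pair (NPC.Poly.const 4) (Poly.pair hf (NPC.Poly.const 0))).toT')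
theorem po {f : α → ℕ} (hf : Poly f) : Poly (fun a => GX.o (f a)) :=
  Poly.of_toT ((Poly.pair (NPC.Poly.const 5) (Poly.pair hf (NPC.Poly.const 0))).toT')

theorem buR {f g : α → ℕ} (hf : Poly f) (hg : Poly g) : Poly (fun a => GB.uR (f a) (g a)) :=
  Poly.of_toT ((Poly.pair (NPC.Poly.const 0) (Poly.pair hf hg)).toT')
theorem buL {f g : α → ℕ} (hf : Poly f) (hg : Poly g) : Poly (fun a => GB.uL (f a) (g a)) :=
  Poly.of_toT ((Poly.pair (NPC.Poly.const 1) (Poly.pair hf hg)).toT')
theorem blR {f g : α → ℕ} (hf : Poly f) (hg : Poly g) : Poly (fun a => GB.lR (f a) (g a)) :=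
  Poly.of_toT ((Poly.pair (NPC.Poly.const 2) (Poly.pair hf hg)).toT')
theorem blL {f g : α → ℕ} (hf : Poly f) (hg : Poly g) : Poly (fun a => GB.lL (f a) (g a)) :=
  Poly.of_toT ((Poly.pair (NPC.Poly.const 3) (Poly.pair hf hg)).toT')
theorem buz {f g : α → ℕ} (hf : Poly f) (hg : Poly g) : Poly (fun a => GB.uz (f a) (g a)) :=
  Poly.of_toT ((Poly.pair (NPC.Poly.const 4) (Poly.pair hf hg)).toT')
theorem bzl {f g : α → ℕ} (hf : Poly f) (hg : Poly g) : Poly (fun a => GB.zl (f a) (g a)) :=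
  Poly.of_toT ((Poly.pair (NPC.Poly.const 5) (Poly.pair hf hg)).toT')
theorem bqz {f : α → ℕ} (hf : Poly f) : Poly (fun a => GB.qz (f a)) :=
  Poly.of_toT ((Poly.pair (NPC.Poly.const 6) (Poly.pair hf (NPC.Poly.const 0))).toT')
theorem bzo {f : α → ℕ} (hf : Poly f) : Poly (fun a => GB.zo (f a)) :=
  Poly.of_toT ((Poly.pair (NPC.Poly.const 7) (Poly.pair hf (NPC.Poly.const 0))).toT')
theorem bch {f : α → ℕ} (hf : Poly f) : Poly (fun a => GB.ch (f a)) :=
  Poly.of_toT ((Poly.pair (NPC.Poly.const 8) (Poly.pair hf (NPC.Poly.const 0))).toT')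

attribute [local fun_prop] pq pu pz pl pzr po buR buL blR blL buz bzl bqz bzo bch

variable {s tg : α → List ℕ}

theorem p_LamL (hs : Poly s) : Poly (fun a => LamL (s a)) := by
  unfold LamL; fun_prop
theorem p_DML (hs : Poly s) (ht : Poly tg) : Poly (fun a => DML (s a) (tg a)) := by
  unfold DML; fun_prop
theorem p_tOf (hs : Poly s) (ht : Poly tg) : Poly (fun a => tOf (s a) (tg a)) := by
  unfold tOf; fun_prop
attribute [local fun_prop] p_LamL p_DML p_tOf
theorem p_baseL (hs : Poly s) : Poly (fun a => baseL (s a)) := by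
  unfold baseL; fun_prop
theorem p_BL (hs : Poly s) (ht : Poly tg) {i : α → ℕ} (hi : Poly i) :
    Poly (fun a => BL (s a) (tg a) (i a)) := by
  unfold BL; fun_prop
attribute [local fun_prop] p_baseL p_BL
theorem p_DL (hs : Poly s) (ht : Poly tg) {i : α → ℕ} (hi : Poly i) :
    Poly (fun a => DL (s a) (tg a) (i a)) := by
  unfold DL; fun_prop
theorem p_QL (ht : Poly tg) {i j : α → ℕ} (hi : Poly i) (hj : Poly j) :
    Poly (fun a => QL (tg a) (i a) (j a)) := by
  unfold QL; fun_prop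
attribute [local fun_prop] p_DL p_QL

theorem p_blist (hs : Poly s) (ht : Poly tg) : Poly (fun a => blist (s a) (tg a)) := by
  have u1 : UPoly (fun a => 2 * (tg a).length) := (UPoly.const 2).mul (UPoly.length ht)
  have r1 : Poly (fun a => List.range (2 * (tg a).length)) := u1.range
  have r2 : Poly (fun a => List.range ((s a).length + 1)) :=
    ((UPoly.length hs).add (UPoly.const 1)).range
  have r3 : Poly (fun a => List.range (2 * (tg a).length + 1)) := (u1.add (UPoly.const 1)).range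
  have r4 : Poly (fun a => List.range (4 * (2 * (tg a).length))) := ((UPoly.const 4).mul u1).range
  have key : ∀ L1 L2 L3 L4 : α → List ℕ, Poly L1 → Poly L2 → Poly L3 → Poly L4 →
      Poly (fun a => ((L1 a).flatMap fun i => (L2 a).flatMap fun c =>
    [(GB.uR i c, QL (tg a) i c, GX.u i c, LamL (s a)),
     (.uL i c, QL (tg a) i (c - 1), .u i c, LamL (s a) + if i % 2 = 0 then (0 :: s a).getD c 0 else 0),
     (.lR i c, .l i c, QL (tg a) (i + 1) c, LamL (s a)),
     (.lL i c, .l i c, QL (tg a) (i + 1) (c - 1),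
       LamL (s a) + if i % 2 = 1 then (0 :: s a).getD c 0 else 0),
     (.uz i c, .u i c, .z i c, tOf (s a) (tg a) - (2 * LamL (s a) + (s a).sum)),
     (.zl i c, .z i c, .l i c, tOf (s a) (tg a) - (2 * LamL (s a) + (s a).sum))]) ++
  (((L3 a).flatMap fun j =>
    [(.qz j, QL (tg a) j (s a).length, .zr j, tOf (s a) (tg a) - DL (s a) (tg a) j),
     (.zo j, .o (4 * j), .zr j, tOf (s a) (tg a) - DL (s a) (tg a) j)]) ++
  ((L4 a).map fun n => (.ch n, .o n, .o (n + 1),
    tOf (s a) (tg a) - DML (s a) (tg a))))) := by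
    intro L1 L2 L3 L4 h1 h2 h3 h4
    refine Poly.append (Poly.flatMap h1 (Poly.flatMap (h2.comp (Poly.fst Poly.id)) ?_))
      (Poly.append (Poly.flatMap h3 ?_) (NPC.Poly.map h4 ?_))
    all_goals fun_prop
  exact key _ _ _ _ r1 r2 r3 r4

theorem p_xlist (hs : Poly s) (ht : Poly tg) : Poly (fun a => xlist (s a) (tg a)) := by
  have u1 : UPoly (fun a => 2 * (tg a).length) := (UPoly.const 2).mul (UPoly.length ht)
  have r1 : Poly (fun a => List.range (2 * (tg a).length)) := u1.range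
  have r2 : Poly (fun a => List.range ((s a).length + 1)) :=
    ((UPoly.length hs).add (UPoly.const 1)).range
  have r3 : Poly (fun a => List.range (2 * (tg a).length + 1)) := (u1.add (UPoly.const 1)).range
  have r4 : Poly (fun a => List.range (4 * (2 * (tg a).length) + 1)) :=
    (((UPoly.const 4).mul u1).add (UPoly.const 1)).range
  unfold xlist
  refine Poly.append (Poly.flatMap r3 (NPC.Poly.map (Poly.filter (r2.comp (Poly.fst Poly.id)) ?_) ?_))
    (Poly.append (Poly.flatMap r1 (Poly.flatMap (r2.comp (Poly.fst Poly.id)) ?_))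
      (Poly.append (NPC.Poly.map r3 ?_) (NPC.Poly.map r4 ?_)))
  all_goals fun_prop
attribute [local fun_prop] p_blist p_xlist

theorem p_rg {N k : α → ℕ} (hN : UPoly N) (hk : Poly k) : Poly (fun a => rg (N a) (k a)) := by
  have r : Poly (fun a => List.range (N a)) := hN.range
  unfold rg
  fun_prop

theorem p_vlist (hs : Poly s) (ht : Poly tg) {N : α → ℕ} (hN : UPoly N) :
    Poly (fun a => vlist (N a) (s a) (tg a)) := by
  have r : Poly (fun p : α × (GB × GX × GX × ℕ) => rg (N p.1) p.2.2.2.2) :=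
    p_rg (hN.comp (Poly.fst Poly.id)) (by fun_prop)
  unfold vlist
  fun_prop

theorem p_elist (hs : Poly s) (ht : Poly tg) {N : α → ℕ} (hN : UPoly N) :
    Poly (fun a => elist (N a) (s a) (tg a)) := by
  have r : Poly (fun p : α × (GB × GX × GX × ℕ) => rg (N p.1) p.2.2.2.2) :=
    p_rg (hN.comp (Poly.fst Poly.id)) (by fun_prop)
  unfold elist
  fun_prop

end T13b

open T13b in
/-- T13b -/
theorem poly_mtx {α : Type} [TEnc α] {s tg : α → List ℕ} {N : α → ℕ} (hs : Poly s) (htg : Poly tg)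
    (hN : UPoly N) : Poly (fun a => mtx (N a) (s a) (tg a)) := by
  have h1 := p_vlist hs htg hN
  have h2 := p_elist hs htg hN
  unfold mtx
  refine NPC.Poly.map h1 (NPC.Poly.map (h1.comp (Poly.fst Poly.id)) (Poly.any
    (h2.comp (Poly.fst (Poly.fst Poly.id))) ?_))
  fun_prop

end Pool.Agent.H820R2.SC
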