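import Pool.Agent.H820R2.SC.Core
import Pool.Agent.H671R2.PolyAuto

/-!
# Task T14: the reduction is computable in polynomial time
-/

namespace Pool.Agent.H820R2.SC

open Finset Pool.Agent.NPC Pool.Agent.H557R2.Fpt

/-! ### T14a -/

theorem T14_filter_range {m N : ℕ} (h : m ≤ N) :
    (List.range N).filter (fun r => decide (r < m)) = List.range m := by
  obtain ⟨e, rfl⟩ := Nat.exists_eq_add_of_le h
  rw [List.range_add, List.filter_append]
  have h1 : (List.range m).filter (fun k => decide (k < m)) = List.range m := by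
    rw [List.filter_eq_self]
    intro k hk
    simpa using hk
  have h2 : ((List.range e).map (fun x => m + x)).filter (fun k => decide (k < m)) = [] := by
    rw [List.filter_eq_nil_iff]
    intro k hk
    simp at hk ⊢
    omega
  rw [h1, h2, List.append_nil]

/-- the list of the vertices -/
def T14n (y : Inp) : List ℕ := (List.range (y.2.1.length + 1)).filter (fun i => decide (i < y.1))

/-- the list of the nodes -/
def T14k (y : Inp) : List ℕ := List.range y.2.2.length

theorem T14_range_succ {α β : Type} [TEnc α] [TEnc β] {l : α → List β} (hl : Poly l) :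
    Poly (fun a => List.range ((l a).length + 1)) :=
  (UPoly.add (UPoly.length hl) (UPoly.const 1)).range

theorem poly_T14n : Poly T14n := by
  unfold T14n
  have h : Poly (fun y : Inp => List.range (y.2.1.length + 1)) := T14_range_succ (by fun_prop)
  exact Poly.filter (p := fun (y : Inp) i => decide (i < y.1)) h (by fun_prop)

theorem poly_T14k : Poly T14k := by
  unfold T14k
  exact Poly.range_length (by fun_prop)

attribute [local fun_prop] poly_T14n poly_T14k

theorem T14n_eq {n k : ℕ} {x : List Bool} (hx : x.length = n * n) :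
    T14n (n, x, List.replicate k ()) = List.range n := by
  unfold T14n
  simp only
  rw [hx]
  refine T14_filter_range ?_
  rcases Nat.eq_zero_or_pos n with rfl | hn
  · omega
  · have := Nat.le_mul_of_pos_left n hn
    omega

theorem T14k_eq {n k : ℕ} {x : List Bool} : T14k (n, x, List.replicate k ()) = List.range k := by
  unfold T14k
  simp

/-- base -/
def T14b (p : ℕ × ℕ) : ℕ := bs p.1 p.2

theorem poly_T14b : Poly T14b := by
  unfold T14b bs
  simp only [pow_succ, pow_zero, one_mul]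
  fun_prop

attribute [local fun_prop] poly_T14b

/-- the number of the pair -/
def T14e (p : ℕ × ℕ × ℕ) : ℕ := eid p.1 p.2.1 p.2.2

theorem poly_T14e : Poly T14e := by
  unfold T14e eid
  fun_prop

attribute [local fun_prop] poly_T14e

/-- eleven digits -/
def T14o (b d0 d1 d2 d3 d4 d5 d6 d7 d8 d9 d10 : ℕ) : ℕ :=
  ofD b [d0, d1, d2, d3, d4, d5, d6, d7, d8, d9, d10]

theorem poly_T14o {α : Type} [TEnc α] {b d0 d1 d2 d3 d4 d5 d6 d7 d8 d9 d10 : α → ℕ}
    (hb : Poly b) (h0 : Poly d0) (h1 : Poly d1) (h2 : Poly d2) (h3 : Poly d3) (h4 : Poly d4)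
    (h5 : Poly d5) (h6 : Poly d6) (h7 : Poly d7) (h8 : Poly d8) (h9 : Poly d9) (h10 : Poly d10) :
    Poly (fun a => T14o (b a) (d0 a) (d1 a) (d2 a) (d3 a) (d4 a) (d5 a) (d6 a) (d7 a) (d8 a) (d9 a)
      (d10 a)) := by
  unfold T14o ofD
  simp only [List.foldr_cons, List.foldr_nil]
  fun_prop

/-- size of an item `x` -/
def T14x (p : (ℕ × ℕ) × ℕ × ℕ × ℕ) : ℕ :=
  ofD (bs p.1.1 p.1.2) (dg p.1.1 p.1.2 (.x p.2.1 p.2.2.1 p.2.2.2))

theorem poly_T14x : Poly T14x := by
  have h : T14x = fun p : (ℕ × ℕ) × ℕ × ℕ × ℕ => T14o (T14b (p.1.1, p.1.2)) 1 0 0 p.2.1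
      (p.2.1 * p.2.1) (T14e (p.1.2, p.2.1, p.2.2.1))
      (T14e (p.1.2, p.2.1, p.2.2.1) * T14e (p.1.2, p.2.1, p.2.2.1))
      (if p.2.1 < p.2.2.1 then p.2.2.2 else 0) (if p.2.1 < p.2.2.1 then p.2.2.2 * p.2.2.2 else 0)
      (if p.2.1 < p.2.2.1 then 0 else p.2.2.2)
      (if p.2.1 < p.2.2.1 then 0 else p.2.2.2 * p.2.2.2) := rfl
  rw [h]
  refine poly_T14o ?_ ?_ ?_ ?_ ?_ ?_ ?_ ?_ ?_ ?_ ?_ ?_ <;> fun_prop

/-- size of an item `y` -/
def T14y (p : (ℕ × ℕ) × ℕ × ℕ) : ℕ :=
  ofD (bs p.1.1 p.1.2) (dg p.1.1 p.1.2 (.y p.2.1 p.2.2))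

theorem poly_T14y : Poly T14y := by
  have h : T14y = fun p : (ℕ × ℕ) × ℕ × ℕ => T14o (T14b (p.1.1, p.1.2)) 0 1 0 p.2.1
      (p.2.1 * p.2.1) 0 0 ((p.1.2 - 1 - p.2.1) * p.2.2) ((p.1.2 - 1 - p.2.1) * (p.2.2 * p.2.2))
      (p.2.1 * p.2.2) (p.2.1 * (p.2.2 * p.2.2)) := rfl
  rw [h]
  refine poly_T14o ?_ ?_ ?_ ?_ ?_ ?_ ?_ ?_ ?_ ?_ ?_ ?_ <;> fun_prop

/-- size of an item `z` -/
def T14z (p : (ℕ × ℕ) × ℕ × ℕ × ℕ × ℕ) : ℕ :=
  ofD (bs p.1.1 p.1.2) (dg p.1.1 p.1.2 (.z p.2.1 p.2.2.1 p.2.2.2.1 p.2.2.2.2))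

theorem poly_T14z : Poly T14z := by
  have h : T14z = fun p : (ℕ × ℕ) × ℕ × ℕ × ℕ × ℕ => T14o (T14b (p.1.1, p.1.2)) 0 0 1 0 0
      (T14e (p.1.2, p.2.1, p.2.2.1))
      (T14e (p.1.2, p.2.1, p.2.2.1) * T14e (p.1.2, p.2.1, p.2.2.1))
      (p.1.1 - p.2.2.2.1) (p.1.1 * p.1.1 - p.2.2.2.1 * p.2.2.2.1) (p.1.1 - p.2.2.2.2)
      (p.1.1 * p.1.1 - p.2.2.2.2 * p.2.2.2.2) := rfl
  rw [h]
  refine poly_T14o ?_ ?_ ?_ ?_ ?_ ?_ ?_ ?_ ?_ ?_ ?_ ?_ <;> fun_prop

attribute [local fun_prop] poly_T14x poly_T14y poly_T14z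

/-- the adjacency test -/
def T14ad (p : Inp × ℕ × ℕ) : Bool := adB p.1.1 p.1.2.1 p.2.1 p.2.2

theorem poly_T14ad : Poly T14ad := by
  unfold T14ad adB
  fun_prop

attribute [local fun_prop] poly_T14ad

/-- the sizes of the items -/
def T14s (y : Inp) : List ℕ :=
  ((T14k y).flatMap fun a => ((T14k y).filter fun b => decide (b ≠ a)).flatMap fun b =>
    (T14n y).map fun v => T14x ((y.1, y.2.2.length), a, b, v)) ++
  (((T14k y).flatMap fun a => (T14n y).map fun v => T14y ((y.1, y.2.2.length), a, v)) ++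
  ((T14k y).flatMap fun a => ((T14k y).filter fun b => decide (a < b)).flatMap fun b =>
    (T14n y).flatMap fun u => ((T14n y).filter fun v => T14ad (y, u, v)).map fun v =>
      T14z ((y.1, y.2.2.length), a, b, u, v)))

theorem poly_T14s : Poly T14s := by
  unfold T14s
  fun_prop

theorem T14s_eq {n k : ℕ} {x : List Bool} (hx : x.length = n * n) :
    T14s (n, x, List.replicate k ()) = sizes n k (adB n x) := by
  unfold T14s sizes its
  rw [T14n_eq hx, T14k_eq]
  simp only [List.map_append, List.map_flatMap, List.map_map, List.length_replicate]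
  rfl

/-- the size of a node bin -/
def T14N (p : Inp × ℕ) : ℕ :=
  T14o (T14b (p.1.1, p.1.2.2.length)) ((p.1.2.2.length - 1) * (p.1.1 - 1)) 1 0
    (((p.1.2.2.length - 1) * (p.1.1 - 1) + 1) * p.2)
    (((p.1.2.2.length - 1) * (p.1.1 - 1) + 1) * (p.2 * p.2))
    ((p.1.1 - 1) * (((T14k p.1).filter fun b => decide (b ≠ p.2)).map fun b =>
      T14e (p.1.2.2.length, p.2, b)).sum)
    ((p.1.1 - 1) * (((T14k p.1).filter fun b => decide (b ≠ p.2)).map fun b =>
      T14e (p.1.2.2.length, p.2, b) * T14e (p.1.2.2.length, p.2, b)).sum)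
    ((p.1.2.2.length - 1 - p.2) * (T14n p.1).sum)
    ((p.1.2.2.length - 1 - p.2) * ((T14n p.1).map fun v => v * v).sum)
    (p.2 * (T14n p.1).sum) (p.2 * ((T14n p.1).map fun v => v * v).sum)

theorem poly_T14N : Poly T14N := by
  unfold T14N
  refine poly_T14o ?_ ?_ ?_ ?_ ?_ ?_ ?_ ?_ ?_ ?_ ?_ ?_ <;> fun_prop

/-- the size of an edge bin -/
def T14E (p : Inp × ℕ × ℕ) : ℕ :=
  if p.2.1 < p.2.2 then T14o (T14b (p.1.1, p.1.2.2.length)) 2 0 1 (p.2.1 + p.2.2)
    (p.2.1 * p.2.1 + p.2.2 * p.2.2) (3 * T14e (p.1.2.2.length, p.2.1, p.2.2))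
    (3 * (T14e (p.1.2.2.length, p.2.1, p.2.2) * T14e (p.1.2.2.length, p.2.1, p.2.2)))
    p.1.1 (p.1.1 * p.1.1) p.1.1 (p.1.1 * p.1.1)
  else 0

theorem poly_T14E : Poly T14E := by
  unfold T14E
  refine Poly.ite (by fun_prop) ?_ (by fun_prop)
  refine poly_T14o ?_ ?_ ?_ ?_ ?_ ?_ ?_ ?_ ?_ ?_ ?_ ?_ <;> fun_prop

attribute [local fun_prop] poly_T14s poly_T14N poly_T14E

/-- the sizes of the bins -/
def T14t (y : Inp) : List ℕ :=
  ((T14k y).map fun a => T14N (y, a)) ++
    ((T14k y).flatMap fun a => (T14k y).map fun b => T14E (y, a, b))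

theorem poly_T14t : Poly T14t := by
  unfold T14t
  fun_prop

theorem T14_bins {α : Type} (f : List ℕ → α) (n k : ℕ) : (tgs n k).map f =
    ((List.range k).map fun a => f (nodeT n k a)) ++
      ((List.range k).flatMap fun a => (List.range k).map fun b => f (edgeT n k a b)) := by
  unfold tgs
  rw [List.map_append, List.map_map, List.map_flatMap]
  simp only [List.map_map]
  rfl

theorem T14_node {n k a : ℕ} {x : List Bool} (hx : x.length = n * n) :
    T14N ((n, x, List.replicate k ()), a) = ofD (bs n k) (nodeT n k a) := by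
  unfold T14N
  rw [T14n_eq hx, T14k_eq]
  simp only [List.length_replicate]
  rfl

theorem T14_edge {n k a b : ℕ} {x : List Bool} :
    T14E ((n, x, List.replicate k ()), a, b) = ofD (bs n k) (edgeT n k a b) := by
  unfold T14E edgeT
  simp only [List.length_replicate]
  split_ifs with h
  · rfl
  · unfold ofD
    simp only [List.foldr_cons, List.foldr_nil, Nat.mul_zero, Nat.add_zero]

theorem T14t_eq {n k : ℕ} {x : List Bool} (hx : x.length = n * n) :
    T14t (n, x, List.replicate k ()) = bins n k := by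
  unfold T14t bins
  rw [T14k_eq, T14_bins]
  refine congrArg₂ (fun u v => u ++ v) ?_ ?_
  · exact List.map_congr_left fun a _ => T14_node hx
  · exact List.flatMap_congr fun a _ => List.map_congr_left fun b _ => T14_edge

attribute [local fun_prop] poly_T14t

/-- T14a -/
theorem poly_inst : ∃ F : Inp → List ℕ × List ℕ, Poly F ∧ ∀ n k x, x.length = n * n →
    F (n, x, List.replicate k ()) = inst n k x := by
  refine ⟨fun y => if y.2.2.length = 0 then ([1], [1]) else
    if (T14t y).sum ≤ (T14s y).sum then (T14s y, T14t y) else ([2], [1]), ?_, ?_⟩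
  · fun_prop
  · intro n k x hx
    simp only
    rw [T14s_eq hx, T14t_eq hx, List.length_replicate]
    rfl

/-! ### T14b -/

theorem T14_ofD_le {b M : ℕ} : ∀ l : List ℕ, (∀ d ∈ l, d ≤ M) → ofD b l ≤ M * (b + 1) ^ l.length
  | [], _ => by simp [ofD]
  | d :: l, h => by
    have ih := T14_ofD_le (b := b) l (fun e he => h e (List.mem_cons_of_mem _ he))
    have hd := h d (List.mem_cons_self)
    have h1 : ofD b (d :: l) = d + b * ofD b l := rfl
    rw [h1, List.length_cons, pow_succ]
    have h2 : M * 1 ≤ M * (b + 1) ^ l.length := Nat.mul_le_mul_left _ (Nat.one_le_pow _ _ (by omega))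
    have h3 : b * ofD b l ≤ b * (M * (b + 1) ^ l.length) := Nat.mul_le_mul_left _ ih
    calc d + b * ofD b l ≤ M * (b + 1) ^ l.length + b * (M * (b + 1) ^ l.length) := by omega
      _ = M * ((b + 1) ^ l.length * (b + 1)) := by ring

/-- a bound for the digits -/
def T14M (n k : ℕ) : ℕ := (k + 1) ^ 4 * (n + 1) ^ 2

theorem T14_mul {n k X Y : ℕ} (i j : ℕ) (hX : X ≤ (k + 1) ^ i) (hY : Y ≤ (n + 1) ^ j) (hi : i ≤ 4)
    (hj : j ≤ 2) : X * Y ≤ T14M n k := by
  refine (Nat.mul_le_mul hX hY).trans (Nat.mul_le_mul ?_ ?_)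
  · exact Nat.pow_le_pow_right (by omega) hi
  · exact Nat.pow_le_pow_right (by omega) hj

theorem T14_k {n k X : ℕ} (i : ℕ) (hX : X ≤ (k + 1) ^ i) (hi : i ≤ 4) : X ≤ T14M n k := by
  have := T14_mul (n := n) (Y := 1) i 0 hX (by simp) hi (by omega)
  omega

theorem T14_n {n k Y : ℕ} (j : ℕ) (hY : Y ≤ (n + 1) ^ j) (hj : j ≤ 2) : Y ≤ T14M n k := by
  have := T14_mul (k := k) (X := 1) 0 j (by simp) hY (by omega) hj
  omega

theorem T14_eid {k a b : ℕ} (ha : a < k) (hb : b < k) : eid k a b ≤ (k + 1) ^ 2 := by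
  unfold eid
  have h1 : min a b * k ≤ k * k := Nat.mul_le_mul_right _ (by omega)
  have h2 : max a b ≤ k := by omega
  nlinarith

theorem T14_sq {a K : ℕ} {i : ℕ} (h : a ≤ K ^ i) : a * a ≤ K ^ (2 * i) := by
  have h1 := Nat.mul_le_mul h h
  rw [← pow_add, ← two_mul] at h1
  exact h1

theorem T14_dg {n k : ℕ} {ad : ℕ → ℕ → Bool} {y : It} (hy : y ∈ its n k ad) :
    ∀ d ∈ dg n k y, d ≤ T14M n k := by
  unfold its at hy
  simp only [List.mem_append, List.mem_flatMap, List.mem_map, List.mem_filter,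
    List.mem_range] at hy
  have h0 : 0 ≤ T14M n k := Nat.zero_le _
  have h1 : 1 ≤ T14M n k := T14_k 0 (by simp) (by omega)
  rcases hy with ⟨a, ha, b, ⟨hb, -⟩, v, hv, rfl⟩ | ⟨a, ha, v, hv, rfl⟩ |
    ⟨a, ha, b, ⟨hb, -⟩, u, hu, v, ⟨hv, -⟩, rfl⟩
  · have ha1 : a ≤ (k + 1) ^ 1 := by rw [pow_one]; omega
    have hv1 : v ≤ (n + 1) ^ 1 := by rw [pow_one]; omega
    have he := T14_eid ha hb
    have e1 : a ≤ T14M n k := T14_k 1 ha1 (by omega)
    have e2 : a * a ≤ T14M n k := T14_k 2 (T14_sq ha1) (by omega)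
    have e3 : eid k a b ≤ T14M n k := T14_k 2 he (by omega)
    have e4 : eid k a b * eid k a b ≤ T14M n k := T14_k 4 (T14_sq he) (by omega)
    have e5 : v ≤ T14M n k := T14_n 1 hv1 (by omega)
    have e6 : v * v ≤ T14M n k := T14_n 2 (T14_sq hv1) (by omega)
    intro d hd
    unfold dg at hd
    simp only [List.mem_cons, List.not_mem_nil, or_false] at hd
    rcases hd with rfl | rfl | rfl | rfl | rfl | rfl | rfl | rfl | rfl | rfl | rfl
    all_goals first | assumption | (split_ifs <;> assumption)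
  · have ha1 : a ≤ (k + 1) ^ 1 := by rw [pow_one]; omega
    have ha2 : k - 1 - a ≤ (k + 1) ^ 1 := by rw [pow_one]; omega
    have hv1 : v ≤ (n + 1) ^ 1 := by rw [pow_one]; omega
    have e1 : a ≤ T14M n k := T14_k 1 ha1 (by omega)
    have e2 : a * a ≤ T14M n k := T14_k 2 (T14_sq ha1) (by omega)
    have e3 : (k - 1 - a) * v ≤ T14M n k := T14_mul 1 1 ha2 hv1 (by omega) (by omega)
    have e4 : (k - 1 - a) * (v * v) ≤ T14M n k := T14_mul 1 2 ha2 (T14_sq hv1) (by omega) (by omega)
    have e5 : a * v ≤ T14M n k := T14_mul 1 1 ha1 hv1 (by omega) (by omega)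
    have e6 : a * (v * v) ≤ T14M n k := T14_mul 1 2 ha1 (T14_sq hv1) (by omega) (by omega)
    intro d hd
    unfold dg at hd
    simp only [List.mem_cons, List.not_mem_nil, or_false] at hd
    rcases hd with rfl | rfl | rfl | rfl | rfl | rfl | rfl | rfl | rfl | rfl | rfl
    all_goals assumption
  · have he := T14_eid ha hb
    have e3 : eid k a b ≤ T14M n k := T14_k 2 he (by omega)
    have e4 : eid k a b * eid k a b ≤ T14M n k := T14_k 4 (T14_sq he) (by omega)
    have hn1 : n ≤ (n + 1) ^ 1 := by rw [pow_one]; omega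
    have hn2 : n * n ≤ T14M n k := T14_n 2 (T14_sq hn1) (by omega)
    have e5 : n - u ≤ T14M n k := T14_n 1 (by rw [pow_one]; omega) (by omega)
    have e6 : n - v ≤ T14M n k := T14_n 1 (by rw [pow_one]; omega) (by omega)
    have e7 : n * n - u * u ≤ T14M n k := (Nat.sub_le _ _).trans hn2
    have e8 : n * n - v * v ≤ T14M n k := (Nat.sub_le _ _).trans hn2
    intro d hd
    unfold dg at hd
    simp only [List.mem_cons, List.not_mem_nil, or_false] at hd
    rcases hd with rfl | rfl | rfl | rfl | rfl | rfl | rfl | rfl | rfl | rfl | rfl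
    all_goals assumption

theorem T14_length_dg (n k : ℕ) (y : It) : (dg n k y).length = 11 := by
  cases y <;> rfl

theorem T14_fl {α β : Type} (l : List α) (f : α → List β) (B : ℕ)
    (h : ∀ a ∈ l, (f a).length ≤ B) : (l.flatMap f).length ≤ l.length * B := by
  induction l with
  | nil => simp
  | cons a l ih =>
    rw [List.flatMap_cons, List.length_append, List.length_cons, Nat.succ_mul]
    have h1 := h a (List.mem_cons_self)
    have h2 := ih (fun b hb => h b (List.mem_cons_of_mem _ hb))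
    omega

/-- a bound for the number of items -/
def T14I (n k : ℕ) : ℕ := k * (k * n) + (k * n + k * (k * (n * n)))

theorem T14_its (n k : ℕ) (ad : ℕ → ℕ → Bool) : (its n k ad).length ≤ T14I n k := by
  have hk : (List.range k).length = k := List.length_range
  have hn : (List.range n).length = n := List.length_range
  have hfk : ∀ p : ℕ → Bool, ((List.range k).filter p).length ≤ k := fun p => by
    have := List.length_filter_le p (List.range k)
    omega
  have hfn : ∀ p : ℕ → Bool, ((List.range n).filter p).length ≤ n := fun p => by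
    have := List.length_filter_le p (List.range n)
    omega
  unfold its T14I
  rw [List.length_append, List.length_append]
  refine Nat.add_le_add ?_ (Nat.add_le_add ?_ ?_)
  · refine (T14_fl _ _ (k * n) fun a _ => ?_).trans (by rw [hk])
    refine (T14_fl _ _ n fun b _ => ?_).trans (Nat.mul_le_mul_right _ (hfk _))
    rw [List.length_map, hn]
  · refine (T14_fl _ _ n fun a _ => ?_).trans (by rw [hk])
    rw [List.length_map, hn]
  · refine (T14_fl _ _ (k * (n * n)) fun a _ => ?_).trans (by rw [hk])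
    refine (T14_fl _ _ (n * n) fun b _ => ?_).trans (Nat.mul_le_mul_right _ (hfk _))
    refine (T14_fl _ _ n fun u _ => ?_).trans (by rw [hn])
    rw [List.length_map]
    exact hfn _

theorem T14_tgs (n k : ℕ) : (bins n k).length ≤ k + k * k := by
  have hk : (List.range k).length = k := List.length_range
  unfold bins tgs
  rw [List.length_map, List.length_append, List.length_map, hk]
  refine Nat.add_le_add_left ?_ k
  refine (T14_fl _ _ k fun a _ => ?_).trans (by rw [hk])
  rw [List.length_map, hk]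

/-- a bound for the sum of the sizes -/
def T14S (n k : ℕ) : ℕ := T14I n k * (T14M n k * (bs n k + 1) ^ 11)

theorem T14_sum (n k : ℕ) (ad : ℕ → ℕ → Bool) : (sizes n k ad).sum ≤ T14S n k := by
  have h1 : (sizes n k ad).sum ≤ (sizes n k ad).length • (T14M n k * (bs n k + 1) ^ 11) := by
    refine List.sum_le_card_nsmul _ _ ?_
    intro z hz
    unfold sizes at hz
    rw [List.mem_map] at hz
    obtain ⟨y, hy, rfl⟩ := hz
    have := T14_ofD_le (b := bs n k) (dg n k y) (T14_dg hy)
    rwa [T14_length_dg] at this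
  rw [smul_eq_mul] at h1
  refine h1.trans (Nat.mul_le_mul_right _ ?_)
  unfold sizes
  rw [List.length_map]
  exact T14_its n k ad

/-- a bound for the congestion -/
def T14B (z : ℕ) : ℕ :=
  2 * (8 * (2 * (z + z * z)) * (T14I z z + 1) * (T14S z z + 1)) + 200

theorem T14_I_mono {n k z : ℕ} (hn : n ≤ z) (hk : k ≤ z) : T14I n k ≤ T14I z z := by
  unfold T14I
  gcongr

theorem T14_S_mono {n k z : ℕ} (hn : n ≤ z) (hk : k ≤ z) : T14S n k ≤ T14S z z := by
  unfold T14S T14M bs
  have := T14_I_mono hn hk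
  gcongr

theorem T14_pow {α : Type} [TEnc α] {m : α → ℕ} (hm : UPoly m) (r : ℕ) :
    UPoly (fun a => m a ^ r) := by
  induction r with
  | zero => simpa using UPoly.const 1
  | succ r ih => simpa only [pow_succ] using UPoly.mul ih hm

theorem T14_uB {α : Type} [TEnc α] {m : α → ℕ} (hm : UPoly m) : UPoly (fun a => T14B (m a)) := by
  have hI : UPoly (fun a => T14I (m a) (m a)) := by
    unfold T14I
    exact ((hm.mul (hm.mul hm)).add ((hm.mul hm).add (hm.mul (hm.mul (hm.mul hm)))))
  have hM : UPoly (fun a => T14M (m a) (m a)) := by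
    unfold T14M
    exact (T14_pow (hm.add (UPoly.const 1)) 4).mul (T14_pow (hm.add (UPoly.const 1)) 2)
  have hb : UPoly (fun a => bs (m a) (m a)) := by
    unfold bs
    exact ((UPoly.const 8).mul (T14_pow (hm.add (UPoly.const 1)) 7)).mul
      (T14_pow (hm.add (UPoly.const 1)) 5)
  have hS : UPoly (fun a => T14S (m a) (m a)) := by
    unfold T14S
    exact hI.mul (hM.mul (T14_pow (hb.add (UPoly.const 1)) 11))
  unfold T14B
  exact ((UPoly.const 2).mul ((((UPoly.const 8).mul ((UPoly.const 2).mul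
    (hm.add (hm.mul hm)))).mul (hI.add (UPoly.const 1))).mul (hS.add (UPoly.const 1)))).add
    (UPoly.const 200)

/-- T14b -/
theorem tOf_inst_le : ∃ N : Inp → ℕ, UPoly N ∧ ∀ n k x, x.length = n * n →
    tOf (inst n k x).1 (inst n k x).2 ≤ N (n, x, List.replicate k ()) := by
  refine ⟨fun y => T14B (y.2.1.length + y.2.2.length), ?_, ?_⟩
  · refine T14_uB (UPoly.add (UPoly.length ?_) (UPoly.length ?_)) <;> fun_prop
  · intro n k x hx
    simp only [List.length_replicate]
    obtain ⟨z, hz⟩ : ∃ z, z = x.length + k := ⟨_, rfl⟩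
    rw [← hz]
    have hk : k ≤ z := by omega
    have hn : n ≤ z := by
      rcases Nat.eq_zero_or_pos n with rfl | hn
      · omega
      · have := Nat.le_mul_of_pos_left n hn
        omega
    unfold inst
    split_ifs with h1 h2
    · unfold T14B tOf
      simp only [List.length_singleton, List.sum_singleton]
      omega
    · have e1 := T14_tgs n k
      have e2 : k + k * k ≤ z + z * z := by gcongr
      have e3 : (sizes n k (adB n x)).length ≤ T14I z z := by
        unfold sizes
        rw [List.length_map]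
        exact (T14_its n k _).trans (T14_I_mono hn hk)
      have e4 : (sizes n k (adB n x)).sum ≤ T14S z z :=
        (T14_sum n k _).trans (T14_S_mono hn hk)
      unfold T14B tOf
      simp only
      have e5 := e1.trans e2
      have e6 : 2 * (8 * (2 * (bins n k).length) * ((sizes n k (adB n x)).length + 1) *
          ((sizes n k (adB n x)).sum + 1)) ≤
          2 * (8 * (2 * (z + z * z)) * (T14I z z + 1) * (T14S z z + 1)) := by
        gcongr
      omega
    · unfold T14B tOf
      simp only [List.length_singleton, List.sum_singleton]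
      omega

end Pool.Agent.H820R2.SC
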