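import Pool.Agent.H820R2.SC.Core

/-!
# Polynomial-time computation of the congestion of a given spanning tree
-/

namespace Pool.Agent.H820R2.SC

open Finset Pool.Agent.NPC

/-- Entry of a Boolean matrix. -/
def adL (M : List (List Bool)) (i j : ℕ) : Bool := (M.getD i []).getD j false

/-- Adjacency after removing the edge `{a, b}`. -/
def adE (M : List (List Bool)) (a b u v : ℕ) : Bool :=
  adL M u v && (!(decide (u = a) && decide (v = b)) && !(decide (u = b) && decide (v = a)))

/-- One step of the closure. -/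
def stepL (M : List (List Bool)) (a b : ℕ) (l : List ℕ) : List ℕ :=
  (List.range M.length).filter fun v => decide (v ∈ l) || l.any fun u => adE M a b u v

/-- The vertices reachable from `x` after removing the edge `{a, b}`. -/
def reachL (M : List (List Bool)) (a b x : ℕ) : List ℕ := (stepL M a b)^[M.length] [x]

/-- The number of edges of the first graph crossing. -/
def cntL (MG MT : List (List Bool)) (a b : ℕ) : ℕ :=
  ((List.range MG.length).map fun x => ((List.range MG.length).filter fun y =>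
    decide (x < y) && (adL MG x y && !(decide (y ∈ reachL MT a b x)))).length).sum

/-- The test. -/
def ecTest (p : List (List Bool) × List (List Bool) × ℕ) : Bool :=
  (List.range p.1.length).all fun a => (List.range p.1.length).all fun b =>
    !(adL p.2.1 a b) || decide (cntL p.1 p.2.1 a b ≤ p.2.2)

/-! ### Polynomial time -/

variable {α : Type} [TEnc α]

theorem poly_adL' {M : α → List (List Bool)} {i j : α → ℕ} (hM : Poly M) (hi : Poly i)
    (hj : Poly j) : Poly (fun a => adL (M a) (i a) (j a)) := by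
  unfold adL
  exact NPC.Poly.getD (NPC.Poly.getD hM hi (NPC.Poly.const [])) hj (NPC.Poly.const false)

theorem poly_adE' {M : α → List (List Bool)} {a b u v : α → ℕ} (hM : Poly M) (ha : Poly a)
    (hb : Poly b) (hu : Poly u) (hv : Poly v) :
    Poly (fun x => adE (M x) (a x) (b x) (u x) (v x)) := by
  unfold adE
  exact NPC.Poly.and (poly_adL' hM hu hv) (NPC.Poly.and
    (NPC.Poly.not (NPC.Poly.and (NPC.Poly.decide_eq hu ha) (NPC.Poly.decide_eq hv hb)))
    (NPC.Poly.not (NPC.Poly.and (NPC.Poly.decide_eq hu hb) (NPC.Poly.decide_eq hv ha))))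

theorem poly_stepL' {M : α → List (List Bool)} {a b : α → ℕ} {l : α → List ℕ} (hM : Poly M)
    (ha : Poly a) (hb : Poly b) (hl : Poly l) :
    Poly (fun x => stepL (M x) (a x) (b x) (l x)) := by
  unfold stepL
  refine NPC.Poly.filter (NPC.Poly.range_length hM) ?_
  refine NPC.Poly.or (NPC.Poly.decide_mem (NPC.Poly.snd NPC.Poly.id) (hl.comp (NPC.Poly.fst NPC.Poly.id))) ?_
  refine NPC.Poly.any (p := fun (q : α × ℕ) u => adE (M q.1) (a q.1) (b q.1) u q.2)
    (hl.comp (NPC.Poly.fst NPC.Poly.id)) ?_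
  exact poly_adE' (hM.comp (NPC.Poly.fst (NPC.Poly.fst NPC.Poly.id))) (ha.comp (NPC.Poly.fst (NPC.Poly.fst NPC.Poly.id)))
    (hb.comp (NPC.Poly.fst (NPC.Poly.fst NPC.Poly.id))) (NPC.Poly.snd NPC.Poly.id) (NPC.Poly.snd (NPC.Poly.fst NPC.Poly.id))

theorem sz_stepL_le (M : List (List Bool)) (a b : ℕ) (l : List ℕ) :
    sz (stepL M a b l) ≤ M.length * (4 * M.length + 2) + 1 := by
  have h1 := sz_le_length_mul (stepL M a b l) (4 * M.length + 1) (by
    intro x hx
    rw [stepL, List.mem_filter, List.mem_range] at hx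
    have h1 := sz_nat_le x
    have h2 := NPC.Poly.size_le_self x
    omega)
  have h2 : (stepL M a b l).length ≤ M.length := by
    unfold stepL
    exact (List.length_filter_le _ _).trans (by simp)
  exact h1.trans (by gcongr)

theorem poly_reachL' {M : α → List (List Bool)} {a b x : α → ℕ} (hM : Poly M)
    (ha : Poly a) (hb : Poly b) (hx : Poly x) :
    Poly (fun y => reachL (M y) (a y) (b y) (x y)) := by
  unfold reachL
  obtain ⟨r, hr⟩ := hM.sz_le
  obtain ⟨r', hr'⟩ := hx.sz_le
  refine NPC.Poly.iterLen (F := fun y l => stepL (M y) (a y) (b y) l) hM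
    (NPC.Poly.cons hx (NPC.Poly.const [])) ?_
    (r * (Polynomial.C 4 * r + Polynomial.C 2) + r' + Polynomial.C 3) ?_
  · exact poly_stepL' (hM.comp (NPC.Poly.fst NPC.Poly.id)) (ha.comp (NPC.Poly.fst NPC.Poly.id))
      (hb.comp (NPC.Poly.fst NPC.Poly.id)) (NPC.Poly.snd NPC.Poly.id)
  · intro y k _
    have h3 := length_lt_sz (M y)
    have h4 := hr y
    have h5 := hr' y
    have h7 : (M y).length * (4 * (M y).length + 2) ≤
        r.eval (sz y) * (4 * r.eval (sz y) + 2) :=
      Nat.mul_le_mul (by omega) (by omega)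
    simp only [Polynomial.eval_add, Polynomial.eval_mul, Polynomial.eval_C]
    rcases k with _ | k
    · simp only [Function.iterate_zero, id_eq, sz_list_cons, sz_list_nil]
      omega
    · rw [Function.iterate_succ_apply']
      refine (sz_stepL_le (M y) (a y) (b y) _).trans ?_
      omega

theorem poly_cntL' {M N : α → List (List Bool)} {a b : α → ℕ} (hM : Poly M) (hN : Poly N)
    (ha : Poly a) (hb : Poly b) :
    Poly (fun y => cntL (M y) (N y) (a y) (b y)) := by
  unfold cntL
  refine NPC.Poly.sum (NPC.Poly.map (NPC.Poly.range_length hM) ?_)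
  refine NPC.Poly.length (NPC.Poly.filter (NPC.Poly.range_length (hM.comp (NPC.Poly.fst NPC.Poly.id))) ?_)
  have h1 : Poly (fun q : (α × ℕ) × ℕ => q.1.1) := NPC.Poly.fst (NPC.Poly.fst NPC.Poly.id)
  have h2 : Poly (fun q : (α × ℕ) × ℕ => q.1.2) := NPC.Poly.snd (NPC.Poly.fst NPC.Poly.id)
  have h3 : Poly (fun q : (α × ℕ) × ℕ => q.2) := NPC.Poly.snd NPC.Poly.id
  exact NPC.Poly.and (NPC.Poly.decide_lt h2 h3) (NPC.Poly.and (poly_adL' (hM.comp h1) h2 h3)
    (NPC.Poly.not (NPC.Poly.decide_mem h3 (poly_reachL' (hN.comp h1) (ha.comp h1) (hb.comp h1) h2))))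

theorem poly_ecTest : Poly ecTest := by
  unfold ecTest
  have e1 : Poly (fun p : List (List Bool) × List (List Bool) × ℕ => p.1) := NPC.Poly.fst NPC.Poly.id
  refine NPC.Poly.all (NPC.Poly.range_length e1) ?_
  refine NPC.Poly.all (NPC.Poly.range_length (e1.comp (NPC.Poly.fst NPC.Poly.id))) ?_
  have h1 : Poly (fun q : ((List (List Bool) × List (List Bool) × ℕ) × ℕ) × ℕ => q.1.1) :=
    NPC.Poly.fst (NPC.Poly.fst NPC.Poly.id)
  have h2 : Poly (fun q : ((List (List Bool) × List (List Bool) × ℕ) × ℕ) × ℕ => q.1.2) :=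
    NPC.Poly.snd (NPC.Poly.fst NPC.Poly.id)
  have h3 : Poly (fun q : ((List (List Bool) × List (List Bool) × ℕ) × ℕ) × ℕ => q.2) :=
    NPC.Poly.snd NPC.Poly.id
  exact NPC.Poly.or (NPC.Poly.not (poly_adL' (NPC.Poly.fst (NPC.Poly.snd h1)) h2 h3))
    (NPC.Poly.decide_le (poly_cntL' (NPC.Poly.fst h1) (NPC.Poly.fst (NPC.Poly.snd h1)) h2 h3)
      (NPC.Poly.snd (NPC.Poly.snd h1)))

/-! ### Correctness -/

section Correct

variable {n : ℕ}

theorem matOf_length' (G : SimpleGraph (Fin n)) : (matOf G).length = n := by simp [matOf]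

theorem adL_matOf (G : SimpleGraph (Fin n)) (i j : Fin n) :
    adL (matOf G) i j = true ↔ G.Adj i j := by
  simp [adL, matOf]

theorem adE_matOf (G : SimpleGraph (Fin n)) (a b u v : Fin n) :
    adE (matOf G) a b u v = true ↔ (G.deleteEdges {s(a, b)}).Adj u v := by
  unfold adE
  rw [SimpleGraph.deleteEdges_adj, Bool.and_eq_true, adL_matOf]
  refine and_congr_right fun _ => ?_
  simp only [Bool.and_eq_true, Bool.not_eq_true', Bool.and_eq_false_iff, decide_eq_false_iff_not,
    Fin.val_inj, Set.mem_singleton_iff, Sym2.eq_iff]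
  tauto

theorem mem_stepL (G : SimpleGraph (Fin n)) (a b : Fin n) (l : List ℕ) (hl : ∀ u ∈ l, u < n)
    (v : ℕ) : v ∈ stepL (matOf G) a b l ↔ v < n ∧ (v ∈ l ∨ ∃ u : Fin n, (u : ℕ) ∈ l ∧
      ∃ hv : v < n, (G.deleteEdges {s(a, b)}).Adj u ⟨v, hv⟩) := by
  unfold stepL
  rw [List.mem_filter, List.mem_range, matOf_length', Bool.or_eq_true, decide_eq_true_iff,
    List.any_eq_true]
  refine and_congr_right fun hv => or_congr_right ?_
  constructor
  · rintro ⟨u, hu, h⟩
    refine ⟨⟨u, hl u hu⟩, hu, hv, ?_⟩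
    exact (adE_matOf G a b ⟨u, hl u hu⟩ ⟨v, hv⟩).1 h
  · rintro ⟨u, hu, hv', h⟩
    exact ⟨u, hu, (adE_matOf G a b u ⟨v, hv⟩).2 h⟩

theorem iter_lt (G : SimpleGraph (Fin n)) (a b x : Fin n) (k : ℕ) :
    ∀ u ∈ (stepL (matOf G) a b)^[k] [(x : ℕ)], u < n := by
  rcases k with _ | k
  · intro u hu
    simp only [Function.iterate_zero, id_eq, List.mem_singleton] at hu
    rw [hu]
    exact x.2
  · intro u hu
    rw [Function.iterate_succ_apply', stepL, List.mem_filter, List.mem_range,
      matOf_length'] at hu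
    exact hu.1

theorem iter_sound (G : SimpleGraph (Fin n)) (a b x : Fin n) (k : ℕ) (v : Fin n)
    (hv : (v : ℕ) ∈ (stepL (matOf G) a b)^[k] [(x : ℕ)]) :
    (G.deleteEdges {s(a, b)}).Reachable x v := by
  induction k generalizing v with
  | zero =>
    simp only [Function.iterate_zero, id_eq, List.mem_singleton, Fin.val_inj] at hv
    rw [hv]
  | succ k ih =>
    rw [Function.iterate_succ_apply', mem_stepL _ _ _ _ (iter_lt G a b x k)] at hv
    rcases hv.2 with h | ⟨u, hu, hv', h⟩
    · exact ih v h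
    · exact (ih u hu).trans h.reachable

theorem iter_complete (G : SimpleGraph (Fin n)) (a b x : Fin n) (k : ℕ) (v : Fin n)
    (p : (G.deleteEdges {s(a, b)}).Walk x v) (hk : p.length ≤ k) :
    (v : ℕ) ∈ (stepL (matOf G) a b)^[k] [(x : ℕ)] := by
  induction k generalizing v with
  | zero =>
    have h1 : p.length = 0 := by omega
    have h2 := SimpleGraph.Walk.eq_of_length_eq_zero h1
    simp [h2]
  | succ k ih =>
    rw [Function.iterate_succ_apply', mem_stepL _ _ _ _ (iter_lt G a b x k)]
    refine ⟨v.2, ?_⟩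
    by_cases h0 : p.length ≤ k
    · exact Or.inl (ih v p h0)
    · right
      have hn : ¬ p.Nil := by
        intro h
        have := SimpleGraph.Walk.length_eq_zero_iff.2 h
        omega
      refine ⟨p.penultimate, ih _ p.dropLast ?_, v.2, ?_⟩
      · have := SimpleGraph.Walk.length_dropLast_add_one hn
        omega
      · exact p.adj_penultimate hn

theorem mem_reachL (G : SimpleGraph (Fin n)) (a b x v : Fin n) :
    (v : ℕ) ∈ reachL (matOf G) a b x ↔ (G.deleteEdges {s(a, b)}).Reachable x v := by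
  classical
  unfold reachL
  rw [matOf_length']
  constructor
  · exact iter_sound G a b x n v
  · intro h
    obtain ⟨p, hp⟩ := h.exists_isPath
    refine iter_complete G a b x n v p ?_
    have := hp.length_lt
    rw [Fintype.card_fin] at this
    exact this.le

theorem sum_filter_range' (n : ℕ) (q : ℕ → Bool) (f : ℕ → ℕ) :
    (((List.range n).filter q).map f).sum =
      ∑ i ∈ univ.filter (fun i : Fin n => q i = true), f i := by
  rw [sum_filter, Fin.sum_univ_eq_sum_range (fun i => if q i = true then f i else 0)]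
  induction n with
  | zero => simp
  | succ n ih =>
    rw [List.range_succ, List.filter_append, List.map_append, List.sum_append, ih,
      Finset.sum_range_succ]
    congr 1
    by_cases h : q n = true
    · simp [h]
    · simp [h]

theorem length_filter_range' (n : ℕ) (q : ℕ → Bool) :
    ((List.range n).filter q).length = (univ.filter fun i : Fin n => q i = true).card := by
  have h := sum_filter_range' n q (fun _ => 1)
  rw [card_eq_sum_ones, ← h]
  simp

theorem cntL_eq (G T : SimpleGraph (Fin n)) (a b : Fin n) :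
    cntL (matOf G) (matOf T) a b = cng G T s(a, b) := by
  classical
  unfold cntL
  rw [matOf_length']
  have h1 : ((List.range n).map fun x => ((List.range n).filter fun y =>
      decide (x < y) && (adL (matOf G) x y &&
        !(decide (y ∈ reachL (matOf T) a b x)))).length).sum =
      ∑ x : Fin n, (univ.filter fun y : Fin n => (x : ℕ) < y ∧ G.Adj x y ∧
        ¬ (T.deleteEdges {s(a, b)}).Reachable x y).card := by
    have h2 := sum_filter_range' n (fun _ => true) (fun x => ((List.range n).filter fun y =>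
      decide (x < y) && (adL (matOf G) x y &&
        !(decide (y ∈ reachL (matOf T) a b x)))).length)
    rw [List.filter_true] at h2
    rw [h2, Finset.filter_true_of_mem (fun _ _ => rfl)]
    refine Finset.sum_congr rfl fun x _ => ?_
    rw [length_filter_range']
    congr 1
    ext y
    simp only [mem_filter, mem_univ, true_and, Bool.and_eq_true, decide_eq_true_iff,
      adL_matOf, Bool.not_eq_true', decide_eq_false_iff_not, mem_reachL]
  rw [h1]
  have h3 : ∑ x : Fin n, (univ.filter fun y : Fin n => (x : ℕ) < y ∧ G.Adj x y ∧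
        ¬ (T.deleteEdges {s(a, b)}).Reachable x y).card =
      ((univ : Finset (Fin n × Fin n)).filter fun q => (q.1 : ℕ) < q.2 ∧ G.Adj q.1 q.2 ∧
        ¬ (T.deleteEdges {s(a, b)}).Reachable q.1 q.2).card := by
    simp_rw [Finset.card_filter]
    rw [← Finset.univ_product_univ, Finset.sum_product]
  rw [h3]
  unfold cng
  rw [← Set.ncard_coe_finset]
  rw [← Set.InjOn.ncard_image (f := fun q : Fin n × Fin n => s(q.1, q.2))]
  · congr 1
    ext f
    simp only [Set.mem_image, Finset.coe_filter, mem_univ, true_and, Set.mem_ofPred_eq,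
      Prod.exists]
    constructor
    · rintro ⟨x, y, ⟨_, h5, h6⟩, rfl⟩
      exact ⟨h5, x, y, rfl, h6⟩
    · rintro ⟨h5, x, y, rfl, h6⟩
      rw [SimpleGraph.mem_edgeSet] at h5
      rcases lt_trichotomy (x : ℕ) y with h | h | h
      · exact ⟨x, y, ⟨h, h5, h6⟩, rfl⟩
      · exact absurd (Fin.ext h) h5.ne
      · exact ⟨y, x, ⟨h, h5.symm, fun h7 => h6 h7.symm⟩, Sym2.eq_swap⟩
  · rintro ⟨x, y⟩ h5 ⟨x', y'⟩ h6 h7
    simp only [Finset.coe_filter, mem_univ, true_and, Set.mem_ofPred_eq] at h5 h6
    rcases Sym2.eq_iff.1 h7 with ⟨h8, h9⟩ | ⟨h8, h9⟩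
    · simp only at h8 h9
      rw [h8, h9]
    · simp only at h8 h9
      subst h8
      subst h9
      exact absurd h5.1 (not_lt.2 h6.1.le)

theorem ec_le_iff (G T : SimpleGraph (Fin n)) (t : ℕ) :
    ec G T ≤ t ↔ ∀ a b : Fin n, T.Adj a b → cng G T s(a, b) ≤ t := by
  unfold ec
  constructor
  · intro h a b hab
    refine le_trans (le_csSup ?_ ?_) h
    · exact (Set.toFinite _).bddAbove
    · exact ⟨s(a, b), hab, rfl⟩
  · intro h
    refine csSup_le' ?_
    rintro _ ⟨e, he, rfl⟩
    induction e with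
    | _ a b => exact h a b he

theorem ecTest_iff (G T : SimpleGraph (Fin n)) (t : ℕ) :
    ecTest (matOf G, matOf T, t) = true ↔ ec G T ≤ t := by
  rw [ec_le_iff]
  unfold ecTest
  simp only [List.all_eq_true, List.mem_range, matOf_length', Bool.or_eq_true,
    Bool.not_eq_true', decide_eq_true_iff]
  constructor
  · intro h a b hab
    rcases h a a.2 b b.2 with h1 | h1
    · rw [← Bool.not_eq_true, adL_matOf] at h1
      exact absurd hab h1
    · rwa [cntL_eq] at h1
  · intro h a ha b hb
    by_cases h1 : T.Adj ⟨a, ha⟩ ⟨b, hb⟩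
    · right
      have := h _ _ h1
      rwa [← cntL_eq] at this
    · left
      rw [← Bool.not_eq_true]
      exact fun h2 => h1 ((adL_matOf T ⟨a, ha⟩ ⟨b, hb⟩).1 h2)

end Correct

theorem exists_ecB : ∃ ecB : List (List Bool) × List (List Bool) × ℕ → Bool,
    Poly ecB ∧ IsEcB ecB :=
  ⟨ecTest, poly_ecTest, fun _ t G T => ecTest_iff G T t⟩

end Pool.Agent.H820R2.SC
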