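import Pool.Agent.H820R2.SC.Core

/-!
# T2: a spanning tree of small congestion of the model gives a good set of bundles (helper51)
-/

namespace Pool.Agent.H820R2.SC

open Finset Pool.Agent.NPC Pool.Agent.H557R2.Fpt

namespace T2

variable {X B : Type} {S : Sys X B} {V : Type} {G : SimpleGraph V} {φ : V → X ⊕ (B × ℕ)}

/-- the bundles with a mid of degree two in `H` -/
def FH (S : Sys X B) (φ : V → X ⊕ (B × ℕ)) (H : SimpleGraph V) : Set B :=
  {b | ∃ (l : ℕ) (m vp vq : V), φ m = .inr (b, l) ∧ φ vp = .inl (S.p b) ∧ φ vq = .inl (S.q b) ∧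
    H.Adj m vp ∧ H.Adj m vq}

/-- retraction of an `H`-path to the bundles -/
lemma retract (hM : S.IsModel G φ) (H : SimpleGraph V) (hH : H ≤ G) {v0 v : V} {x : X}
    (h0 : φ v0 = .inl x) (h : H.Reachable v0 v) :
    (∀ y, φ v = .inl y → S.Conn (FH S φ H) x y) ∧
    (∀ b l, φ v = .inr (b, l) → ∀ w y, H.Adj v w → φ w = .inl y → S.Conn (FH S φ H) x y) := by
  have h' : Relation.ReflTransGen H.Adj v0 v := (SimpleGraph.reachable_iff_reflTransGen v0 v).1 h
  clear h
  induction h' with
  | refl =>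
    constructor
    · intro y hy
      rw [h0] at hy
      have : x = y := Sum.inl.inj hy
      subst this
      exact Sys.Conn.refl _ _ _
    · intro b l hb
      rw [h0] at hb
      cases hb
  | @tail v v' _ hadj ih =>
    have hG := (hM.adj v v').1 (hH hadj)
    constructor
    · intro y hy
      rcases hv : φ v with z | ⟨b, l⟩
      · rw [hv, hy] at hG
        exact hG.elim
      · exact ih.2 b l hv v' y hadj hy
    · intro b l hb w y hw hy
      rcases hv : φ v with z | ⟨b', l'⟩
      · rw [hv, hb] at hG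
        have hz : z = S.p b ∨ z = S.q b := hG
        have hG2 := (hM.adj v' w).1 (hH hw)
        rw [hb, hy] at hG2
        have hyy : y = S.p b ∨ y = S.q b := hG2
        have hxz := ih.1 z hv
        rcases hz with hz | hz <;> rcases hyy with hyy | hyy
        · rw [hyy, ← hz]; exact hxz
        · refine hxz.trans ?_
          rw [hz, hyy]
          exact Sys.Conn.of_mem ⟨l, v', v, w, hb, by rw [hv, hz], by rw [hy, hyy], hadj.symm, hw⟩
        · refine hxz.trans ?_
          rw [hz, hyy]
          refine Sys.Conn.symm ?_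
          exact Sys.Conn.of_mem ⟨l, v', w, v, hb, by rw [hy, hyy], by rw [hv, hz], hw,
            hadj.symm⟩
        · rw [hyy, ← hz]; exact hxz
      · rw [hv, hb] at hG
        exact hG.elim

/-- bundles of `F` other than `b` survive the removal of an edge at a mid of `b` -/
lemma reach_of_conn (hM : S.IsModel G φ) (T : SimpleGraph V) {b : B} {l : ℕ} {m vp : V}
    (hm : φ m = .inr (b, l)) (hvp : φ vp = .inl (S.p b)) {x y : X}
    (h : S.Conn (FH S φ T \ {b}) x y) :
    ∀ vx vy, φ vx = .inl x → φ vy = .inl y → (T.deleteEdges {s(m, vp)}).Reachable vx vy := by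
  have step : ∀ b' ∈ FH S φ T \ {b}, ∀ vx vy, φ vx = .inl (S.p b') → φ vy = .inl (S.q b') →
      (T.deleteEdges {s(m, vp)}).Reachable vx vy := by
    rintro b' ⟨⟨l', m', vp', vq', h1, h2, h3, h4, h5⟩, hne⟩ vx vy hx hy
    have e1 : vx = vp' := hM.inj (hx.trans h2.symm)
    have e2 : vy = vq' := hM.inj (hy.trans h3.symm)
    subst e1 e2
    have hmm : m' ≠ m := by
      rintro rfl
      rw [h1] at hm
      have := (Prod.ext_iff.1 (Sum.inr.inj hm)).1
      exact hne this
    have hmv : m' ≠ vp := by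
      rintro rfl
      rw [h1] at hvp
      cases hvp
    have a1 : (T.deleteEdges {s(m, vp)}).Adj m' vx := by
      rw [SimpleGraph.deleteEdges_adj]
      refine ⟨h4, ?_⟩
      rw [Set.mem_singleton_iff, Sym2.eq_iff]
      rintro (⟨h6, -⟩ | ⟨h6, -⟩)
      · exact hmm h6
      · exact hmv h6
    have a2 : (T.deleteEdges {s(m, vp)}).Adj m' vy := by
      rw [SimpleGraph.deleteEdges_adj]
      refine ⟨h5, ?_⟩
      rw [Set.mem_singleton_iff, Sym2.eq_iff]
      rintro (⟨h6, -⟩ | ⟨h6, -⟩)
      · exact hmm h6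
      · exact hmv h6
    exact a1.reachable.symm.trans a2.reachable
  induction h with
  | refl =>
    intro vx vy hx hy
    have : vx = vy := hM.inj (hx.trans hy.symm)
    rw [this]
  | @tail z y _ h2 ih =>
    intro vx vy hx hy
    obtain ⟨b', hb', h3⟩ := h2
    obtain ⟨l', m', vp', vq', g1, g2, g3, g4, g5⟩ := hb'.1
    rcases h3 with ⟨h3, h4⟩ | ⟨h3, h4⟩
    · exact (ih vx vp' hx (by rw [g2, h3])).trans
        (step b' hb' vp' vy g2 (by rw [hy, h4]))
    · exact (ih vx vq' hx (by rw [g3, h4])).trans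
        (step b' hb' vy vq' (by rw [hy, h3]) g3).symm

end T2

open T2 in
/-- T2 -/
theorem good_of_stcLe {X B : Type} {S : Sys X B} {V : Type} {G : SimpleGraph V}
    {φ : V → X ⊕ (B × ℕ)} [Finite V] (hM : S.IsModel G φ) {t : ℕ} (h : StcLe G t) :
    ∃ F, S.Good F t := by
  classical
  obtain ⟨T, hTG, hTree, hec⟩ := h
  have hval : ∀ b l (m : V), φ m = .inr (b, l) → b ∈ S.bund ∧ l < S.μ b := by
    intro b l m hm
    have := hM.valid m
    rw [hm] at this
    exact this
  have hbridge : ∀ m v : V, T.Adj m v → ¬ (T.deleteEdges {s(m, v)}).Reachable m v := by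
    intro m v hadj
    have := (SimpleGraph.isAcyclic_iff_forall_adj_isBridge.1 hTree.isAcyclic) hadj
    rw [SimpleGraph.isBridge_iff] at this
    exact this
  refine ⟨FH S φ T, ?_, ?_, ?_, ?_⟩
  · rintro b ⟨l, m, vp, vq, h1, -⟩
    exact (hval b l m h1).1
  · intro x hx y hy
    obtain ⟨vx, hvx⟩ := hM.surj (.inl x) hx
    obtain ⟨vy, hvy⟩ := hM.surj (.inl y) hy
    exact (retract hM T hTG hvx (hTree.connected.preconnected vx vy)).1 y hvy
  · intro b hb hcon
    obtain ⟨l, m, vp, vq, h1, h2, h3, h4, h5⟩ := hb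
    have hbb := (hval b l m h1).1
    have hr := reach_of_conn hM T h1 h2 hcon vp vq h2 h3
    have hvpq : vq ≠ vp := by
      rintro rfl
      rw [h2] at h3
      exact S.hne b hbb (Sum.inl.inj h3)
    have a1 : (T.deleteEdges {s(m, vp)}).Adj m vq := by
      rw [SimpleGraph.deleteEdges_adj]
      refine ⟨h5, ?_⟩
      rw [Set.mem_singleton_iff, Sym2.eq_iff]
      rintro (⟨-, h6⟩ | ⟨h6, h7⟩)
      · exact hvpq h6
      · exact h5.ne h7.symm
    exact hbridge m vp h4 (a1.reachable.trans hr.symm)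
  · intro b hb
    obtain ⟨l, m, vp, vq, h1, h2, h3, h4, h5⟩ := hb
    have hbb := (hval b l m h1).1
    have hvpq : vq ≠ vp := by
      rintro rfl
      rw [h2] at h3
      exact S.hne b hbb (Sum.inl.inj h3)
    set H := T.deleteEdges {s(m, vp)} with hH
    have hHT : H ≤ T := SimpleGraph.deleteEdges_le _
    have a1 : H.Adj m vq := by
      rw [hH, SimpleGraph.deleteEdges_adj]
      refine ⟨h5, ?_⟩
      rw [Set.mem_singleton_iff, Sym2.eq_iff]
      rintro (⟨-, h6⟩ | ⟨h6, h7⟩)
      · exact hvpq h6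
      · exact h5.ne h7.symm
    have hFH : FH S φ H ⊆ FH S φ T \ {b} := by
      rintro b' ⟨l', m', vp', vq', g1, g2, g3, g4, g5⟩
      refine ⟨⟨l', m', vp', vq', g1, g2, g3, hHT g4, hHT g5⟩, ?_⟩
      rintro rfl
      have e1 : vp' = vp := hM.inj (g2.trans h2.symm)
      have e2 : vq' = vq := hM.inj (g3.trans h3.symm)
      subst e1 e2
      exact hbridge m vp' h4 (a1.reachable.trans (g5.reachable.symm.trans g4.reachable))
    -- the crossing edges
    set C : Set (Sym2 V) := {f ∈ G.edgeSet | ∃ x y, f = s(x, y) ∧ ¬ H.Reachable x y} with hC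
    have hCfin : C.Finite := Set.toFinite C
    have hCt : C.ncard ≤ t := by
      refine le_trans ?_ hec
      unfold ec
      refine le_csSup (Set.toFinite _).bddAbove ?_
      exact ⟨s(m, vp), h4, rfl⟩
    have key : ∀ b' l', b' ∈ S.bund → l' < S.μ b' →
        ¬ S.Conn (FH S φ T \ {b}) (S.p b') (S.q b') →
        ∃ f ∈ C, ∃ m' v', f = s(m', v') ∧ φ m' = .inr (b', l') ∧ ∃ z, φ v' = .inl z := by
      intro b' l' hb' hl' hnc
      obtain ⟨m', hm'⟩ := hM.surj (.inr (b', l')) ⟨hb', hl'⟩
      obtain ⟨vp', hvp'⟩ := hM.surj (.inl (S.p b')) (S.hp b' hb')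
      obtain ⟨vq', hvq'⟩ := hM.surj (.inl (S.q b')) (S.hq b' hb')
      have adp : G.Adj m' vp' := by
        rw [hM.adj, hm', hvp']
        exact Or.inl rfl
      have adq : G.Adj m' vq' := by
        rw [hM.adj, hm', hvq']
        exact Or.inr rfl
      by_cases hp : H.Reachable m' vp'
      · by_cases hq : H.Reachable m' vq'
        · exfalso
          apply hnc
          exact ((retract hM H (hHT.trans hTG) hvp' (hp.symm.trans hq)).1 _ hvq').mono hFH
        · exact ⟨s(m', vq'), ⟨adq, m', vq', rfl, hq⟩, m', vq', rfl, hm', _, hvq'⟩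
      · exact ⟨s(m', vp'), ⟨adp, m', vp', rfl, hp⟩, m', vp', rfl, hm', _, hvp'⟩
    have main : ∀ A : Finset B, (∀ b' ∈ A, b' ∈ S.bund ∧
        ¬ S.Conn (FH S φ T \ {b}) (S.p b') (S.q b')) → ∑ b' ∈ A, S.μ b' ≤ t := by
      intro A hA
      refine le_trans ?_ hCt
      rw [Set.ncard_eq_toFinset_card C hCfin]
      have hex : ∀ x : (Σ _ : B, ℕ), ∃ f : Sym2 V, x ∈ A.sigma (fun b' => range (S.μ b')) →
          f ∈ C ∧ ∃ m' v', f = s(m', v') ∧ φ m' = .inr (x.1, x.2) ∧ ∃ z, φ v' = .inl z := by
        intro x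
        by_cases hx : x ∈ A.sigma (fun b' => range (S.μ b'))
        · have hx' := Finset.mem_sigma.1 hx
          obtain ⟨f, hf, h7⟩ := key x.1 x.2 (hA _ hx'.1).1 (Finset.mem_range.1 hx'.2)
            (hA _ hx'.1).2
          exact ⟨f, fun _ => ⟨hf, h7⟩⟩
        · exact ⟨s(m, m), fun h => absurd h hx⟩
      choose f hf using hex
      have hcard : (A.sigma (fun b' => range (S.μ b'))).card ≤ hCfin.toFinset.card := by
        refine Finset.card_le_card_of_injOn f ?_ ?_
        · intro x hx
          rw [Finset.mem_coe, Set.Finite.mem_toFinset]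
          exact (hf x hx).1
        · intro x hx y hy hxy
          obtain ⟨-, m1, v1, e1, e2, z1, e3⟩ := hf x hx
          obtain ⟨-, m2, v2, e4, e5, z2, e6⟩ := hf y hy
          rw [e1, e4, Sym2.eq_iff] at hxy
          rcases hxy with ⟨h8, -⟩ | ⟨h8, -⟩
          · rw [h8, e5] at e2
            have h9 := Sum.inr.inj e2
            have h10 := Prod.ext_iff.1 h9
            rcases x with ⟨x1, x2⟩
            rcases y with ⟨y1, y2⟩
            simp only at h10
            obtain ⟨h11, h12⟩ := h10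
            subst h11 h12
            rfl
          · rw [h8, e6] at e2
            cases e2
      rw [Finset.card_sigma] at hcard
      simpa using hcard
    exact main _ (fun b' hb' => Finset.mem_filter.1 hb')

end Pool.Agent.H820R2.SC
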