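import Pool.Agent.H820R2.SC.Core

namespace Pool.Agent.H820R2.SC

open Finset

variable {X B : Type} {S : Sys X B} {V : Type} {G : SimpleGraph V} {φ : V → X ⊕ (B × ℕ)}

/-- T3 -/
theorem connected_model (hM : S.IsModel G φ) (hne : S.verts.Nonempty)
    (hc : ∀ x ∈ S.verts, ∀ y ∈ S.verts, S.Conn {b | b ∈ S.bund} x y) : G.Connected := by
  obtain ⟨x0, hx0⟩ := hne
  obtain ⟨v0, hv0⟩ := hM.surj (.inl x0) hx0
  -- an X-vertex and a mid of a bundle at it are adjacent
  have hadj : ∀ b ∈ S.bund, ∀ l, l < S.μ b → ∀ x, (x = S.p b ∨ x = S.q b) → ∀ v w, φ v = .inl x →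
      φ w = .inr (b, l) → G.Adj v w := by
    intro b hb l hl x hx v w hv hw
    rw [hM.adj, hv, hw]
    exact hx
  have hlink : ∀ x y, S.Conn {b | b ∈ S.bund} x y → ∀ v w, φ v = .inl x → φ w = .inl y →
      G.Reachable v w := by
    intro x y h
    induction h with
    | refl =>
      intro v w hv hw
      have : v = w := hM.inj (hv.trans hw.symm)
      subst this
      exact SimpleGraph.Reachable.refl _
    | @tail y z _ h2 ih =>
      intro v w hv hw
      obtain ⟨b, hb, h2⟩ := h2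
      have hb : b ∈ S.bund := hb
      have hy : y ∈ S.verts := by
        rcases h2 with ⟨h, -⟩ | ⟨-, h⟩
        · exact h ▸ S.hp b hb
        · exact h ▸ S.hq b hb
      obtain ⟨y', hy'⟩ := hM.surj (.inl y) hy
      obtain ⟨m, hm⟩ := hM.surj (.inr (b, 0)) ⟨hb, S.hμ b hb⟩
      have h3 := hadj b hb 0 (S.hμ b hb) y (by rcases h2 with ⟨h, -⟩ | ⟨-, h⟩ <;> simp [h]) y' m hy' hm
      have h4 := hadj b hb 0 (S.hμ b hb) z (by rcases h2 with ⟨-, h⟩ | ⟨h, -⟩ <;> simp [h]) w m hw hm
      exact (ih v y' hv hy').trans (h3.reachable.trans h4.reachable.symm)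
  have hall : ∀ v, G.Reachable v v0 := by
    intro v
    have hval := hM.valid v
    cases hφ : φ v with
    | inl x =>
      rw [hφ] at hval
      exact hlink x x0 (hc x hval x0 hx0) v v0 hφ hv0
    | inr bl =>
      obtain ⟨b, l⟩ := bl
      rw [hφ] at hval
      obtain ⟨hb, hl⟩ := hval
      obtain ⟨w, hw⟩ := hM.surj (.inl (S.p b)) (S.hp b hb)
      have h1 := hadj b hb l hl (S.p b) (Or.inl rfl) w v hw hφ
      exact h1.reachable.symm.trans (hlink _ x0 (hc _ (S.hp b hb) x0 hx0) w v0 hw hv0)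
  haveI : Nonempty V := ⟨v0⟩
  exact SimpleGraph.Connected.mk fun v w => (hall v).trans (hall w).symm

end Pool.Agent.H820R2.SC
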