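import Pool.Agent.H820R2.SC.Core

/-!
# Level drawings
-/

namespace Pool.Agent.H820R2.SC

section level

variable {V : Type} {G : SimpleGraph V}

theorem seg_param {a b z : ℝ × ℝ} (hz : z ∈ segment ℝ a b) :
    ∃ s : ℝ, 0 ≤ s ∧ s ≤ 1 ∧ z.1 = (1 - s) * a.1 + s * b.1 ∧ z.2 = (1 - s) * a.2 + s * b.2 := by
  obtain ⟨c, s, hc, hs, hcs, rfl⟩ := hz
  refine ⟨s, hs, by linarith, ?_, ?_⟩
  · have : c = 1 - s := by linarith
    subst this
    simp
  · have : c = 1 - s := by linarith
    subst this
    simp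

theorem level_vertex (h x : V → ℕ) (inj : ∀ u v, h u = h v → x u = x v → u = v)
    {u v w : V} (huv : h v = h u + 1)
    (hw : ((x w : ℝ), (h w : ℝ)) ∈ segment ℝ ((x u : ℝ), (h u : ℝ)) ((x v : ℝ), (h v : ℝ))) :
    w = u ∨ w = v := by
  obtain ⟨s, hs0, hs1, h1, h2⟩ := seg_param hw
  simp only at h1 h2
  have hv : (h v : ℝ) = h u + 1 := by rw [huv]; push_cast; ring
  rw [hv] at h2
  have h3 : (h w : ℝ) = h u + s := by rw [h2]; ring
  have h4 : h u ≤ h w := by
    have : (h u : ℝ) ≤ h w := by linarith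
    exact_mod_cast this
  have h5 : h w ≤ h u + 1 := by
    have : (h w : ℝ) ≤ ((h u + 1 : ℕ) : ℝ) := by push_cast; linarith
    exact_mod_cast this
  have h6 : h w = h u ∨ h w = h v := by omega
  rcases h6 with h6 | h6
  · left
    have hs : s = 0 := by rw [h6] at h3; linarith
    subst hs
    refine inj _ _ h6 ?_
    have : (x w : ℝ) = x u := by rw [h1]; ring
    exact_mod_cast this
  · right
    have hs : s = 1 := by rw [h6, hv] at h3; linarith
    subst hs
    refine inj _ _ h6 ?_
    have : (x w : ℝ) = x v := by rw [h1]; ring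
    exact_mod_cast this

theorem level_edge (h x : V → ℕ) (inj : ∀ u v, h u = h v → x u = x v → u = v)
    (mono : ∀ u v u' v', G.Adj u v → G.Adj u' v' → h v = h u + 1 → h u' = h u → h v' = h v →
      x u < x u' → x v ≤ x v') {a b c d : V} (hab : G.Adj a b) (hcd : G.Adj c d)
    (hab' : h b = h a + 1) (hcd' : h d = h c + 1) (hne : ¬ (a = c ∧ b = d)) {z : ℝ × ℝ}
    (h1 : z ∈ segment ℝ ((x a : ℝ), (h a : ℝ)) ((x b : ℝ), (h b : ℝ)))
    (h2 : z ∈ segment ℝ ((x c : ℝ), (h c : ℝ)) ((x d : ℝ), (h d : ℝ))) :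
    (z = ((x a : ℝ), (h a : ℝ)) ∨ z = ((x b : ℝ), (h b : ℝ))) ∧
      (z = ((x c : ℝ), (h c : ℝ)) ∨ z = ((x d : ℝ), (h d : ℝ))) := by
  obtain ⟨s, hs0, hs1, hz1, hz2⟩ := seg_param h1
  obtain ⟨t, ht0, ht1, hz3, hz4⟩ := seg_param h2
  simp only at hz1 hz2 hz3 hz4
  have hb : (h b : ℝ) = h a + 1 := by rw [hab']; push_cast; ring
  have hd : (h d : ℝ) = h c + 1 := by rw [hcd']; push_cast; ring
  rw [hb] at hz2
  rw [hd] at hz4
  have hz2' : z.2 = h a + s := by rw [hz2]; ring
  have hz4' : z.2 = h c + t := by rw [hz4]; ring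
  rcases lt_trichotomy (h a) (h c) with hac | hac | hac
  · have h5 : (h a : ℝ) + 1 ≤ h c := by exact_mod_cast hac
    have hs : s = 1 := by linarith
    have ht : t = 0 := by linarith
    subst hs ht
    refine ⟨Or.inr (Prod.ext (by rw [hz1]; ring) (by rw [hz2', hb])),
      Or.inl (Prod.ext (by rw [hz3]; ring) (by rw [hz4']; ring))⟩
  · have hacR : (h a : ℝ) = h c := by exact_mod_cast hac
    have hst : s = t := by linarith
    subst hst
    rcases lt_trichotomy (x a) (x c) with hx | hx | hx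
    · have h6 := mono a b c d hab hcd hab' hac.symm (by omega) hx
      have h7 : (x a : ℝ) < x c := by exact_mod_cast hx
      have h8 : (x b : ℝ) ≤ x d := by exact_mod_cast h6
      have h9 : (1 - s) * ((x c : ℝ) - x a) + s * ((x d : ℝ) - x b) = 0 := by
        have := hz1.symm.trans hz3
        linarith
      have h10 : 0 ≤ (1 - s) * ((x c : ℝ) - x a) := mul_nonneg (by linarith) (by linarith)
      have h11 : 0 ≤ s * ((x d : ℝ) - x b) := mul_nonneg hs0 (by linarith)
      have h12 : (1 - s) * ((x c : ℝ) - x a) = 0 := by linarith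
      have h13 : s = 1 := by
        rcases mul_eq_zero.1 h12 with h | h
        · linarith
        · linarith
      subst h13
      refine ⟨Or.inr (Prod.ext (by rw [hz1]; ring) (by rw [hz2', hb])),
        Or.inr (Prod.ext (by rw [hz3]; ring) (by rw [hz4', hd]))⟩
    · have hac' : a = c := inj _ _ hac hx
      subst hac'
      have hbd : x b ≠ x d := by
        intro h
        exact hne ⟨rfl, inj _ _ (by omega) h⟩
      have h9 : s * ((x d : ℝ) - x b) = 0 := by
        have := hz1.symm.trans hz3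
        linarith
      have hs : s = 0 := by
        rcases mul_eq_zero.1 h9 with h | h
        · exact h
        · exact absurd (by exact_mod_cast (show (x b : ℝ) = x d by linarith)) hbd
      subst hs
      refine ⟨Or.inl (Prod.ext (by rw [hz1]; ring) (by rw [hz2']; ring)),
        Or.inl (Prod.ext (by rw [hz3]; ring) (by rw [hz4']; ring))⟩
    · have h6 := mono c d a b hcd hab hcd' hac (by omega) hx
      have h7 : (x c : ℝ) < x a := by exact_mod_cast hx
      have h8 : (x d : ℝ) ≤ x b := by exact_mod_cast h6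
      have h9 : (1 - s) * ((x a : ℝ) - x c) + s * ((x b : ℝ) - x d) = 0 := by
        have := hz1.symm.trans hz3
        linarith
      have h10 : 0 ≤ (1 - s) * ((x a : ℝ) - x c) := mul_nonneg (by linarith) (by linarith)
      have h11 : 0 ≤ s * ((x b : ℝ) - x d) := mul_nonneg hs0 (by linarith)
      have h12 : (1 - s) * ((x a : ℝ) - x c) = 0 := by linarith
      have h13 : s = 1 := by
        rcases mul_eq_zero.1 h12 with h | h
        · linarith
        · linarith
      subst h13
      refine ⟨Or.inr (Prod.ext (by rw [hz1]; ring) (by rw [hz2', hb])),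
        Or.inr (Prod.ext (by rw [hz3]; ring) (by rw [hz4', hd]))⟩
  · have h5 : (h c : ℝ) + 1 ≤ h a := by exact_mod_cast hac
    have hs : s = 0 := by linarith
    have ht : t = 1 := by linarith
    subst hs ht
    refine ⟨Or.inl (Prod.ext (by rw [hz1]; ring) (by rw [hz2']; ring)),
      Or.inr (Prod.ext (by rw [hz3]; ring) (by rw [hz4', hd]))⟩

/-- T4a -/
theorem isPlane_of_level (h x : V → ℕ) (inj : ∀ u v, h u = h v → x u = x v → u = v)
    (edge : ∀ u v, G.Adj u v → h v = h u + 1 ∨ h u = h v + 1)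
    (mono : ∀ u v u' v', G.Adj u v → G.Adj u' v' → h v = h u + 1 → h u' = h u → h v' = h v →
      x u < x u' → x v ≤ x v') :
    IsPlaneDrawing G (fun v => ((x v : ℝ), (h v : ℝ))) where
  inj := by
    intro u v huv
    simp only [Prod.mk.injEq, Nat.cast_inj] at huv
    exact inj _ _ huv.2 huv.1
  vertex := by
    intro u v w huv hw
    rcases edge u v huv with h1 | h1
    · exact level_vertex h x inj h1 hw
    · rw [segment_symm] at hw
      exact (level_vertex h x inj h1 hw).symm
  edge := by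
    intro a b c d hab hcd hne z hz1 hz2
    rcases edge a b hab with h1 | h1 <;> rcases edge c d hcd with h2 | h2
    · refine level_edge h x inj mono hab hcd h1 h2 ?_ hz1 hz2
      rintro ⟨rfl, rfl⟩
      exact hne rfl
    · rw [segment_symm ℝ ((x c : ℝ), (h c : ℝ))] at hz2
      have := level_edge h x inj mono hab hcd.symm h1 h2 (by
        rintro ⟨rfl, rfl⟩
        exact hne Sym2.eq_swap) hz1 hz2
      exact ⟨this.1, this.2.symm⟩
    · rw [segment_symm ℝ ((x a : ℝ), (h a : ℝ))] at hz1
      have := level_edge h x inj mono hab.symm hcd h1 h2 (by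
        rintro ⟨rfl, rfl⟩
        exact hne Sym2.eq_swap) hz1 hz2
      exact ⟨this.1.symm, this.2⟩
    · rw [segment_symm ℝ ((x a : ℝ), (h a : ℝ))] at hz1
      rw [segment_symm ℝ ((x c : ℝ), (h c : ℝ))] at hz2
      have := level_edge h x inj mono hab.symm hcd.symm h1 h2 (by
        rintro ⟨rfl, rfl⟩
        exact hne rfl) hz1 hz2
      exact ⟨this.1.symm, this.2.symm⟩

theorem drawn_le (h x : V → ℕ) (k : ℕ) (A : Set V) (hk : ∀ v ∈ A, h v ≤ k) {z : ℝ × ℝ}
    (hz : z ∈ drawn G (fun v => ((x v : ℝ), (h v : ℝ))) A) : z.2 ≤ k := by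
  obtain ⟨a, ha, h1 | ⟨b, hb, -, h1⟩⟩ := hz
  · rw [h1]
    show (h a : ℝ) ≤ k
    exact_mod_cast hk a ha
  · obtain ⟨s, hs0, hs1, -, h2⟩ := seg_param h1
    simp only at h2
    have h3 : (h a : ℝ) ≤ k := by exact_mod_cast hk a ha
    have h4 : (h b : ℝ) ≤ k := by exact_mod_cast hk b hb
    rw [h2]
    nlinarith

theorem mem_outer_of_top (h x : V → ℕ) (k : ℕ) (A : Set V) (hk : ∀ v ∈ A, h v ≤ k) {v : V}
    (hv : v ∈ A) (hvk : h v = k) : v ∈ outer G (fun v => ((x v : ℝ), (h v : ℝ))) A := by
  refine ⟨hv, ?_⟩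
  set C : Set (ℝ × ℝ) := {z | z.1 = x v ∧ (k : ℝ) < z.2} with hC
  have hsub : C ⊆ outerFace (drawn G (fun v => ((x v : ℝ), (h v : ℝ))) A) := by
    intro z hz
    refine ⟨C, ?_, ?_, ?_, hz⟩
    · intro y hy hyd
      have := drawn_le h x k A hk hyd
      exact absurd hy.2 (not_lt.2 this)
    · apply Convex.isPreconnected
      intro a ha b hb s t hs ht hst
      refine ⟨?_, ?_⟩
      · simp only [Prod.fst_add, Prod.smul_fst, smul_eq_mul, ha.1, hb.1]
        rw [← add_mul, hst, one_mul]
      · simp only [Prod.snd_add, Prod.smul_snd, smul_eq_mul]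
        have h1 := ha.2
        have h2 := hb.2
        rcases eq_or_lt_of_le hs with h3 | h3
        · have : t = 1 := by linarith
          rw [← h3, this]
          linarith
        · have ht' : s = 1 - t := by linarith
          have h5 : s * (k : ℝ) < s * a.2 := mul_lt_mul_of_pos_left h1 h3
          have h6 : t * (k : ℝ) ≤ t * b.2 := mul_le_mul_of_nonneg_left h2.le ht
          have h7 : s * (k : ℝ) + t * k = k := by rw [← add_mul, hst, one_mul]
          linarith
    · intro hb
      obtain ⟨R, hR⟩ := isBounded_iff_forall_norm_le.1 hb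
      have h1 : (((x v : ℝ), |R| + k + 1) : ℝ × ℝ) ∈ C :=
        ⟨rfl, by have := abs_nonneg R; simp only; linarith⟩
      have h2 := hR _ h1
      have h3 : ‖(|R| + k + 1 : ℝ)‖ ≤ ‖(((x v : ℝ), |R| + k + 1) : ℝ × ℝ)‖ :=
        norm_snd_le (((x v : ℝ), |R| + k + 1) : ℝ × ℝ)
      have h4 : (|R| + k + 1 : ℝ) ≤ ‖(|R| + k + 1 : ℝ)‖ := Real.le_norm_self _
      have h5 := le_abs_self R
      have h6 : (0 : ℝ) ≤ k := Nat.cast_nonneg _
      linarith
  refine closure_mono hsub ?_
  rw [Metric.mem_closure_iff]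
  intro ε hε
  refine ⟨((x v : ℝ), (k : ℝ) + ε / 2), ⟨rfl, by simp only; linarith⟩, ?_⟩
  rw [Prod.dist_eq]
  simp only [dist_self, hvk]
  rw [Real.dist_eq]
  have : |(k : ℝ) - (k + ε / 2)| = ε / 2 := by
    rw [abs_of_nonpos (by linarith)]
    ring
  rw [this]
  exact max_lt hε (by linarith)

/-- T4b -/
theorem peel_of_level (h x : V → ℕ) (k : ℕ) (A : Set V)
    (hk : ∀ v ∈ A, h v < k) : Peel G (fun v => ((x v : ℝ), (h v : ℝ))) k A := by
  induction k generalizing A with
  | zero =>
    show A = ∅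
    ext v
    simp only [Set.mem_empty_iff_false, iff_false]
    intro hv
    exact absurd (hk v hv) (Nat.not_lt_zero _)
  | succ k ih =>
    show Peel G _ k (A \ outer G _ A)
    apply ih
    intro v hv
    have h1 := hk v hv.1
    by_contra h2
    have h3 : h v = k := by omega
    exact hv.2 (mem_outer_of_top h x k A (fun w hw => by have := hk w hw; omega) hv.1 h3)

end level

end Pool.Agent.H820R2.SC
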