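import Pool.Agent.H820R2.SC.T5core
import Pool.Agent.H820R2.SC.T4

namespace Pool.Agent.H820R2.SC

open Finset Pool.Agent.NPC Pool.Agent.H557R2.Fpt

variable {X B : Type} {S : Sys X B} {V : Type} {G : SimpleGraph V} {φ : V → X ⊕ (B × ℕ)}

theorem level_model [Finite V] (hM : S.IsModel G φ) (ht xx : X → ℕ) (pos : B → ℕ) (H : ℕ)
    (inj : ∀ x ∈ S.verts, ∀ y ∈ S.verts, ht x = ht y → xx x = xx y → x = y)
    (even : ∀ x ∈ S.verts, Even (ht x))
    (edge : ∀ b ∈ S.bund, ht (S.q b) = ht (S.p b) + 2)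
    (posinj : ∀ b ∈ S.bund, ∀ b' ∈ S.bund, ht (S.p b) = ht (S.p b') → pos b = pos b' → b = b')
    (mono : ∀ b ∈ S.bund, ∀ b' ∈ S.bund, ht (S.p b) = ht (S.p b') → pos b < pos b' →
      xx (S.p b) ≤ xx (S.p b') ∧ xx (S.q b) ≤ xx (S.q b'))
    (hH : ∀ x ∈ S.verts, ht x < H) : IsKOuterplanar H G := by
  obtain ⟨h, x, h1, h2, h3, h4⟩ := t5_core hM ht xx pos H inj even edge posinj mono hH
  exact ⟨_, isPlane_of_level h x h1 h2 h3, peel_of_level h x H Set.univ (fun v _ => h4 v)⟩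

end Pool.Agent.H820R2.SC
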