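import Pool.Agent.H820R2.SC.Core

/-!
# The gadget is `(8R+3)`-outerplanar
-/

namespace Pool.Agent.H820R2.SC

/-- The heights. -/
def htG : GX → ℕ
  | .q j _ => 8 * j
  | .u i _ => 8 * i + 2
  | .z i _ => 8 * i + 4
  | .l i _ => 8 * i + 6
  | .zr j => 8 * j + 2
  | .o n => 2 * n

/-- The horizontal order. -/
def xxG (m : ℕ) : GX → ℕ
  | .q _ c => c
  | .u _ c => c
  | .z _ c => c
  | .l _ c => c
  | .zr _ => m + 1
  | .o _ => m + 2

/-- The positions of the bundles. -/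
def posG (m : ℕ) : GB → ℕ
  | .uL _ c => 2 * c
  | .uR _ c => 2 * c + 1
  | .lL _ c => 2 * c
  | .lR _ c => 2 * c + 1
  | .uz _ c => 2 * c
  | .zl _ c => 2 * c
  | .qz _ => 2 * m + 2
  | .zo _ => 2 * m + 3
  | .ch _ => 2 * m + 4

theorem htG_Q (P : Par) (j c : ℕ) : htG (P.Q j c) = 8 * j := by
  unfold Par.Q
  split_ifs <;> rfl

theorem xxG_Q (P : Par) (m j c : ℕ) :
    xxG m (P.Q j c) = if j = 0 ∨ j = P.R then 0 else c := by
  unfold Par.Q
  split_ifs <;> rfl

theorem htG_q (j c : ℕ) : htG (.q j c) = 8 * j := rfl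
theorem htG_u (j c : ℕ) : htG (.u j c) = 8 * j + 2 := rfl
theorem htG_z (j c : ℕ) : htG (.z j c) = 8 * j + 4 := rfl
theorem htG_l (j c : ℕ) : htG (.l j c) = 8 * j + 6 := rfl
theorem htG_zr (j : ℕ) : htG (.zr j) = 8 * j + 2 := rfl
theorem htG_o (n : ℕ) : htG (.o n) = 2 * n := rfl
theorem xxG_q (m j c : ℕ) : xxG m (.q j c) = c := rfl
theorem xxG_u (m j c : ℕ) : xxG m (.u j c) = c := rfl
theorem xxG_z (m j c : ℕ) : xxG m (.z j c) = c := rfl
theorem xxG_l (m j c : ℕ) : xxG m (.l j c) = c := rfl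
theorem xxG_zr (m j : ℕ) : xxG m (.zr j) = m + 1 := rfl
theorem xxG_o (m n : ℕ) : xxG m (.o n) = m + 2 := rfl

theorem kouter_facts (P : Par) :
    (∀ x ∈ P.sys.verts, ∀ y ∈ P.sys.verts, htG x = htG y → xxG P.m x = xxG P.m y → x = y) ∧
    (∀ x ∈ P.sys.verts, Even (htG x)) ∧
    (∀ b ∈ P.sys.bund, htG (P.sys.q b) = htG (P.sys.p b) + 2) ∧
    (∀ b ∈ P.sys.bund, ∀ b' ∈ P.sys.bund, htG (P.sys.p b) = htG (P.sys.p b') →
      posG P.m b = posG P.m b' → b = b') ∧
    (∀ b ∈ P.sys.bund, ∀ b' ∈ P.sys.bund, htG (P.sys.p b) = htG (P.sys.p b') →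
      posG P.m b < posG P.m b' →
      xxG P.m (P.sys.p b) ≤ xxG P.m (P.sys.p b') ∧ xxG P.m (P.sys.q b) ≤ xxG P.m (P.sys.q b')) ∧
    ∀ x ∈ P.sys.verts, htG x < 8 * P.R + 3 := by
  refine ⟨?_, ?_, ?_, ?_, ?_, ?_⟩
  · intro x hx y hy h1 h2
    replace hx : P.XV x := hx
    replace hy : P.XV y := hy
    cases x <;> cases y <;> simp only [Par.XV] at hx hy <;>
      simp only [htG_q, htG_u, htG_z, htG_l, htG_zr, htG_o, xxG_q, xxG_u, xxG_z, xxG_l, xxG_zr,
        xxG_o] at h1 h2 <;>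
      first
      | (exfalso; omega)
      | (congr 1 <;> omega)
  · intro x _
    cases x <;> simp only [htG_q, htG_u, htG_z, htG_l, htG_zr, htG_o, Nat.even_iff] <;> omega
  · intro b _
    change htG (P.bq b) = htG (P.bp b) + 2
    cases b <;> simp only [Par.bq, Par.bp, htG_Q, htG_q, htG_u, htG_z, htG_l, htG_zr, htG_o] <;>
      omega
  · intro b hb b' hb' h1 h2
    replace hb : P.BV b := P.mem_bundF.1 hb
    replace hb' : P.BV b' := P.mem_bundF.1 hb'
    change htG (P.bp b) = htG (P.bp b') at h1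
    cases b <;> cases b' <;> simp only [Par.BV] at hb hb' <;>
      simp only [Par.bp, htG_Q, htG_q, htG_u, htG_z, htG_l, htG_zr, htG_o, posG] at h1 h2 <;>
      first
      | (exfalso; omega)
      | (congr 1 <;> omega)
  · intro b hb b' hb' h1 h2
    replace hb : P.BV b := P.mem_bundF.1 hb
    replace hb' : P.BV b' := P.mem_bundF.1 hb'
    change htG (P.bp b) = htG (P.bp b') at h1
    change xxG P.m (P.bp b) ≤ xxG P.m (P.bp b') ∧ xxG P.m (P.bq b) ≤ xxG P.m (P.bq b')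
    cases b <;> cases b' <;> simp only [Par.BV] at hb hb' <;>
      simp only [Par.bp, htG_Q, htG_q, htG_u, htG_z, htG_l, htG_zr, htG_o, posG] at h1 h2 <;>
      first
      | (exfalso; omega)
      | (simp only [Par.bp, Par.bq, xxG_Q, xxG_q, xxG_u, xxG_z, xxG_l, xxG_zr, xxG_o]
         constructor <;> (try split_ifs) <;> (try simp only [false_or] at *) <;> omega)
  · intro x hx
    replace hx : P.XV x := hx
    cases x <;> simp only [Par.XV] at hx <;>
      simp only [htG_q, htG_u, htG_z, htG_l, htG_zr, htG_o] <;> omega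

end Pool.Agent.H820R2.SC
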