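import Pool.Agent.H820R2.SC.Core
import Pool.Agent.H820R2.SC.T5
import Pool.Agent.H820R2.SC.T6core

namespace Pool.Agent.H820R2.SC

/-- The gadget is `(8R + 3)`-outerplanar. -/
theorem kouter_gadget (P : Par) {V : Type} [Finite V] {G : SimpleGraph V}
    {φ : V → GX ⊕ (GB × ℕ)} (hM : P.sys.IsModel G φ) : IsKOuterplanar (8 * P.R + 3) G := by
  obtain ⟨h1, h2, h3, h4, h5, h6⟩ := kouter_facts P
  exact level_model hM htG (xxG P.m) (posG P.m) _ h1 h2 h3 h4 h5 h6

end Pool.Agent.H820R2.SC
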