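import Pool.Agent.H820R2.SC.Core

namespace Pool.Agent.H820R2.SC

open Finset

/-- T7 -/
theorem conn_gadget (P : Par) : ∀ x ∈ P.sys.verts, ∀ y ∈ P.sys.verts,
    P.sys.Conn {b | b ∈ P.sys.bund} x y := by
  have hm : ∀ b : GB, P.BV b → P.sys.Conn {b | b ∈ P.sys.bund} (P.bp b) (P.bq b) := fun b hb =>
    Sys.Conn.of_mem (S := P.sys) (P.mem_bundF.2 hb)
  have ho : ∀ n ≤ 4 * P.R, P.sys.Conn {b | b ∈ P.sys.bund} (.o n) (.o 0) := by
    intro n
    induction n with
    | zero => intro _; exact Sys.Conn.refl _ _ _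
    | succ n ih =>
      intro hn
      exact (hm (.ch n) (by change n < 4 * P.R; omega)).symm.trans (ih (by omega))
  have hz : ∀ j ≤ P.R, P.sys.Conn {b | b ∈ P.sys.bund} (.zr j) (.o 0) := by
    intro j hj
    exact (hm (.zo j) hj).symm.trans (ho _ (by omega))
  have hQm : ∀ j ≤ P.R, P.sys.Conn {b | b ∈ P.sys.bund} (P.Q j P.m) (.o 0) := by
    intro j hj
    exact (hm (.qz j) hj).trans (hz j hj)
  have hstep : ∀ j c, j < P.R → c + 1 ≤ P.m →
      P.sys.Conn {b | b ∈ P.sys.bund} (P.Q j c) (P.Q j (c + 1)) := by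
    intro j c h2 h3
    have h4 := hm (.uL j (c + 1)) ⟨h2, h3⟩
    have h5 := hm (.uR j (c + 1)) ⟨h2, h3⟩
    simp only [Par.bp, Par.bq] at h4 h5
    exact h4.trans h5.symm
  have hQ : ∀ j ≤ P.R, ∀ c ≤ P.m, P.sys.Conn {b | b ∈ P.sys.bund} (P.Q j c) (.o 0) := by
    intro j hj c hc
    by_cases h0 : j = 0 ∨ j = P.R
    · have : P.Q j c = P.Q j P.m := by unfold Par.Q; rw [if_pos h0, if_pos h0]
      rw [this]
      exact hQm j hj
    · have key : ∀ d, d ≤ P.m → P.sys.Conn {b | b ∈ P.sys.bund} (P.Q j (P.m - d)) (.o 0) := by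
        intro d
        induction d with
        | zero => intro _; exact hQm j hj
        | succ d ih =>
          intro hd
          have h1 := hstep j (P.m - (d + 1)) (by omega) (by omega)
          rw [show P.m - (d + 1) + 1 = P.m - d by omega] at h1
          exact h1.trans (ih (by omega))
      have := key (P.m - c) (by omega)
      rwa [show P.m - (P.m - c) = c by omega] at this
  have hu : ∀ i c, i < P.R → c ≤ P.m → P.sys.Conn {b | b ∈ P.sys.bund} (.u i c) (.o 0) :=
    fun i c h1 h2 => (hm (.uR i c) ⟨h1, h2⟩).symm.trans (hQ i (by omega) c h2)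
  have hz : ∀ i c, i < P.R → c ≤ P.m → P.sys.Conn {b | b ∈ P.sys.bund} (.z i c) (.o 0) :=
    fun i c h1 h2 => (hm (.uz i c) ⟨h1, h2⟩).symm.trans (hu i c h1 h2)
  have hl : ∀ i c, i < P.R → c ≤ P.m → P.sys.Conn {b | b ∈ P.sys.bund} (.l i c) (.o 0) :=
    fun i c h1 h2 => (hm (.zl i c) ⟨h1, h2⟩).symm.trans (hz i c h1 h2)
  have hall : ∀ x ∈ P.sys.verts, P.sys.Conn {b | b ∈ P.sys.bund} x (.o 0) := by
    intro x hx
    have hx : P.XV x := hx
    cases x with
    | q j c =>
      obtain ⟨h1, h2, h3⟩ := hx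
      have h4 : P.Q j c = .q j c := by
        unfold Par.Q
        split_ifs with h
        · rw [h3 h]
        · rfl
      rw [← h4]
      exact hQ j h1 c h2
    | u i c => exact hu i c hx.1 hx.2
    | z i c => exact hz i c hx.1 hx.2
    | l i c => exact hl i c hx.1 hx.2
    | zr j => exact (hm (.qz j) hx).symm.trans (hQm j hx)
    | o n => exact ho n hx
  intro x hx y hy
  exact (hall x hx).trans (hall y hy).symm

end Pool.Agent.H820R2.SC
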