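import Pool.Agent.H820R2.SC.Core

/-!
# T8a: heavy bundles are in F
-/

namespace Pool.Agent.H820R2.SC

open Finset Pool.Agent.NPC Pool.Agent.H557R2.Fpt

theorem T8a_heavy (P : Par) {b : GB} (hb : ¬ Par.Light b) : P.DM + 1 ≤ P.bμ b := by
  have e4 := P.cell_le
  have e6 : P.t = 2 * P.DM + 1 := rfl
  cases b with
  | qz j => have h2 := P.D_le j; simp only [Par.bμ]; omega
  | zo j => have h2 := P.D_le j; simp only [Par.bμ]; omega
  | uz i c => simp only [Par.bμ]; omega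
  | zl i c => simp only [Par.bμ]; omega
  | ch n => simp only [Par.bμ]; omega
  | _ => exact absurd trivial hb

theorem T8a_one {P : Par} {F : Set GB} (h : P.sys.Good F P.t) {v : GX}
    {b1 b2 : GB} (h12 : b1 ≠ b2) (v1 : P.BV b1) (v2 : P.BV b2)
    (i1 : P.bp b1 = v ∨ P.bq b1 = v) (i2 : P.bp b2 = v ∨ P.bq b2 = v)
    (honly : ∀ b, P.BV b → (P.bp b = v ∨ P.bq b = v) → b = b1 ∨ b = b2)
    (m1 : ¬ Par.Light b1) (m2 : ¬ Par.Light b2) (hF : b1 ∈ F) : b2 ∈ F := by
  classical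
  by_contra hF2
  have hcut := h.cut b1 hF
  have hclosed : ∀ b ∈ F \ {b1}, P.sys.p b ∈ ({v} : Set GX) ↔ P.sys.q b ∈ ({v} : Set GX) := by
    intro b hb
    have hbv : P.BV b := P.mem_bundF.1 (h.sub b hb.1)
    have hb1 : b ≠ b1 := hb.2
    have hb2 : b ≠ b2 := fun h1 => hF2 (h1 ▸ hb.1)
    refine iff_of_false ?_ ?_
    · intro h1
      rcases honly b hbv (Or.inl h1) with h2 | h2
      · exact hb1 h2
      · exact hb2 h2
    · intro h1
      rcases honly b hbv (Or.inr h1) with h2 | h2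
      · exact hb1 h2
      · exact hb2 h2
  have hcr : ∀ b, P.BV b → (P.bp b = v ∨ P.bq b = v) →
      ¬ P.sys.Conn (F \ {b1}) (P.sys.p b) (P.sys.q b) := by
    intro b hb hi hC
    have h1 := Sys.Conn.mem_of hclosed hC
    have h2 : P.bp b ≠ P.bq b := P.sys.hne b (P.mem_bundF.2 hb)
    have h1' : P.bp b = v ↔ P.bq b = v := h1
    rcases hi with h3 | h3
    · exact h2 (h3.trans (h1'.1 h3).symm)
    · exact h2 ((h1'.2 h3).trans h3.symm)
  have hsub : ({b1, b2} : Finset GB) ⊆ P.sys.bund.filter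
      (fun b' => ¬ P.sys.Conn (F \ {b1}) (P.sys.p b') (P.sys.q b')) := by
    intro b hb
    simp only [mem_insert, mem_singleton] at hb
    rw [mem_filter]
    rcases hb with rfl | rfl
    · exact ⟨P.mem_bundF.2 v1, hcr _ v1 i1⟩
    · exact ⟨P.mem_bundF.2 v2, hcr _ v2 i2⟩
  have hle : ∑ b ∈ ({b1, b2} : Finset GB), P.bμ b ≤ P.t :=
    le_trans (sum_le_sum_of_subset hsub) hcut
  rw [sum_pair h12] at hle
  have e1 := T8a_heavy P m1
  have e2 := T8a_heavy P m2
  have e6 : P.t = 2 * P.DM + 1 := rfl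
  omega

theorem T8a_two {P : Par} {F : Set GB} (h : P.sys.Good F P.t) {v w : GX} (hv : P.XV v)
    (hw : P.XV w) (hvw : w ≠ v)
    {b1 b2 : GB} (h12 : b1 ≠ b2) (v1 : P.BV b1) (v2 : P.BV b2)
    (i1 : P.bp b1 = v ∨ P.bq b1 = v) (i2 : P.bp b2 = v ∨ P.bq b2 = v)
    (honly : ∀ b, P.BV b → (P.bp b = v ∨ P.bq b = v) → b = b1 ∨ b = b2)
    (m1 : ¬ Par.Light b1) (m2 : ¬ Par.Light b2) : b1 ∈ F ∧ b2 ∈ F := by
  have hor : b1 ∈ F ∨ b2 ∈ F := by
    by_contra hcon
    rw [not_or] at hcon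
    have hclosed : ∀ b ∈ F, P.sys.p b ∈ ({v} : Set GX) ↔ P.sys.q b ∈ ({v} : Set GX) := by
      intro b hb
      have hbv : P.BV b := P.mem_bundF.1 (h.sub b hb)
      have hb1 : b ≠ b1 := fun h1 => hcon.1 (h1 ▸ hb)
      have hb2 : b ≠ b2 := fun h1 => hcon.2 (h1 ▸ hb)
      refine iff_of_false ?_ ?_
      · intro h1
        rcases honly b hbv (Or.inl h1) with h2 | h2
        · exact hb1 h2
        · exact hb2 h2
      · intro h1
        rcases honly b hbv (Or.inr h1) with h2 | h2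
        · exact hb1 h2
        · exact hb2 h2
    have h1 := h.conn v hv w hw
    have h2 := (Sys.Conn.mem_of hclosed h1).1 rfl
    exact hvw h2
  rcases hor with h1 | h1
  · exact ⟨h1, T8a_one h h12 v1 v2 i1 i2 honly m1 m2 h1⟩
  · exact ⟨T8a_one h h12.symm v2 v1 i2 i1 (fun b hb hi => (honly b hb hi).symm) m2 m1 h1, h1⟩

/-- T8a -/
theorem heavy_mem {P : Par} {F : Set GB} (h : P.sys.Good F P.t) {b : GB} (hb : P.BV b)
    (hl : ¬ Par.Light b) : b ∈ F := by
  have hQz : ∀ j d i c, P.Q j d ≠ .z i c := by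
    intro j d i c
    unfold Par.Q
    split_ifs <;> simp
  have hQr : ∀ j d i, P.Q j d ≠ .zr i := by
    intro j d i
    unfold Par.Q
    split_ifs <;> simp
  have hQo : ∀ j d i, P.Q j d ≠ .o i := by
    intro j d i
    unfold Par.Q
    split_ifs <;> simp
  have hcell : ∀ i c, i < P.R → c ≤ P.m → GB.uz i c ∈ F ∧ GB.zl i c ∈ F := by
    intro i c hi hc
    refine T8a_two h (v := .z i c) (w := .o 0) ⟨hi, hc⟩ (Nat.zero_le _) (by simp) (by simp)
      ⟨hi, hc⟩ ⟨hi, hc⟩ (Or.inr rfl) (Or.inl rfl) ?_ (by simp [Par.Light]) (by simp [Par.Light])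
    intro b _ hb
    cases b <;> simp [Par.bp, Par.bq, hQz] at hb ⊢ <;> tauto
  have hlev : ∀ j, j ≤ P.R → GB.qz j ∈ F ∧ GB.zo j ∈ F := by
    intro j hj
    refine T8a_two h (v := .zr j) (w := .o 0) hj (Nat.zero_le _) (by simp) (by simp)
      hj hj (Or.inr rfl) (Or.inr rfl) ?_ (by simp [Par.Light]) (by simp [Par.Light])
    intro b _ hb
    cases b <;> simp [Par.bp, Par.bq, hQr] at hb ⊢ <;> tauto
  have hchn : ∀ n, n + 1 < 4 * P.R → (n + 1) % 4 ≠ 0 → GB.ch n ∈ F ∧ GB.ch (n + 1) ∈ F := by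
    intro n hn hn4
    refine T8a_two h (v := .o (n + 1)) (w := .o 0) (by simp only [Par.XV]; omega)
      (Nat.zero_le _) (by simp) (by simp)
      (by simp only [Par.BV]; omega) (by simp only [Par.BV]; omega) (Or.inr rfl) (Or.inl rfl) ?_
      (by simp [Par.Light]) (by simp [Par.Light])
    intro b _ hb
    cases b with
    | zo j =>
      simp only [Par.bp, Par.bq, GX.o.injEq, reduceCtorEq, or_false] at hb
      omega
    | ch k =>
      simp only [Par.bp, Par.bq, GX.o.injEq] at hb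
      simp only [GB.ch.injEq]
      omega
    | _ => simp [Par.bp, Par.bq, hQo] at hb
  cases b with
  | uz i c => exact (hcell i c hb.1 hb.2).1
  | zl i c => exact (hcell i c hb.1 hb.2).2
  | qz j => exact (hlev j hb).1
  | zo j => exact (hlev j hb).2
  | ch n =>
    have hn : n < 4 * P.R := hb
    by_cases h4 : (n + 1) % 4 = 0
    · obtain ⟨k, rfl⟩ : ∃ k, n = k + 1 := ⟨n - 1, by omega⟩
      exact (hchn k hn (by omega)).2
    · exact (hchn n (by omega) h4).1
  | _ => exact absurd trivial hl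

end Pool.Agent.H820R2.SC
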