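import Pool.Agent.H820R2.SC.Core

/-!
# T8b: each cell is attached exactly on one side
-/

namespace Pool.Agent.H820R2.SC

open Finset Pool.Agent.NPC Pool.Agent.H557R2.Fpt

theorem T8b_lam_le (P : Par) {b : GB} (hb : Par.Light b) : P.Lam ≤ P.bμ b := by
  cases b <;> simp only [Par.Light] at hb <;> simp only [Par.bμ] <;> omega

/-- three distinct crossing light bundles are impossible -/
theorem T8b_three {P : Par} {F : Set GB} (h : P.sys.Good F P.t) {i c : ℕ} (hi : i < P.R)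
    (hc : c ≤ P.m) (hF : GB.uz i c ∈ F) {b1 b2 b3 : GB}
    (l1 : Par.Light b1) (l2 : Par.Light b2) (l3 : Par.Light b3)
    (v1 : P.BV b1) (v2 : P.BV b2) (v3 : P.BV b3)
    (h12 : b1 ≠ b2) (h13 : b1 ≠ b3) (h23 : b2 ≠ b3)
    (c1 : ¬ P.sys.Conn (F \ {GB.uz i c}) (P.bp b1) (P.bq b1))
    (c2 : ¬ P.sys.Conn (F \ {GB.uz i c}) (P.bp b2) (P.bq b2))
    (c3 : ¬ P.sys.Conn (F \ {GB.uz i c}) (P.bp b3) (P.bq b3)) : False := by
  classical
  have hcut := h.cut (GB.uz i c) hF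
  have hac := h.acyc (GB.uz i c) hF
  have hv0 : P.BV (GB.uz i c) := ⟨hi, hc⟩
  have n1 : GB.uz i c ≠ b1 := by
    rintro rfl
    exact l1
  have n2 : GB.uz i c ≠ b2 := by
    rintro rfl
    exact l2
  have n3 : GB.uz i c ≠ b3 := by
    rintro rfl
    exact l3
  have hsub : ({GB.uz i c, b1, b2, b3} : Finset GB) ⊆ P.sys.bund.filter
      (fun b' => ¬ P.sys.Conn (F \ {GB.uz i c}) (P.sys.p b') (P.sys.q b')) := by
    intro b hb
    simp only [mem_insert, mem_singleton] at hb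
    rw [mem_filter]
    rcases hb with rfl | rfl | rfl | rfl
    · exact ⟨P.mem_bundF.2 hv0, hac⟩
    · exact ⟨P.mem_bundF.2 v1, c1⟩
    · exact ⟨P.mem_bundF.2 v2, c2⟩
    · exact ⟨P.mem_bundF.2 v3, c3⟩
  have hle : ∑ b ∈ ({GB.uz i c, b1, b2, b3} : Finset GB), P.bμ b ≤ P.t := by
    refine le_trans (sum_le_sum_of_subset hsub) ?_
    exact hcut
  rw [sum_insert, sum_insert, sum_insert, sum_singleton] at hle
  · have e1 := T8b_lam_le P l1
    have e2 := T8b_lam_le P l2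
    have e3 := T8b_lam_le P l3
    have e4 := P.cell_le
    have e5 : P.bμ (GB.uz i c) = P.t - (2 * P.Lam + P.S) := rfl
    have e6 : P.t = 2 * P.DM + 1 := rfl
    have e7 : P.Lam = P.S + 1 := rfl
    omega
  · simp only [mem_singleton]; exact h23
  · simp only [mem_insert, mem_singleton, not_or]; exact ⟨h12, h13⟩
  · simp only [mem_insert, mem_singleton, not_or]; exact ⟨n1, n2, n3⟩

/-- a set of vertices that meets every bundle of `F` in both ends or none is everything or nothing -/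
theorem T8b_att1 {P : Par} {F : Set GB} (h : P.sys.Good F P.t) {i c : ℕ} (hi : i < P.R)
    (hc : c ≤ P.m) : uAtt F i c ∨ lAtt F i c := by
  by_contra hcon
  rw [not_or] at hcon
  obtain ⟨hu, hl⟩ := hcon
  unfold uAtt at hu
  unfold lAtt at hl
  rw [not_or] at hu hl
  let Y : Set GX := {x | x = .u i c ∨ x = .z i c ∨ x = .l i c}
  have hQ : ∀ j d, ¬ (P.Q j d ∈ Y) := by
    intro j d hmem
    simp only [Y, Par.Q, Set.mem_ofPred_eq] at hmem
    split_ifs at hmem <;> simp at hmem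
  have hY : ∀ b ∈ F, P.sys.p b ∈ Y ↔ P.sys.q b ∈ Y := by
    intro b hb
    cases b with
    | uR i' c' =>
      refine iff_of_false (hQ _ _) ?_
      intro hm
      simp only [Y, Par.sys, Par.bq, Set.mem_ofPred_eq, GX.u.injEq, reduceCtorEq, or_false] at hm
      obtain ⟨rfl, rfl⟩ := hm
      exact hu.1 hb
    | uL i' c' =>
      refine iff_of_false (hQ _ _) ?_
      intro hm
      simp only [Y, Par.sys, Par.bq, Set.mem_ofPred_eq, GX.u.injEq, reduceCtorEq, or_false] at hm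
      obtain ⟨rfl, rfl⟩ := hm
      exact hu.2 hb
    | lR i' c' =>
      refine iff_of_false ?_ (hQ _ _)
      intro hm
      simp only [Y, Par.sys, Par.bp, Set.mem_ofPred_eq, GX.l.injEq, reduceCtorEq, false_or] at hm
      obtain ⟨rfl, rfl⟩ := hm
      exact hl.1 hb
    | lL i' c' =>
      refine iff_of_false ?_ (hQ _ _)
      intro hm
      simp only [Y, Par.sys, Par.bp, Set.mem_ofPred_eq, GX.l.injEq, reduceCtorEq, false_or] at hm
      obtain ⟨rfl, rfl⟩ := hm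
      exact hl.2 hb
    | uz i' c' => simp [Y, Par.sys, Par.bp, Par.bq]
    | zl i' c' => simp [Y, Par.sys, Par.bp, Par.bq]
    | qz j => exact iff_of_false (hQ _ _) (by simp [Y, Par.sys, Par.bq])
    | zo j => simp [Y, Par.sys, Par.bp, Par.bq]
    | ch n => simp [Y, Par.sys, Par.bp, Par.bq]
  have h1 := h.conn (.u i c) ⟨hi, hc⟩ (.o 0) (Nat.zero_le _)
  have h2 := Sys.Conn.mem_of hY h1
  have h3 : GX.u i c ∈ Y := Or.inl rfl
  have h4 := h2.1 h3
  simp [Y] at h4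

section two

variable {P : Par} {C : GX → GX → Prop}

/-- path along the tops of row `r` -/
theorem T8b_pathU (htr : ∀ x y z, C x y → C y z → C x z) (hsy : ∀ x y, C x y → C y x) {r c0 : ℕ}
    {e : GX} (hE : C (P.Q r P.m) e) (h0 : c0 ≤ P.m)
    (hall : ∀ c', c0 < c' → c' ≤ P.m → C (P.Q r c') (.u r c') ∧ C (P.Q r (c' - 1)) (.u r c')) :
    C (P.Q r c0) e := by
  obtain ⟨k, hk⟩ : ∃ k, P.m = c0 + k := ⟨P.m - c0, by omega⟩
  induction k generalizing c0 with
  | zero =>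
    have : P.m = c0 := by omega
    rw [← this]; exact hE
  | succ k ih =>
    have h1 := hall (c0 + 1) (by omega) (by omega)
    have h2 := ih (c0 := c0 + 1) (by omega) (fun c' h3 h4 => hall c' (by omega) h4) (by omega)
    have h3 : C (P.Q r c0) (.u r (c0 + 1)) := by simpa using h1.2
    exact htr _ _ _ h3 (htr _ _ _ (hsy _ _ h1.1) h2)

/-- path along the bottoms of row `r` -/
theorem T8b_pathL (htr : ∀ x y z, C x y → C y z → C x z) (hsy : ∀ x y, C x y → C y x) {r c0 : ℕ}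
    {e : GX} (hE : C (P.Q (r + 1) P.m) e) (h0 : c0 ≤ P.m)
    (hall : ∀ c', c0 < c' → c' ≤ P.m →
      C (.l r c') (P.Q (r + 1) c') ∧ C (.l r c') (P.Q (r + 1) (c' - 1))) :
    C (P.Q (r + 1) c0) e := by
  obtain ⟨k, hk⟩ : ∃ k, P.m = c0 + k := ⟨P.m - c0, by omega⟩
  induction k generalizing c0 with
  | zero =>
    have : P.m = c0 := by omega
    rw [← this]; exact hE
  | succ k ih =>
    have h1 := hall (c0 + 1) (by omega) (by omega)
    have h2 := ih (c0 := c0 + 1) (by omega) (fun c' h3 h4 => hall c' (by omega) h4) (by omega)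
    have h3 : C (.l r (c0 + 1)) (P.Q (r + 1) c0) := by simpa using h1.2
    exact htr _ _ _ (hsy _ _ h3) (htr _ _ _ h1.1 h2)

end two

theorem T8b_att2 {P : Par} {F : Set GB} (h : P.sys.Good F P.t)
    (hH : ∀ b, P.BV b → ¬ Par.Light b → b ∈ F) {i c : ℕ} (hi : i < P.R) (hc : c ≤ P.m) :
    ¬ (uAtt F i c ∧ lAtt F i c) := by
  classical
  rintro ⟨hu, hl⟩
  have hb0 : GB.uz i c ∈ F := hH _ ⟨hi, hc⟩ (by simp [Par.Light])
  set C : GX → GX → Prop := P.sys.Conn (F \ {GB.uz i c}) with hCdef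
  have htr : ∀ x y z, C x y → C y z → C x z := fun x y z h1 h2 => Sys.Conn.trans h1 h2
  have hsy : ∀ x y, C x y → C y x := fun x y h1 => Sys.Conn.symm h1
  have hrf : ∀ x, C x x := fun x => Sys.Conn.refl _ _ x
  have hmem : ∀ b, b ∈ F → b ≠ GB.uz i c → C (P.bp b) (P.bq b) := by
    intro b hb hne
    exact Sys.Conn.of_mem (S := P.sys) ⟨hb, hne⟩
  have hheavy : ∀ b, P.BV b → ¬ Par.Light b → b ≠ GB.uz i c → C (P.bp b) (P.bq b) :=
    fun b h1 h2 h3 => hmem b (hH b h1 h2) h3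
  have hac : ¬ C (.u i c) (.z i c) := h.acyc (GB.uz i c) hb0
  have hsplit : ∀ x, P.XV x → C (.u i c) x ∨ C (.z i c) x := by
    intro x hx
    let Y : Set GX := {y | C (.u i c) y ∨ C (.z i c) y}
    have hY : ∀ b ∈ F, P.sys.p b ∈ Y ↔ P.sys.q b ∈ Y := by
      intro b hb
      by_cases hbb : b = GB.uz i c
      · subst hbb
        exact iff_of_true (Or.inl (hrf _)) (Or.inr (hrf _))
      · have h1 := hmem b hb hbb
        constructor
        · rintro (h2 | h2)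
          · exact Or.inl (htr _ _ _ h2 h1)
          · exact Or.inr (htr _ _ _ h2 h1)
        · rintro (h2 | h2)
          · exact Or.inl (htr _ _ _ h2 (hsy _ _ h1))
          · exact Or.inr (htr _ _ _ h2 (hsy _ _ h1))
    have h1 := h.conn (.u i c) ⟨hi, hc⟩ x hx
    exact (Sys.Conn.mem_of hY h1).1 (Or.inl (hrf _))
  -- the right end
  have hch : ∀ n, n ≤ 4 * P.R → C (.o n) (.o 0) := by
    intro n
    induction n with
    | zero => intro _; exact hrf _
    | succ n ih =>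
      intro hn
      have h1 := hheavy (GB.ch n) (by simp only [Par.BV]; omega) (by simp [Par.Light]) (by simp)
      exact htr _ _ _ (hsy _ _ h1) (ih (by omega))
  have hE : ∀ j, j ≤ P.R → C (P.Q j P.m) (.o 0) := by
    intro j hj
    have h1 := hheavy (GB.qz j) hj (by simp [Par.Light]) (by simp)
    have h2 := hheavy (GB.zo j) hj (by simp [Par.Light]) (by simp)
    exact htr _ _ _ h1 (htr _ _ _ (hsy _ _ h2) (hch (4 * j) (by omega)))
  have hthree := @T8b_three P F h i c hi hc hb0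
  have hzl : C (.z i c) (.l i c) :=
    hheavy (GB.zl i c) ⟨hi, hc⟩ (by simp [Par.Light]) (by simp)
  have hcell : ∀ r c', r < P.R → c' ≤ P.m → r ≠ i → C (.u r c') (.l r c') := by
    intro r c' h1 h2 h3
    have h4 := hheavy (GB.uz r c') ⟨h1, h2⟩ (by simp [Par.Light])
      (by intro h5; exact h3 (GB.uz.inj h5).1)
    have h5 := hheavy (GB.zl r c') ⟨h1, h2⟩ (by simp [Par.Light]) (by simp)
    exact htr _ _ _ h4 h5
  have hQc : ∀ j d d', (j = 0 ∨ j = P.R) → P.Q j d = P.Q j d' := by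
    intro j d d' hj
    simp [Par.Q, hj]
  by_cases hue : C (.u i c) (.o 0)
  · -- case B
    have hle : ¬ C (.l i c) (.o 0) := by
      intro h1
      exact hac (htr _ _ _ hue (htr _ _ _ (hsy _ _ h1) (hsy _ _ hzl)))
    obtain ⟨c0, hc0, hq0⟩ : ∃ c0, c0 ≤ P.m ∧ C (.l i c) (P.Q (i + 1) c0) := by
      rcases hl with h1 | h1
      · exact ⟨c, hc, hmem _ h1 (by simp)⟩
      · exact ⟨c - 1, by omega, hmem _ h1 (by simp)⟩
    have hqe : ¬ C (P.Q (i + 1) c0) (.o 0) := fun h1 => hle (htr _ _ _ hq0 h1)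
    have hiR : i + 1 < P.R := by
      rcases Nat.lt_or_ge (i + 1) P.R with h1 | h1
      · exact h1
      · exfalso
        apply hqe
        have h2 : i + 1 = P.R := by omega
        rw [hQc (i + 1) c0 P.m (Or.inr h2)]
        exact hE _ (by omega)
    have hcm : c0 < P.m := by
      rcases Nat.lt_or_ge c0 P.m with h1 | h1
      · exact h1
      · exfalso
        apply hqe
        have h2 : c0 = P.m := by omega
        rw [h2]
        exact hE _ (by omega)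
    -- a crossing l-bundle in row i
    obtain ⟨b1, hb1, hv1, hx1⟩ : ∃ b1, (∃ c', b1 = GB.lR i c' ∨ b1 = GB.lL i c') ∧ P.BV b1 ∧
        ¬ C (P.bp b1) (P.bq b1) := by
      by_contra hcon
      push Not at hcon
      apply hqe
      refine T8b_pathL htr hsy (hE _ (by omega)) hcm.le ?_
      intro c' h1 h2
      exact ⟨hcon (GB.lR i c') ⟨c', Or.inl rfl⟩ ⟨hi, h2⟩, hcon (GB.lL i c') ⟨c', Or.inr rfl⟩ ⟨hi, h2⟩⟩
    obtain ⟨b2, hb2, hv2, hx2⟩ : ∃ b2, (∃ c', b2 = GB.uR (i + 1) c' ∨ b2 = GB.uL (i + 1) c') ∧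
        P.BV b2 ∧ ¬ C (P.bp b2) (P.bq b2) := by
      by_contra hcon
      push Not at hcon
      apply hqe
      refine T8b_pathU htr hsy (hE _ (by omega)) hcm.le ?_
      intro c' h1 h2
      exact ⟨hcon (GB.uR (i + 1) c') ⟨c', Or.inl rfl⟩ ⟨hiR, h2⟩,
        hcon (GB.uL (i + 1) c') ⟨c', Or.inr rfl⟩ ⟨hiR, h2⟩⟩
    have hl1 : Par.Light b1 := by
      obtain ⟨c', rfl | rfl⟩ := hb1 <;> simp [Par.Light]
    have hl2 : Par.Light b2 := by
      obtain ⟨c', rfl | rfl⟩ := hb2 <;> simp [Par.Light]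
    by_cases hL : ∃ c', c' ≤ P.m ∧ (¬ C (.l (i + 1) c') (P.Q (i + 2) c') ∨
        ¬ C (.l (i + 1) c') (P.Q (i + 2) (c' - 1)))
    · obtain ⟨c', hc', hx⟩ := hL
      rcases hx with hx | hx
      · refine hthree (b1 := b1) (b2 := b2) (b3 := GB.lR (i + 1) c') hl1 hl2 (by simp [Par.Light])
          hv1 hv2 ⟨hiR, hc'⟩ ?_ ?_ ?_ hx1 hx2 hx
        · obtain ⟨a, rfl | rfl⟩ := hb1 <;> obtain ⟨a', rfl | rfl⟩ := hb2 <;> simp
        · obtain ⟨a, rfl | rfl⟩ := hb1 <;> simp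
        · obtain ⟨a', rfl | rfl⟩ := hb2 <;> simp
      · refine hthree (b1 := b1) (b2 := b2) (b3 := GB.lL (i + 1) c') hl1 hl2 (by simp [Par.Light])
          hv1 hv2 ⟨hiR, hc'⟩ ?_ ?_ ?_ hx1 hx2 hx
        · obtain ⟨a, rfl | rfl⟩ := hb1 <;> obtain ⟨a', rfl | rfl⟩ := hb2 <;> simp
        · obtain ⟨a, rfl | rfl⟩ := hb1 <;> simp
        · obtain ⟨a', rfl | rfl⟩ := hb2 <;> simp
    · push Not at hL
      have hle' : ∀ c', c' ≤ P.m → C (.l (i + 1) c') (.o 0) := by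
        intro c' hc'
        have h1 : C (P.Q (i + 1 + 1) c') (.o 0) :=
          T8b_pathL htr hsy (hE _ (by omega)) hc' (fun c'' _ h2 => hL c'' h2)
        exact htr _ _ _ (hL c' hc').1 h1
      have hue' : ∀ c', c' ≤ P.m → C (.u (i + 1) c') (.o 0) := fun c' hc' =>
        htr _ _ _ (hcell (i + 1) c' hiR hc' (by omega)) (hle' c' hc')
      refine hthree (b1 := b1) (b2 := GB.uR (i + 1) c0) (b3 := GB.uL (i + 1) (c0 + 1)) hl1
        (by simp [Par.Light]) (by simp [Par.Light]) hv1 ⟨hiR, hc0⟩ ⟨hiR, hcm⟩ ?_ ?_ (by simp) hx1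
        ?_ ?_
      · obtain ⟨a, rfl | rfl⟩ := hb1 <;> simp
      · obtain ⟨a, rfl | rfl⟩ := hb1 <;> simp
      · intro h1
        exact hqe (htr _ _ _ h1 (hue' c0 hc0))
      · intro h1
        exact hqe (htr _ _ _ h1 (hue' (c0 + 1) hcm))
  · -- case A
    obtain ⟨c0, hc0, hq0⟩ : ∃ c0, c0 ≤ P.m ∧ C (P.Q i c0) (.u i c) := by
      rcases hu with h1 | h1
      · exact ⟨c, hc, hmem _ h1 (by simp)⟩
      · exact ⟨c - 1, by omega, hmem _ h1 (by simp)⟩
    have hqe : ¬ C (P.Q i c0) (.o 0) := fun h1 => hue (htr _ _ _ (hsy _ _ hq0) h1)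
    have hi1 : 1 ≤ i := by
      rcases Nat.eq_zero_or_pos i with h1 | h1
      · exfalso
        apply hqe
        rw [hQc i c0 P.m (Or.inl h1)]
        exact hE _ (by omega)
      · exact h1
    obtain ⟨r, rfl⟩ : ∃ r, i = r + 1 := ⟨i - 1, by omega⟩
    have hcm : c0 < P.m := by
      rcases Nat.lt_or_ge c0 P.m with h1 | h1
      · exact h1
      · exfalso
        apply hqe
        have h2 : c0 = P.m := by omega
        rw [h2]
        exact hE _ (by omega)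
    have hr : r < P.R := by omega
    obtain ⟨b1, hb1, hv1, hx1⟩ : ∃ b1, (∃ c', b1 = GB.uR (r + 1) c' ∨ b1 = GB.uL (r + 1) c') ∧
        P.BV b1 ∧ ¬ C (P.bp b1) (P.bq b1) := by
      by_contra hcon
      push Not at hcon
      apply hqe
      refine T8b_pathU htr hsy (hE _ (by omega)) hcm.le ?_
      intro c' h1 h2
      exact ⟨hcon (GB.uR (r + 1) c') ⟨c', Or.inl rfl⟩ ⟨hi, h2⟩,
        hcon (GB.uL (r + 1) c') ⟨c', Or.inr rfl⟩ ⟨hi, h2⟩⟩
    obtain ⟨b2, hb2, hv2, hx2⟩ : ∃ b2, (∃ c', b2 = GB.lR r c' ∨ b2 = GB.lL r c') ∧ P.BV b2 ∧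
        ¬ C (P.bp b2) (P.bq b2) := by
      by_contra hcon
      push Not at hcon
      apply hqe
      refine T8b_pathL htr hsy (hE _ (by omega)) hcm.le ?_
      intro c' h1 h2
      exact ⟨hcon (GB.lR r c') ⟨c', Or.inl rfl⟩ ⟨hr, h2⟩, hcon (GB.lL r c') ⟨c', Or.inr rfl⟩ ⟨hr, h2⟩⟩
    have hl1 : Par.Light b1 := by
      obtain ⟨c', rfl | rfl⟩ := hb1 <;> simp [Par.Light]
    have hl2 : Par.Light b2 := by
      obtain ⟨c', rfl | rfl⟩ := hb2 <;> simp [Par.Light]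
    by_cases hU : ∃ c', c' ≤ P.m ∧ (¬ C (P.Q r c') (.u r c') ∨ ¬ C (P.Q r (c' - 1)) (.u r c'))
    · obtain ⟨c', hc', hx⟩ := hU
      rcases hx with hx | hx
      · refine hthree (b1 := b1) (b2 := b2) (b3 := GB.uR r c') hl1 hl2 (by simp [Par.Light])
          hv1 hv2 ⟨hr, hc'⟩ ?_ ?_ ?_ hx1 hx2 hx
        · obtain ⟨a, rfl | rfl⟩ := hb1 <;> obtain ⟨a', rfl | rfl⟩ := hb2 <;> simp
        · obtain ⟨a, rfl | rfl⟩ := hb1 <;> simp
        · obtain ⟨a', rfl | rfl⟩ := hb2 <;> simp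
      · refine hthree (b1 := b1) (b2 := b2) (b3 := GB.uL r c') hl1 hl2 (by simp [Par.Light])
          hv1 hv2 ⟨hr, hc'⟩ ?_ ?_ ?_ hx1 hx2 hx
        · obtain ⟨a, rfl | rfl⟩ := hb1 <;> obtain ⟨a', rfl | rfl⟩ := hb2 <;> simp
        · obtain ⟨a, rfl | rfl⟩ := hb1 <;> simp
        · obtain ⟨a', rfl | rfl⟩ := hb2 <;> simp
    · push Not at hU
      have hue' : ∀ c', c' ≤ P.m → C (.u r c') (.o 0) := by
        intro c' hc'
        have h1 : C (P.Q r c') (.o 0) :=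
          T8b_pathU htr hsy (hE _ (by omega)) hc' (fun c'' _ h2 => hU c'' h2)
        exact htr _ _ _ (hsy _ _ (hU c' hc').1) h1
      have hle' : ∀ c', c' ≤ P.m → C (.l r c') (.o 0) := fun c' hc' =>
        htr _ _ _ (hsy _ _ (hcell r c' hr hc' (by omega))) (hue' c' hc')
      refine hthree (b1 := b1) (b2 := GB.lR r c0) (b3 := GB.lL r (c0 + 1)) hl1
        (by simp [Par.Light]) (by simp [Par.Light]) hv1 ⟨hr, hc0⟩ ⟨hr, hcm⟩ ?_ ?_ (by simp) hx1
        ?_ ?_
      · obtain ⟨a, rfl | rfl⟩ := hb1 <;> simp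
      · obtain ⟨a, rfl | rfl⟩ := hb1 <;> simp
      · intro h1
        exact hqe (htr _ _ _ (hsy _ _ h1) (hle' c0 hc0))
      · intro h1
        exact hqe (htr _ _ _ (hsy _ _ h1) (hle' (c0 + 1) hcm))

/-- T8b -/
theorem att {P : Par} {F : Set GB} (h : P.sys.Good F P.t)
    (hH : ∀ b, P.BV b → ¬ Par.Light b → b ∈ F) {i c : ℕ} (hi : i < P.R) (hc : c ≤ P.m) : (uAtt F i c ∨ lAtt F i c) ∧ ¬ (uAtt F i c ∧ lAtt F i c) :=
  ⟨T8b_att1 h hi hc, T8b_att2 h hH hi hc⟩

end Pool.Agent.H820R2.SC
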