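import Pool.Agent.H820R2.SC.Core

/-!
# T8c: level inequality
-/

namespace Pool.Agent.H820R2.SC

open Finset Pool.Agent.NPC Pool.Agent.H557R2.Fpt

/-- the cells attached to the level `j` -/
def T8c_cell (F : Set GB) (j i c' : ℕ) : Prop :=
  (i + 1 = j ∧ ¬ uAtt F i c') ∨ (i = j ∧ uAtt F i c')

/-- the side of the level `j` -/
def T8c_Y (F : Set GB) (j : ℕ) : Set GX := {x | match x with
  | .q j' _ => j' = j
  | .u i c' => T8c_cell F j i c'
  | .z i c' => T8c_cell F j i c'
  | .l i c' => T8c_cell F j i c'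
  | _ => False}

theorem T8c_Q (P : Par) (F : Set GB) (j j' c' : ℕ) : P.Q j' c' ∈ T8c_Y F j ↔ j' = j := by
  unfold Par.Q
  split_ifs <;> exact Iff.rfl

theorem T8c_closed {P : Par} {F : Set GB} (h : P.sys.Good F P.t)
    (ha : ∀ i c, i < P.R → c ≤ P.m → (uAtt F i c ∨ lAtt F i c) ∧ ¬ (uAtt F i c ∧ lAtt F i c))
    {j : ℕ} : ∀ b ∈ F, b ≠ GB.qz j → (P.sys.p b ∈ T8c_Y F j ↔ P.sys.q b ∈ T8c_Y F j) := by
  intro b hb hne
  have hbv : P.BV b := P.mem_bundF.1 (h.sub b hb)
  cases b with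
  | uR i c' =>
    have h2 : uAtt F i c' := Or.inl hb
    change P.Q i c' ∈ T8c_Y F j ↔ T8c_cell F j i c'
    rw [T8c_Q]
    unfold T8c_cell
    tauto
  | uL i c' =>
    have h2 : uAtt F i c' := Or.inr hb
    change P.Q i (c' - 1) ∈ T8c_Y F j ↔ T8c_cell F j i c'
    rw [T8c_Q]
    unfold T8c_cell
    tauto
  | lR i c' =>
    have h2 : ¬ uAtt F i c' := fun h3 => (ha i c' hbv.1 hbv.2).2 ⟨h3, Or.inl hb⟩
    change T8c_cell F j i c' ↔ P.Q (i + 1) c' ∈ T8c_Y F j
    rw [T8c_Q]
    unfold T8c_cell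
    tauto
  | lL i c' =>
    have h2 : ¬ uAtt F i c' := fun h3 => (ha i c' hbv.1 hbv.2).2 ⟨h3, Or.inr hb⟩
    change T8c_cell F j i c' ↔ P.Q (i + 1) (c' - 1) ∈ T8c_Y F j
    rw [T8c_Q]
    unfold T8c_cell
    tauto
  | uz i c' => exact Iff.rfl
  | zl i c' => exact Iff.rfl
  | qz j' =>
    change P.Q j' P.m ∈ T8c_Y F j ↔ False
    rw [T8c_Q]
    constructor
    · rintro rfl
      exact hne rfl
    · exact False.elim
  | zo j' => exact Iff.rfl
  | ch n => exact Iff.rfl

open scoped Classical in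
/-- the crossing weight -/
noncomputable def T8c_f (P : Par) (F : Set GB) (j : ℕ) (b : GB) : ℕ :=
  if ¬ (P.bp b ∈ T8c_Y F j ↔ P.bq b ∈ T8c_Y F j) then P.bμ b else 0

theorem T8c_row (P : Par) (F : Set GB) {j i : ℕ} (hi : i + 1 = j ∨ i = j) :
    PW P (fun i c => ¬ uAtt F i c) i ≤ ∑ c ∈ range (P.m + 1),
      (T8c_f P F j (.uR i c) + T8c_f P F j (.uL i c) + T8c_f P F j (.lR i c) +
        T8c_f P F j (.lL i c) + T8c_f P F j (.uz i c) + T8c_f P F j (.zl i c)) := by
  classical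
  unfold PW
  refine sum_le_sum ?_
  intro c _
  have k1 : ∀ b, ¬ (P.bp b ∈ T8c_Y F j ↔ P.bq b ∈ T8c_Y F j) → T8c_f P F j b = P.bμ b := by
    intro b hb
    unfold T8c_f
    rw [if_pos hb]
  by_cases hu : uAtt F i c
  · rw [if_neg (by exact fun h => h hu)]
    have e1 : T8c_f P F j (.lR i c) = P.bμ (.lR i c) := by
      apply k1
      change ¬ (T8c_cell F j i c ↔ P.Q (i + 1) c ∈ T8c_Y F j)
      rw [T8c_Q]
      unfold T8c_cell
      rcases hi with h1 | h1
      · have h2 : i ≠ j := by omega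
        tauto
      · have h2 : i + 1 ≠ j := by omega
        tauto
    have e2 : T8c_f P F j (.lL i c) = P.bμ (.lL i c) := by
      apply k1
      change ¬ (T8c_cell F j i c ↔ P.Q (i + 1) (c - 1) ∈ T8c_Y F j)
      rw [T8c_Q]
      unfold T8c_cell
      rcases hi with h1 | h1
      · have h2 : i ≠ j := by omega
        tauto
      · have h2 : i + 1 ≠ j := by omega
        tauto
    omega
  · rw [if_pos hu]
    have e1 : T8c_f P F j (.uR i c) = P.bμ (.uR i c) := by
      apply k1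
      change ¬ (P.Q i c ∈ T8c_Y F j ↔ T8c_cell F j i c)
      rw [T8c_Q]
      unfold T8c_cell
      rcases hi with h1 | h1
      · have h2 : i ≠ j := by omega
        tauto
      · have h2 : i + 1 ≠ j := by omega
        tauto
    have e2 : T8c_f P F j (.uL i c) = P.bμ (.uL i c) := by
      apply k1
      change ¬ (P.Q i (c - 1) ∈ T8c_Y F j ↔ T8c_cell F j i c)
      rw [T8c_Q]
      unfold T8c_cell
      rcases hi with h1 | h1
      · have h2 : i ≠ j := by omega
        tauto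
      · have h2 : i + 1 ≠ j := by omega
        tauto
    omega

/-- T8c -/
theorem level_le {P : Par} {F : Set GB} (h : P.sys.Good F P.t)
    (hH : ∀ b, P.BV b → ¬ Par.Light b → b ∈ F)
    (ha : ∀ i c, i < P.R → c ≤ P.m → (uAtt F i c ∨ lAtt F i c) ∧ ¬ (uAtt F i c ∧ lAtt F i c))
    {j : ℕ} (hj : j ≤ P.R) :
    (if j = 0 then 0 else PW P (fun i c => ¬ uAtt F i c) (j - 1)) +
      (if j = P.R then 0 else PW P (fun i c => ¬ uAtt F i c) j) ≤ P.D j := by
  classical
  have hq : GB.qz j ∈ F := hH _ hj (by simp [Par.Light])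
  have hcr : ¬ (P.sys.p (GB.qz j) ∈ T8c_Y F j ↔ P.sys.q (GB.qz j) ∈ T8c_Y F j) := by
    change ¬ (P.Q j P.m ∈ T8c_Y F j ↔ False)
    rw [T8c_Q]
    simp
  have hcut := h.cut (GB.qz j) hq
  have hiff : ∀ b ∈ P.sys.bund, P.sys.Conn (F \ {GB.qz j}) (P.sys.p b) (P.sys.q b) ↔
      (P.sys.p b ∈ T8c_Y F j ↔ P.sys.q b ∈ T8c_Y F j) := by
    intro b hb
    exact Sys.conn_diff_iff hq hcr (T8c_closed h ha)
      (h.conn _ (P.sys.hp b hb) _ (P.sys.hq b hb))
  have hsum : ∑ b ∈ P.bundF, T8c_f P F j b ≤ P.t := by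
    refine le_trans (le_of_eq ?_) hcut
    rw [sum_filter]
    refine sum_congr rfl ?_
    intro b hb
    have h1 := hiff b hb
    unfold T8c_f
    by_cases h2 : P.sys.Conn (F \ {GB.qz j}) (P.sys.p b) (P.sys.q b)
    · have h3 := h1.1 h2
      rw [if_neg (fun h => h h3), if_neg (fun h => h h2)]
    · have h3 : ¬ (P.sys.p b ∈ T8c_Y F j ↔ P.sys.q b ∈ T8c_Y F j) := fun h4 => h2 (h1.2 h4)
      rw [if_pos h2]
      exact if_pos h3
  rw [P.sum_bundF] at hsum
  have hfq : T8c_f P F j (GB.qz j) = P.t - P.D j := by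
    unfold T8c_f
    exact if_pos hcr
  have hlev : P.t - P.D j ≤ ∑ j' ∈ range (P.R + 1), (T8c_f P F j (.qz j') + T8c_f P F j (.zo j')) := by
    rw [← hfq]
    refine le_trans (Nat.le_add_right _ (T8c_f P F j (.zo j))) ?_
    exact single_le_sum (f := fun j' => T8c_f P F j (.qz j') + T8c_f P F j (.zo j'))
      (fun _ _ => Nat.zero_le _) (mem_range.2 (by omega))
  have hR := P.R_pos
  have hrows : (if j = 0 then 0 else PW P (fun i c => ¬ uAtt F i c) (j - 1)) +
      (if j = P.R then 0 else PW P (fun i c => ¬ uAtt F i c) j) ≤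
      ∑ i ∈ range P.R, ∑ c ∈ range (P.m + 1),
      (T8c_f P F j (.uR i c) + T8c_f P F j (.uL i c) + T8c_f P F j (.lR i c) +
        T8c_f P F j (.lL i c) + T8c_f P F j (.uz i c) + T8c_f P F j (.zl i c)) := by
    rcases Nat.eq_zero_or_pos j with h0 | h0
    · rw [if_pos h0, if_neg (by omega), Nat.zero_add]
      refine le_trans (T8c_row P F (Or.inr rfl)) ?_
      exact single_le_sum (f := fun i => ∑ c ∈ range (P.m + 1),
        (T8c_f P F j (.uR i c) + T8c_f P F j (.uL i c) + T8c_f P F j (.lR i c) +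
        T8c_f P F j (.lL i c) + T8c_f P F j (.uz i c) + T8c_f P F j (.zl i c)))
        (fun _ _ => Nat.zero_le _) (mem_range.2 (by omega))
    · rcases Nat.lt_or_ge j P.R with h1 | h1
      · rw [if_neg (by omega), if_neg (by omega)]
        refine le_trans (Nat.add_le_add (T8c_row P F (j := j) (i := j - 1) (Or.inl (by omega)))
          (T8c_row P F (Or.inr rfl))) ?_
        have hne : j - 1 ≠ j := by omega
        rw [← sum_pair (f := fun i => ∑ c ∈ range (P.m + 1),
          (T8c_f P F j (.uR i c) + T8c_f P F j (.uL i c) + T8c_f P F j (.lR i c) +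
          T8c_f P F j (.lL i c) + T8c_f P F j (.uz i c) + T8c_f P F j (.zl i c))) hne]
        refine sum_le_sum_of_subset ?_
        intro x hx
        simp only [mem_insert, mem_singleton] at hx
        rw [mem_range]
        omega
      · rw [if_neg (by omega), if_pos (by omega), Nat.add_zero]
        refine le_trans (T8c_row P F (j := j) (i := j - 1) (Or.inl (by omega))) ?_
        exact single_le_sum (f := fun i => ∑ c ∈ range (P.m + 1),
          (T8c_f P F j (.uR i c) + T8c_f P F j (.uL i c) + T8c_f P F j (.lR i c) +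
          T8c_f P F j (.lL i c) + T8c_f P F j (.uz i c) + T8c_f P F j (.zl i c)))
          (fun _ _ => Nat.zero_le _) (mem_range.2 (by omega))
  have hD := P.D_le j
  have e6 : P.t = 2 * P.DM + 1 := rfl
  omega

end Pool.Agent.H820R2.SC
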