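import Pool.Agent.H820R2.SC.Core

/-!
# T8d: monotonicity
-/

namespace Pool.Agent.H820R2.SC

open Finset Pool.Agent.NPC Pool.Agent.H557R2.Fpt

/-- the cells of the component -/
def T8d_cell (F : Set GB) (j c i c' : ℕ) : Prop :=
  c' < c ∧ ((i + 1 = j ∧ ¬ uAtt F i c') ∨ (i = j ∧ uAtt F i c'))

/-- the component -/
def T8d_Y (F : Set GB) (j c : ℕ) : Set GX := {x | match x with
  | .q j' c' => j' = j ∧ c' < c
  | .u i c' => T8d_cell F j c i c'
  | .z i c' => T8d_cell F j c i c'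
  | .l i c' => T8d_cell F j c i c'
  | _ => False}

/-- T8d -/
theorem up_mono {P : Par} {F : Set GB} (h : P.sys.Good F P.t)
    (hH : ∀ b, P.BV b → ¬ Par.Light b → b ∈ F)
    (ha : ∀ i c, i < P.R → c ≤ P.m → (uAtt F i c ∨ lAtt F i c) ∧ ¬ (uAtt F i c ∧ lAtt F i c))
    {j c : ℕ} (h1 : 1 ≤ j)
    (hj : j < P.R) (hc1 : 1 ≤ c) (hc : c ≤ P.m) (hu : ¬ uAtt F j c) : ¬ uAtt F (j - 1) c := by
  intro hu'
  have hQ : ∀ j' c', P.Q j' c' ∈ T8d_Y F j c ↔ j' = j ∧ c' < c := by
    intro j' c'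
    unfold Par.Q
    split_ifs with h2
    · refine iff_of_false ?_ ?_
      · rintro ⟨h3, -⟩
        omega
      · rintro ⟨h3, -⟩
        omega
    · exact Iff.rfl
  have hclosed : ∀ b ∈ F, P.sys.p b ∈ T8d_Y F j c ↔ P.sys.q b ∈ T8d_Y F j c := by
    intro b hb
    have hbv : P.BV b := P.mem_bundF.1 (h.sub b hb)
    cases b with
    | uR i c' =>
      have h2 : uAtt F i c' := Or.inl hb
      change P.Q i c' ∈ T8d_Y F j c ↔ T8d_cell F j c i c'
      rw [hQ]
      unfold T8d_cell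
      tauto
    | uL i c' =>
      have h2 : uAtt F i c' := Or.inr hb
      change P.Q i (c' - 1) ∈ T8d_Y F j c ↔ T8d_cell F j c i c'
      rw [hQ]
      unfold T8d_cell
      constructor
      · rintro ⟨rfl, h3⟩
        refine ⟨?_, Or.inr ⟨rfl, h2⟩⟩
        have h4 : c' ≠ c := by
          rintro rfl
          exact hu h2
        omega
      · rintro ⟨h3, ⟨-, h4⟩ | ⟨h4, -⟩⟩
        · exact absurd h2 h4
        · exact ⟨h4, by omega⟩
    | lR i c' =>
      have h2 : ¬ uAtt F i c' := fun h3 => (ha i c' hbv.1 hbv.2).2 ⟨h3, Or.inl hb⟩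
      change T8d_cell F j c i c' ↔ P.Q (i + 1) c' ∈ T8d_Y F j c
      rw [hQ]
      unfold T8d_cell
      tauto
    | lL i c' =>
      have h2 : ¬ uAtt F i c' := fun h3 => (ha i c' hbv.1 hbv.2).2 ⟨h3, Or.inr hb⟩
      change T8d_cell F j c i c' ↔ P.Q (i + 1) (c' - 1) ∈ T8d_Y F j c
      rw [hQ]
      unfold T8d_cell
      constructor
      · rintro ⟨h3, ⟨h4, -⟩ | ⟨-, h4⟩⟩
        · exact ⟨h4, by omega⟩
        · exact absurd h4 h2
      · rintro ⟨h3, h4⟩
        refine ⟨?_, Or.inl ⟨h3, h2⟩⟩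
        have h5 : c' ≠ c := by
          rintro rfl
          apply h2
          have h6 : i = j - 1 := by omega
          rw [h6]
          exact hu'
        omega
    | uz i c' => exact Iff.rfl
    | zl i c' => exact Iff.rfl
    | qz j' =>
      change P.Q j' P.m ∈ T8d_Y F j c ↔ False
      rw [hQ]
      constructor
      · rintro ⟨-, h2⟩
        omega
      · exact False.elim
    | zo j' => exact Iff.rfl
    | ch n => exact Iff.rfl
  have h2 := h.conn (.q j 0) ⟨by omega, by omega, fun _ => rfl⟩ (.o 0) (Nat.zero_le _)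
  have h3 := Sys.Conn.mem_of hclosed h2
  exact h3.1 ⟨rfl, hc1⟩

end Pool.Agent.H820R2.SC
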