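import Pool.Agent.H820R2.SC.Core

/-!
# T8e: arithmetic, from up to a packing
-/

namespace Pool.Agent.H820R2.SC

open Finset Pool.Agent.NPC Pool.Agent.H557R2.Fpt

open scoped Classical in
/-- total size of the columns in `up i` -/
noncomputable def T8e_a (P : Par) (up : ℕ → ℕ → Prop) (i : ℕ) : ℕ :=
  ∑ c ∈ range (P.m + 1), if up i c then P.sz c else 0

open scoped Classical in
/-- total size of the columns not in `up i` -/
noncomputable def T8e_n (P : Par) (up : ℕ → ℕ → Prop) (i : ℕ) : ℕ :=
  ∑ c ∈ range (P.m + 1), if up i c then 0 else P.sz c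

theorem T8e_an (P : Par) (up : ℕ → ℕ → Prop) (i : ℕ) : T8e_a P up i + T8e_n P up i = P.S := by
  classical
  unfold T8e_a T8e_n Par.S
  rw [← sum_add_distrib]
  refine sum_congr rfl fun c _ => ?_
  split_ifs <;> omega

theorem T8e_even (P : Par) (up : ℕ → ℕ → Prop) {i : ℕ} (hi : i % 2 = 0) :
    PW P up i = P.base + T8e_a P up i := by
  classical
  unfold PW T8e_a Par.base
  have h1 : 2 * P.Lam * (P.m + 1) = ∑ c ∈ range (P.m + 1), 2 * P.Lam := by
    rw [sum_const, card_range, smul_eq_mul, Nat.mul_comm]
  rw [h1, ← sum_add_distrib]
  refine sum_congr rfl fun c _ => ?_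
  simp only [Par.bμ]
  split_ifs <;> omega

theorem T8e_odd (P : Par) (up : ℕ → ℕ → Prop) {i : ℕ} (hi : i % 2 = 1) :
    PW P up i = P.base + T8e_n P up i := by
  classical
  unfold PW T8e_n Par.base
  have h1 : 2 * P.Lam * (P.m + 1) = ∑ c ∈ range (P.m + 1), 2 * P.Lam := by
    rw [sum_const, card_range, smul_eq_mul, Nat.mul_comm]
  rw [h1, ← sum_add_distrib]
  refine sum_congr rfl fun c _ => ?_
  simp only [Par.bμ]
  split_ifs <;> omega

/-- T8e -/
theorem pack_of_up (P : Par) (up : ℕ → ℕ → Prop)
    (hlev : ∀ j ≤ P.R, (if j = 0 then 0 else PW P up (j - 1)) +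
      (if j = P.R then 0 else PW P up j) ≤ P.D j)
    (hmono : ∀ j c, 1 ≤ j → j < P.R → 1 ≤ c → c ≤ P.m → up j c → up (j - 1) c) : P.Pack := by
  classical
  have hK := P.K1
  have hR : P.R = 2 * P.K := rfl
  have hm2 : ∀ c, 1 ≤ c → c ≤ P.m → ∀ k i, i ≤ k → k < P.K → up (2 * k) c → up (2 * i) c := by
    intro c hc1 hc k i hik
    induction k, hik using Nat.le_induction with
    | base => intro _ h; exact h
    | succ k hk ih =>
      intro h1 h2
      have h3 := hmono (2 * (k + 1)) c (by omega) (by omega) hc1 hc h2
      have h4 := hmono (2 * (k + 1) - 1) c (by omega) (by omega) hc1 hc h3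
      have h5 : 2 * (k + 1) - 1 - 1 = 2 * k := by omega
      rw [h5] at h4
      exact ih (by omega) h4
  have hex : ∀ c, ∃ x ≤ P.K, 1 ≤ c → c ≤ P.m → ∀ i < P.K, up (2 * i) c ↔ i < x := by
    intro c
    by_cases hc : 1 ≤ c ∧ c ≤ P.m
    · have key : ∀ k ≤ P.K, ∃ x ≤ k, ∀ i < k, up (2 * i) c ↔ i < x := by
        intro k
        induction k with
        | zero => intro _; exact ⟨0, le_rfl, fun i hi => absurd hi (by omega)⟩
        | succ k ih =>
          intro hk
          obtain ⟨x, hx, hx2⟩ := ih (by omega)
          by_cases hu : up (2 * k) c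
          · refine ⟨k + 1, le_rfl, fun i hi => iff_of_true ?_ hi⟩
            exact hm2 c hc.1 hc.2 k i (by omega) (by omega) hu
          · refine ⟨x, by omega, fun i hi => ?_⟩
            rcases Nat.lt_or_ge i k with h1 | h1
            · exact hx2 i h1
            · have h2 : i = k := by omega
              subst h2
              exact iff_of_false hu (by omega)
      obtain ⟨x, hx, hx2⟩ := key P.K le_rfl
      exact ⟨x, hx, fun _ _ => hx2⟩
    · exact ⟨0, Nat.zero_le _, fun h1 h2 => absurd ⟨h1, h2⟩ hc⟩
  choose f hf1 hf2 using hex
  have hle : ∀ i ∈ range (P.K + 1),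
      P.B i ≤ ∑ c ∈ (range (P.m + 1)).filter (fun c => f c = i), P.sz c := by
    intro i hi
    rw [mem_range] at hi
    have hB := P.B_le (i := i) (by omega)
    rw [sum_filter]
    rcases Nat.eq_zero_or_pos i with h0 | h0
    · subst h0
      have h1 := hlev 0 (Nat.zero_le _)
      rw [if_pos rfl, if_neg (by omega), T8e_even P up (by omega)] at h1
      have h2 : P.D 0 = P.base + P.S - P.B 0 := by simp [Par.D]
      have h3 := T8e_an P up 0
      have h4 : T8e_n P up 0 ≤ ∑ c ∈ range (P.m + 1), if f c = 0 then P.sz c else 0 := by
        unfold T8e_n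
        refine sum_le_sum fun c hc => ?_
        rw [mem_range] at hc
        rcases Nat.eq_zero_or_pos c with h5 | h5
        · subst h5
          rw [P.sz0]
          split_ifs <;> omega
        · have h6 := hf2 c h5 (by omega) 0 (by omega)
          rw [Nat.mul_zero] at h6
          by_cases h7 : up 0 c
          · rw [if_pos h7]; exact Nat.zero_le _
          · rw [if_neg h7, if_pos]
            by_contra h8
            exact h7 (h6.2 (by omega))
      omega
    · rcases Nat.lt_or_ge i P.K with h1 | h1
      · have h2 := hlev (2 * i) (by omega)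
        rw [if_neg (by omega), if_neg (by omega), T8e_even P up (i := 2 * i) (by omega),
          T8e_odd P up (i := 2 * i - 1) (by omega)] at h2
        have h3 : P.D (2 * i) = 2 * P.base + P.S - P.B i := by
          unfold Par.D
          rw [if_neg (by omega), if_neg (by omega), if_neg (by omega)]
          have h4 : 2 * i / 2 = i := by omega
          rw [h4]
        have h4 : P.S ≤ (∑ c ∈ range (P.m + 1), if f c = i then P.sz c else 0) +
            T8e_n P up (2 * i - 1) + T8e_a P up (2 * i) := by
          unfold T8e_n T8e_a Par.S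
          rw [← sum_add_distrib, ← sum_add_distrib]
          refine sum_le_sum fun c hc => ?_
          rw [mem_range] at hc
          rcases Nat.eq_zero_or_pos c with h5 | h5
          · subst h5
            rw [P.sz0]
            exact Nat.zero_le _
          · by_cases h7 : up (2 * i - 1) c
            · by_cases h8 : up (2 * i) c
              · rw [if_pos h8]; omega
              · have h9 := hmono (2 * i - 1) c (by omega) (by omega) h5 (by omega) h7
                have h10 : 2 * i - 1 - 1 = 2 * (i - 1) := by omega
                rw [h10] at h9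
                have h11 := (hf2 c h5 (by omega) (i - 1) (by omega)).1 h9
                have h12 : ¬ i < f c := fun h => h8 ((hf2 c h5 (by omega) i h1).2 h)
                rw [if_pos (by omega : f c = i)]
                omega
            · rw [if_neg h7]; omega
        omega
      · have hiK : i = P.K := by omega
        subst hiK
        have h2 := hlev P.R le_rfl
        rw [if_neg (by omega), if_pos rfl, T8e_odd P up (i := P.R - 1) (by omega)] at h2
        have h3 : P.D P.R = P.base + P.S - P.B P.K := by
          unfold Par.D
          rw [if_neg (by omega), if_pos rfl]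
        have h4 := T8e_an P up (P.R - 1)
        have h5 : T8e_a P up (P.R - 1) ≤ ∑ c ∈ range (P.m + 1), if f c = P.K then P.sz c else 0 := by
          unfold T8e_a
          refine sum_le_sum fun c hc => ?_
          rw [mem_range] at hc
          rcases Nat.eq_zero_or_pos c with h5 | h5
          · subst h5
            rw [P.sz0]
            split_ifs <;> omega
          · by_cases h7 : up (P.R - 1) c
            · have h9 := hmono (P.R - 1) c (by omega) (by omega) h5 (by omega) h7
              have h10 : P.R - 1 - 1 = 2 * (P.K - 1) := by omega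
              rw [h10] at h9
              have h11 := (hf2 c h5 (by omega) (P.K - 1) (by omega)).1 h9
              have h12 := hf1 c
              rw [if_pos h7, if_pos (by omega : f c = P.K)]
            · rw [if_neg h7]; exact Nat.zero_le _
        omega
  have htot : ∑ i ∈ range (P.K + 1),
      ∑ c ∈ (range (P.m + 1)).filter (fun c => f c = i), P.sz c = ∑ c ∈ range (P.m + 1), P.sz c :=
    sum_fiberwise_of_maps_to (fun c _ => mem_range.2 (by have := hf1 c; omega)) _
  have heq := (sum_eq_sum_iff_of_le hle).1 (by rw [htot, P.sum])
  exact ⟨f, fun c _ => hf1 c, fun i hi => (heq i (mem_range.2 (by omega))).symm⟩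

end Pool.Agent.H820R2.SC
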