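import Pool.Agent.H820R2.SC.Core

namespace Pool.Agent.H820R2.SC

open Finset

theorem Par.sz_le (P : Par) {c : ℕ} (hc : c ≤ P.m) : P.sz c ≤ P.S := by
  unfold Par.S
  exact single_le_sum (fun _ _ => Nat.zero_le _) (mem_range.2 (by omega))

/-- T9a -/
theorem light_sum_le (P : Par) : ∑ b ∈ P.bundF.filter (fun b => Par.Light b), P.bμ b ≤ P.DM := by
  rw [sum_filter, P.sum_bundF]
  have e1 : ∀ i c x, (if Par.Light (.uR i c) then x else 0) = x := fun _ _ _ => rfl
  have e2 : ∀ i c x, (if Par.Light (.uL i c) then x else 0) = x := fun _ _ _ => rfl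
  have e3 : ∀ i c x, (if Par.Light (.lR i c) then x else 0) = x := fun _ _ _ => rfl
  have e4 : ∀ i c x, (if Par.Light (.lL i c) then x else 0) = x := fun _ _ _ => rfl
  have e5 : ∀ i c x, (if Par.Light (.uz i c) then x else 0) = 0 := fun _ _ _ => rfl
  have e6 : ∀ i c x, (if Par.Light (.zl i c) then x else 0) = 0 := fun _ _ _ => rfl
  have e7 : ∀ j x, (if Par.Light (.qz j) then x else 0) = 0 := fun _ _ => rfl
  have e8 : ∀ j x, (if Par.Light (.zo j) then x else 0) = 0 := fun _ _ => rfl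
  have e9 : ∀ j x, (if Par.Light (.ch j) then x else 0) = 0 := fun _ _ => rfl
  simp only [e1, e2, e3, e4, e5, e6, e7, e8, e9, add_zero, sum_const_zero]
  have h1 : ∀ i ∈ range P.R, ∑ c ∈ range (P.m + 1), (P.bμ (.uR i c) + P.bμ (.uL i c) +
      P.bμ (.lR i c) + P.bμ (.lL i c)) ≤ (P.m + 1) * (8 * P.Lam) := by
    intro i _
    have h2 : ∀ c ∈ range (P.m + 1), (P.bμ (.uR i c) + P.bμ (.uL i c) +
      P.bμ (.lR i c) + P.bμ (.lL i c)) ≤ 8 * P.Lam := by
      intro c hc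
      have h3 := P.sz_le (Nat.lt_succ_iff.1 (mem_range.1 hc))
      have h4 : P.S < P.Lam := Nat.lt_succ_self _
      simp only [Par.bμ]
      split_ifs <;> omega
    calc _ ≤ ∑ c ∈ range (P.m + 1), 8 * P.Lam := sum_le_sum h2
      _ = (P.m + 1) * (8 * P.Lam) := by simp
  calc _ ≤ ∑ i ∈ range P.R, (P.m + 1) * (8 * P.Lam) := sum_le_sum h1
    _ = P.R * ((P.m + 1) * (8 * P.Lam)) := by simp
    _ = P.DM := by unfold Par.DM; ring

end Pool.Agent.H820R2.SC
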