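import Pool.Agent.H820R2.SC.Core

namespace Pool.Agent.H820R2.SC

open Finset

theorem up_mono_row {P : Par} {f : ℕ → ℕ} {i c : ℕ} (h : up P f i c) : up P f (i - 1) c := by
  unfold up at *
  omega

/-- T9b -/
theorem conn_FS {P : Par} {f : ℕ → ℕ} (hf : IsPack P f) :
    ∀ x ∈ P.sys.verts, ∀ y ∈ P.sys.verts, P.sys.Conn (FS P f) x y := by
  have hm : ∀ b : GB, b ∈ FS P f → P.sys.Conn (FS P f) (P.bp b) (P.bq b) := fun b hb =>
    Sys.Conn.of_mem (S := P.sys) hb
  have ho : ∀ n ≤ 4 * P.R, P.sys.Conn (FS P f) (.o n) (.o 0) := by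
    intro n
    induction n with
    | zero => intro _; exact Sys.Conn.refl _ _ _
    | succ n ih =>
      intro hn
      exact (hm (.ch n) ⟨by change n < 4 * P.R; omega, trivial⟩).symm.trans (ih (by omega))
  have hz : ∀ j ≤ P.R, P.sys.Conn (FS P f) (.zr j) (.o 0) := by
    intro j hj
    exact (hm (.zo j) ⟨hj, trivial⟩).symm.trans (ho _ (by omega))
  have hQm : ∀ j ≤ P.R, P.sys.Conn (FS P f) (P.Q j P.m) (.o 0) := by
    intro j hj
    exact (hm (.qz j) ⟨hj, trivial⟩).trans (hz j hj)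
  have hstep : ∀ j c, 1 ≤ j → j < P.R → c + 1 ≤ P.m →
      P.sys.Conn (FS P f) (P.Q j c) (P.Q j (c + 1)) := by
    intro j c h1 h2 h3
    by_cases hu : up P f (j - 1) (c + 1)
    · have h4 := hm (.lL (j - 1) (c + 1)) ⟨⟨by omega, h3⟩, by omega, by omega, hu⟩
      have h5 := hm (.lR (j - 1) (c + 1)) ⟨⟨by omega, h3⟩, hu⟩
      simp only [Par.bp, Par.bq] at h4 h5
      rw [show j - 1 + 1 = j by omega] at h4 h5
      exact h4.symm.trans h5
    · have h6 : ¬ up P f j (c + 1) := fun h => hu (up_mono_row h)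
      have h4 := hm (.uL j (c + 1)) ⟨⟨h2, h3⟩, by omega, h1, hu⟩
      have h5 := hm (.uR j (c + 1)) ⟨⟨h2, h3⟩, h6⟩
      simp only [Par.bp, Par.bq] at h4 h5
      exact h4.trans h5.symm
  have hQ : ∀ j ≤ P.R, ∀ c ≤ P.m, P.sys.Conn (FS P f) (P.Q j c) (.o 0) := by
    intro j hj c hc
    by_cases h0 : j = 0 ∨ j = P.R
    · have : P.Q j c = P.Q j P.m := by unfold Par.Q; rw [if_pos h0, if_pos h0]
      rw [this]
      exact hQm j hj
    · have key : ∀ d, d ≤ P.m → P.sys.Conn (FS P f) (P.Q j (P.m - d)) (.o 0) := by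
        intro d
        induction d with
        | zero => intro _; exact hQm j hj
        | succ d ih =>
          intro hd
          have h1 := hstep j (P.m - (d + 1)) (by omega) (by omega) (by omega)
          rw [show P.m - (d + 1) + 1 = P.m - d by omega] at h1
          exact h1.trans (ih (by omega))
      have := key (P.m - c) (by omega)
      rwa [show P.m - (P.m - c) = c by omega] at this
  have huz : ∀ i c, i < P.R → c ≤ P.m → P.sys.Conn (FS P f) (.u i c) (.z i c) := fun i c h1 h2 =>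
    hm (.uz i c) ⟨⟨h1, h2⟩, trivial⟩
  have hzl : ∀ i c, i < P.R → c ≤ P.m → P.sys.Conn (FS P f) (.z i c) (.l i c) := fun i c h1 h2 =>
    hm (.zl i c) ⟨⟨h1, h2⟩, trivial⟩
  have hl : ∀ i c, i < P.R → c ≤ P.m → P.sys.Conn (FS P f) (.l i c) (.o 0) := by
    intro i c h1 h2
    by_cases hu : up P f i c
    · exact (hm (.lR i c) ⟨⟨h1, h2⟩, hu⟩).trans (hQ (i + 1) (by omega) c h2)
    · exact ((huz i c h1 h2).trans (hzl i c h1 h2)).symm.trans
        ((hm (.uR i c) ⟨⟨h1, h2⟩, hu⟩).symm.trans (hQ i (by omega) c h2))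
  have hall : ∀ x ∈ P.sys.verts, P.sys.Conn (FS P f) x (.o 0) := by
    intro x hx
    have hx : P.XV x := hx
    cases x with
    | q j c =>
      obtain ⟨h1, h2, h3⟩ := hx
      have h4 : P.Q j c = .q j c := by
        unfold Par.Q
        split_ifs with h
        · rw [h3 h]
        · rfl
      rw [← h4]
      exact hQ j h1 c h2
    | u i c => exact (huz i c hx.1 hx.2).trans ((hzl i c hx.1 hx.2).trans (hl i c hx.1 hx.2))
    | z i c => exact (hzl i c hx.1 hx.2).trans (hl i c hx.1 hx.2)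
    | l i c => exact hl i c hx.1 hx.2
    | zr j => exact hz j hx
    | o n => exact ho n hx
  intro x hx y hy
  exact (hall x hx).trans (hall y hy).symm

end Pool.Agent.H820R2.SC
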