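import Pool.Agent.H820R2.SC.Core

namespace Pool.Agent.H820R2.SC

open Finset

theorem Q_ne_u (P : Par) (j c i d : ℕ) : P.Q j c ≠ .u i d := by
  unfold Par.Q
  split_ifs <;> simp

theorem Q_ne_z (P : Par) (j c i d : ℕ) : P.Q j c ≠ .z i d := by
  unfold Par.Q
  split_ifs <;> simp

theorem Q_ne_l (P : Par) (j c i d : ℕ) : P.Q j c ≠ .l i d := by
  unfold Par.Q
  split_ifs <;> simp

theorem sz_le_S (P : Par) {c : ℕ} (hc : c ≤ P.m) : P.sz c ≤ P.S := by
  unfold Par.S
  exact single_le_sum (fun _ _ => Nat.zero_le _) (mem_range.2 (by omega))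

theorem up_mono_row' {P : Par} {f : ℕ → ℕ} {i c : ℕ} (h : up P f i c) : up P f (i - 1) c := by
  unfold up at *
  omega

open scoped Classical in
theorem filter_sum_le (P : Par) (Y : Set GX) (A : Finset GB)
    (hA : ∀ b, P.BV b → ¬ (P.bp b ∈ Y ↔ P.bq b ∈ Y) → b ∈ A) :
    ∑ b' ∈ P.bundF.filter (fun b' => ¬ (P.bp b' ∈ Y ↔ P.bq b' ∈ Y)), P.bμ b' ≤ ∑ b ∈ A, P.bμ b := by
  refine sum_le_sum_of_subset fun b hb => ?_
  rw [mem_filter] at hb
  exact hA b (P.mem_bundF.1 hb.1) hb.2

/-- T9c -/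
theorem cut_cell {P : Par} {f : ℕ → ℕ} (hf : IsPack P f) {i c : ℕ} (hi : i < P.R) (hc : c ≤ P.m) :
    CutOK P (FS P f) (.uz i c) ∧ CutOK P (FS P f) (.zl i c) := by
  have hS := sz_le_S P hc
  have hcell := P.cell_le
  have hQu := Q_ne_u P
  have hQz := Q_ne_z P
  have hQl := Q_ne_l P
  have hU : ∑ b ∈ ({.uz i c, .uR i c, .uL i c} : Finset GB), P.bμ b ≤ P.t := by
    rw [sum_insert (by simp), sum_insert (by simp), sum_singleton]
    simp only [Par.bμ, Par.t]
    split_ifs <;> omega
  have hU' : ∑ b ∈ ({.zl i c, .uR i c, .uL i c} : Finset GB), P.bμ b ≤ P.t := by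
    rw [sum_insert (by simp), sum_insert (by simp), sum_singleton]
    simp only [Par.bμ, Par.t]
    split_ifs <;> omega
  have hL : ∑ b ∈ ({.uz i c, .lR i c, .lL i c} : Finset GB), P.bμ b ≤ P.t := by
    rw [sum_insert (by simp), sum_insert (by simp), sum_singleton]
    simp only [Par.bμ, Par.t]
    split_ifs <;> omega
  have hL' : ∑ b ∈ ({.zl i c, .lR i c, .lL i c} : Finset GB), P.bμ b ≤ P.t := by
    rw [sum_insert (by simp), sum_insert (by simp), sum_singleton]
    simp only [Par.bμ, Par.t]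
    split_ifs <;> omega
  by_cases hu : up P f i c
  · have hu' := up_mono_row' hu
    constructor
    · refine ⟨{.u i c}, ?_, ?_, ?_⟩
      · simp [Par.bp, Par.bq]
      · rintro b hb hne
        cases b <;> simp [Par.bp, Par.bq, hQu] <;> rintro rfl rfl
        · exact hb.2 hu
        · exact hb.2.2.2 hu'
        · exact hne rfl
      · refine le_trans (filter_sum_le P _ _ ?_) hU
        intro b _ h1
        cases b <;> simp [Par.bp, Par.bq, hQu] at h1 ⊢ <;> exact h1
    · refine ⟨{.u i c, .z i c}, ?_, ?_, ?_⟩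
      · simp [Par.bp, Par.bq]
      · rintro b hb hne
        cases b <;> simp [Par.bp, Par.bq, hQu, hQz] <;> rintro rfl rfl
        · exact hb.2 hu
        · exact hb.2.2.2 hu'
        · exact hne rfl
      · refine le_trans (filter_sum_le P _ _ ?_) hU'
        intro b _ h1
        cases b <;> simp [Par.bp, Par.bq, hQu, hQz] at h1 ⊢ <;> exact h1
  · constructor
    · refine ⟨{.z i c, .l i c}, ?_, ?_, ?_⟩
      · simp [Par.bp, Par.bq]
      · rintro b hb hne
        cases b <;> simp [Par.bp, Par.bq, hQl, hQz] <;> rintro rfl rfl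
        · exact hu hb.2
        · exact hu hb.2.2.2
        · exact hne rfl
      · refine le_trans (filter_sum_le P _ _ ?_) hL
        intro b _ h1
        cases b <;> simp [Par.bp, Par.bq, hQl, hQz] at h1 ⊢ <;> exact h1
    · refine ⟨{.l i c}, ?_, ?_, ?_⟩
      · simp [Par.bp, Par.bq]
      · rintro b hb hne
        cases b <;> simp [Par.bp, Par.bq, hQl] <;> rintro rfl rfl
        · exact hu hb.2
        · exact hu hb.2.2.2
        · exact hne rfl
      · refine le_trans (filter_sum_le P _ _ ?_) hL'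
        intro b _ h1
        cases b <;> simp [Par.bp, Par.bq, hQl] at h1 ⊢ <;> exact h1

end Pool.Agent.H820R2.SC
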