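import Pool.Agent.H820R2.SC.Core

/-!
# Fundamental cuts of the levels
-/

namespace Pool.Agent.H820R2.SC

open Finset

namespace CutLevel

/-- The vertices of the level `j` (together with `zr j` when `w` holds). -/
def Y (P : Par) (f : ℕ → ℕ) (j : ℕ) (w : Prop) : GX → Prop
  | .o _ => False
  | .zr j' => w ∧ j' = j
  | .q j' _ => j' = j
  | .u i c => (i + 1 = j ∧ up P f i c) ∨ (i = j ∧ ¬ up P f i c)
  | .z i c => (i + 1 = j ∧ up P f i c) ∨ (i = j ∧ ¬ up P f i c)
  | .l i c => (i + 1 = j ∧ up P f i c) ∨ (i = j ∧ ¬ up P f i c)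

theorem Y_Q (P : Par) (f : ℕ → ℕ) (j : ℕ) (w : Prop) (j' c : ℕ) :
    Y P f j w (P.Q j' c) ↔ j' = j := by
  unfold Par.Q
  split_ifs <;> exact Iff.rfl

theorem Y_o (P : Par) (f : ℕ → ℕ) (j : ℕ) (w : Prop) (n : ℕ) : Y P f j w (.o n) ↔ False :=
  Iff.rfl

theorem Y_zr (P : Par) (f : ℕ → ℕ) (j : ℕ) (w : Prop) (j' : ℕ) :
    Y P f j w (.zr j') ↔ w ∧ j' = j := Iff.rfl

theorem Y_u (P : Par) (f : ℕ → ℕ) (j : ℕ) (w : Prop) (i c : ℕ) :
    Y P f j w (.u i c) ↔ (i + 1 = j ∧ up P f i c) ∨ (i = j ∧ ¬ up P f i c) := Iff.rfl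

theorem Y_z (P : Par) (f : ℕ → ℕ) (j : ℕ) (w : Prop) (i c : ℕ) :
    Y P f j w (.z i c) ↔ (i + 1 = j ∧ up P f i c) ∨ (i = j ∧ ¬ up P f i c) := Iff.rfl

theorem Y_l (P : Par) (f : ℕ → ℕ) (j : ℕ) (w : Prop) (i c : ℕ) :
    Y P f j w (.l i c) ↔ (i + 1 = j ∧ up P f i c) ∨ (i = j ∧ ¬ up P f i c) := Iff.rfl

theorem not_up_of_pred {P : Par} {f : ℕ → ℕ} {i c : ℕ} (h : ¬ up P f (i - 1) c) :
    ¬ up P f i c := by
  unfold up at *
  omega

theorem no_cross {P : Par} {f : ℕ → ℕ} {j : ℕ} {w : Prop} {b : GB} (hb : b ∈ FS P f)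
    (h1 : ¬ w → b ≠ .qz j) (h2 : w → b ≠ .zo j) :
    Y P f j w (P.bp b) ↔ Y P f j w (P.bq b) := by
  obtain ⟨-, hb⟩ := hb
  cases b with
  | uR i c =>
    have h3 : ¬ up P f i c := hb
    simp only [Par.bp, Par.bq, Y_Q, Y_o, Y_zr, Y_u, Y_z, Y_l, h3, and_false, false_or, not_false_eq_true, and_true]
  | uL i c =>
    have h3 : ¬ up P f i c := not_up_of_pred hb.2.2
    simp only [Par.bp, Par.bq, Y_Q, Y_o, Y_zr, Y_u, Y_z, Y_l, h3, and_false, false_or, not_false_eq_true, and_true]
  | lR i c =>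
    have h3 : up P f i c := hb
    simp only [Par.bp, Par.bq, Y_Q, Y_o, Y_zr, Y_u, Y_z, Y_l, h3, and_true, not_true_eq_false, and_false, or_false]
  | lL i c =>
    have h3 : up P f i c := hb.2.2
    simp only [Par.bp, Par.bq, Y_Q, Y_o, Y_zr, Y_u, Y_z, Y_l, h3, and_true, not_true_eq_false, and_false, or_false]
  | uz i c => exact Iff.rfl
  | zl i c => exact Iff.rfl
  | qz j' =>
    simp only [Par.bp, Par.bq, Y_Q, Y_o, Y_zr, Y_u, Y_z, Y_l]
    by_cases hw : w
    · simp [hw]
    · have h3 : j' ≠ j := fun h => h1 hw (by rw [h])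
      simp [hw, h3]
  | zo j' =>
    simp only [Par.bp, Par.bq, Y_Q, Y_o, Y_zr, Y_u, Y_z, Y_l]
    by_cases hw : w
    · have h3 : j' ≠ j := fun h => h2 hw (by rw [h])
      simp [hw, h3]
    · simp [hw]
  | ch n => exact Iff.rfl

theorem PW_eq (P : Par) (f : ℕ → ℕ) (i : ℕ) : PW P (up P f) i = P.base +
    ∑ c ∈ range (P.m + 1), (if i % 2 = 0 then (if i < 2 * f c then P.sz c else 0)
      else (if i < 2 * f c then 0 else P.sz c)) := by
  have h1 : P.base = ∑ c ∈ range (P.m + 1), 2 * P.Lam := by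
    rw [sum_const, card_range, smul_eq_mul]
    unfold Par.base
    ring
  rw [h1, ← sum_add_distrib]
  unfold PW
  refine sum_congr rfl fun c _ => ?_
  simp only [Par.bμ, up]
  by_cases hc : c = 0
  · subst hc
    simp only [P.sz0, if_true, ite_self]
    ring
  · simp only [if_neg hc]
    have h2 : i % 2 = 0 ∨ i % 2 = 1 := by omega
    rcases h2 with h2 | h2
    · by_cases h3 : i < 2 * f c
      · simp [h2, h3]; ring
      · simp [h2, h3]; ring
    · by_cases h3 : i < 2 * f c
      · simp [h2, h3]; ring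
      · simp [h2, h3]; ring

/-- Sizes of the items in the bins before, at and after `a`. -/
theorem sum_three (P : Par) (f : ℕ → ℕ) (a : ℕ) :
    (∑ c ∈ range (P.m + 1), if f c < a then P.sz c else 0) +
    (∑ c ∈ range (P.m + 1), if f c = a then P.sz c else 0) +
    (∑ c ∈ range (P.m + 1), if a < f c then P.sz c else 0) = P.S := by
  rw [← sum_add_distrib, ← sum_add_distrib]
  unfold Par.S
  refine sum_congr rfl fun c _ => ?_
  rcases lt_trichotomy (f c) a with h | h | h
  · rw [if_pos h, if_neg h.ne, if_neg (not_lt.2 h.le)]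
    simp
  · rw [if_neg (by omega), if_pos h, if_neg (by omega)]
    simp
  · rw [if_neg (not_lt.2 h.le), if_neg h.ne', if_pos h]
    simp

theorem sum_eq_B {P : Par} {f : ℕ → ℕ} (hf : IsPack P f) {a : ℕ} (ha : a ≤ P.K) :
    (∑ c ∈ range (P.m + 1), if f c = a then P.sz c else 0) = P.B a := by
  rw [← hf.sum a ha, sum_filter]

theorem weight_le {P : Par} {f : ℕ → ℕ} (hf : IsPack P f) {j : ℕ} (hj : j ≤ P.R) :
    (if j = 0 then 0 else PW P (up P f) (j - 1)) + (if j = P.R then 0 else PW P (up P f) j)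
      ≤ P.D j := by
  have hR : P.R = 2 * P.K := rfl
  have hK := P.K1
  unfold Par.D
  by_cases hj0 : j = 0
  · subst hj0
    have h0 : (0 : ℕ) ≠ P.R := by omega
    rw [if_pos rfl, if_neg h0, if_pos rfl, PW_eq]
    have h1 := sum_three P f 0
    rw [sum_eq_B hf (Nat.zero_le _)] at h1
    have h2 : (∑ c ∈ range (P.m + 1), if f c < 0 then P.sz c else 0) = 0 :=
      sum_eq_zero fun c _ => by simp
    have h3 : (∑ c ∈ range (P.m + 1), (if 0 % 2 = 0 then (if 0 < 2 * f c then P.sz c else 0)
      else (if 0 < 2 * f c then 0 else P.sz c))) =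
        ∑ c ∈ range (P.m + 1), if 0 < f c then P.sz c else 0 := by
      refine sum_congr rfl fun c _ => ?_
      rw [if_pos (by norm_num)]
      by_cases h : 0 < f c
      · rw [if_pos h, if_pos (by omega)]
      · rw [if_neg h, if_neg (by omega)]
    rw [h3]
    omega
  by_cases hjR : j = P.R
  · rw [if_neg hj0, if_pos hjR, if_neg hj0, if_pos hjR, PW_eq]
    have h1 := sum_three P f P.K
    rw [sum_eq_B hf le_rfl] at h1
    have h3 : (∑ c ∈ range (P.m + 1), (if (j - 1) % 2 = 0 then
        (if j - 1 < 2 * f c then P.sz c else 0) else (if j - 1 < 2 * f c then 0 else P.sz c))) =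
        ∑ c ∈ range (P.m + 1), if f c < P.K then P.sz c else 0 := by
      refine sum_congr rfl fun c _ => ?_
      rw [if_neg (by omega)]
      by_cases h : f c < P.K
      · rw [if_pos h, if_neg (by omega)]
      · rw [if_neg h, if_pos (by omega)]
    rw [h3]
    omega
  rw [if_neg hj0, if_neg hjR, if_neg hj0, if_neg hjR, PW_eq, PW_eq]
  rcases Nat.even_or_odd' j with ⟨a, ha | ha⟩
  · -- even level
    rw [if_neg (by omega : ¬ j % 2 = 1)]
    have ha' : j / 2 = a := by omega
    rw [ha']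
    have h1 := sum_three P f a
    rw [sum_eq_B hf (by omega)] at h1
    have h3 : (∑ c ∈ range (P.m + 1), (if (j - 1) % 2 = 0 then
        (if j - 1 < 2 * f c then P.sz c else 0) else (if j - 1 < 2 * f c then 0 else P.sz c))) =
        ∑ c ∈ range (P.m + 1), if f c < a then P.sz c else 0 := by
      refine sum_congr rfl fun c _ => ?_
      rw [if_neg (by omega)]
      by_cases h : f c < a
      · rw [if_pos h, if_neg (by omega)]
      · rw [if_neg h, if_pos (by omega)]
    have h4 : (∑ c ∈ range (P.m + 1), (if j % 2 = 0 then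
        (if j < 2 * f c then P.sz c else 0) else (if j < 2 * f c then 0 else P.sz c))) =
        ∑ c ∈ range (P.m + 1), if a < f c then P.sz c else 0 := by
      refine sum_congr rfl fun c _ => ?_
      rw [if_pos (by omega)]
      by_cases h : a < f c
      · rw [if_pos h, if_pos (by omega)]
      · rw [if_neg h, if_neg (by omega)]
    rw [h3, h4]
    omega
  · -- odd level
    rw [if_pos (by omega : j % 2 = 1)]
    have h1 := sum_three P f a
    have h3 : (∑ c ∈ range (P.m + 1), (if (j - 1) % 2 = 0 then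
        (if j - 1 < 2 * f c then P.sz c else 0) else (if j - 1 < 2 * f c then 0 else P.sz c))) =
        ∑ c ∈ range (P.m + 1), if a < f c then P.sz c else 0 := by
      refine sum_congr rfl fun c _ => ?_
      rw [if_pos (by omega)]
      by_cases h : a < f c
      · rw [if_pos h, if_pos (by omega)]
      · rw [if_neg h, if_neg (by omega)]
    have h4 : (∑ c ∈ range (P.m + 1), (if j % 2 = 0 then
        (if j < 2 * f c then P.sz c else 0) else (if j < 2 * f c then 0 else P.sz c))) =
        (∑ c ∈ range (P.m + 1), if f c < a then P.sz c else 0) +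
        ∑ c ∈ range (P.m + 1), if f c = a then P.sz c else 0 := by
      rw [← sum_add_distrib]
      refine sum_congr rfl fun c _ => ?_
      rw [if_neg (by omega)]
      rcases lt_trichotomy (f c) a with h | h | h
      · rw [if_pos h, if_neg h.ne, if_neg (by omega), add_zero]
      · rw [if_neg (by omega), if_neg (by omega), if_pos h]; omega
      · rw [if_pos (by omega), if_neg (by omega), if_neg h.ne']
    rw [h3, h4]
    omega

/-- The weight of the cut. -/
theorem cut_sum {P : Par} {f : ℕ → ℕ} {j : ℕ} (hj : j ≤ P.R) (w : Prop) (dec : DecidablePred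
    (fun b => ¬ (Y P f j w (P.bp b) ↔ Y P f j w (P.bq b)))) :
    ∑ b ∈ P.bundF.filter (fun b => ¬ (Y P f j w (P.bp b) ↔ Y P f j w (P.bq b))), P.bμ b =
      (P.t - P.D j) + ((if j = 0 then 0 else PW P (up P f) (j - 1)) +
        (if j = P.R then 0 else PW P (up P f) j)) := by
  classical
  rw [sum_filter, P.sum_bundF]
  have hch : ∑ n ∈ range (4 * P.R), (if ¬ (Y P f j w (P.bp (.ch n)) ↔ Y P f j w (P.bq (.ch n)))
      then P.bμ (.ch n) else 0) = 0 :=
    sum_eq_zero fun n _ => if_neg (not_not.2 Iff.rfl)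
  have hlev : ∑ j' ∈ range (P.R + 1), ((if ¬ (Y P f j w (P.bp (.qz j')) ↔
      Y P f j w (P.bq (.qz j'))) then P.bμ (.qz j') else 0) + (if ¬ (Y P f j w (P.bp (.zo j')) ↔
      Y P f j w (P.bq (.zo j'))) then P.bμ (.zo j') else 0)) = P.t - P.D j := by
    rw [sum_eq_single j]
    · simp only [Par.bp, Par.bq, Y_Q, Y_o, Y_zr, Y_u, Y_z, Y_l, Par.bμ]
      by_cases hw : w
      · simp [hw]
      · simp [hw]
    · intro j' _ hne
      simp only [Par.bp, Par.bq, Y_Q, Y_o, Y_zr, Y_u, Y_z, Y_l]
      simp [hne]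
    · intro h
      exact absurd (mem_range.2 (by omega)) h
  have hrow : ∀ i ∈ range P.R, ∑ c ∈ range (P.m + 1),
      ((if ¬ (Y P f j w (P.bp (.uR i c)) ↔ Y P f j w (P.bq (.uR i c))) then P.bμ (.uR i c) else 0) +
       (if ¬ (Y P f j w (P.bp (.uL i c)) ↔ Y P f j w (P.bq (.uL i c))) then P.bμ (.uL i c) else 0) +
       (if ¬ (Y P f j w (P.bp (.lR i c)) ↔ Y P f j w (P.bq (.lR i c))) then P.bμ (.lR i c) else 0) +
       (if ¬ (Y P f j w (P.bp (.lL i c)) ↔ Y P f j w (P.bq (.lL i c))) then P.bμ (.lL i c) else 0) +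
       (if ¬ (Y P f j w (P.bp (.uz i c)) ↔ Y P f j w (P.bq (.uz i c))) then P.bμ (.uz i c) else 0) +
       (if ¬ (Y P f j w (P.bp (.zl i c)) ↔ Y P f j w (P.bq (.zl i c))) then P.bμ (.zl i c) else 0))
      = (if i + 1 = j then PW P (up P f) i else 0) + (if i = j then PW P (up P f) i else 0) := by
    intro i _
    have hterm : ∀ c,
      ((if ¬ (Y P f j w (P.bp (.uR i c)) ↔ Y P f j w (P.bq (.uR i c))) then P.bμ (.uR i c) else 0) +
       (if ¬ (Y P f j w (P.bp (.uL i c)) ↔ Y P f j w (P.bq (.uL i c))) then P.bμ (.uL i c) else 0) +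
       (if ¬ (Y P f j w (P.bp (.lR i c)) ↔ Y P f j w (P.bq (.lR i c))) then P.bμ (.lR i c) else 0) +
       (if ¬ (Y P f j w (P.bp (.lL i c)) ↔ Y P f j w (P.bq (.lL i c))) then P.bμ (.lL i c) else 0) +
       (if ¬ (Y P f j w (P.bp (.uz i c)) ↔ Y P f j w (P.bq (.uz i c))) then P.bμ (.uz i c) else 0) +
       (if ¬ (Y P f j w (P.bp (.zl i c)) ↔ Y P f j w (P.bq (.zl i c))) then P.bμ (.zl i c) else 0))
      = if i + 1 = j ∨ i = j then (if up P f i c then P.bμ (.uR i c) + P.bμ (.uL i c)
        else P.bμ (.lR i c) + P.bμ (.lL i c)) else 0 := by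
      intro c
      simp only [Par.bp, Par.bq, Y_Q, Y_o, Y_zr, Y_u, Y_z, Y_l]
      by_cases h1 : i + 1 = j
      · have h2 : i ≠ j := by omega
        by_cases h3 : up P f i c
        · simp [h1, h2, h3]
        · simp [h1, h2, h3]
      · by_cases h2 : i = j
        · have h4 : ¬ j + 1 = j := by omega
          subst h2
          by_cases h3 : up P f i c
          · simp [h3]
          · simp [h3]
        · simp [h1, h2]
    rw [sum_congr rfl fun c _ => hterm c]
    by_cases h1 : i + 1 = j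
    · have h2 : i ≠ j := by omega
      simp only [h1, h2, true_or, if_true, if_false, add_zero]
      unfold PW
      exact sum_congr rfl fun c _ => by congr
    · by_cases h2 : i = j
      · subst h2
        rw [if_neg h1, if_pos rfl, zero_add]
        simp only [or_true, if_true]
        unfold PW
        exact sum_congr rfl fun c _ => by congr
      · simp [h1, h2]
  have hall : ∑ i ∈ range P.R, ((if i + 1 = j then PW P (up P f) i else 0) +
      (if i = j then PW P (up P f) i else 0)) = (if j = 0 then 0 else PW P (up P f) (j - 1)) +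
        (if j = P.R then 0 else PW P (up P f) j) := by
    rw [sum_add_distrib]
    congr 1
    · by_cases h0 : j = 0
      · rw [if_pos h0]
        exact sum_eq_zero fun i _ => if_neg (by omega)
      · rw [if_neg h0, sum_eq_single (j - 1)]
        · rw [if_pos (by omega)]
        · intro i _ hi
          exact if_neg (by omega)
        · intro h
          exact absurd (mem_range.2 (by omega)) h
    · by_cases h0 : j = P.R
      · rw [if_pos h0]
        exact sum_eq_zero fun i hi => if_neg (by have := mem_range.1 hi; omega)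
      · rw [if_neg h0, sum_eq_single j]
        · rw [if_pos rfl]
        · intro i _ hi
          exact if_neg hi
        · intro h
          exact absurd (mem_range.2 (by omega)) h
  rw [sum_congr rfl hrow, hall, hlev, hch]
  omega

end CutLevel

open CutLevel in
/-- T9d -/
theorem cut_level {P : Par} {f : ℕ → ℕ} (hf : IsPack P f) {j : ℕ} (hj : j ≤ P.R) :
    CutOK P (FS P f) (.qz j) ∧ CutOK P (FS P f) (.zo j) := by
  classical
  have hw := weight_le hf hj
  have hD := P.D_le j
  have ht : P.t = 2 * P.DM + 1 := rfl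
  refine ⟨⟨{x | Y P f j False x}, ?_, ?_, ?_⟩, ⟨{x | Y P f j True x}, ?_, ?_, ?_⟩⟩
  · simp only [Par.bp, Par.bq, Set.mem_ofPred_eq, Y_Q, Y_o, Y_zr, Y_u, Y_z, Y_l]
    simp
  · intro b' hb' hne
    exact no_cross hb' (fun _ => hne) (fun h => absurd h id)
  · refine (cut_sum hj False _).le.trans ?_
    omega
  · simp only [Par.bp, Par.bq, Set.mem_ofPred_eq, Y_Q, Y_o, Y_zr, Y_u, Y_z, Y_l]
    simp
  · intro b' hb' hne
    exact no_cross hb' (fun h => absurd trivial h) (fun _ => hne)
  · refine (cut_sum hj True _).le.trans ?_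
    omega

end Pool.Agent.H820R2.SC
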