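import Pool.Agent.H820R2.SC.Core

/-!
# Fundamental cuts of the chain
-/

namespace Pool.Agent.H820R2.SC

open Finset

open scoped Classical in
/-- The place of a vertex along the chain. -/
noncomputable def plc (P : Par) (f : ℕ → ℕ) : GX → ℕ
  | .o n => n
  | .zr j => 4 * j
  | .q j _ => 4 * j
  | .u i c => if up P f i c then 4 * (i + 1) else 4 * i
  | .z i c => if up P f i c then 4 * (i + 1) else 4 * i
  | .l i c => if up P f i c then 4 * (i + 1) else 4 * i

theorem plc_Q (P : Par) (f : ℕ → ℕ) (j c : ℕ) : plc P f (P.Q j c) = 4 * j := by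
  unfold Par.Q
  split_ifs <;> rfl

theorem not_up_of_pred {P : Par} {f : ℕ → ℕ} {i c : ℕ} (h : ¬ up P f (i - 1) c) :
    ¬ up P f i c := by
  unfold up at *
  omega

/-- T9e -/
theorem cut_ch {P : Par} {f : ℕ → ℕ} (hf : IsPack P f)
    (hL : ∑ b ∈ P.bundF.filter (fun b => Par.Light b), P.bμ b ≤ P.DM) {n : ℕ} (hn : n < 4 * P.R) :
    CutOK P (FS P f) (.ch n) := by
  classical
  have hpl : ∀ b' : GB, b' ∈ FS P f → b' ≠ .ch n →
      (plc P f (P.bp b') ≤ n ↔ plc P f (P.bq b') ≤ n) := by
    intro b' hb' hne
    obtain ⟨-, hb'⟩ := hb'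
    cases b' with
    | uR i c =>
      have h1 : ¬ up P f i c := hb'
      simp only [Par.bp, Par.bq, plc_Q]
      simp only [plc, if_neg h1]
    | uL i c =>
      have h1 : ¬ up P f i c := not_up_of_pred hb'.2.2
      simp only [Par.bp, Par.bq, plc_Q]
      simp only [plc, if_neg h1]
    | lR i c =>
      have h1 : up P f i c := hb'
      simp only [Par.bp, Par.bq, plc_Q]
      simp only [plc, if_pos h1]
    | lL i c =>
      have h1 : up P f i c := hb'.2.2
      simp only [Par.bp, Par.bq, plc_Q]
      simp only [plc, if_pos h1]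
    | uz i c => exact Iff.rfl
    | zl i c => exact Iff.rfl
    | qz j =>
      simp only [Par.bp, Par.bq, plc_Q]
      simp only [plc]
    | zo j => exact Iff.rfl
    | ch n' =>
      have h1 : n' ≠ n := fun h => hne (by rw [h])
      simp only [Par.bp, Par.bq, plc]
      omega
  refine ⟨{x | plc P f x ≤ n}, ?_, ?_, ?_⟩
  · simp only [Par.bp, Par.bq, Set.mem_ofPred_eq, plc]
    omega
  · intro b' hb' hne
    exact hpl b' hb' hne
  · refine le_trans (sum_le_sum_of_subset
      (t := {GB.ch n} ∪ P.bundF.filter (fun b => Par.Light b)) ?_) ?_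
    · intro b' hb'
      simp only [Finset.mem_filter] at hb'
      obtain ⟨hb1, hb2⟩ := hb'
      rw [mem_union, mem_singleton, mem_filter]
      by_contra hcon
      push Not at hcon
      obtain ⟨h1, h2⟩ := hcon
      have h3 := h2 hb1
      apply hb2
      apply hpl b' _ h1
      refine ⟨(P.mem_bundF).1 hb1, ?_⟩
      cases b' <;> first | exact absurd trivial h3 | exact trivial
    · rw [sum_union, sum_singleton]
      · have : P.DM ≤ P.t := by unfold Par.t; omega
        have h1 : P.bμ (.ch n) = P.t - P.DM := rfl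
        omega
      · rw [Finset.disjoint_left]
        intro b' hb' hb''
        rw [mem_singleton] at hb'
        subst hb'
        exact (mem_filter.1 hb'').2

end Pool.Agent.H820R2.SC
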