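import Pool.Agent.H820R2.SC.T9c

namespace Pool.Agent.H820R2.SC

open Finset

/-- The part of level `j` in the columns before `c`. -/
def ZS (P : Par) (f : ℕ → ℕ) (j c : ℕ) : Set GX := {x | match x with
  | .q j' c' => j' = j ∧ c' < c
  | .u i c' => c' < c ∧ ((i + 1 = j ∧ up P f i c') ∨ (i = j ∧ ¬ up P f i c'))
  | .z i c' => c' < c ∧ ((i + 1 = j ∧ up P f i c') ∨ (i = j ∧ ¬ up P f i c'))
  | .l i c' => c' < c ∧ ((i + 1 = j ∧ up P f i c') ∨ (i = j ∧ ¬ up P f i c'))
  | _ => False}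

section
variable {P : Par} {f : ℕ → ℕ} {j c : ℕ}

theorem zs_u {i c' : ℕ} : GX.u i c' ∈ ZS P f j c ↔
    c' < c ∧ ((i + 1 = j ∧ up P f i c') ∨ (i = j ∧ ¬ up P f i c')) := Iff.rfl
theorem zs_z {i c' : ℕ} : GX.z i c' ∈ ZS P f j c ↔
    c' < c ∧ ((i + 1 = j ∧ up P f i c') ∨ (i = j ∧ ¬ up P f i c')) := Iff.rfl
theorem zs_l {i c' : ℕ} : GX.l i c' ∈ ZS P f j c ↔
    c' < c ∧ ((i + 1 = j ∧ up P f i c') ∨ (i = j ∧ ¬ up P f i c')) := Iff.rfl
theorem zs_zr {i : ℕ} : GX.zr i ∈ ZS P f j c ↔ False := Iff.rfl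
theorem zs_o {i : ℕ} : GX.o i ∈ ZS P f j c ↔ False := Iff.rfl

theorem zs_Q (h1 : 1 ≤ j) (h2 : j < P.R) {j' c' : ℕ} :
    P.Q j' c' ∈ ZS P f j c ↔ j' = j ∧ c' < c := by
  unfold Par.Q
  split_ifs with h
  · change j' = j ∧ 0 < c ↔ j' = j ∧ c' < c
    constructor
    · rintro ⟨rfl, -⟩
      omega
    · rintro ⟨rfl, -⟩
      omega
  · exact Iff.rfl

end

theorem cutOK_light {P : Par} {f : ℕ → ℕ}
    (hL : ∑ b ∈ P.bundF.filter (fun b => Par.Light b), P.bμ b ≤ P.DM) {b : GB}
    (hl : Par.Light b) (Y : Set GX) (h1 : ¬ (P.bp b ∈ Y ↔ P.bq b ∈ Y))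
    (h2 : ∀ b' ∈ FS P f, b' ≠ b → (P.bp b' ∈ Y ↔ P.bq b' ∈ Y)) : CutOK P (FS P f) b := by
  refine ⟨Y, h1, h2, (filter_sum_le P Y (P.bundF.filter (fun b => Par.Light b)) ?_).trans
    (hL.trans (by unfold Par.t; omega))⟩
  intro b' hb' hc
  rw [mem_filter]
  refine ⟨P.mem_bundF.2 hb', ?_⟩
  by_contra hn
  refine hc (h2 b' ⟨hb', ?_⟩ ?_)
  · cases b' <;> first | trivial | exact absurd trivial hn
  · rintro rfl
    exact hn hl

/-- The only bundle of the tree crossing `ZS j c` is the connector. -/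
theorem zs_cross {P : Par} {f : ℕ → ℕ} {j c : ℕ} (h1 : 1 ≤ j) (h2 : j < P.R) (hc1 : 1 ≤ c)
    (hc : c ≤ P.m) {b : GB} (hb : b ∈ FS P f)
    (hcr : ¬ (P.bp b ∈ ZS P f j c ↔ P.bq b ∈ ZS P f j c)) :
    b = .lL (j - 1) c ∨ b = .uL j c := by
  have hQ := fun j' c' => zs_Q (P := P) (f := f) (c := c) h1 h2 (j' := j') (c' := c')
  obtain ⟨hbv, hbf⟩ := hb
  cases b with
  | uR i d =>
    exfalso; apply hcr
    simp only [Par.bp, Par.bq, hQ, zs_u]
    have : ¬ up P f i d := hbf
    simp only [this, and_false, false_or, not_false_eq_true, and_true]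
    tauto
  | uL i d =>
    right
    obtain ⟨h3, h4, h5⟩ := hbf
    have h6 : ¬ up P f i d := fun h => h5 (up_mono_row' h)
    simp only [Par.bp, Par.bq, hQ, zs_u, h6, and_false, false_or, not_false_eq_true,
      and_true] at hcr
    have h7 : i = j := by
      by_contra hne
      exact hcr (by simp [hne])
    have h8 : d = c := by
      by_contra hne
      apply hcr
      simp only [h7, true_and, and_true]
      omega
    rw [h7, h8]
  | lR i d =>
    exfalso; apply hcr
    simp only [Par.bp, Par.bq, hQ, zs_l]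
    have : up P f i d := hbf
    simp only [this, and_false, or_false, and_true, not_true_eq_false]
    tauto
  | lL i d =>
    left
    obtain ⟨h3, h4, h6⟩ := hbf
    simp only [Par.bp, Par.bq, hQ, zs_l, h6, and_false, or_false, not_true_eq_false,
      and_true] at hcr
    have h7 : i + 1 = j := by
      by_contra hne
      exact hcr (by simp [hne])
    have h8 : d = c := by
      by_contra hne
      apply hcr
      simp only [h7, true_and, and_true]
      omega
    rw [h8]
    congr 1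
    omega
  | uz i d => exact absurd (by simp only [Par.bp, Par.bq, zs_u, zs_z]) hcr
  | zl i d => exact absurd (by simp only [Par.bp, Par.bq, zs_l, zs_z]) hcr
  | qz i =>
    exfalso; apply hcr
    simp only [Par.bp, Par.bq, hQ, zs_zr, iff_false]
    rintro ⟨-, h⟩
    omega
  | zo i => exact absurd (by simp only [Par.bp, Par.bq, zs_o, zs_zr]) hcr
  | ch n => exact absurd (by simp only [Par.bp, Par.bq, zs_o]) hcr

theorem cut_lL {P : Par} {f : ℕ → ℕ}
    (hL : ∑ b ∈ P.bundF.filter (fun b => Par.Light b), P.bμ b ≤ P.DM) {i c : ℕ}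
    (hb : .lL i c ∈ FS P f) : CutOK P (FS P f) (.lL i c) := by
  obtain ⟨⟨h1, h2⟩, h3, h4, h5⟩ := hb
  refine cutOK_light hL trivial (ZS P f (i + 1) c) ?_ ?_
  · simp only [Par.bp, Par.bq, zs_Q (show 1 ≤ i + 1 by omega) h4, zs_l, lt_irrefl, false_and,
      false_iff, true_and, not_not]
    omega
  · intro b' hb' hne
    by_contra hcr
    rcases zs_cross (by omega) h4 h3 h2 hb' hcr with rfl | rfl
    · exact hne (by simp)
    · exact hb'.2.2.2 h5

theorem cut_uL {P : Par} {f : ℕ → ℕ}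
    (hL : ∑ b ∈ P.bundF.filter (fun b => Par.Light b), P.bμ b ≤ P.DM) {i c : ℕ}
    (hb : .uL i c ∈ FS P f) : CutOK P (FS P f) (.uL i c) := by
  obtain ⟨⟨h1, h2⟩, h3, h4, h5⟩ := hb
  refine cutOK_light hL trivial (ZS P f i c) ?_ ?_
  · simp only [Par.bp, Par.bq, zs_Q h4 h1, zs_u, lt_irrefl, false_and, iff_false, true_and,
      not_not]
    omega
  · intro b' hb' hne
    by_contra hcr
    rcases zs_cross h4 h1 h3 h2 hb' hcr with rfl | rfl
    · exact h5 hb'.2.2.2
    · exact hne rfl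

/-- The cell `(i, c)`. -/
def CellS (i c : ℕ) : Set GX := {.u i c, .z i c, .l i c}

theorem Q_notMem_cell (P : Par) (j d i c : ℕ) : P.Q j d ∉ CellS i c := by
  simp [CellS, Q_ne_u, Q_ne_z, Q_ne_l]

/-- The bundles crossing the cell. -/
theorem cell_cross {P : Par} {i c : ℕ} {b : GB}
    (hcr : ¬ (P.bp b ∈ CellS i c ↔ P.bq b ∈ CellS i c)) :
    b = .uR i c ∨ b = .uL i c ∨ b = .lR i c ∨ b = .lL i c := by
  have hQ := Q_notMem_cell P
  cases b <;> simp [Par.bp, Par.bq, hQ] at hcr ⊢ <;> simp [CellS] at hcr ⊢ <;> exact hcr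

theorem cell_Z {P : Par} {f : ℕ → ℕ} {i c j : ℕ} {x : GX} (hx : x ∈ CellS i c) :
    x ∉ ZS P f j c := by
  rcases hx with rfl | rfl | rfl
  · rw [zs_u]; omega
  · rw [zs_z]; omega
  · rw [zs_l]; omega

theorem cut_lR {P : Par} {f : ℕ → ℕ}
    (hL : ∑ b ∈ P.bundF.filter (fun b => Par.Light b), P.bμ b ≤ P.DM) {i c : ℕ}
    (hb : .lR i c ∈ FS P f) : CutOK P (FS P f) (.lR i c) := by
  obtain ⟨⟨h1, h2⟩, h5⟩ := hb
  have h5 : up P f i c := h5
  by_cases h : 1 ≤ c ∧ i + 1 < P.R
  · have hQ := fun j' c' => zs_Q (P := P) (f := f) (c := c) (show 1 ≤ i + 1 by omega) h.2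
      (j' := j') (c' := c')
    refine cutOK_light hL trivial (CellS i c ∪ ZS P f (i + 1) c) ?_ ?_
    · have h6 : GX.l i c ∈ CellS i c := by simp [CellS]
      simp only [Par.bp, Par.bq, Set.mem_union, h6, true_or, Q_notMem_cell, hQ, false_or,
        true_iff]
      omega
    · intro b' hb' hne
      by_contra hcr
      by_cases hc1 : P.bp b' ∈ CellS i c ↔ P.bq b' ∈ CellS i c
      · have hc2 : ¬ (P.bp b' ∈ ZS P f (i + 1) c ↔ P.bq b' ∈ ZS P f (i + 1) c) := by
          intro h7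
          apply hcr
          simp only [Set.mem_union, hc1, h7]
        rcases zs_cross (by omega) h.2 h.1 h2 hb' hc2 with rfl | rfl
        · have h8 : GX.l i c ∈ CellS i c := by simp [CellS]
          simp only [Par.bp, Par.bq, Nat.add_sub_cancel, h8, true_iff] at hc1
          exact Q_notMem_cell _ _ _ _ _ hc1
        · exact hb'.2.2.2 h5
      · rcases cell_cross hc1 with rfl | rfl | rfl | rfl
        · exact hb'.2 h5
        · exact hb'.2.2.2 (up_mono_row' h5)
        · exact hne rfl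
        · apply hcr
          have h8 : GX.l i c ∈ CellS i c := by simp [CellS]
          simp only [Par.bp, Par.bq, Set.mem_union, h8, true_or, hQ, true_iff, true_and]
          right
          omega
  · refine cutOK_light hL trivial (CellS i c) ?_ ?_
    · have h6 : GX.l i c ∈ CellS i c := by simp [CellS]
      simp only [Par.bp, Par.bq, h6, Q_notMem_cell]
      simp
    · intro b' hb' hne
      by_contra hcr
      rcases cell_cross hcr with rfl | rfl | rfl | rfl
      · exact hb'.2 h5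
      · exact hb'.2.2.2 (up_mono_row' h5)
      · exact hne rfl
      · exact h ⟨hb'.2.1, hb'.2.2.1⟩

theorem cut_uR {P : Par} {f : ℕ → ℕ}
    (hL : ∑ b ∈ P.bundF.filter (fun b => Par.Light b), P.bμ b ≤ P.DM) {i c : ℕ}
    (hb : .uR i c ∈ FS P f) : CutOK P (FS P f) (.uR i c) := by
  obtain ⟨⟨h1, h2⟩, h5⟩ := hb
  have h5 : ¬ up P f i c := h5
  have h6 : GX.u i c ∈ CellS i c := by simp [CellS]
  by_cases h : 1 ≤ c ∧ 1 ≤ i ∧ ¬ up P f (i - 1) c
  · have hQ := fun j' c' => zs_Q (P := P) (f := f) (c := c) h.2.1 h1 (j' := j') (c' := c')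
    refine cutOK_light hL trivial (CellS i c ∪ ZS P f i c) ?_ ?_
    · simp only [Par.bp, Par.bq, Set.mem_union, h6, true_or, Q_notMem_cell, hQ, false_or,
        iff_true]
      omega
    · intro b' hb' hne
      by_contra hcr
      by_cases hc1 : P.bp b' ∈ CellS i c ↔ P.bq b' ∈ CellS i c
      · have hc2 : ¬ (P.bp b' ∈ ZS P f i c ↔ P.bq b' ∈ ZS P f i c) := by
          intro h7
          apply hcr
          simp only [Set.mem_union, hc1, h7]
        rcases zs_cross h.2.1 h1 h.1 h2 hb' hc2 with rfl | rfl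
        · exact h.2.2 hb'.2.2.2
        · simp only [Par.bp, Par.bq, h6, iff_true] at hc1
          exact Q_notMem_cell _ _ _ _ _ hc1
      · rcases cell_cross hc1 with rfl | rfl | rfl | rfl
        · exact hne rfl
        · apply hcr
          simp only [Par.bp, Par.bq, Set.mem_union, h6, true_or, hQ, iff_true, true_and]
          right
          omega
        · exact h5 hb'.2
        · exact h5 hb'.2.2.2
  · refine cutOK_light hL trivial (CellS i c) ?_ ?_
    · simp only [Par.bp, Par.bq, h6, Q_notMem_cell]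
      simp
    · intro b' hb' hne
      by_contra hcr
      rcases cell_cross hcr with rfl | rfl | rfl | rfl
      · exact hne rfl
      · exact h ⟨hb'.2.1, hb'.2.2.1, hb'.2.2.2⟩
      · exact h5 hb'.2
      · exact h5 hb'.2.2.2

/-- T9f -/
theorem cut_light {P : Par} {f : ℕ → ℕ} (hf : IsPack P f)
    (hL : ∑ b ∈ P.bundF.filter (fun b => Par.Light b), P.bμ b ≤ P.DM) {b : GB} (hb : b ∈ FS P f)
    (hl : Par.Light b) : CutOK P (FS P f) b := by
  cases b with
  | uR i c => exact cut_uR hL hb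
  | uL i c => exact cut_uL hL hb
  | lR i c => exact cut_lR hL hb
  | lL i c => exact cut_lL hL hb
  | _ => exact absurd hl (fun h => h)

end Pool.Agent.H820R2.SC
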