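import Pool.Agent.H820R2.SC.T1
import Pool.Agent.H820R2.SC.T2
import Pool.Agent.H820R2.SC.T3
import Pool.Agent.H820R2.SC.T7
import Pool.Agent.H820R2.SC.T8a
import Pool.Agent.H820R2.SC.T8b
import Pool.Agent.H820R2.SC.T8c
import Pool.Agent.H820R2.SC.T8d
import Pool.Agent.H820R2.SC.T8e
import Pool.Agent.H820R2.SC.T9a
import Pool.Agent.H820R2.SC.T9b
import Pool.Agent.H820R2.SC.T9c
import Pool.Agent.H820R2.SC.T9d
import Pool.Agent.H820R2.SC.T9e
import Pool.Agent.H820R2.SC.T9f
import Pool.Agent.H820R2.SC.T10
import Pool.Agent.H820R2.SC.T10b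
import Pool.Agent.H820R2.SC.T12
import Pool.Agent.H820R2.SC.T13a
import Pool.Agent.H820R2.SC.T13b
import Pool.Agent.H820R2.SC.T16
import Pool.Agent.H820R2.SC.T6f
import Pool.Agent.H820R2.SC.T11
import Pool.Agent.H820R2.SC.T14
import Pool.Agent.H557R2.Mve.Red

/-!
# Assembly of the reduction
-/

namespace Pool.Agent.H820R2.SC

open Finset Pool.Agent.NPC Pool.Agent.H557R2 Pool.Agent.H557R2.Fpt Turing

theorem good_FS {P : Par} {f : ℕ → ℕ} (hf : IsPack P f) : P.sys.Good (FS P f) P.t := by
  classical
  have hsub : ∀ b ∈ FS P f, b ∈ P.sys.bund := fun b hb => P.mem_bundF.2 hb.1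
  have hcut : ∀ b ∈ FS P f, CutOK P (FS P f) b := by
    intro b hb
    have hL := light_sum_le P
    have hBV : P.BV b := hb.1
    cases b with
    | uR i c => exact cut_light hf hL hb trivial
    | uL i c => exact cut_light hf hL hb trivial
    | lR i c => exact cut_light hf hL hb trivial
    | lL i c => exact cut_light hf hL hb trivial
    | uz i c => exact (cut_cell hf hBV.1 hBV.2).1
    | zl i c => exact (cut_cell hf hBV.1 hBV.2).2
    | qz j => exact (cut_level hf hBV).1
    | zo j => exact (cut_level hf hBV).2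
    | ch n => exact cut_ch hf hL hBV
  refine ⟨hsub, conn_FS hf, ?_, ?_⟩
  · intro b hb h
    obtain ⟨Y, h1, h2, -⟩ := hcut b hb
    exact h1 (Sys.Conn.mem_of (S := P.sys) (fun b' hb' => h2 b' hb'.1 hb'.2) h)
  · intro b hb
    obtain ⟨Y, h1, h2, h3⟩ := hcut b hb
    refine le_trans (le_of_eq ?_) h3
    refine sum_congr ?_ fun _ _ => rfl
    refine filter_congr fun b' hb' => ?_
    rw [not_iff_not]
    exact Sys.conn_diff_iff (S := P.sys) hb h1 h2
      (conn_FS hf _ (P.sys.hp b' hb') _ (P.sys.hq b' hb'))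

theorem pack_of_good {P : Par} {F : Set GB} (h : P.sys.Good F P.t) : P.Pack := by
  have hH : ∀ b, P.BV b → ¬ Par.Light b → b ∈ F := fun b hb hl => heavy_mem h hb hl
  have ha : ∀ i c, i < P.R → c ≤ P.m → (uAtt F i c ∨ lAtt F i c) ∧ ¬ (uAtt F i c ∧ lAtt F i c) :=
    fun i c hi hc => att h hH hi hc
  exact pack_of_up P (fun i c => ¬ uAtt F i c) (fun j hj => level_le h hH ha hj)
    (fun j c h1 h2 h3 h4 => up_mono h hH ha h1 h2 h3 h4)

theorem verts_nonempty (P : Par) : P.sys.verts.Nonempty :=
  ⟨.o 0, by change P.XV (.o 0); simp [Par.XV]⟩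

theorem stcLe_iff (P : Par) {V : Type} [Finite V] {G : SimpleGraph V} {φ : V → GX ⊕ (GB × ℕ)}
    (hM : P.sys.IsModel G φ) : StcLe G P.t ↔ P.Pack := by
  constructor
  · intro h
    obtain ⟨F, hF⟩ := good_of_stcLe hM h
    exact pack_of_good hF
  · rintro ⟨f, hf1, hf2⟩
    refine stcLe_of_good hM (verts_nonempty P) ?_ (good_FS ⟨hf1, hf2⟩)
    have h1 := P.cell_le
    unfold Par.t Par.Lam at *
    omega

/-! ### The reduction -/

/-- The instance belonging to a bit string. -/
noncomputable def inst' (y : List Bool × ℕ) : List ℕ × List ℕ :=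
  (Mve.findn y.1).elim ([2], [1]) fun n => inst n y.2 y.1

theorem adm_triv : Adm [2] [1] := ⟨by simp, by simp, by simp⟩

theorem adm_one : Adm [1] [1] := ⟨by simp, by simp, by simp⟩

theorem ofD_pos {b : ℕ} (hb : 1 ≤ b) {l : List ℕ} (h : ∃ x ∈ l, 1 ≤ x) : 1 ≤ ofD b l := by
  induction l with
  | nil => simp at h
  | cons a l ih =>
    change 1 ≤ a + b * ofD b l
    obtain ⟨x, hx, h1⟩ := h
    rcases List.mem_cons.1 hx with rfl | hx
    · omega
    · have := Nat.mul_pos hb (ih ⟨x, hx, h1⟩)
      omega

theorem size_pos {n k : ℕ} {ad : ℕ → ℕ → Bool} {x : ℕ} (hx : x ∈ sizes n k ad) : 1 ≤ x := by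
  unfold sizes at hx
  rw [List.mem_map] at hx
  obtain ⟨i, -, rfl⟩ := hx
  have hb : 1 ≤ bs n k := Nat.pos_of_ne_zero (by unfold bs; positivity)
  refine ofD_pos hb ⟨1, ?_, le_rfl⟩
  cases i <;> simp [dg]

theorem bins_ne {n k : ℕ} (hk : k ≠ 0) : bins n k ≠ [] := by
  unfold bins tgs
  intro h
  have := congrArg List.length h
  simp at this
  omega

theorem adm_inst (n k : ℕ) (x : List Bool) : Adm (inst n k x).1 (inst n k x).2 := by
  unfold inst
  split_ifs with h1 h2
  · exact adm_one
  · exact ⟨fun y hy => size_pos hy, bins_ne h1, h2⟩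
  · exact adm_triv

theorem adm_inst' (y : List Bool × ℕ) : Adm (inst' y).1 (inst' y).2 := by
  unfold inst'
  cases h : Mve.findn y.1 with
  | none => exact adm_triv
  | some n => exact adm_inst n y.2 y.1

theorem not_packL_triv : ¬ PackL [2] [1] := by
  rintro ⟨f, hf⟩
  have h := hf 0 (by simp)
  simp only [List.length_singleton, range_one, sum_filter, sum_singleton, List.getD_cons_zero] at h
  split_ifs at h <;> omega

theorem packL_one : PackL [1] [1] := by
  refine ⟨fun _ => 0, ?_⟩
  intro i hi
  simp at hi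
  subst hi
  simp

theorem sum_le_of_packL {s tg : List ℕ} (h : PackL s tg) : tg.sum ≤ s.sum := by
  obtain ⟨f, hf⟩ := h
  rw [← sum_getD s, ← sum_getD tg]
  calc ∑ i ∈ range tg.length, tg.getD i 0
      = ∑ i ∈ range tg.length, ∑ c ∈ (range s.length).filter (fun c => f c = i), s.getD c 0 :=
        sum_congr rfl fun i hi => (hf i (mem_range.1 hi)).symm
    _ = ∑ c ∈ (range s.length).filter (fun c => f c ∈ range tg.length), s.getD c 0 := by
        rw [← sum_fiberwise_of_maps_to (s := (range s.length).filter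
          (fun c => f c ∈ range tg.length)) (t := range tg.length) (g := f)
          (fun c hc => (mem_filter.1 hc).2)]
        refine sum_congr rfl fun i hi => sum_congr ?_ fun _ _ => rfl
        ext c
        simp only [mem_filter]
        constructor
        · rintro ⟨h1, h2⟩
          exact ⟨⟨h1, h2 ▸ hi⟩, h2⟩
        · rintro ⟨⟨h1, -⟩, h2⟩
          exact ⟨h1, h2⟩
    _ ≤ ∑ c ∈ range s.length, s.getD c 0 := sum_le_sum_of_subset (filter_subset _ _)

theorem packL_inst (n k : ℕ) (x : List Bool) :
    PackL (inst n k x).1 (inst n k x).2 ↔ ¬ (bitGraph n x).CliqueFree k := by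
  unfold inst
  split_ifs with h1 h2
  · subst h1
    refine iff_of_true packL_one ?_
    intro h
    exact h ∅ ⟨by simp, by simp⟩
  · rw [packL_iff_packD, clq_iff]
    exact ⟨clq_of_packD (by omega), packD_of_clq (by omega)⟩
  · refine iff_of_false not_packL_triv ?_
    intro h
    rw [clq_iff] at h
    have := (packL_iff_packD n k (adB n x)).2 (packD_of_clq (by omega) h)
    exact h2 (sum_le_of_packL this)

theorem packL_inst' (y : List Bool × ℕ) : PackL (inst' y).1 (inst' y).2 ↔ y ∈ pClique := by
  obtain ⟨x, k⟩ := y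
  unfold inst'
  cases h : Mve.findn x with
  | none =>
    refine iff_of_false not_packL_triv ?_
    rintro ⟨n, hn, -⟩
    exact Mve.findn_none h n hn
  | some n =>
    rw [Mve.mem_pClique_iff (Mve.findn_some h)]
    exact packL_inst n k x

/-- The parameter of the instance. -/
noncomputable def par' (y : List Bool × ℕ) : ℕ := 16 * (inst' y).2.length + 3

theorem length_bins (n k : ℕ) : (bins n k).length = k + k * k := by
  unfold bins tgs
  simp

theorem par'_le (x : List Bool) (k : ℕ) : par' (x, k) ≤ 16 * (k + k * k) + 19 := by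
  unfold par' inst'
  cases h : Mve.findn x with
  | none => simp
  | some n =>
    simp only [Option.elim]
    unfold inst
    split_ifs
    · simp
    · rw [length_bins]; omega
    · simp

/-- The reduction: the data. -/
theorem exists_red : ∃ (Mx : List Bool × List Unit → List (List Bool))
    (tt : List Bool × List Unit → ℕ) (pp : List Bool × List Unit → List Unit),
    Poly Mx ∧ Poly tt ∧ Poly pp ∧ ∀ (x : List Bool) (k : ℕ),
      pp (x, List.replicate k ()) = List.replicate (par' (x, k)) () ∧
      ∃ (n : ℕ) (G : SimpleGraph (Fin n)), Mx (x, List.replicate k ()) = matOf G ∧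
        G.Connected ∧ IsKOuterplanar (par' (x, k)) G ∧
        (StcLe G (tt (x, List.replicate k ())) ↔ (x, k) ∈ pClique) := by
  obtain ⟨F, hF, hF'⟩ := poly_inst
  obtain ⟨N, hN, hN'⟩ := tOf_inst_le
  let I : List Bool × List Unit → List ℕ × List ℕ := fun y =>
    (Mve.findn y.1).elim ([2], [1]) fun n => F (n, y.1, y.2)
  have hI : Poly I := Poly.optElim (Mve.poly_findn.comp (Poly.fst Poly.id)) (NPC.Poly.const _)
    (hF.comp (Poly.pair (Poly.snd Poly.id) (Poly.pair (Poly.fst (Poly.fst Poly.id))
      (Poly.snd (Poly.fst Poly.id)))))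
  have hIe : ∀ x k, I (x, List.replicate k ()) = inst' (x, k) := by
    intro x k
    simp only [I, inst']
    cases h : Mve.findn x with
    | none => rfl
    | some n => exact hF' n k x (Mve.findn_some h)
  have htOf : Poly (fun y => tOf (I y).1 (I y).2) := by
    unfold tOf
    fun_prop
  let NN : List Bool × List Unit → ℕ := fun y =>
    (Mve.findn y.1).elim (tOf [2] [1]) fun n => N (n, y.1, y.2)
  have hNN : UPoly NN := by
    have h1 : Poly (fun y : List Bool × List Unit => (Mve.findn y.1).elim
        (List.replicate (tOf [2] [1]) ()) fun n => List.replicate (N (n, y.1, y.2)) ()) :=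
      Poly.optElim (Mve.poly_findn.comp (Poly.fst Poly.id)) (NPC.Poly.const _)
        (Poly.comp hN (Poly.pair (Poly.snd Poly.id) (Poly.pair (Poly.fst (Poly.fst Poly.id))
          (Poly.snd (Poly.fst Poly.id)))))
    refine h1.congr fun y => ?_
    simp only [NN]
    cases Mve.findn y.1 <;> rfl
  have hNNe : ∀ x k, tOf (inst' (x, k)).1 (inst' (x, k)).2 ≤ NN (x, List.replicate k ()) := by
    intro x k
    simp only [NN, inst']
    cases h : Mve.findn x with
    | none => exact le_rfl
    | some n => exact hN' n k x (Mve.findn_some h)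
  have hpp : UPoly (fun y => 16 * (I y).2.length + 3) :=
    ((UPoly.const 16).mul (UPoly.length (Poly.snd hI))).add (UPoly.const 3)
  refine ⟨fun y => mtx (NN y) (I y).1 (I y).2, fun y => tOf (I y).1 (I y).2,
    fun y => List.replicate (16 * (I y).2.length + 3) (),
    poly_mtx (Poly.fst hI) (Poly.snd hI) hNN, htOf, hpp, fun x k => ⟨?_, ?_⟩⟩
  · simp only [hIe, par']
  · simp only [hIe]
    have hA := adm_inst' (x, k)
    obtain ⟨G, hG1, hG2⟩ := model_mtx hA (hNNe x k)
    refine ⟨_, G, hG1.symm, connected_model hG2 (verts_nonempty _) (conn_gadget _), ?_, ?_⟩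
    · have h1 := kouter_gadget _ hG2
      have e : 8 * (parOf _ _ hA).R + 3 = par' (x, k) := by
        unfold Par.R parOf par'
        simp only
        ring
      rwa [e] at h1
    · rw [← packL_inst', ← pack_parOf hA, ← t_parOf _ _ hA]
      exact stcLe_iff _ hG2

/-! ### `W[1]`-hardness -/

theorem matOf_injective {n m : ℕ} {G : SimpleGraph (Fin n)} {G' : SimpleGraph (Fin m)}
    (h : matOf G = matOf G') : ∃ e : n = m, e ▸ G = G' := by
  have h1 : n = m := by
    have := congrArg List.length h
    simpa [matOf] using this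
  subst h1
  refine ⟨rfl, ?_⟩
  ext i j
  have h2 : (matOf G)[(i : ℕ)]? = (matOf G')[(i : ℕ)]? := by rw [h]
  simp only [matOf, List.getElem?_ofFn, i.2, dif_pos, Option.some.injEq] at h2
  have h3 := congrArg (fun l => l[(j : ℕ)]?) h2
  simp only [List.getElem?_ofFn, j.2, dif_pos, Option.some.injEq, decide_eq_decide] at h3
  exact h3

theorem mem_stcProblem {n t k : ℕ} {G : SimpleGraph (Fin n)} (hc : G.Connected)
    (ho : IsKOuterplanar k G) :
    ((bits ((matOf G, t) : List (List Bool) × ℕ), k) : List Bool × ℕ) ∈ stcProblem ↔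
      StcLe G t := by
  constructor
  · rintro ⟨n', t', G', h1, h2, h3, h4⟩
    have h5 := bits_injective h3
    simp only [Prod.mk.injEq] at h5
    obtain ⟨h5, rfl⟩ := h5
    obtain ⟨e, h6⟩ := matOf_injective h5
    subst e
    simp only at h6
    subst h6
    exact h4
  · intro h
    exact ⟨n, t, G, hc, ho, rfl, h⟩

theorem computable_g : Computable fun k : ℕ => 16 * (k + k * k) + 19 :=
  comp_add (comp_mul (Computable.const 16) (comp_add Computable.id
    (comp_mul Computable.id Computable.id))) (Computable.const 19)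

theorem monotone_g : Monotone fun k : ℕ => 16 * (k + k * k) + 19 := fun a b h => by
  have h1 : a * a ≤ b * b := Nat.mul_le_mul h h
  simp only
  omega

/-- **STC is `W[1]`-hard on `k`-outerplanar graphs**, parameterized by `k`; the reduction from
`p-Clique` only produces connected `k`-outerplanar graphs. -/
theorem exists_reduction : ∃ R : List Bool × ℕ → List Bool × ℕ, PC pcode pcode R ∧
    (∀ x k, (R (x, k)).2 ≤ 16 * (k + k * k) + 19) ∧ ∀ x k, ∃ (n t : ℕ) (G : SimpleGraph (Fin n)),
      G.Connected ∧ IsKOuterplanar (R (x, k)).2 G ∧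
      (R (x, k)).1 = bits ((matOf G, t) : List (List Bool) × ℕ) ∧
      ((x, k) ∈ pClique ↔ StcLe G t) := by
  obtain ⟨Mx, tt, pp, hM, ht, hp, h⟩ := exists_red
  let R : List Bool × ℕ → List Bool × ℕ := fun y =>
    (bits ((Mx (y.1, List.replicate y.2 ()), tt (y.1, List.replicate y.2 ())) :
      List (List Bool) × ℕ), par' y)
  have h1 : PC (bits : List Bool × List Unit → List Bool)
      (bits : List Bool × List Unit → List Bool)
      (fun y => (bits ((Mx y, tt y) : List (List Bool) × ℕ), pp y)) :=
    Poly.pair (Mve.poly_bits (Poly.pair hM ht)) hp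
  refine ⟨R, ?_, fun x k => par'_le x k, fun x k => ?_⟩
  · obtain ⟨c, p, h2⟩ := h1
    refine ⟨c, p, fun y => ?_⟩
    have h3 := h2 (y.1, List.replicate y.2 ())
    have e : pcode (R y) = bits (((bits ((Mx (y.1, List.replicate y.2 ()),
        tt (y.1, List.replicate y.2 ())) : List (List Bool) × ℕ),
        pp (y.1, List.replicate y.2 ())) : List Bool × List Unit)) := by
      unfold pcode
      rw [(h y.1 y.2).1]
    rw [e]
    exact h3
  · obtain ⟨-, n, G, h2, h3, h4, h5⟩ := h x k
    exact ⟨n, tt (x, List.replicate k ()), G, h3, h4, by simp only [R, h2], h5.symm⟩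

theorem w1Hard_stc : W1Hard stcProblem := by
  obtain ⟨R, hR, hle, h⟩ := exists_reduction
  refine w1Hard_of hR computable_g monotone_g hle fun x k => ?_
  obtain ⟨n, t, G, h1, h2, h3, h4⟩ := h x k
  rw [h4]
  have e : R (x, k) = (bits ((matOf G, t) : List (List Bool) × ℕ), (R (x, k)).2) :=
    Prod.ext h3 rfl
  rw [e]
  exact (mem_stcProblem h1 h2).symm

end Pool.Agent.H820R2.SC
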