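import Pool.Agent.H820R2.SC.Mtx

/-!
# Spanning tree congestion on `k`-outerplanar graphs: notions used in the proof
-/

namespace Pool.Agent.H820R2.SC

open Finset Pool.Agent.NPC Pool.Agent.H557R2.Fpt

/-! ### Soundness -/

/-- The top of the cell `(i, c)` is attached by a light bundle of `F` to the level `i`. -/
def uAtt (F : Set GB) (i c : ℕ) : Prop := GB.uR i c ∈ F ∨ GB.uL i c ∈ F

/-- The bottom of the cell `(i, c)` is attached by a light bundle of `F` to the level `i + 1`. -/
def lAtt (F : Set GB) (i c : ℕ) : Prop := GB.lR i c ∈ F ∨ GB.lL i c ∈ F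

open scoped Classical in
/-- The contribution of row `i` to the congestion of the levels `i` and `i + 1`, when the cells
`(i, c)` with `up i c` belong to the level `i + 1` and the others to the level `i`. -/
noncomputable def PW (P : Par) (up : ℕ → ℕ → Prop) (i : ℕ) : ℕ :=
  ∑ c ∈ range (P.m + 1), if up i c then P.bμ (.uR i c) + P.bμ (.uL i c)
    else P.bμ (.lR i c) + P.bμ (.lL i c)

/-! ### Completeness -/

/-- The cell `(i, c)` is attached to the level `i + 1`; the dummy column `0` is attached to the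
following level in every row. -/
def up (P : Par) (f : ℕ → ℕ) (i c : ℕ) : Prop := i < 2 * (if c = 0 then P.K else f c)

/-- The spanning tree of bundles belonging to a packing `f`. -/
def FS (P : Par) (f : ℕ → ℕ) : Set GB := {b | P.BV b ∧ match b with
  | .uR i c => ¬ up P f i c
  | .uL i c => 1 ≤ c ∧ 1 ≤ i ∧ ¬ up P f (i - 1) c
  | .lR i c => up P f i c
  | .lL i c => 1 ≤ c ∧ i + 1 < P.R ∧ up P f i c
  | _ => True}

open scoped Classical in
/-- The bundle `b` of `F` has a fundamental cut `Y` of weight at most `t`. -/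
def CutOK (P : Par) (F : Set GB) (b : GB) : Prop := ∃ Y : Set GX,
  ¬ (P.bp b ∈ Y ↔ P.bq b ∈ Y) ∧ (∀ b' ∈ F, b' ≠ b → (P.bp b' ∈ Y ↔ P.bq b' ∈ Y)) ∧
  ∑ b' ∈ P.bundF.filter (fun b' => ¬ (P.bp b' ∈ Y ↔ P.bq b' ∈ Y)), P.bμ b' ≤ P.t

/-- A packing. -/
structure IsPack (P : Par) (f : ℕ → ℕ) : Prop where
  le : ∀ c ≤ P.m, f c ≤ P.K
  sum : ∀ i ≤ P.K, ∑ c ∈ (range (P.m + 1)).filter (fun c => f c = i), P.sz c = P.B i

/-! ### Clique and packings -/

/-- There is a packing, digit by digit. -/
def PackD (n k : ℕ) (ad : ℕ → ℕ → Bool) : Prop := ∃ g : It → ℕ, ∀ i < (tgs n k).length, ∀ d < 11,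
  ∑ y ∈ (its n k ad).toFinset.filter (fun y => g y = i), (dg n k y).getD d 0 =
    ((tgs n k).getD i []).getD d 0

/-- A clique with `k` vertices. -/
def Clq (n k : ℕ) (ad : ℕ → ℕ → Bool) : Prop := ∃ w : ℕ → ℕ, (∀ a < k, w a < n) ∧
  ∀ a b, a < b → b < k → ad (w a) (w b) = true

/-- The bin packing instance, changed to trivial instances in degenerate cases. -/
def inst (n k : ℕ) (x : List Bool) : List ℕ × List ℕ :=
  if k = 0 then ([1], [1]) else
  if (bins n k).sum ≤ (sizes n k (adB n x)).sum then (sizes n k (adB n x), bins n k)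
  else ([2], [1])

/-- The type of the inputs of the reduction: the number of vertices, the adjacency matrix and
the parameter in unary. -/
abbrev Inp : Type := ℕ × List Bool × List Unit

/-- The test whether the spanning tree with adjacency matrix `y.2.1` of the graph with adjacency
matrix `y.1` has congestion at most `y.2.2`. -/
def IsEcB (ecB : List (List Bool) × List (List Bool) × ℕ → Bool) : Prop :=
  ∀ (n t : ℕ) (G T : SimpleGraph (Fin n)), ecB (matOf G, matOf T, t) = true ↔ ec G T ≤ t

end Pool.Agent.H820R2.SC
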