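import Mathlib
import Pool.Agent.H557R2.FptDec

/-!
# Spanning tree congestion on `k`-outerplanar graphs: definitions
-/

namespace Pool.Agent.H820R2.SC

open Pool.Agent.NPC Pool.Agent.H557R2.Fpt Turing

/-- The congestion of the edge `e` of the spanning tree `T` of `G`: the number of edges of `G` whose
two ends lie in different components of `T - e`. -/
noncomputable def cng {V : Type} (G T : SimpleGraph V) (e : Sym2 V) : ℕ :=
  {f ∈ G.edgeSet | ∃ x y, f = s(x, y) ∧ ¬ (T.deleteEdges {e}).Reachable x y}.ncard

/-- The congestion of the spanning tree `T` of `G`: the maximum congestion of its edges (`0` when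
`T` has no edges). -/
noncomputable def ec {V : Type} (G T : SimpleGraph V) : ℕ := sSup (cng G T '' T.edgeSet)

/-- `G` has a spanning tree of congestion at most `t`. -/
def StcLe {V : Type} (G : SimpleGraph V) (t : ℕ) : Prop :=
  ∃ T : SimpleGraph V, T ≤ G ∧ T.IsTree ∧ ec G T ≤ t

/-- A straight-line plane drawing of a graph: the vertices are drawn as distinct points, the edges
as the segments joining their ends; no vertex lies on an edge that it does not belong to, and two
different edges meet only in common ends. -/
structure IsPlaneDrawing {V : Type} (G : SimpleGraph V) (p : V → ℝ × ℝ) : Prop where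
  inj : Function.Injective p
  vertex : ∀ u v w, G.Adj u v → p w ∈ segment ℝ (p u) (p v) → w = u ∨ w = v
  edge : ∀ a b c d, G.Adj a b → G.Adj c d → s(a, b) ≠ s(c, d) →
    ∀ z, z ∈ segment ℝ (p a) (p b) → z ∈ segment ℝ (p c) (p d) →
      (z = p a ∨ z = p b) ∧ (z = p c ∨ z = p d)

/-- The drawing of the subgraph of `G` induced by the set `A` of vertices, as a set of points. -/
def drawn {V : Type} (G : SimpleGraph V) (p : V → ℝ × ℝ) (A : Set V) : Set (ℝ × ℝ) :=
  {z | ∃ a ∈ A, z = p a ∨ ∃ b ∈ A, G.Adj a b ∧ z ∈ segment ℝ (p a) (p b)}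

/-- The outer face of a bounded drawing `D`: the union of the unbounded connected subsets of its
complement. -/
def outerFace (D : Set (ℝ × ℝ)) : Set (ℝ × ℝ) :=
  {z | ∃ C : Set (ℝ × ℝ), C ⊆ Dᶜ ∧ IsPreconnected C ∧ ¬ Bornology.IsBounded C ∧ z ∈ C}

/-- The vertices of `A` on the (boundary of the) outer face of the drawing of the subgraph induced
by `A`. -/
def outer {V : Type} (G : SimpleGraph V) (p : V → ℝ × ℝ) (A : Set V) : Set V :=
  {v ∈ A | p v ∈ closure (outerFace (drawn G p A))}

/-- Removing `k` times the vertices on the outer face removes all vertices. -/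
def Peel {V : Type} (G : SimpleGraph V) (p : V → ℝ × ℝ) : ℕ → Set V → Prop
  | 0, A => A = ∅
  | k + 1, A => Peel G p k (A \ outer G p A)

/-- `k`-outerplanar graphs. -/
def IsKOuterplanar {V : Type} (k : ℕ) (G : SimpleGraph V) : Prop :=
  ∃ p : V → ℝ × ℝ, IsPlaneDrawing G p ∧ Peel G p k Set.univ

open scoped Classical in
/-- The adjacency matrix of a graph. -/
noncomputable def matOf {n : ℕ} (G : SimpleGraph (Fin n)) : List (List Bool) :=
  List.ofFn fun i => List.ofFn fun j => decide (G.Adj i j)

/-- The decision version of spanning tree congestion on connected `k`-outerplanar graphs, with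
parameter `k`: does the graph have a spanning tree of congestion at most `t`? -/
def stcProblem : PProblem :=
  {y | ∃ (n t : ℕ) (G : SimpleGraph (Fin n)), G.Connected ∧ IsKOuterplanar y.2 G ∧
    y.1 = bits ((matOf G, t) : List (List Bool) × ℕ) ∧ StcLe G t}

/-- STC is fixed-parameter tractable on `k`-outerplanar graphs: some Turing machine, given a
connected `k`-outerplanar graph on `n` vertices and `k`, outputs a spanning tree of minimum
congestion in `f k * p n` steps, for some computable `f` and some polynomial `p`. -/
def StcFpt : Prop :=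
  ∃ (M : TM2ComputableAux Bool Bool) (f : ℕ → ℕ) (p : Polynomial ℕ), Computable f ∧
    ∀ (n k : ℕ) (G : SimpleGraph (Fin n)), G.Connected → IsKOuterplanar k G →
      ∃ T : SimpleGraph (Fin n), T ≤ G ∧ T.IsTree ∧
        (∀ T' : SimpleGraph (Fin n), T' ≤ G → T'.IsTree → ec G T ≤ ec G T') ∧
        Nonempty (TM2OutputsInTime M.tm
          ((pcode (bits (matOf G), k)).map M.inputAlphabet.invFun)
          (some ((bits (matOf T)).map M.outputAlphabet.invFun)) (f k * p.eval n))

end Pool.Agent.H820R2.SC
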