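import Pool.Agent.H820R2.SC.Asm

/-!
# Consequences for fixed-parameter algorithms
-/

namespace Pool.Agent.H820R2.SC

open Finset Pool.Agent.NPC Pool.Agent.H557R2 Pool.Agent.H557R2.Fpt Turing

/-- Running a Turing machine after an fpt-time computation. -/
theorem FT_machine {β γ : Type} [TEnc β] [TEnc γ] {F : List Bool × ℕ → β}
    (h : FT (bits : β → List Bool) F) {v : List Bool × ℕ → γ} {s : List Bool → ℕ → ℕ}
    {M : TM2ComputableAux Bool Bool} {f : ℕ → ℕ} {p : Polynomial ℕ} (hf : Computable f)
    (hM : ∀ x k, Nonempty (TM2OutputsInTime M.tm ((bits (F (x, k))).map M.inputAlphabet.invFun)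
      (some ((bits (v (x, k))).map M.outputAlphabet.invFun))
        (f (s x k) * p.eval (bits (F (x, k))).length)))
    {g : ℕ → ℕ} (hg : Computable g) (hs : ∀ x k, s x k ≤ g k) :
    FT (bits : γ → List Bool) v := by
  have hl := h.length
  obtain ⟨c, B, hB, h⟩ := h
  obtain ⟨prog, E, hE⟩ := sim M
  obtain ⟨f', hf', hmono, hle⟩ := exists_mono hf
  refine ⟨Cmd.seq c prog, fun x k => B x k + E * ((bits (F (x, k))).length +
    f' (g k) * p.eval (bits (F (x, k))).length + 1), ?_, fun x k => ?_⟩
  · exact hB.add ((FB.const E).mul ((hl.add ((FB.par (hf'.comp hg)).mul (hl.eval p))).add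
      (FB.const 1)))
  · refine (h x k).seq ((hE _ _ _ (hM x k)).mono ?_)
    refine Nat.mul_le_mul_left _ ?_
    have h1 : f (s x k) ≤ f' (g k) := (hle _).trans (hmono (hs x k))
    have h2 := Nat.mul_le_mul_right (p.eval (bits (F (x, k))).length) h1
    omega

theorem outputs_mono {tm : FinTM2} {a : List (tm.Γ tm.k₀)} {b : Option (List (tm.Γ tm.k₁))}
    {m n : ℕ} (hmn : m ≤ n) (h : Nonempty (TM2OutputsInTime tm a b m)) :
    Nonempty (TM2OutputsInTime tm a b n) := by
  obtain ⟨h⟩ := h
  exact ⟨⟨h.toEvalsTo, h.steps_le_m.trans hmn⟩⟩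

theorem fptComputable_of_pc {R : List Bool × ℕ → List Bool × ℕ} (h : PC pcode pcode R) :
    FptComputable R := by
  refine FptC.toFpt ?_
  obtain ⟨c, q, h⟩ := h
  refine ⟨c, fun k => q.eval (2 * k + 4), (ones q).comp (Polynomial.C 4 * Polynomial.X +
    Polynomial.C 1), comp_eval q (comp_add (comp_mul (Computable.const 2) Computable.id)
      (Computable.const 4)), fun x k => (h (x, k)).mono ?_⟩
  have h1 := length_pcode_le x k
  have h2 : (pcode (x, k)).length ≤ (2 * k + 4) * (4 * x.length + 1) := by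
    generalize x.length = X at *
    have h5 : (2 * k + 4) * (4 * X + 1) = 8 * (k * X) + 2 * k + 16 * X + 4 := by ring
    omega
  refine (eval_mono q h2).trans ((eval_mul_le q _ _).trans (le_of_eq ?_))
  simp only [Polynomial.eval_comp, Polynomial.eval_add, Polynomial.eval_mul, Polynomial.eval_C,
    Polynomial.eval_X]

/-- An fpt algorithm for STC on `k`-outerplanar graphs puts all of `W[1]` in `FPT`. -/
theorem fpt_imp (h : StcFpt) : ∀ L ∈ W1, FptDecidable L := by
  obtain ⟨M, f, p, hf, hM⟩ := h
  rintro L ⟨R1, hR1, ⟨g, hg, hgle⟩, hiff⟩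
  obtain ⟨Mx, tt, pp, hMx, htt, hpp, hred⟩ := exists_red
  obtain ⟨ecB, hecB, hec⟩ := exists_ecB
  have h0 := hR1.toFT
  have h1 : FT (bits : List Bool × List Unit → List Bool)
      (fun y => ((R1 y).1, List.replicate (R1 y).2 ())) := h0
  let Y : List Bool × ℕ → List Bool × List Unit := fun y => ((R1 y).1, List.replicate (R1 y).2 ())
  have h2 : FT (bits : List Bool × List Unit → List Bool) (fun y => (bits (Mx (Y y)), pp (Y y))) :=
    h1.comp (Poly.pair (Mve.poly_bits hMx) hpp)
  -- the tree found by the algorithm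
  have h3 : ∀ y : List Bool × ℕ, ∃ (v : List (List Bool)),
      Nonempty (TM2OutputsInTime M.tm
        ((bits ((bits (Mx (Y y)), pp (Y y)) : List Bool × List Unit)).map M.inputAlphabet.invFun)
        (some ((bits v).map M.outputAlphabet.invFun))
        (f (par' (R1 y)) * p.eval (bits ((bits (Mx (Y y)), pp (Y y)) :
          List Bool × List Unit)).length)) ∧
      (ecB (Mx (Y y), v, tt (Y y)) = true ↔ R1 y ∈ pClique) := by
    intro y
    obtain ⟨e1, n, G, e2, hc, ho, e3⟩ := hred (R1 y).1 (R1 y).2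
    obtain ⟨T, hT1, hT2, hT3, hT4⟩ := hM n (par' (R1 y)) G hc ho
    refine ⟨matOf T, ?_, ?_⟩
    · have e4 : bits ((bits (Mx (Y y)), pp (Y y)) : List Bool × List Unit) =
          pcode (bits (matOf G), par' (R1 y)) := by
        unfold pcode
        simp only [Y, e1, e2]
      rw [e4]
      refine outputs_mono (Nat.mul_le_mul_left _ (eval_mono p ?_)) hT4
      have e5 : (matOf G).length = n := by simp [matOf]
      have e6 : (pcode (bits (matOf G), par' (R1 y))).length =
          sz (bits (matOf G)) + sz (List.replicate (par' (R1 y)) ()) + 1 := by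
        unfold pcode
        exact (bits_length _).trans (sz_pair _ _)
      have e7 := length_lt_sz (bits (matOf G))
      rw [bits_length] at e7
      have e8 := length_lt_sz (matOf G)
      omega
    · have e7 : Mx (Y y) = matOf G := e2
      rw [e7, hec]
      have e8 : (StcLe G (tt (Y y)) ↔ R1 y ∈ pClique) := e3
      rw [← e8]
      constructor
      · intro h
        exact ⟨T, hT1, hT2, h⟩
      · rintro ⟨T', h4, h5, h6⟩
        exact (hT3 T' h4 h5).trans h6
  choose v hv1 hv2 using h3
  have h4 : FT (bits : List (List Bool) → List Bool) v :=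
    FT_machine h2 hf (fun x k => hv1 (x, k))
      (s := fun x k => par' (R1 (x, k)))
      (g := fun k => 16 * ((g k) + (g k) * (g k)) + 19)
      (computable_g.comp hg) (fun x k => (par'_le _ _).trans (monotone_g (hgle x k)))
  have h5 : FT (bits : List (List Bool) → List Bool) (fun y => Mx (Y y)) := h1.comp hMx
  have h6 : FT (bits : ℕ → List Bool) (fun y => tt (Y y)) := h1.comp htt
  have h7 : FT (bits : Bool → List Bool) (fun y => ecB (Mx (Y y), v y, tt (Y y))) :=
    (FT.pair h5 (FT.pair h4 h6)).comp hecB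
  exact FT.fptDecidable h7 fun y => (hiff y.1 y.2).trans (hv2 y).symm

/-- The reduction from `p-Clique`. -/
theorem exists_fpt_reduction : ∃ R : List Bool × ℕ → List Bool × ℕ, FptComputable R ∧
    (∀ x k, (R (x, k)).2 ≤ 16 * (k + k * k) + 19) ∧
    ∀ x k, ∃ (n t : ℕ) (G : SimpleGraph (Fin n)), G.Connected ∧ IsKOuterplanar (R (x, k)).2 G ∧
      (R (x, k)).1 = bits ((matOf G, t) : List (List Bool) × ℕ) ∧
      ((x, k) ∈ pClique ↔ StcLe G t) := by
  obtain ⟨R, h1, h2, h3⟩ := exists_reduction
  exact ⟨R, fptComputable_of_pc h1, h2, h3⟩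

end Pool.Agent.H820R2.SC
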