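import Pool.Agent.H820R2.SC.Sys

/-!
# The bin packing gadget

`K + 1` bins, numbered `0, ..., K`, `m` items, numbered `1, ..., m`, and a dummy item `0` of
size `0`.  There are `2K` rows of cells and `2K + 1` levels; the row `i` lies between the levels
`i` and `i + 1`.
-/

namespace Pool.Agent.H820R2.SC

open Finset

/-- An instance of exact bin packing. -/
structure Par where
  m : ℕ
  K : ℕ
  sz : ℕ → ℕ
  B : ℕ → ℕ
  sz0 : sz 0 = 0
  pos : ∀ c, 1 ≤ c → c ≤ m → 1 ≤ sz c
  K1 : 1 ≤ K
  sum : ∑ i ∈ range (K + 1), B i = ∑ c ∈ range (m + 1), sz c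

namespace Par

variable (P : Par)

/-- The items can be packed into the bins exactly. -/
def Pack : Prop := ∃ f : ℕ → ℕ, (∀ c ≤ P.m, f c ≤ P.K) ∧
  ∀ i ≤ P.K, ∑ c ∈ (range (P.m + 1)).filter (fun c => f c = i), P.sz c = P.B i

/-- Number of rows. -/
def R : ℕ := 2 * P.K

/-- Total size. -/
def S : ℕ := ∑ c ∈ range (P.m + 1), P.sz c

/-- The weight `Λ` of light bundles. -/
def Lam : ℕ := P.S + 1

def base : ℕ := 2 * P.Lam * (P.m + 1)

/-- An upper bound for the total weight of the light bundles. -/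
def DM : ℕ := 8 * P.R * (P.m + 1) * P.Lam

/-- The congestion. -/
def t : ℕ := 2 * P.DM + 1

/-- The bound for the light weight at level `j`. -/
def D (j : ℕ) : ℕ :=
  if j = 0 then P.base + P.S - P.B 0 else if j = P.R then P.base + P.S - P.B P.K
  else if j % 2 = 1 then 2 * P.base + P.S else 2 * P.base + P.S - P.B (j / 2)

end Par

/-- The vertices: `q j c` on level `j`, the cells `u, z, l` of row `i` and column `c`,
`zr j` the last vertex of level `j`, `o n` the chain on the right. -/
inductive GX : Type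
  | q (j c : ℕ) | u (i c : ℕ) | z (i c : ℕ) | l (i c : ℕ) | zr (j : ℕ) | o (n : ℕ)
  deriving DecidableEq

/-- The bundles: light bundles `uR, uL, lR, lL` and heavy bundles `uz, zl, qz, zo, ch`. -/
inductive GB : Type
  | uR (i c : ℕ) | uL (i c : ℕ) | lR (i c : ℕ) | lL (i c : ℕ) | uz (i c : ℕ) | zl (i c : ℕ)
  | qz (j : ℕ) | zo (j : ℕ) | ch (n : ℕ)
  deriving DecidableEq

namespace Par

variable (P : Par)

/-- The vertex at place `c` of level `j`: the levels `0` and `R` are single vertices. -/
def Q (j c : ℕ) : GX := if j = 0 ∨ j = P.R then .q j 0 else .q j c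

/-- The vertices of the gadget. -/
def XV : GX → Prop
  | .q j c => j ≤ P.R ∧ c ≤ P.m ∧ ((j = 0 ∨ j = P.R) → c = 0)
  | .u i c => i < P.R ∧ c ≤ P.m
  | .z i c => i < P.R ∧ c ≤ P.m
  | .l i c => i < P.R ∧ c ≤ P.m
  | .zr j => j ≤ P.R
  | .o n => n ≤ 4 * P.R

/-- The bundles of the gadget. -/
def BV : GB → Prop
  | .uR i c => i < P.R ∧ c ≤ P.m
  | .uL i c => i < P.R ∧ c ≤ P.m
  | .lR i c => i < P.R ∧ c ≤ P.m
  | .lL i c => i < P.R ∧ c ≤ P.m
  | .uz i c => i < P.R ∧ c ≤ P.m
  | .zl i c => i < P.R ∧ c ≤ P.m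
  | .qz j => j ≤ P.R
  | .zo j => j ≤ P.R
  | .ch n => n < 4 * P.R

/-- The lower end (in the drawing). -/
def bp : GB → GX
  | .uR i c => P.Q i c
  | .uL i c => P.Q i (c - 1)
  | .lR i c => .l i c
  | .lL i c => .l i c
  | .uz i c => .u i c
  | .zl i c => .z i c
  | .qz j => P.Q j P.m
  | .zo j => .o (4 * j)
  | .ch n => .o n

/-- The upper end (in the drawing). -/
def bq : GB → GX
  | .uR i c => .u i c
  | .uL i c => .u i c
  | .lR i c => P.Q (i + 1) c
  | .lL i c => P.Q (i + 1) (c - 1)
  | .uz i c => .z i c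
  | .zl i c => .l i c
  | .qz j => .zr j
  | .zo j => .zr j
  | .ch n => .o (n + 1)

/-- The multiplicities. -/
def bμ : GB → ℕ
  | .uR _ _ => P.Lam
  | .uL i c => P.Lam + if i % 2 = 0 then P.sz c else 0
  | .lR _ _ => P.Lam
  | .lL i c => P.Lam + if i % 2 = 1 then P.sz c else 0
  | .uz _ _ => P.t - (2 * P.Lam + P.S)
  | .zl _ _ => P.t - (2 * P.Lam + P.S)
  | .qz j => P.t - P.D j
  | .zo j => P.t - P.D j
  | .ch _ => P.t - P.DM

/-- Light bundles. -/
def Light : GB → Prop
  | .uR _ _ => True
  | .uL _ _ => True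
  | .lR _ _ => True
  | .lL _ _ => True
  | _ => False

instance : DecidablePred Light := fun b => by
  cases b <;> unfold Light <;> infer_instance

/-- The finset of the bundles of the gadget. -/
def bundF : Finset GB :=
  ((range P.R ×ˢ range (P.m + 1)).biUnion fun x =>
    {.uR x.1 x.2, .uL x.1 x.2, .lR x.1 x.2, .lL x.1 x.2, .uz x.1 x.2, .zl x.1 x.2}) ∪
  ((range (P.R + 1)).biUnion fun j => {.qz j, .zo j}) ∪ (range (4 * P.R)).image .ch

theorem mem_bundF {b : GB} : b ∈ P.bundF ↔ P.BV b := by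
  unfold bundF
  simp only [mem_union, mem_biUnion, mem_product, mem_range, mem_insert, mem_singleton,
    mem_image, Prod.exists]
  cases b <;> simp [BV]

theorem sum_bundF (f : GB → ℕ) : ∑ b ∈ P.bundF, f b =
    ∑ i ∈ range P.R, ∑ c ∈ range (P.m + 1),
      (f (.uR i c) + f (.uL i c) + f (.lR i c) + f (.lL i c) + f (.uz i c) + f (.zl i c)) +
    ∑ j ∈ range (P.R + 1), (f (.qz j) + f (.zo j)) + ∑ n ∈ range (4 * P.R), f (.ch n) := by
  unfold bundF
  rw [sum_union, sum_union, sum_biUnion, sum_biUnion, sum_product, sum_image]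
  · congr 1
    · congr 1
      · refine sum_congr rfl fun i _ => sum_congr rfl fun c _ => ?_
        rw [sum_insert, sum_insert, sum_insert, sum_insert, sum_insert, sum_singleton]
        all_goals first | ring1 | simp
  · intro a _ b _ h
    exact GB.ch.inj h
  · intro i _ j _ hij
    simp only [Function.onFun]
    rw [Finset.disjoint_left]
    intro b hb hb'
    simp only [mem_insert, mem_singleton] at hb hb'
    rcases hb with rfl | rfl <;> simp at hb' <;> exact hij hb'
  · intro x _ y _ hxy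
    simp only [Function.onFun]
    rw [Finset.disjoint_left]
    intro b hb hb'
    simp only [mem_insert, mem_singleton] at hb hb'
    rcases hb with rfl | rfl | rfl | rfl | rfl | rfl <;> simp at hb' <;>
      exact hxy (Prod.ext hb'.1 hb'.2)
  · rw [Finset.disjoint_left]
    intro b hb hb'
    simp only [mem_biUnion, mem_insert, mem_singleton, Prod.exists] at hb hb'
    obtain ⟨i, c, -, rfl | rfl | rfl | rfl | rfl | rfl⟩ := hb <;> simp at hb'
  · rw [Finset.disjoint_left]
    intro b hb hb'
    simp only [mem_union, mem_biUnion, mem_insert, mem_singleton, Prod.exists, mem_image] at hb hb'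
    obtain ⟨n, -, rfl⟩ := hb'
    simp at hb

theorem Q_mem {j c : ℕ} (hj : j ≤ P.R) (hc : c ≤ P.m) : P.XV (P.Q j c) := by
  unfold Q
  split_ifs with h
  · exact ⟨hj, Nat.zero_le _, fun _ => rfl⟩
  · exact ⟨hj, hc, fun h' => absurd h' h⟩

theorem B_le {i : ℕ} (hi : i ≤ P.K) : P.B i ≤ P.S := by
  unfold S
  rw [← P.sum]
  exact single_le_sum (fun _ _ => Nat.zero_le _) (mem_range.2 (by omega))

theorem R_pos : 2 ≤ P.R := by
  have := P.K1
  unfold R
  omega

theorem cell_le : 2 * P.Lam + P.S ≤ P.DM := by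
  unfold DM
  have h1 := P.R_pos
  have h2 : 2 * 1 * P.Lam ≤ P.R * (P.m + 1) * P.Lam :=
    Nat.mul_le_mul_right _ (Nat.mul_le_mul h1 (by omega))
  have h3 : 8 * P.R * (P.m + 1) * P.Lam = 8 * (P.R * (P.m + 1) * P.Lam) := by ring
  unfold Lam at *
  omega

theorem two_base_le : 2 * P.base + P.S ≤ P.DM := by
  unfold DM base
  have h1 := P.R_pos
  have h2 : 2 * (P.m + 1) * P.Lam ≤ P.R * (P.m + 1) * P.Lam :=
    Nat.mul_le_mul_right _ (Nat.mul_le_mul_right _ h1)
  have h3 : 8 * P.R * (P.m + 1) * P.Lam = 8 * (P.R * (P.m + 1) * P.Lam) := by ring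
  have h4 : 2 * (2 * P.Lam * (P.m + 1)) = 2 * (2 * (P.m + 1) * P.Lam) := by ring
  have h5 : 1 * P.Lam ≤ 2 * (P.m + 1) * P.Lam := Nat.mul_le_mul_right _ (by omega)
  have h6 : P.S < P.Lam := Nat.lt_succ_self _
  omega

theorem D_le (j : ℕ) : P.D j ≤ P.DM := by
  have h := P.two_base_le
  unfold D
  split_ifs <;> omega

theorem bμ_pos (b : GB) : 1 ≤ P.bμ b := by
  have h1 := P.cell_le
  have h3 : 1 ≤ P.Lam := Nat.succ_pos _
  cases b with
  | qz j => have h2 := P.D_le j; simp only [bμ, t]; omega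
  | zo j => have h2 := P.D_le j; simp only [bμ, t]; omega
  | _ => simp only [bμ, t]; omega

/-- The bundle system of the gadget. -/
def sys : Sys GX GB where
  verts := {x | P.XV x}
  bund := P.bundF
  p := P.bp
  q := P.bq
  μ := P.bμ
  hp := by
    intro b hb
    rw [mem_bundF] at hb
    cases b <;> simp only [BV] at hb <;> simp only [bp, Set.mem_ofPred_eq]
    · exact P.Q_mem (by omega) (by omega)
    · exact P.Q_mem (by omega) (by omega)
    · exact hb
    · exact hb
    · exact hb
    · exact hb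
    · exact P.Q_mem (by omega) (by omega)
    · simp only [XV]; omega
    · simp only [XV]; omega
  hq := by
    intro b hb
    rw [mem_bundF] at hb
    cases b <;> simp only [BV] at hb <;> simp only [bq, Set.mem_ofPred_eq]
    · exact hb
    · exact hb
    · exact P.Q_mem (by omega) (by omega)
    · exact P.Q_mem (by omega) (by omega)
    · exact hb
    · exact hb
    · simp only [XV]; omega
    · simp only [XV]; omega
    · simp only [XV]; omega
  hne := by
    intro b _
    have h1 : ∀ j c i d, P.Q j c ≠ .u i d := by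
      intro j c i d
      unfold Q
      split_ifs <;> simp
    have h2 : ∀ j c i d, P.Q j c ≠ .l i d := by
      intro j c i d
      unfold Q
      split_ifs <;> simp
    have h3 : ∀ j c i, P.Q j c ≠ .zr i := by
      intro j c i
      unfold Q
      split_ifs <;> simp
    have h4 : ∀ n : ℕ, GX.o n ≠ .o (n + 1) := by
      intro n h
      have := GX.o.inj h
      omega
    cases b with
    | uR i c => exact h1 _ _ _ _
    | uL i c => exact h1 _ _ _ _
    | lR i c => exact (h2 _ _ _ _).symm
    | lL i c => exact (h2 _ _ _ _).symm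
    | uz i c => exact GX.noConfusion
    | zl i c => exact GX.noConfusion
    | qz j => exact h3 _ _ _
    | zo j => exact GX.noConfusion
    | ch n => exact h4 n
  hμ := fun b _ => P.bμ_pos b

end Par

end Pool.Agent.H820R2.SC
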