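import Pool.Agent.H820R2.SC.Gad
import Pool.Agent.H557R2.FptDefs

/-!
# Bin packing instances given by lists, and the instance belonging to a clique instance
-/

namespace Pool.Agent.H820R2.SC

open Finset

/-- Some of the items (with sizes `s`) can be packed exactly into bins of sizes `tg`; the other
items are left out. -/
def PackL (s tg : List ℕ) : Prop := ∃ f : ℕ → ℕ, ∀ i < tg.length,
  ∑ c ∈ (range s.length).filter (fun c => f c = i), s.getD c 0 = tg.getD i 0

/-- Admissible lists. -/
structure Adm (s tg : List ℕ) : Prop where
  pos : ∀ x ∈ s, 1 ≤ x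
  ne : tg ≠ []
  le : tg.sum ≤ s.sum

theorem sum_getD (s : List ℕ) : ∑ c ∈ range s.length, s.getD c 0 = s.sum := by
  induction s with
  | nil => simp
  | cons a s ih =>
    rw [List.length_cons, Finset.sum_range_succ', List.sum_cons, ← ih]
    simp [add_comm]

/-- The gadget parameters of a pair of lists: the items left out go to the last bin. -/
def parOf (s tg : List ℕ) (h : Adm s tg) : Par where
  m := s.length
  K := tg.length
  sz c := (0 :: s).getD c 0
  B i := (tg ++ [s.sum - tg.sum]).getD i 0
  sz0 := rfl
  pos := by
    intro c h1 h2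
    obtain ⟨c, rfl⟩ := Nat.exists_eq_add_of_le' h1
    rw [List.getD_cons_succ, List.getD_eq_getElem _ _ (by omega)]
    exact h.pos _ (List.getElem_mem _)
  K1 := List.length_pos_of_ne_nil h.ne
  sum := by
    have h1 := sum_getD (0 :: s)
    have h2 := sum_getD (tg ++ [s.sum - tg.sum])
    rw [List.length_cons] at h1
    rw [List.length_append, List.length_singleton] at h2
    rw [h1, h2]
    have := h.le
    simp only [List.sum_append, List.sum_cons, List.sum_nil]
    omega

/-- The congestion belonging to a pair of lists. -/
def tOf (s tg : List ℕ) : ℕ :=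
  2 * (8 * (2 * tg.length) * (s.length + 1) * (s.sum + 1)) + 1

theorem t_parOf (s tg : List ℕ) (h : Adm s tg) : (parOf s tg h).t = tOf s tg := by
  have h1 := sum_getD (0 :: s)
  rw [List.length_cons] at h1
  have h2 : (parOf s tg h).S = s.sum := by
    unfold Par.S parOf
    simp only
    rw [h1]
    simp
  unfold Par.t Par.DM Par.Lam
  rw [h2]
  rfl

/-! ### The instance belonging to a clique instance -/

/-- The items: `x a b v` for two different nodes `a, b` and a vertex `v`, `y a v` for a node `a`
and a vertex `v`, and `z a b u v` for `a < b` and an edge `u v`. -/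
inductive It : Type
  | x (a b v : ℕ) | y (a v : ℕ) | z (a b u v : ℕ)
  deriving DecidableEq

/-- The number of the pair `a, b`. -/
def eid (k a b : ℕ) : ℕ := min a b * k + max a b

/-- The digits of the size of an item. -/
def dg (n k : ℕ) : It → List ℕ
  | .x a b v => [1, 0, 0, a, a * a, eid k a b, eid k a b * eid k a b, if a < b then v else 0,
      if a < b then v * v else 0, if a < b then 0 else v, if a < b then 0 else v * v]
  | .y a v => [0, 1, 0, a, a * a, 0, 0, (k - 1 - a) * v, (k - 1 - a) * (v * v), a * v, a * (v * v)]
  | .z a b u v => [0, 0, 1, 0, 0, eid k a b, eid k a b * eid k a b, n - u, n * n - u * u, n - v,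
      n * n - v * v]

/-- The list of all items. -/
def its (n k : ℕ) (ad : ℕ → ℕ → Bool) : List It :=
  ((List.range k).flatMap fun a => ((List.range k).filter fun b => decide (b ≠ a)).flatMap fun b =>
    (List.range n).map fun v => .x a b v) ++
  (((List.range k).flatMap fun a => (List.range n).map fun v => .y a v) ++
  ((List.range k).flatMap fun a => ((List.range k).filter fun b => decide (a < b)).flatMap fun b =>
    (List.range n).flatMap fun u => ((List.range n).filter fun v => ad u v).map fun v =>
      .z a b u v))

/-- The digits of the size of the bin of the node `a`. -/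
def nodeT (n k a : ℕ) : List ℕ :=
  [(k - 1) * (n - 1), 1, 0, ((k - 1) * (n - 1) + 1) * a, ((k - 1) * (n - 1) + 1) * (a * a),
    (n - 1) * (((List.range k).filter fun b => decide (b ≠ a)).map fun b => eid k a b).sum,
    (n - 1) * (((List.range k).filter fun b => decide (b ≠ a)).map fun b =>
      eid k a b * eid k a b).sum,
    (k - 1 - a) * (List.range n).sum, (k - 1 - a) * ((List.range n).map fun v => v * v).sum,
    a * (List.range n).sum, a * ((List.range n).map fun v => v * v).sum]

/-- The digits of the size of the bin of the pair `a, b`. -/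
def edgeT (n k a b : ℕ) : List ℕ :=
  if a < b then [2, 0, 1, a + b, a * a + b * b, 3 * eid k a b, 3 * (eid k a b * eid k a b),
    n, n * n, n, n * n] else [0, 0, 0, 0, 0, 0, 0, 0, 0, 0, 0]

/-- The bins. -/
def tgs (n k : ℕ) : List (List ℕ) :=
  ((List.range k).map fun a => nodeT n k a) ++
    ((List.range k).flatMap fun a => (List.range k).map fun b => edgeT n k a b)

/-- The base of the number system. -/
def bs (n k : ℕ) : ℕ := 8 * (k + 1) ^ 7 * (n + 1) ^ 5

/-- The number with given digits. -/
def ofD (b : ℕ) (l : List ℕ) : ℕ := l.foldr (fun d acc => d + b * acc) 0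

/-- The sizes of the items. -/
def sizes (n k : ℕ) (ad : ℕ → ℕ → Bool) : List ℕ := (its n k ad).map fun i => ofD (bs n k) (dg n k i)

/-- The sizes of the bins. -/
def bins (n k : ℕ) : List ℕ := (tgs n k).map fun l => ofD (bs n k) l

/-- The adjacency test. -/
def adB (n : ℕ) (x : List Bool) (u v : ℕ) : Bool :=
  decide (u ≠ v) && x.getD (min u v * n + max u v) false

end Pool.Agent.H820R2.SC
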