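import Pool.Agent.H820R2.SC.Lst
import Pool.Agent.H820R2.SC.Defs

/-!
# The adjacency matrix of the gadget, as a list
-/

namespace Pool.Agent.H820R2.SC

open Pool.Agent.NPC

/-- Codes of the vertices of the gadget. -/
def GX.code : GX → ℕ × ℕ × ℕ
  | .q j c => (0, j, c)
  | .u i c => (1, i, c)
  | .z i c => (2, i, c)
  | .l i c => (3, i, c)
  | .zr j => (4, j, 0)
  | .o n => (5, n, 0)

theorem GX.code_injective : Function.Injective GX.code := by
  intro a b h
  cases a <;> cases b <;> simp [GX.code] at h ⊢ <;> assumption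

/-- Codes of the bundles of the gadget. -/
def GB.code : GB → ℕ × ℕ × ℕ
  | .uR i c => (0, i, c)
  | .uL i c => (1, i, c)
  | .lR i c => (2, i, c)
  | .lL i c => (3, i, c)
  | .uz i c => (4, i, c)
  | .zl i c => (5, i, c)
  | .qz j => (6, j, 0)
  | .zo j => (7, j, 0)
  | .ch n => (8, n, 0)

theorem GB.code_injective : Function.Injective GB.code := by
  intro a b h
  cases a <;> cases b <;> simp [GB.code] at h ⊢ <;> assumption

instance : TEnc GX := ⟨fun x => toT x.code, fun _ _ h => GX.code_injective (TEnc.inj h)⟩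

instance : TEnc GB := ⟨fun x => toT x.code, fun _ _ h => GB.code_injective (TEnc.inj h)⟩

/-- The weight `Λ`. -/
def LamL (s : List ℕ) : ℕ := s.sum + 1

/-- The bound `DM`. -/
def DML (s tg : List ℕ) : ℕ := 8 * (2 * tg.length) * (s.length + 1) * (s.sum + 1)

def baseL (s : List ℕ) : ℕ := 2 * LamL s * (s.length + 1)

/-- The sizes of the bins, including the last one. -/
def BL (s tg : List ℕ) (i : ℕ) : ℕ := (tg ++ [s.sum - tg.sum]).getD i 0

/-- The bounds of the levels. -/
def DL (s tg : List ℕ) (j : ℕ) : ℕ :=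
  if j = 0 then baseL s + s.sum - BL s tg 0
  else if j = 2 * tg.length then baseL s + s.sum - BL s tg tg.length
  else if j % 2 = 1 then 2 * baseL s + s.sum else 2 * baseL s + s.sum - BL s tg (j / 2)

def QL (tg : List ℕ) (j c : ℕ) : GX := if j = 0 ∨ j = 2 * tg.length then .q j 0 else .q j c

/-- The list of bundles, with lower end, upper end and multiplicity. -/
def blist (s tg : List ℕ) : List (GB × GX × GX × ℕ) :=
  ((List.range (2 * tg.length)).flatMap fun i => (List.range (s.length + 1)).flatMap fun c =>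
    [(.uR i c, QL tg i c, .u i c, LamL s),
     (.uL i c, QL tg i (c - 1), .u i c, LamL s + if i % 2 = 0 then (0 :: s).getD c 0 else 0),
     (.lR i c, .l i c, QL tg (i + 1) c, LamL s),
     (.lL i c, .l i c, QL tg (i + 1) (c - 1),
       LamL s + if i % 2 = 1 then (0 :: s).getD c 0 else 0),
     (.uz i c, .u i c, .z i c, tOf s tg - (2 * LamL s + s.sum)),
     (.zl i c, .z i c, .l i c, tOf s tg - (2 * LamL s + s.sum))]) ++
  (((List.range (2 * tg.length + 1)).flatMap fun j =>
    [(.qz j, QL tg j s.length, .zr j, tOf s tg - DL s tg j),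
     (.zo j, .o (4 * j), .zr j, tOf s tg - DL s tg j)]) ++
  ((List.range (4 * (2 * tg.length))).map fun n => (.ch n, .o n, .o (n + 1),
    tOf s tg - DML s tg)))

/-- The list of the vertices that are not mids. -/
def xlist (s tg : List ℕ) : List GX :=
  ((List.range (2 * tg.length + 1)).flatMap fun j => ((List.range (s.length + 1)).filter fun c =>
    decide (¬ (j = 0 ∨ j = 2 * tg.length) ∨ c = 0)).map fun c => .q j c) ++
  (((List.range (2 * tg.length)).flatMap fun i => (List.range (s.length + 1)).flatMap fun c =>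
    [.u i c, .z i c, .l i c]) ++
  (((List.range (2 * tg.length + 1)).map fun j => .zr j) ++
  ((List.range (4 * (2 * tg.length) + 1)).map fun n => .o n)))

/-- The numbers below `min N k`, where `N` will be a polynomial bound for `k`. -/
def rg (N k : ℕ) : List ℕ := (List.range N).filter fun l => decide (l < k)

/-- The vertices. -/
def vlist (N : ℕ) (s tg : List ℕ) : List (GX ⊕ (GB × ℕ)) :=
  (xlist s tg).map Sum.inl ++ (blist s tg).flatMap fun b => (rg N b.2.2.2).map fun l =>
    Sum.inr (b.1, l)

/-- The edges. -/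
def elist (N : ℕ) (s tg : List ℕ) : List ((GX ⊕ (GB × ℕ)) × (GX ⊕ (GB × ℕ))) :=
  (blist s tg).flatMap fun b => (rg N b.2.2.2).flatMap fun l =>
    [(Sum.inl b.2.1, Sum.inr (b.1, l)), (Sum.inl b.2.2.1, Sum.inr (b.1, l))]

/-- The adjacency matrix. -/
def mtx (N : ℕ) (s tg : List ℕ) : List (List Bool) :=
  (vlist N s tg).map fun x => (vlist N s tg).map fun y => (elist N s tg).any fun e =>
    (decide (e.1 = x) && decide (e.2 = y)) || (decide (e.1 = y) && decide (e.2 = x))

end Pool.Agent.H820R2.SC
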