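import Pool.Agent.H820R2.SC.Core

/-!
# Statements to be proved (tasks)
-/

namespace Pool.Agent.H820R2.SC

open Finset Pool.Agent.NPC Pool.Agent.H557R2.Fpt

section general

variable {X B : Type} {S : Sys X B} {V : Type} {G : SimpleGraph V} {φ : V → X ⊕ (B × ℕ)}

/-- T1 -/
theorem stcLe_of_good [Finite V] (hM : S.IsModel G φ) (hne : S.verts.Nonempty) {t : ℕ} (ht : 2 ≤ t)
    {F : Set B} (hF : S.Good F t) : StcLe G t := sorry

/-- T2 -/
theorem good_of_stcLe [Finite V] (hM : S.IsModel G φ) {t : ℕ} (h : StcLe G t) :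
    ∃ F, S.Good F t := sorry

/-- T3 -/
theorem connected_model (hM : S.IsModel G φ) (hne : S.verts.Nonempty)
    (hc : ∀ x ∈ S.verts, ∀ y ∈ S.verts, S.Conn {b | b ∈ S.bund} x y) : G.Connected := sorry

/-- T4a -/
theorem isPlane_of_level (h x : V → ℕ) (inj : ∀ u v, h u = h v → x u = x v → u = v)
    (edge : ∀ u v, G.Adj u v → h v = h u + 1 ∨ h u = h v + 1)
    (mono : ∀ u v u' v', G.Adj u v → G.Adj u' v' → h v = h u + 1 → h u' = h u → h v' = h v →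
      x u < x u' → x v ≤ x v') :
    IsPlaneDrawing G (fun v => ((x v : ℝ), (h v : ℝ))) := sorry

/-- T4b -/
theorem peel_of_level (h x : V → ℕ) (k : ℕ) (A : Set V)
    (hk : ∀ v ∈ A, h v < k) : Peel G (fun v => ((x v : ℝ), (h v : ℝ))) k A := sorry

/-- T5 -/
theorem level_model [Finite V] (hM : S.IsModel G φ) (ht xx : X → ℕ) (pos : B → ℕ) (H : ℕ)
    (inj : ∀ x ∈ S.verts, ∀ y ∈ S.verts, ht x = ht y → xx x = xx y → x = y)
    (even : ∀ x ∈ S.verts, Even (ht x))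
    (edge : ∀ b ∈ S.bund, ht (S.q b) = ht (S.p b) + 2)
    (posinj : ∀ b ∈ S.bund, ∀ b' ∈ S.bund, ht (S.p b) = ht (S.p b') → pos b = pos b' → b = b')
    (mono : ∀ b ∈ S.bund, ∀ b' ∈ S.bund, ht (S.p b) = ht (S.p b') → pos b < pos b' →
      xx (S.p b) ≤ xx (S.p b') ∧ xx (S.q b) ≤ xx (S.q b'))
    (hH : ∀ x ∈ S.verts, ht x < H) : IsKOuterplanar H G := sorry

end general

/-- T6 -/
theorem kouter_gadget (P : Par) {V : Type} [Finite V] {G : SimpleGraph V}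
    {φ : V → GX ⊕ (GB × ℕ)} (hM : P.sys.IsModel G φ) : IsKOuterplanar (8 * P.R + 3) G := sorry

/-- T7 -/
theorem conn_gadget (P : Par) : ∀ x ∈ P.sys.verts, ∀ y ∈ P.sys.verts,
    P.sys.Conn {b | b ∈ P.sys.bund} x y := sorry

/-! ### Soundness -/

/-- T8a -/
theorem heavy_mem {P : Par} {F : Set GB} (h : P.sys.Good F P.t) {b : GB} (hb : P.BV b)
    (hl : ¬ Par.Light b) : b ∈ F := sorry

/-- T8b -/
theorem att {P : Par} {F : Set GB} (h : P.sys.Good F P.t)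
    (hH : ∀ b, P.BV b → ¬ Par.Light b → b ∈ F) {i c : ℕ} (hi : i < P.R) (hc : c ≤ P.m) : (uAtt F i c ∨ lAtt F i c) ∧ ¬ (uAtt F i c ∧ lAtt F i c) := sorry

/-- T8c -/
theorem level_le {P : Par} {F : Set GB} (h : P.sys.Good F P.t)
    (hH : ∀ b, P.BV b → ¬ Par.Light b → b ∈ F)
    (ha : ∀ i c, i < P.R → c ≤ P.m → (uAtt F i c ∨ lAtt F i c) ∧ ¬ (uAtt F i c ∧ lAtt F i c))
    {j : ℕ} (hj : j ≤ P.R) :
    (if j = 0 then 0 else PW P (fun i c => ¬ uAtt F i c) (j - 1)) +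
      (if j = P.R then 0 else PW P (fun i c => ¬ uAtt F i c) j) ≤ P.D j := sorry

/-- T8d -/
theorem up_mono {P : Par} {F : Set GB} (h : P.sys.Good F P.t)
    (hH : ∀ b, P.BV b → ¬ Par.Light b → b ∈ F)
    (ha : ∀ i c, i < P.R → c ≤ P.m → (uAtt F i c ∨ lAtt F i c) ∧ ¬ (uAtt F i c ∧ lAtt F i c))
    {j c : ℕ} (h1 : 1 ≤ j)
    (hj : j < P.R) (hc1 : 1 ≤ c) (hc : c ≤ P.m) (hu : ¬ uAtt F j c) : ¬ uAtt F (j - 1) c := sorry

/-- T8e -/
theorem pack_of_up (P : Par) (up : ℕ → ℕ → Prop)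
    (hlev : ∀ j ≤ P.R, (if j = 0 then 0 else PW P up (j - 1)) +
      (if j = P.R then 0 else PW P up j) ≤ P.D j)
    (hmono : ∀ j c, 1 ≤ j → j < P.R → 1 ≤ c → c ≤ P.m → up j c → up (j - 1) c) : P.Pack := sorry

/-! ### Completeness -/

/-- T9a -/
theorem light_sum_le (P : Par) : ∑ b ∈ P.bundF.filter (fun b => Par.Light b), P.bμ b ≤ P.DM := sorry

/-- T9b -/
theorem conn_FS {P : Par} {f : ℕ → ℕ} (hf : IsPack P f) :
    ∀ x ∈ P.sys.verts, ∀ y ∈ P.sys.verts, P.sys.Conn (FS P f) x y := sorry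

/-- T9c -/
theorem cut_cell {P : Par} {f : ℕ → ℕ} (hf : IsPack P f) {i c : ℕ} (hi : i < P.R) (hc : c ≤ P.m) :
    CutOK P (FS P f) (.uz i c) ∧ CutOK P (FS P f) (.zl i c) := sorry

/-- T9d -/
theorem cut_level {P : Par} {f : ℕ → ℕ} (hf : IsPack P f) {j : ℕ} (hj : j ≤ P.R) :
    CutOK P (FS P f) (.qz j) ∧ CutOK P (FS P f) (.zo j) := sorry

/-- T9e -/
theorem cut_ch {P : Par} {f : ℕ → ℕ} (hf : IsPack P f)
    (hL : ∑ b ∈ P.bundF.filter (fun b => Par.Light b), P.bμ b ≤ P.DM) {n : ℕ} (hn : n < 4 * P.R) :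
    CutOK P (FS P f) (.ch n) := sorry

/-- T9f -/
theorem cut_light {P : Par} {f : ℕ → ℕ} (hf : IsPack P f)
    (hL : ∑ b ∈ P.bundF.filter (fun b => Par.Light b), P.bμ b ≤ P.DM) {b : GB} (hb : b ∈ FS P f)
    (hl : Par.Light b) : CutOK P (FS P f) b := sorry

/-! ### Clique and packings -/

/-- T10a -/
theorem pack_parOf {s tg : List ℕ} (h : Adm s tg) : (parOf s tg h).Pack ↔ PackL s tg := sorry

/-- T10b -/
theorem packL_iff_packD (n k : ℕ) (ad : ℕ → ℕ → Bool) :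
    PackL (sizes n k ad) (bins n k) ↔ PackD n k ad := sorry

/-- T11 -/
theorem packD_of_clq {n k : ℕ} {ad : ℕ → ℕ → Bool} (hk : 1 ≤ k) (h : Clq n k ad) :
    PackD n k ad := sorry

/-- T12 -/
theorem clq_of_packD {n k : ℕ} {ad : ℕ → ℕ → Bool} (hk : 1 ≤ k) (h : PackD n k ad) :
    Clq n k ad := sorry

/-- T12b -/
theorem clq_iff (n k : ℕ) (x : List Bool) :
    ¬ (bitGraph n x).CliqueFree k ↔ Clq n k (adB n x) := sorry

/-! ### Polynomial time -/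

/-- T13a -/
theorem model_mtx {s tg : List ℕ} (h : Adm s tg) {N : ℕ} (hN : tOf s tg ≤ N) :
    ∃ G : SimpleGraph (Fin (vlist N s tg).length), matOf G = mtx N s tg ∧
      (parOf s tg h).sys.IsModel G (fun i => (vlist N s tg).get i) := sorry

/-- T13b -/
theorem poly_mtx {α : Type} [TEnc α] {s tg : α → List ℕ} {N : α → ℕ} (hs : Poly s) (htg : Poly tg)
    (hN : UPoly N) : Poly (fun a => mtx (N a) (s a) (tg a)) := sorry

/-- T14a -/
theorem poly_inst : ∃ F : Inp → List ℕ × List ℕ, Poly F ∧ ∀ n k x, x.length = n * n →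
    F (n, x, List.replicate k ()) = inst n k x := sorry

/-- T14b -/
theorem tOf_inst_le : ∃ N : Inp → ℕ, UPoly N ∧ ∀ n k x, x.length = n * n →
    tOf (inst n k x).1 (inst n k x).2 ≤ N (n, x, List.replicate k ()) := sorry

/-- T16 -/
theorem exists_ecB : ∃ ecB : List (List Bool) × List (List Bool) × ℕ → Bool,
    Poly ecB ∧ IsEcB ecB := sorry

end Pool.Agent.H820R2.SC
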