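import Mathlib

/-!
# Bundle systems

A bundle system is a multigraph in which the edge `b` has multiplicity `μ b`; its model is the
simple graph in which every copy of every edge is subdivided once.
-/

namespace Pool.Agent.H820R2.SC

open Finset

/-- A multigraph with vertex set `verts`, edges (bundles) `bund`, ends `p b`, `q b` and
multiplicities `μ b`. -/
structure Sys (X B : Type) where
  verts : Set X
  bund : Finset B
  p : B → X
  q : B → X
  μ : B → ℕ
  hp : ∀ b ∈ bund, p b ∈ verts
  hq : ∀ b ∈ bund, q b ∈ verts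
  hne : ∀ b ∈ bund, p b ≠ q b
  hμ : ∀ b ∈ bund, 1 ≤ μ b

variable {X B : Type}

/-- Two vertices joined by a bundle of `F`. -/
def Sys.Link (S : Sys X B) (F : Set B) (x y : X) : Prop :=
  ∃ b ∈ F, (S.p b = x ∧ S.q b = y) ∨ (S.p b = y ∧ S.q b = x)

/-- Connectedness by bundles of `F`. -/
def Sys.Conn (S : Sys X B) (F : Set B) : X → X → Prop := Relation.ReflTransGen (S.Link F)

open scoped Classical in
/-- `F` is a spanning tree of bundles of congestion at most `t`. -/
structure Sys.Good (S : Sys X B) (F : Set B) (t : ℕ) : Prop where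
  sub : ∀ b ∈ F, b ∈ S.bund
  conn : ∀ x ∈ S.verts, ∀ y ∈ S.verts, S.Conn F x y
  acyc : ∀ b ∈ F, ¬ S.Conn (F \ {b}) (S.p b) (S.q b)
  cut : ∀ b ∈ F, ∑ b' ∈ S.bund.filter (fun b' => ¬ S.Conn (F \ {b}) (S.p b') (S.q b')), S.μ b' ≤ t

/-- The vertices of the model: the vertices of the system, and the copies `(b, l)`, `l < μ b`, of
the bundles (mids). -/
def Sys.Valid (S : Sys X B) : X ⊕ (B × ℕ) → Prop
  | .inl x => x ∈ S.verts
  | .inr (b, l) => b ∈ S.bund ∧ l < S.μ b

/-- The adjacency of the model. -/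
def Sys.adj (S : Sys X B) : X ⊕ (B × ℕ) → X ⊕ (B × ℕ) → Prop
  | .inl x, .inr (b, _) => x = S.p b ∨ x = S.q b
  | .inr (b, _), .inl x => x = S.p b ∨ x = S.q b
  | .inl _, .inl _ => False
  | .inr _, .inr _ => False

/-- `G` is (by means of `φ`) the graph obtained from the system by subdividing each copy of each
bundle once. -/
structure Sys.IsModel (S : Sys X B) {V : Type} (G : SimpleGraph V) (φ : V → X ⊕ (B × ℕ)) :
    Prop where
  inj : Function.Injective φ
  valid : ∀ v, S.Valid (φ v)
  surj : ∀ x, S.Valid x → ∃ v, φ v = x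
  adj : ∀ v w, G.Adj v w ↔ S.adj (φ v) (φ w)

theorem Sys.Link.symm {S : Sys X B} {F : Set B} {x y : X} (h : S.Link F x y) : S.Link F y x := by
  obtain ⟨b, hb, h⟩ := h
  exact ⟨b, hb, h.symm⟩

theorem Sys.Conn.refl (S : Sys X B) (F : Set B) (x : X) : S.Conn F x x := Relation.ReflTransGen.refl

theorem Sys.Conn.trans {S : Sys X B} {F : Set B} {x y z : X} (h : S.Conn F x y)
    (h' : S.Conn F y z) : S.Conn F x z := Relation.ReflTransGen.trans h h'

theorem Sys.Conn.symm {S : Sys X B} {F : Set B} {x y : X} (h : S.Conn F x y) : S.Conn F y x := by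
  induction h with
  | refl => exact Sys.Conn.refl S F x
  | tail _ h2 ih => exact Relation.ReflTransGen.head h2.symm ih

theorem Sys.Conn.mono {S : Sys X B} {F F' : Set B} (hF : F ⊆ F') {x y : X} (h : S.Conn F x y) :
    S.Conn F' x y := by
  induction h with
  | refl => exact Sys.Conn.refl _ _ _
  | tail _ h2 ih =>
    obtain ⟨b, hb, h⟩ := h2
    exact Relation.ReflTransGen.tail ih ⟨b, hF hb, h⟩

theorem Sys.Conn.of_mem {S : Sys X B} {F : Set B} {b : B} (hb : b ∈ F) :
    S.Conn F (S.p b) (S.q b) := Relation.ReflTransGen.single ⟨b, hb, Or.inl ⟨rfl, rfl⟩⟩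

/-- A set closed under the bundles of `F` is closed under `F`-connectedness. -/
theorem Sys.Conn.mem_of {S : Sys X B} {F : Set B} {Y : Set X}
    (hY : ∀ b ∈ F, S.p b ∈ Y ↔ S.q b ∈ Y) {x y : X} (h : S.Conn F x y) : x ∈ Y ↔ y ∈ Y := by
  induction h with
  | refl => exact Iff.rfl
  | tail _ h2 ih =>
    obtain ⟨b, hb, h⟩ := h2
    have := hY b hb
    rcases h with ⟨rfl, rfl⟩ | ⟨rfl, rfl⟩
    · exact ih.trans this
    · exact ih.trans this.symm

/-- If `b` is the only bundle of the connected set `F` crossing `Y`, the two components of `F - b`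
are `Y` and its complement. -/
theorem Sys.conn_diff_iff {S : Sys X B} {F : Set B} {Y : Set X} {b : B} (hb : b ∈ F)
    (hc : ¬ (S.p b ∈ Y ↔ S.q b ∈ Y)) (hY : ∀ b' ∈ F, b' ≠ b → (S.p b' ∈ Y ↔ S.q b' ∈ Y))
    {x y : X} (h : S.Conn F x y) : S.Conn (F \ {b}) x y ↔ (x ∈ Y ↔ y ∈ Y) := by
  classical
  constructor
  · intro h1
    exact Sys.Conn.mem_of (fun b' hb' => hY b' hb'.1 hb'.2) h1
  · -- the end of `b` on the side of a set
    have key : ∀ Z : Set X, ∀ e : X, (S.p b = e ∨ S.q b = e) → e ∈ Z →
        ¬ (S.p b ∈ Z ↔ S.q b ∈ Z) → (∀ b' ∈ F, b' ≠ b → (S.p b' ∈ Z ↔ S.q b' ∈ Z)) →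
        ∀ x y : X, x ∈ Z → S.Conn F x y →
          S.Conn (F \ {b}) x (if y ∈ Z then y else e) := by
      intro Z e he heZ hcr hcl x y hx h
      induction h with
      | refl => rw [if_pos hx]; exact Sys.Conn.refl _ _ _
      | @tail u v _ h2 ih =>
        obtain ⟨b', hb', h2⟩ := h2
        by_cases hbb : b' = b
        · subst hbb
          have e1 : (if u ∈ Z then u else e) = e := by
            split_ifs with hu
            · rcases he with rfl | rfl <;> rcases h2 with ⟨h3, h4⟩ | ⟨h3, h4⟩
              · exact h3.symm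
              · exact absurd (iff_of_true (h3 ▸ heZ) (h4 ▸ hu)) (by
                  rw [h3, h4] at hcr; rw [h3] at heZ; exact fun _ => hcr (iff_of_true heZ hu))
              · exact absurd (iff_of_true (h3 ▸ hu) (h4 ▸ heZ)) (by
                  rw [h3, h4] at hcr; rw [h4] at heZ; exact fun _ => hcr (iff_of_true hu heZ))
              · exact h4.symm
            · rfl
          have e2 : (if v ∈ Z then v else e) = e := by
            split_ifs with hv
            · rcases he with rfl | rfl <;> rcases h2 with ⟨h3, h4⟩ | ⟨h3, h4⟩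
              · exact absurd (iff_of_true (h3 ▸ heZ) (h4 ▸ hv)) (by
                  rw [h3, h4] at hcr; rw [h3] at heZ; exact fun _ => hcr (iff_of_true heZ hv))
              · exact h3.symm
              · exact h4.symm
              · exact absurd (iff_of_true (h3 ▸ hv) (h4 ▸ heZ)) (by
                  rw [h3, h4] at hcr; rw [h4] at heZ; exact fun _ => hcr (iff_of_true hv heZ))
            · rfl
          rw [e2]
          rw [e1] at ih
          exact ih
        · have h5 := hcl b' hb' hbb
          have h6 : u ∈ Z ↔ v ∈ Z := by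
            rcases h2 with ⟨rfl, rfl⟩ | ⟨rfl, rfl⟩
            · exact h5
            · exact h5.symm
          by_cases hu : u ∈ Z
          · rw [if_pos hu] at ih
            rw [if_pos (h6.1 hu)]
            exact Relation.ReflTransGen.tail ih ⟨b', ⟨hb', hbb⟩, h2⟩
          · rw [if_neg hu] at ih
            rw [if_neg (fun h => hu (h6.2 h))]
            exact ih
    intro hxy
    by_cases hx : x ∈ Y
    · have hy := hxy.1 hx
      by_cases hp : S.p b ∈ Y
      · have := key Y (S.p b) (Or.inl rfl) hp hc hY x y hx h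
        rwa [if_pos hy] at this
      · have hq : S.q b ∈ Y := by
          by_contra hq
          exact hc (iff_of_false hp hq)
        have := key Y (S.q b) (Or.inr rfl) hq hc hY x y hx h
        rwa [if_pos hy] at this
    · have hy : y ∉ Y := fun h => hx (hxy.2 h)
      have hc' : ¬ (S.p b ∈ Yᶜ ↔ S.q b ∈ Yᶜ) := by
        simpa only [Set.mem_compl_iff, not_iff_not] using hc
      have hY' : ∀ b' ∈ F, b' ≠ b → (S.p b' ∈ Yᶜ ↔ S.q b' ∈ Yᶜ) := by
        intro b' h1 h2
        simpa only [Set.mem_compl_iff, not_iff_not] using hY b' h1 h2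
      have hx' : x ∈ Yᶜ := hx
      have hy' : y ∈ Yᶜ := hy
      by_cases hp : S.p b ∈ Yᶜ
      · have := key Yᶜ (S.p b) (Or.inl rfl) hp hc' hY' x y hx' h
        rwa [if_pos hy'] at this
      · have hq : S.q b ∈ Yᶜ := by
          by_contra hq
          exact hc' (iff_of_false hp hq)
        have := key Yᶜ (S.q b) (Or.inr rfl) hq hc' hY' x y hx' h
        rwa [if_pos hy'] at this

end Pool.Agent.H820R2.SC
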