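import Pool.Agent.H820R2.SC.Core

/-!
# T1: from a spanning tree of bundles to a spanning tree of the model
-/

namespace Pool.Agent.H820R2.SC

open Finset

namespace T1

section

variable {X B : Type} {S : Sys X B} {V : Type} {G : SimpleGraph V} {φ : V → X ⊕ (B × ℕ)}

open scoped Classical in
/-- The side to which the mid `(b, l)` is retracted. -/
noncomputable def sd (S : Sys X B) (β : Set B) (b : B) (l : ℕ) : X :=
  if b ∈ β ∧ l = 0 then S.q b else S.p b

open scoped Classical in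
/-- The other side of the mid `(b, l)`. -/
noncomputable def ot (S : Sys X B) (β : Set B) (b : B) (l : ℕ) : X :=
  if b ∈ β ∧ l = 0 then S.p b else S.q b

theorem sd_ot (S : Sys X B) (β : Set B) (b : B) (l : ℕ) :
    (sd S β b l = S.p b ∧ ot S β b l = S.q b) ∨ (sd S β b l = S.q b ∧ ot S β b l = S.p b) := by
  classical
  unfold sd ot
  by_cases h : b ∈ β ∧ l = 0
  · right; rw [if_pos h, if_pos h]; exact ⟨rfl, rfl⟩
  · left; rw [if_neg h, if_neg h]; exact ⟨rfl, rfl⟩

theorem sd_empty (S : Sys X B) (b : B) (l : ℕ) : sd S ∅ b l = S.p b := by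
  classical
  unfold sd
  rw [if_neg]
  rintro ⟨h, _⟩
  exact h

theorem ot_empty (S : Sys X B) (b : B) (l : ℕ) : ot S ∅ b l = S.q b := by
  classical
  unfold ot
  rw [if_neg]
  rintro ⟨h, _⟩
  exact h

/-- The half-edges of the forest. -/
def Half (S : Sys X B) (β F : Set B) (D : Set (B × ℕ)) (a x : X ⊕ (B × ℕ)) : Prop :=
  ∃ b l, a = .inr (b, l) ∧ ((x = .inl (sd S β b l) ∧ (b, l) ∉ D) ∨
    (l = 0 ∧ b ∈ F ∧ x = .inl (ot S β b l)))

theorem Half.ne {β F : Set B} {D : Set (B × ℕ)} {a x : X ⊕ (B × ℕ)} (h : Half S β F D a x) :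
    a ≠ x := by
  obtain ⟨b, l, rfl, h⟩ := h
  rcases h with ⟨rfl, _⟩ | ⟨_, _, rfl⟩ <;> exact fun h => by cases h

/-- The forest. -/
def TG (S : Sys X B) (φ : V → X ⊕ (B × ℕ)) (β F : Set B) (D : Set (B × ℕ)) : SimpleGraph V where
  Adj v w := Half S β F D (φ v) (φ w) ∨ Half S β F D (φ w) (φ v)
  symm := ⟨fun _ _ h => h.symm⟩
  loopless := ⟨fun _ h => by rcases h with h | h <;> exact h.ne rfl⟩

/-- The retraction. -/
noncomputable def rho (S : Sys X B) (β : Set B) : X ⊕ (B × ℕ) → X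
  | .inl x => x
  | .inr (b, l) => sd S β b l

theorem conn_of_half {β F : Set B} {D : Set (B × ℕ)} {a x : X ⊕ (B × ℕ)}
    (h : Half S β F D a x) : S.Conn F (rho S β a) (rho S β x) := by
  obtain ⟨b, l, rfl, h⟩ := h
  rcases h with ⟨rfl, _⟩ | ⟨rfl, hb, rfl⟩
  · exact Sys.Conn.refl _ _ _
  · change S.Conn F (sd S β b 0) (ot S β b 0)
    rcases sd_ot S β b 0 with ⟨h1, h2⟩ | ⟨h1, h2⟩
    · rw [h1, h2]; exact Sys.Conn.of_mem hb
    · rw [h1, h2]; exact (Sys.Conn.of_mem hb).symm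

theorem conn_of_reachable {β F : Set B} {D : Set (B × ℕ)} {v w : V}
    (h : (TG S φ β F D).Reachable v w) : S.Conn F (rho S β (φ v)) (rho S β (φ w)) := by
  obtain ⟨p⟩ := h
  induction p with
  | nil => exact Sys.Conn.refl _ _ _
  | cons hadj p ih =>
    refine Sys.Conn.trans ?_ ih
    rcases hadj with h | h
    · exact conn_of_half h
    · exact (conn_of_half h).symm

theorem reach_aux (hM : S.IsModel G φ) {β F : Set B} {D : Set (B × ℕ)} (hF : ∀ b ∈ F, b ∈ S.bund)
    (hD : ∀ b ∈ F, (b, 0) ∉ D) {x y : X} (h : S.Conn F x y) :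
    ∀ v w : V, φ v = .inl x → φ w = .inl y → (TG S φ β F D).Reachable v w := by
  induction h with
  | refl =>
    intro v w hv hw
    have : v = w := hM.inj (hv.trans hw.symm)
    rw [this]
  | @tail y z _ h2 ih =>
    intro v w hv hw
    obtain ⟨b, hb, h2⟩ := h2
    have hbb := hF b hb
    have hyv : y ∈ S.verts := by
      rcases h2 with ⟨h, _⟩ | ⟨_, h⟩
      · rw [← h]; exact S.hp b hbb
      · rw [← h]; exact S.hq b hbb
    obtain ⟨u, hu⟩ := hM.surj (.inl y) hyv
    obtain ⟨m, hm⟩ := hM.surj (.inr (b, 0)) ⟨hbb, S.hμ b hbb⟩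
    have hone : ∀ (u : V), φ u = .inl (S.p b) ∨ φ u = .inl (S.q b) → (TG S φ β F D).Adj m u := by
      intro u hu
      left
      refine ⟨b, 0, hm, ?_⟩
      rcases sd_ot S β b 0 with ⟨h3, h4⟩ | ⟨h3, h4⟩
      · rcases hu with hu | hu
        · left; rw [h3]; exact ⟨hu, hD b hb⟩
        · right; rw [h4]; exact ⟨rfl, hb, hu⟩
      · rcases hu with hu | hu
        · right; rw [h4]; exact ⟨rfl, hb, hu⟩
        · left; rw [h3]; exact ⟨hu, hD b hb⟩
    refine (ih v u hv hu).trans ?_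
    have e1 : (TG S φ β F D).Adj m u := hone u (by
      rcases h2 with ⟨h, _⟩ | ⟨_, h⟩
      · left; rw [hu, h]
      · right; rw [hu, h])
    have e2 : (TG S φ β F D).Adj m w := hone w (by
      rcases h2 with ⟨_, h⟩ | ⟨h, _⟩
      · right; rw [hw, h]
      · left; rw [hw, h])
    exact e1.symm.reachable.trans e2.reachable

theorem rho_mem (hM : S.IsModel G φ) (β : Set B) (v : V) : rho S β (φ v) ∈ S.verts := by
  have h := hM.valid v
  rcases hv : φ v with x | ⟨b, l⟩
  · rw [hv] at h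
    exact h
  · rw [hv] at h
    change sd S β b l ∈ S.verts
    rcases sd_ot S β b l with ⟨h3, _⟩ | ⟨h3, _⟩
    · rw [h3]; exact S.hp b h.1
    · rw [h3]; exact S.hq b h.1

theorem reach_rho (hM : S.IsModel G φ) {β F : Set B} {D : Set (B × ℕ)} (v : V)
    (hv : ∀ d ∈ D, φ v ≠ .inr d) : ∃ u, φ u = .inl (rho S β (φ v)) ∧
      (TG S φ β F D).Reachable v u := by
  obtain ⟨u, hu⟩ := hM.surj (.inl (rho S β (φ v))) (rho_mem hM β v)
  refine ⟨u, hu, ?_⟩
  rcases h : φ v with x | ⟨b, l⟩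
  · rw [h] at hu
    have : v = u := hM.inj (h.trans hu.symm)
    rw [this]
  · refine SimpleGraph.Adj.reachable (Or.inl ⟨b, l, h, Or.inl ⟨?_, fun hd => hv _ hd h⟩⟩)
    rw [hu, h]
    rfl

theorem reachable_of_conn (hM : S.IsModel G φ) {β F : Set B} {D : Set (B × ℕ)}
    (hF : ∀ b ∈ F, b ∈ S.bund) (hD : ∀ b ∈ F, (b, 0) ∉ D) {v w : V}
    (hv : ∀ d ∈ D, φ v ≠ .inr d) (hw : ∀ d ∈ D, φ w ≠ .inr d)
    (h : S.Conn F (rho S β (φ v)) (rho S β (φ w))) : (TG S φ β F D).Reachable v w := by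
  obtain ⟨u, hu, hu'⟩ := reach_rho (F := F) (β := β) hM v hv
  obtain ⟨z, hz, hz'⟩ := reach_rho (F := F) (β := β) hM w hw
  exact hu'.trans ((reach_aux hM hF hD h u z hu hz).trans hz'.symm)

/-- The forests with a bundle less, as subgraphs. -/
theorem half_mono {β F F' : Set B} {D : Set (B × ℕ)} (hβ : ∀ b ∈ β, b ∈ F)
    (hF' : ∀ b ∈ F', b ∈ F) {a x : X ⊕ (B × ℕ)} (h : Half S β F' D a x) :
    Half S ∅ F ∅ a x := by
  classical
  obtain ⟨b, l, rfl, h⟩ := h
  refine ⟨b, l, rfl, ?_⟩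
  rw [sd_empty, ot_empty]
  have hn : (b, l) ∉ (∅ : Set (B × ℕ)) := fun h => h
  rcases h with ⟨rfl, _⟩ | ⟨rfl, hb, rfl⟩
  · unfold sd
    by_cases hc : b ∈ β ∧ l = 0
    · rw [if_pos hc]
      right
      exact ⟨hc.2, hβ b hc.1, rfl⟩
    · rw [if_neg hc]
      left
      exact ⟨rfl, hn⟩
  · rcases sd_ot S β b 0 with ⟨_, h2⟩ | ⟨_, h2⟩
    · right; rw [h2]; exact ⟨rfl, hF' b hb, rfl⟩
    · left; rw [h2]; exact ⟨rfl, hn⟩

theorem le_G (hM : S.IsModel G φ) (F : Set B) : TG S φ ∅ F ∅ ≤ G := by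
  intro v w h
  have key : ∀ v w : V, Half S ∅ F ∅ (φ v) (φ w) → G.Adj v w := by
    intro v w h
    rw [hM.adj]
    obtain ⟨b, l, h1, h2⟩ := h
    rw [sd_empty, ot_empty] at h2
    rw [h1]
    rcases h2 with ⟨h2, _⟩ | ⟨_, _, h2⟩
    · rw [h2]; left; rfl
    · rw [h2]; right; rfl
  rcases h with h | h
  · exact key v w h
  · exact (key w v h).symm

/-- Three kinds of edges of the tree. -/
theorem edge_cases {F : Set B} {v w : V} (h : Half S ∅ F ∅ (φ v) (φ w)) :
    ∃ b l, φ v = .inr (b, l) ∧ ((l = 0 ∧ b ∈ F ∧ φ w = .inl (S.p b)) ∨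
      ((l ≠ 0 ∨ b ∉ F) ∧ φ w = .inl (S.p b)) ∨ (l = 0 ∧ b ∈ F ∧ φ w = .inl (S.q b))) := by
  obtain ⟨b, l, h1, h2⟩ := h
  rw [sd_empty, ot_empty] at h2
  refine ⟨b, l, h1, ?_⟩
  rcases h2 with ⟨h2, _⟩ | ⟨h3, h4, h2⟩
  · by_cases h3 : l = 0
    · by_cases h4 : b ∈ F
      · left; exact ⟨h3, h4, h2⟩
      · right; left; exact ⟨Or.inr h4, h2⟩
    · right; left; exact ⟨Or.inl h3, h2⟩
  · right; right; exact ⟨h3, h4, h2⟩

theorem del_p (hM : S.IsModel G φ) {F : Set B} (hF : ∀ b ∈ F, b ∈ S.bund) {v w : V} {b : B}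
    (hb : b ∈ F) (hv : φ v = .inr (b, 0)) (hw : φ w = .inl (S.p b)) :
    (TG S φ ∅ F ∅).deleteEdges {s(v, w)} = TG S φ {b} (F \ {b}) ∅ := by
  classical
  have hsd : sd S {b} b 0 = S.q b := by unfold sd; rw [if_pos ⟨rfl, rfl⟩]
  have hot : ot S {b} b 0 = S.p b := by unfold ot; rw [if_pos ⟨rfl, rfl⟩]
  have hno : ¬ Half S {b} (F \ {b}) ∅ (φ v) (φ w) := by
    rintro ⟨b', l', h1, h2⟩
    rw [hv] at h1
    obtain ⟨rfl, rfl⟩ : b = b' ∧ 0 = l' := by simpa using h1
    rw [hw, hsd] at h2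
    rcases h2 with ⟨h2, _⟩ | ⟨_, h3, _⟩
    · exact S.hne b (hF b hb) (by simpa using h2)
    · exact h3.2 rfl
  have hno' : ∀ β F' D, ¬ Half S β F' D (φ w) (φ v) := by
    rintro β F' D ⟨b', l', h1, h2⟩
    rw [hw] at h1
    cases h1
  have key : ∀ x y : V, Half S ∅ F ∅ (φ x) (φ y) → s(x, y) ≠ s(v, w) →
      Half S {b} (F \ {b}) ∅ (φ x) (φ y) := by
    rintro x y ⟨b', l', h1, h2⟩ hne
    rw [sd_empty, ot_empty] at h2
    refine ⟨b', l', h1, ?_⟩
    rcases h2 with ⟨h2, h3⟩ | ⟨rfl, hb', h2⟩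
    · by_cases hc : b' = b ∧ l' = 0
      · obtain ⟨rfl, rfl⟩ := hc
        exact absurd (by rw [hM.inj (h1.trans hv.symm), hM.inj (h2.trans hw.symm)]) hne
      · left
        refine ⟨?_, h3⟩
        unfold sd
        rw [if_neg (fun h => hc ⟨Set.mem_singleton_iff.1 h.1, h.2⟩)]
        exact h2
    · by_cases hc : b' = b
      · subst hc
        left
        rw [hsd]
        exact ⟨h2, fun h => h⟩
      · right
        refine ⟨rfl, ⟨hb', hc⟩, ?_⟩
        unfold ot
        rw [if_neg (fun h => hc h.1)]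
        exact h2
  have hmono : ∀ x y : V, Half S {b} (F \ {b}) ∅ (φ x) (φ y) → Half S ∅ F ∅ (φ x) (φ y) :=
    fun x y h => half_mono (fun b' hb' => by rw [Set.mem_singleton_iff.1 hb']; exact hb)
      (fun b' hb' => hb'.1) h
  ext x y
  rw [SimpleGraph.deleteEdges_adj, Set.mem_singleton_iff]
  constructor
  · rintro ⟨h | h, hne⟩
    · exact Or.inl (key x y h hne)
    · exact Or.inr (key y x h (by rwa [Sym2.eq_swap]))
  · intro h
    refine ⟨h.imp (hmono x y) (hmono y x), ?_⟩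
    intro he
    rw [Sym2.eq_iff] at he
    rcases he with ⟨rfl, rfl⟩ | ⟨rfl, rfl⟩
    · rcases h with h | h
      · exact hno h
      · exact hno' _ _ _ h
    · rcases h with h | h
      · exact hno' _ _ _ h
      · exact hno h

theorem del_q (hM : S.IsModel G φ) {F : Set B} (hF : ∀ b ∈ F, b ∈ S.bund) {v w : V} {b : B}
    (hb : b ∈ F) (hv : φ v = .inr (b, 0)) (hw : φ w = .inl (S.q b)) :
    (TG S φ ∅ F ∅).deleteEdges {s(v, w)} = TG S φ ∅ (F \ {b}) ∅ := by
  classical
  have hno : ¬ Half S ∅ (F \ {b}) ∅ (φ v) (φ w) := by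
    rintro ⟨b', l', h1, h2⟩
    rw [hv] at h1
    obtain ⟨rfl, rfl⟩ : b = b' ∧ 0 = l' := by simpa using h1
    rw [hw, sd_empty] at h2
    rcases h2 with ⟨h2, _⟩ | ⟨_, h3, _⟩
    · exact S.hne b (hF b hb) (by simpa using h2.symm)
    · exact h3.2 rfl
  have hno' : ∀ β F' D, ¬ Half S β F' D (φ w) (φ v) := by
    rintro β F' D ⟨b', l', h1, h2⟩
    rw [hw] at h1
    cases h1
  have key : ∀ x y : V, Half S ∅ F ∅ (φ x) (φ y) → s(x, y) ≠ s(v, w) →
      Half S ∅ (F \ {b}) ∅ (φ x) (φ y) := by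
    rintro x y ⟨b', l', h1, h2⟩ hne
    refine ⟨b', l', h1, ?_⟩
    rcases h2 with ⟨h2, h3⟩ | ⟨rfl, hb', h2⟩
    · exact Or.inl ⟨h2, h3⟩
    · by_cases hc : b' = b
      · subst hc
        rw [ot_empty] at h2
        exact absurd (by rw [hM.inj (h1.trans hv.symm), hM.inj (h2.trans hw.symm)]) hne
      · right
        exact ⟨rfl, ⟨hb', hc⟩, h2⟩
  have hmono : ∀ x y : V, Half S ∅ (F \ {b}) ∅ (φ x) (φ y) → Half S ∅ F ∅ (φ x) (φ y) :=
    fun x y h => half_mono (fun b' hb' => absurd hb' (fun h => h)) (fun b' hb' => hb'.1) h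
  ext x y
  rw [SimpleGraph.deleteEdges_adj, Set.mem_singleton_iff]
  constructor
  · rintro ⟨h | h, hne⟩
    · exact Or.inl (key x y h hne)
    · exact Or.inr (key y x h (by rwa [Sym2.eq_swap]))
  · intro h
    refine ⟨h.imp (hmono x y) (hmono y x), ?_⟩
    intro he
    rw [Sym2.eq_iff] at he
    rcases he with ⟨rfl, rfl⟩ | ⟨rfl, rfl⟩
    · rcases h with h | h
      · exact hno h
      · exact hno' _ _ _ h
    · rcases h with h | h
      · exact hno' _ _ _ h
      · exact hno h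

theorem del_leaf_le {F : Set B} {v w : V} {b : B} {l : ℕ}
    (hl : l ≠ 0 ∨ b ∉ F) (hv : φ v = .inr (b, l)) (hw : φ w = .inl (S.p b)) :
    TG S φ ∅ F {(b, l)} ≤ (TG S φ ∅ F ∅).deleteEdges {s(v, w)} := by
  classical
  have hno : ¬ Half S ∅ F {(b, l)} (φ v) (φ w) := by
    rintro ⟨b', l', h1, h2⟩
    rw [hv] at h1
    obtain ⟨rfl, rfl⟩ : b = b' ∧ l = l' := by simpa using h1
    rcases h2 with ⟨_, h2⟩ | ⟨h2, h3, _⟩
    · exact h2 rfl
    · rcases hl with hl | hl
      · exact hl h2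
      · exact hl h3
  have hno' : ∀ β F' D, ¬ Half S β F' D (φ w) (φ v) := by
    rintro β F' D ⟨b', l', h1, h2⟩
    rw [hw] at h1
    cases h1
  have hmono : ∀ x y : V, Half S ∅ F {(b, l)} (φ x) (φ y) → Half S ∅ F ∅ (φ x) (φ y) :=
    fun x y h => half_mono (fun b' hb' => absurd hb' (fun h => h)) (fun b' hb' => hb') h
  intro x y h
  rw [SimpleGraph.deleteEdges_adj, Set.mem_singleton_iff]
  refine ⟨h.imp (hmono x y) (hmono y x), ?_⟩
  intro he
  rw [Sym2.eq_iff] at he
  rcases he with ⟨rfl, rfl⟩ | ⟨rfl, rfl⟩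
  · rcases h with h | h
    · exact hno h
    · exact hno' _ _ _ h
  · rcases h with h | h
    · exact hno' _ _ _ h
    · exact hno h

theorem leaf_isolated (hM : S.IsModel G φ) {F : Set B} {v w : V} {b : B} {l : ℕ}
    (hl : l ≠ 0 ∨ b ∉ F) (hv : φ v = .inr (b, l)) (hw : φ w = .inl (S.p b)) :
    ∀ y, ¬ ((TG S φ ∅ F ∅).deleteEdges {s(v, w)}).Adj v y := by
  intro y h
  rw [SimpleGraph.deleteEdges_adj, Set.mem_singleton_iff] at h
  obtain ⟨h | h, hne⟩ := h
  · obtain ⟨b', l', h1, h2⟩ := h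
    rw [hv] at h1
    obtain ⟨rfl, rfl⟩ : b = b' ∧ l = l' := by simpa using h1
    rw [sd_empty] at h2
    rcases h2 with ⟨h2, _⟩ | ⟨h2, h3, _⟩
    · exact hne (by rw [hM.inj (h2.trans hw.symm)])
    · rcases hl with hl | hl
      · exact hl h2
      · exact hl h3
  · obtain ⟨b', l', _, h2⟩ := h
    rw [hv] at h2
    rcases h2 with ⟨h2, _⟩ | ⟨_, _, h2⟩ <;> cases h2

open scoped Classical in
theorem cng_le_of [Finite V] (hM : S.IsModel G φ) {β F : Set B} (hF : ∀ b ∈ F, b ∈ S.bund)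
    {T' : SimpleGraph V} (hT : TG S φ β F ∅ ≤ T') :
    {f ∈ G.edgeSet | ∃ x y, f = s(x, y) ∧ ¬ T'.Reachable x y}.ncard ≤
      ∑ b' ∈ S.bund.filter (fun b' => ¬ S.Conn F (S.p b') (S.q b')), S.μ b' := by
  rcases isEmpty_or_nonempty V with hV | hV
  · have : {f ∈ G.edgeSet | ∃ x y, f = s(x, y) ∧ ¬ T'.Reachable x y} = ∅ := by
      ext f
      constructor
      · rintro ⟨_, x, _⟩
        exact (hV.false x).elim
      · intro h
        exact h.elim
    rw [this, Set.ncard_empty]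
    exact Nat.zero_le _
  set I : Finset (Σ _ : B, ℕ) :=
    (S.bund.filter (fun b' => ¬ S.Conn F (S.p b') (S.q b'))).sigma (fun b' => range (S.μ b'))
    with hI
  have hcard : I.card = ∑ b' ∈ S.bund.filter (fun b' => ¬ S.Conn F (S.p b') (S.q b')), S.μ b' := by
    rw [hI, Finset.card_sigma]
    refine Finset.sum_congr rfl fun b' _ => ?_
    rw [card_range]
  rw [← hcard]
  have hinv : ∀ v : V, Function.invFun φ (φ v) = v := Function.leftInverse_invFun hM.inj
  let g : (Σ _ : B, ℕ) → Sym2 V := fun i =>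
    s(Function.invFun φ (.inr (i.1, i.2)), Function.invFun φ (.inl (ot S β i.1 i.2)))
  have hsub : {f ∈ G.edgeSet | ∃ x y, f = s(x, y) ∧ ¬ T'.Reachable x y} ⊆
      ((I.image g : Finset (Sym2 V)) : Set (Sym2 V)) := by
    have key : ∀ x y : V, G.Adj x y → ¬ T'.Reachable x y → (∃ b l, φ x = .inr (b, l)) →
        s(x, y) ∈ I.image g := by
      rintro x y hxy hr ⟨b, l, hx⟩
      have hval := hM.valid x
      rw [hx] at hval
      rw [hM.adj, hx] at hxy
      have hr' : ¬ S.Conn F (rho S β (φ x)) (rho S β (φ y)) := fun h =>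
        hr ((reachable_of_conn (D := ∅) hM hF (fun _ _ h => h) (fun d hd => hd.elim)
          (fun d hd => hd.elim) h).mono hT)
      rcases hy : φ y with z | ⟨b', l'⟩
      · rw [hy] at hxy
        change z = S.p b ∨ z = S.q b at hxy
        rw [hx, hy] at hr'
        change ¬ S.Conn F (sd S β b l) z at hr'
        rw [mem_image]
        refine ⟨⟨b, l⟩, ?_, ?_⟩
        · rw [hI, mem_sigma, mem_filter, mem_range]
          refine ⟨⟨hval.1, ?_⟩, hval.2⟩
          intro hc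
          apply hr'
          rcases sd_ot S β b l with ⟨h1, _⟩ | ⟨h1, _⟩ <;> rw [h1] <;> rcases hxy with h | h <;>
            rw [h]
          · exact Sys.Conn.refl _ _ _
          · exact hc
          · exact hc.symm
          · exact Sys.Conn.refl _ _ _
        · have hz : z = ot S β b l := by
            rcases sd_ot S β b l with ⟨h1, h2⟩ | ⟨h1, h2⟩ <;> rcases hxy with h | h
            · exfalso; apply hr'; rw [h1, h]; exact Sys.Conn.refl _ _ _
            · rw [h2, h]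
            · rw [h2, h]
            · exfalso; apply hr'; rw [h1, h]; exact Sys.Conn.refl _ _ _
          change s(Function.invFun φ (.inr (b, l)), Function.invFun φ (.inl (ot S β b l))) = s(x, y)
          rw [← hx, ← hz, ← hy, hinv, hinv]
      · rw [hy] at hxy
        exact hxy.elim
    rintro f ⟨hf, x, y, rfl, hr⟩
    rw [SimpleGraph.mem_edgeSet] at hf
    rw [Finset.mem_coe]
    rcases hx : φ x with z | ⟨b, l⟩
    · rcases hy : φ y with z' | ⟨b, l⟩
      · rw [hM.adj, hx, hy] at hf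
        exact hf.elim
      · rw [Sym2.eq_swap]
        exact key y x hf.symm (fun h => hr h.symm) ⟨b, l, hy⟩
    · exact key x y hf hr ⟨b, l, hx⟩
  refine (Set.ncard_le_ncard hsub (Finset.finite_toSet _)).trans ?_
  rw [Set.ncard_coe_finset]
  exact Finset.card_image_le

theorem cng_leaf [Finite V] (hM : S.IsModel G φ) {F : Set B} (hF : ∀ b ∈ F, b ∈ S.bund)
    (hc : ∀ x ∈ S.verts, ∀ y ∈ S.verts, S.Conn F x y) {v w : V} {b : B} {l : ℕ}
    (hl : l ≠ 0 ∨ b ∉ F) (hv : φ v = .inr (b, l)) (hw : φ w = .inl (S.p b)) :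
    {f ∈ G.edgeSet | ∃ x y, f = s(x, y) ∧
      ¬ ((TG S φ ∅ F ∅).deleteEdges {s(v, w)}).Reachable x y}.ncard ≤ 2 := by
  classical
  have hbb : b ∈ S.bund := by
    have := hM.valid v
    rw [hv] at this
    exact this.1
  obtain ⟨u, hu⟩ := hM.surj (.inl (S.q b)) (S.hq b hbb)
  have key : ∀ x y : V, G.Adj x y →
      ¬ ((TG S φ ∅ F ∅).deleteEdges {s(v, w)}).Reachable x y → x = v ∨ y = v := by
    intro x y _ hr
    by_contra hcon
    push Not at hcon
    apply hr
    refine (reachable_of_conn (β := ∅) (F := F) (D := {(b, l)}) hM hF ?_ ?_ ?_ ?_).mono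
      (del_leaf_le hl hv hw)
    · intro b' hb' hmem
      rw [Set.mem_singleton_iff] at hmem
      obtain ⟨rfl, rfl⟩ : b' = b ∧ 0 = l := by simpa using hmem
      rcases hl with hl | hl
      · exact hl rfl
      · exact hl hb'
    · intro d hd h
      rw [Set.mem_singleton_iff.1 hd] at h
      exact hcon.1 (hM.inj (h.trans hv.symm))
    · intro d hd h
      rw [Set.mem_singleton_iff.1 hd] at h
      exact hcon.2 (hM.inj (h.trans hv.symm))
    · exact hc _ (rho_mem hM _ _) _ (rho_mem hM _ _)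
  have hnb : ∀ y, G.Adj v y → y = w ∨ y = u := by
    intro y h
    rw [hM.adj, hv] at h
    rcases hy : φ y with z | ⟨b', l'⟩
    · rw [hy] at h
      rcases h with h | h
      · left; exact hM.inj (by rw [hy, hw, h])
      · right; exact hM.inj (by rw [hy, hu, h])
    · rw [hy] at h
      exact h.elim
  have hsub : {f ∈ G.edgeSet | ∃ x y, f = s(x, y) ∧
      ¬ ((TG S φ ∅ F ∅).deleteEdges {s(v, w)}).Reachable x y} ⊆ {s(v, w), s(v, u)} := by
    rintro f ⟨hf, x, y, rfl, hr⟩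
    rw [SimpleGraph.mem_edgeSet] at hf
    rcases key x y hf hr with rfl | rfl
    · rcases hnb y hf with rfl | rfl
      · exact Or.inl rfl
      · exact Or.inr rfl
    · rcases hnb x hf.symm with rfl | rfl
      · exact Or.inl Sym2.eq_swap
      · exact Or.inr Sym2.eq_swap
  refine (Set.ncard_le_ncard hsub (Set.toFinite _)).trans ?_
  exact Set.ncard_insert_le _ _ |>.trans (by rw [Set.ncard_singleton])

end

end T1

section

variable {X B : Type} {S : Sys X B} {V : Type} {G : SimpleGraph V} {φ : V → X ⊕ (B × ℕ)}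

open T1 in
/-- T1 -/
theorem stcLe_of_good [Finite V] (hM : S.IsModel G φ) (hne : S.verts.Nonempty) {t : ℕ} (ht : 2 ≤ t)
    {F : Set B} (hF : S.Good F t) : StcLe G t := by
  classical
  have hsub := hF.sub
  have hsub' : ∀ b, ∀ b' ∈ F \ {b}, b' ∈ S.bund := fun b b' hb' => hsub b' hb'.1
  refine ⟨TG S φ ∅ F ∅, le_G hM F, ?_, ?_⟩
  · refine ⟨?_, ?_⟩
    · obtain ⟨x, hx⟩ := hne
      obtain ⟨v, _⟩ := hM.surj (.inl x) hx
      have : Nonempty V := ⟨v⟩
      refine ⟨fun v w => ?_⟩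
      exact reachable_of_conn (D := ∅) hM hsub (fun _ _ h => h) (fun d hd => hd.elim)
        (fun d hd => hd.elim) (hF.conn _ (rho_mem hM _ _) _ (rho_mem hM _ _))
    · rw [SimpleGraph.isAcyclic_iff_forall_adj_isBridge]
      have key : ∀ v w : V, Half S ∅ F ∅ (φ v) (φ w) → (TG S φ ∅ F ∅).IsBridge s(v, w) := by
        intro v w h
        rw [SimpleGraph.isBridge_iff]
        obtain ⟨b, l, hv, h⟩ := edge_cases h
        rcases h with ⟨rfl, hb, hw⟩ | ⟨hl, hw⟩ | ⟨rfl, hb, hw⟩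
        · rw [del_p hM hsub hb hv hw]
          intro hr
          have := conn_of_reachable hr
          rw [hv, hw] at this
          change S.Conn (F \ {b}) (sd S {b} b 0) (S.p b) at this
          unfold sd at this
          rw [if_pos ⟨rfl, rfl⟩] at this
          exact hF.acyc b hb this.symm
        · rintro ⟨p⟩
          cases p with
          | nil => rw [hv] at hw; cases hw
          | cons hadj p => exact leaf_isolated hM hl hv hw _ hadj
        · rw [del_q hM hsub hb hv hw]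
          intro hr
          have := conn_of_reachable hr
          rw [hv, hw] at this
          change S.Conn (F \ {b}) (sd S ∅ b 0) (S.q b) at this
          rw [sd_empty] at this
          exact hF.acyc b hb this
      intro v w h
      rcases h with h | h
      · exact key v w h
      · rw [Sym2.eq_swap]
        exact key w v h
  · refine csSup_le' ?_
    rintro _ ⟨e, he, rfl⟩
    have key : ∀ v w : V, Half S ∅ F ∅ (φ v) (φ w) → cng G (TG S φ ∅ F ∅) s(v, w) ≤ t := by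
      intro v w h
      unfold cng
      obtain ⟨b, l, hv, h⟩ := edge_cases h
      rcases h with ⟨rfl, hb, hw⟩ | ⟨hl, hw⟩ | ⟨rfl, hb, hw⟩
      · rw [del_p hM hsub hb hv hw]
        refine (cng_le_of (β := {b}) (F := F \ {b}) hM (hsub' b) le_rfl).trans ?_
        exact hF.cut b hb
      · exact (cng_leaf hM hsub hF.conn hl hv hw).trans ht
      · rw [del_q hM hsub hb hv hw]
        refine (cng_le_of (β := ∅) (F := F \ {b}) hM (hsub' b) le_rfl).trans ?_
        exact hF.cut b hb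
    induction e with
    | _ v w =>
      rw [SimpleGraph.mem_edgeSet] at he
      rcases he with h | h
      · exact key v w h
      · rw [Sym2.eq_swap]
        exact key w v h

end

end Pool.Agent.H820R2.SC
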