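import Pool.Agent.H820R2.SC.Core

/-!
# Digits (task T10b)
-/

namespace Pool.Agent.H820R2.SC

open Finset

namespace T10b

/-- numbers with the same digits -/
theorem digits_inj (b : ℕ) (N : ℕ) (x y : ℕ → ℕ) (hx : ∀ d < N, x d < b) (hy : ∀ d < N, y d < b)
    (h : ∑ d ∈ range N, x d * b ^ d = ∑ d ∈ range N, y d * b ^ d) : ∀ d < N, x d = y d := by
  induction N generalizing x y with
  | zero => intro d hd; omega
  | succ N ih =>
    rw [Finset.sum_range_succ', Finset.sum_range_succ'] at h
    have e : ∀ z : ℕ → ℕ, ∑ d ∈ range N, z (d + 1) * b ^ (d + 1) =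
        b * ∑ d ∈ range N, z (d + 1) * b ^ d := by
      intro z
      rw [Finset.mul_sum]
      refine Finset.sum_congr rfl fun d _ => ?_
      rw [pow_succ]; ring
    rw [e, e, pow_zero, mul_one, mul_one] at h
    have hx0 := hx 0 (by omega)
    have hy0 := hy 0 (by omega)
    have h0 : x 0 = y 0 := by
      have := congrArg (· % b) h
      simp only [Nat.mul_add_mod, Nat.mod_eq_of_lt hx0, Nat.mod_eq_of_lt hy0] at this
      exact this
    rw [h0] at h
    have h1 := Nat.eq_of_mul_eq_mul_left (by omega : 0 < b) (Nat.add_right_cancel h)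
    have h2 := ih (fun d => x (d + 1)) (fun d => y (d + 1)) (fun d hd => hx _ (by omega))
      (fun d hd => hy _ (by omega)) h1
    intro d hd
    rcases d with _ | d
    · exact h0
    · exact h2 d (by omega)

theorem ofD_eq (b : ℕ) (l : List ℕ) : ofD b l = ∑ d ∈ range l.length, l.getD d 0 * b ^ d := by
  induction l with
  | nil => simp [ofD]
  | cons a l ih =>
    have : ofD b (a :: l) = a + b * ofD b l := rfl
    rw [this, ih, List.length_cons, Finset.sum_range_succ', Finset.mul_sum]
    simp only [List.getD_cons_succ, List.getD_cons_zero, pow_zero, mul_one]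
    rw [add_comm]
    congr 1
    refine Finset.sum_congr rfl fun d _ => ?_
    rw [pow_succ]; ring

theorem length_dg (n k : ℕ) (y : It) : (dg n k y).length = 11 := by cases y <;> rfl

theorem length_nodeT (n k a : ℕ) : (nodeT n k a).length = 11 := rfl

theorem length_edgeT (n k a b : ℕ) : (edgeT n k a b).length = 11 := by
  unfold edgeT
  split <;> rfl

theorem length_flatMap_le {α β : Type} (l : List α) (f : α → List β) (c : ℕ)
    (h : ∀ a ∈ l, (f a).length ≤ c) : (l.flatMap f).length ≤ l.length * c := by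
  induction l with
  | nil => simp
  | cons a l ih =>
    rw [List.flatMap_cons, List.length_append, List.length_cons, Nat.add_mul, one_mul]
    have h1 := h a (by simp)
    have h2 := ih fun x hx => h x (by simp [hx])
    omega

theorem sum_le_of {l : List ℕ} {c : ℕ} (h : ∀ a ∈ l, a ≤ c) : l.sum ≤ l.length * c := by
  induction l with
  | nil => simp
  | cons a l ih =>
    rw [List.sum_cons, List.length_cons, Nat.add_mul, one_mul]
    have h1 := h a (by simp)
    have h2 := ih fun x hx => h x (by simp [hx])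
    omega

theorem eid_le {k a b : ℕ} (ha : a < k) (hb : b < k) : eid k a b ≤ k * k := by
  unfold eid
  have h1 : min a b + 1 ≤ k := by omega
  have h2 : max a b < k := by omega
  nlinarith [Nat.mul_le_mul_right k h1]

/-- description of the items -/
theorem mem_its {n k : ℕ} {ad : ℕ → ℕ → Bool} {y : It} (h : y ∈ its n k ad) :
    (∃ a b v, y = .x a b v ∧ a < k ∧ b < k ∧ v < n) ∨ (∃ a v, y = .y a v ∧ a < k ∧ v < n) ∨
    (∃ a b u v, y = .z a b u v ∧ a < k ∧ b < k ∧ u < n ∧ v < n) := by
  unfold its at h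
  simp only [List.mem_append, List.mem_flatMap, List.mem_range, List.mem_filter, List.mem_map,
    decide_eq_true_eq] at h
  rcases h with ⟨a, ha, b, ⟨hb, _⟩, v, hv, rfl⟩ | ⟨a, ha, v, hv, rfl⟩ |
    ⟨a, ha, b, ⟨hb, _⟩, u, hu, v, ⟨hv, _⟩, rfl⟩
  · exact Or.inl ⟨a, b, v, rfl, ha, hb, hv⟩
  · exact Or.inr (Or.inl ⟨a, v, rfl, ha, hv⟩)
  · exact Or.inr (Or.inr ⟨a, b, u, v, rfl, ha, hb, hu, hv⟩)

theorem length_its (n k : ℕ) (ad : ℕ → ℕ → Bool) :
    (its n k ad).length ≤ k * (k * n) + (k * n + k * (k * (n * n))) := by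
  unfold its
  rw [List.length_append, List.length_append]
  have hf : ∀ (p : ℕ → Bool) (m : ℕ), ((List.range m).filter p).length ≤ m := by
    intro p m
    exact (List.length_filter_le _ _).trans (by rw [List.length_range])
  refine Nat.add_le_add ?_ (Nat.add_le_add ?_ ?_)
  · refine (length_flatMap_le _ _ (k * n) ?_).trans (by rw [List.length_range])
    intro a _
    refine (length_flatMap_le _ _ n ?_).trans (Nat.mul_le_mul_right _ (hf _ _))
    intro b _
    rw [List.length_map, List.length_range]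
  · refine (length_flatMap_le _ _ n ?_).trans (by rw [List.length_range])
    intro a _
    rw [List.length_map, List.length_range]
  · refine (length_flatMap_le _ _ (k * (n * n)) ?_).trans (by rw [List.length_range])
    intro a _
    refine (length_flatMap_le _ _ (n * n) ?_).trans (Nat.mul_le_mul_right _ (hf _ _))
    intro b _
    refine (length_flatMap_le _ _ n ?_).trans (by rw [List.length_range])
    intro u _
    rw [List.length_map]
    exact hf _ _

theorem nodup_its (n k : ℕ) (ad : ℕ → ℕ → Bool) : (its n k ad).Nodup := by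
  unfold its
  have hr : ∀ m : ℕ, (List.range m).Nodup := fun m => List.nodup_range
  rw [List.nodup_append, List.nodup_append]
  refine ⟨?_, ⟨?_, ?_, ?_⟩, ?_⟩
  · rw [List.nodup_flatMap]
    refine ⟨fun a _ => ?_, ?_⟩
    · rw [List.nodup_flatMap]
      refine ⟨fun b _ => ?_, ?_⟩
      · exact (hr n).map fun u v h => by simpa using h
      · refine ((hr k).filter _).imp ?_
        intro b b' hbb y h1 h2
        simp only [List.mem_map] at h1 h2
        obtain ⟨v, _, rfl⟩ := h1
        obtain ⟨v', _, h3⟩ := h2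
        simp only [It.x.injEq] at h3
        exact hbb h3.2.1.symm
    · refine (hr k).imp ?_
      intro a a' haa y h1 h2
      simp only [List.mem_flatMap, List.mem_map] at h1 h2
      obtain ⟨b, _, v, _, rfl⟩ := h1
      obtain ⟨b', _, v', _, h3⟩ := h2
      simp only [It.x.injEq] at h3
      exact haa h3.1.symm
  · rw [List.nodup_flatMap]
    refine ⟨fun a _ => (hr n).map fun u v h => by simpa using h, ?_⟩
    refine (hr k).imp ?_
    intro a a' haa y h1 h2
    simp only [List.mem_map] at h1 h2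
    obtain ⟨v, _, rfl⟩ := h1
    obtain ⟨v', _, h3⟩ := h2
    simp only [It.y.injEq] at h3
    exact haa h3.1.symm
  · rw [List.nodup_flatMap]
    refine ⟨fun a _ => ?_, ?_⟩
    · rw [List.nodup_flatMap]
      refine ⟨fun b _ => ?_, ?_⟩
      · rw [List.nodup_flatMap]
        refine ⟨fun u _ => ?_, ?_⟩
        · exact ((hr n).filter _).map fun u v h => by simpa using h
        · refine (hr n).imp ?_
          intro u u' huu y h1 h2
          simp only [List.mem_map] at h1 h2
          obtain ⟨v, _, rfl⟩ := h1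
          obtain ⟨v', _, h3⟩ := h2
          simp only [It.z.injEq] at h3
          exact huu h3.2.2.1.symm
      · refine ((hr k).filter _).imp ?_
        intro b b' hbb y h1 h2
        simp only [List.mem_flatMap, List.mem_map] at h1 h2
        obtain ⟨u, _, v, _, rfl⟩ := h1
        obtain ⟨u', _, v', _, h3⟩ := h2
        simp only [It.z.injEq] at h3
        exact hbb h3.2.1.symm
    · refine (hr k).imp ?_
      intro a a' haa y h1 h2
      simp only [List.mem_flatMap, List.mem_map] at h1 h2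
      obtain ⟨b, _, u, _, v, _, rfl⟩ := h1
      obtain ⟨b', _, u', _, v', _, h3⟩ := h2
      simp only [It.z.injEq] at h3
      exact haa h3.1.symm
  · intro y h1 z h2 he
    simp only [List.mem_flatMap, List.mem_map] at h1 h2
    obtain ⟨a, _, v, _, rfl⟩ := h1
    obtain ⟨a', _, b', _, u', _, v', _, h3⟩ := h2
    rw [← h3] at he
    exact absurd he (by simp)
  · intro y h1 z h2 he
    simp only [List.mem_append, List.mem_flatMap, List.mem_map] at h1 h2
    obtain ⟨a, _, b, _, v, _, rfl⟩ := h1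
    rcases h2 with ⟨a', _, v', _, h3⟩ | ⟨a', _, b', _, u', _, v', _, h3⟩
    · rw [← h3] at he
      exact absurd he (by simp)
    · rw [← h3] at he
      exact absurd he (by simp)

/-- monomials -/
theorem mono {n k i j : ℕ} (hi : i ≤ 6) (hj : j ≤ 4) :
    (k + 1) ^ i * (n + 1) ^ j ≤ (k + 1) ^ 6 * (n + 1) ^ 4 :=
  Nat.mul_le_mul (Nat.pow_le_pow_right (by omega) hi) (Nat.pow_le_pow_right (by omega) hj)

theorem lt_bs {n k x : ℕ} (h : x ≤ 3 * ((k + 1) ^ 6 * (n + 1) ^ 4)) : x < bs n k := by
  unfold bs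
  have h1 : (k + 1) ^ 6 * (n + 1) ^ 4 ≤ (k + 1) ^ 7 * (n + 1) ^ 5 :=
    Nat.mul_le_mul (Nat.pow_le_pow_right (by omega) (by omega))
      (Nat.pow_le_pow_right (by omega) (by omega))
  have h2 : 0 < (k + 1) ^ 6 * (n + 1) ^ 4 := by positivity
  have h3 : 8 * (k + 1) ^ 7 * (n + 1) ^ 5 = 8 * ((k + 1) ^ 7 * (n + 1) ^ 5) := by ring
  omega

theorem digit_le {n k : ℕ} {ad : ℕ → ℕ → Bool} {y : It} (h : y ∈ its n k ad) {d : ℕ}
    (hd : d < 11) : (dg n k y).getD d 0 ≤ (k + 1) ^ 4 * (n + 1) ^ 2 := by
  have hA : 1 ≤ (k + 1) ^ 4 := Nat.one_le_pow _ _ (by omega)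
  have hB : 1 ≤ (n + 1) ^ 2 := Nat.one_le_pow _ _ (by omega)
  have hkk : k * k * (k * k) ≤ (k + 1) ^ 4 := by
    have : k * k * (k * k) = k ^ 4 := by ring
    rw [this]; exact Nat.pow_le_pow_left (by omega) 4
  have hk2 : k * k ≤ (k + 1) ^ 4 := by
    calc k * k = k ^ 2 := by ring
      _ ≤ (k + 1) ^ 2 := Nat.pow_le_pow_left (by omega) 2
      _ ≤ (k + 1) ^ 4 := Nat.pow_le_pow_right (by omega) (by omega)
  have hk1 : k ≤ (k + 1) ^ 4 := by
    calc k ≤ (k + 1) ^ 1 := by rw [pow_one]; omega
      _ ≤ (k + 1) ^ 4 := Nat.pow_le_pow_right (by omega) (by omega)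
  have hn2 : n * n ≤ (n + 1) ^ 2 := by
    have : n * n = n ^ 2 := by ring
    rw [this]; exact Nat.pow_le_pow_left (by omega) 2
  have hn1 : n ≤ (n + 1) ^ 2 := by nlinarith
  have LA : ∀ x, x ≤ (k + 1) ^ 4 → x ≤ (k + 1) ^ 4 * (n + 1) ^ 2 := fun x hx =>
    hx.trans (Nat.le_mul_of_pos_right _ hB)
  have LB : ∀ x, x ≤ (n + 1) ^ 2 → x ≤ (k + 1) ^ 4 * (n + 1) ^ 2 := fun x hx =>
    hx.trans (Nat.le_mul_of_pos_left _ hA)
  have LAB : ∀ x z, x ≤ k → z ≤ (n + 1) ^ 2 → x * z ≤ (k + 1) ^ 4 * (n + 1) ^ 2 := fun x z hx hz =>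
    Nat.mul_le_mul (hx.trans hk1) hz
  have L0 : (0 : ℕ) ≤ (k + 1) ^ 4 * (n + 1) ^ 2 := Nat.zero_le _
  have L1 : (1 : ℕ) ≤ (k + 1) ^ 4 * (n + 1) ^ 2 := LA 1 hA
  rcases mem_its h with ⟨a, b, v, rfl, ha, hb, hv⟩ | ⟨a, v, rfl, ha, hv⟩ |
    ⟨a, b, u, v, rfl, ha, hb, hu, hv⟩
  · have he := eid_le ha hb
    have hvv : v * v ≤ (n + 1) ^ 2 := (Nat.mul_le_mul hv.le hv.le).trans hn2
    have haa : a * a ≤ (k + 1) ^ 4 := (Nat.mul_le_mul ha.le ha.le).trans hk2
    interval_cases d <;> simp only [dg, List.getD_cons_succ, List.getD_cons_zero]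
    · exact L1
    · exact L0
    · exact L0
    · exact LA _ (ha.le.trans hk1)
    · exact LA _ haa
    · exact LA _ (he.trans hk2)
    · exact LA _ ((Nat.mul_le_mul he he).trans hkk)
    · split
      · exact LB _ (hv.le.trans hn1)
      · exact L0
    · split
      · exact LB _ hvv
      · exact L0
    · split
      · exact L0
      · exact LB _ (hv.le.trans hn1)
    · split
      · exact L0
      · exact LB _ hvv
  · have hvv : v * v ≤ (n + 1) ^ 2 := (Nat.mul_le_mul hv.le hv.le).trans hn2
    have haa : a * a ≤ (k + 1) ^ 4 := (Nat.mul_le_mul ha.le ha.le).trans hk2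
    have hka : k - 1 - a ≤ k := by omega
    have hv' : v ≤ (n + 1) ^ 2 := hv.le.trans hn1
    interval_cases d <;> simp only [dg, List.getD_cons_succ, List.getD_cons_zero]
    · exact L0
    · exact L1
    · exact L0
    · exact LA _ (ha.le.trans hk1)
    · exact LA _ haa
    · exact L0
    · exact L0
    · exact LAB _ _ hka hv'
    · exact LAB _ _ hka hvv
    · exact LAB _ _ ha.le hv'
    · exact LAB _ _ ha.le hvv
  · have he := eid_le ha hb
    interval_cases d <;> simp only [dg, List.getD_cons_succ, List.getD_cons_zero]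
    · exact L0
    · exact L0
    · exact L1
    · exact L0
    · exact L0
    · exact LA _ (he.trans hk2)
    · exact LA _ ((Nat.mul_le_mul he he).trans hkk)
    · exact LB _ ((Nat.sub_le _ _).trans hn1)
    · exact LB _ ((Nat.sub_le _ _).trans hn2)
    · exact LB _ ((Nat.sub_le _ _).trans hn1)
    · exact LB _ ((Nat.sub_le _ _).trans hn2)

theorem sum_digit_lt {n k : ℕ} {ad : ℕ → ℕ → Bool} (S : Finset It)
    (hS : S ⊆ (its n k ad).toFinset) {d : ℕ} (hd : d < 11) :
    ∑ y ∈ S, (dg n k y).getD d 0 < bs n k := by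
  apply lt_bs
  have h1 : ∑ y ∈ S, (dg n k y).getD d 0 ≤ S.card * ((k + 1) ^ 4 * (n + 1) ^ 2) := by
    rw [← smul_eq_mul]
    refine Finset.sum_le_card_nsmul _ _ _ fun y hy => ?_
    have := hS hy
    rw [List.mem_toFinset] at this
    exact digit_le this hd
  have h2 : S.card ≤ 3 * ((k + 1) ^ 2 * (n + 1) ^ 2) := by
    refine (Finset.card_le_card hS).trans ((List.toFinset_card_le _).trans
      ((length_its n k ad).trans ?_))
    have e1 : k * (k * n) ≤ (k + 1) ^ 2 * (n + 1) ^ 2 := by
      calc k * (k * n) ≤ (k + 1) * ((k + 1) * (n + 1)) := by gcongr <;> omega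
        _ ≤ (k + 1) * ((k + 1) * ((n + 1) * (n + 1))) := by
            gcongr; exact Nat.le_mul_of_pos_right _ (by omega)
        _ = _ := by ring
    have e3 : k * (k * (n * n)) ≤ (k + 1) ^ 2 * (n + 1) ^ 2 := by
      calc k * (k * (n * n)) ≤ (k + 1) * ((k + 1) * ((n + 1) * (n + 1))) := by gcongr <;> omega
        _ = _ := by ring
    have e2 : k * n ≤ (k + 1) ^ 2 * (n + 1) ^ 2 := by
      apply Nat.mul_le_mul <;> nlinarith
    exact (Nat.add_le_add e1 (Nat.add_le_add e2 e3)).trans (le_of_eq (by ring))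
  calc _ ≤ S.card * ((k + 1) ^ 4 * (n + 1) ^ 2) := h1
    _ ≤ 3 * ((k + 1) ^ 2 * (n + 1) ^ 2) * ((k + 1) ^ 4 * (n + 1) ^ 2) := Nat.mul_le_mul_right _ h2
    _ = _ := by ring

theorem node_lt {n k a : ℕ} (ha : a < k) {d : ℕ} (hd : d < 11) :
    (nodeT n k a).getD d 0 < bs n k := by
  apply lt_bs
  have key : ∀ x i j : ℕ, i ≤ 6 → j ≤ 4 → x ≤ 3 * ((k + 1) ^ i * (n + 1) ^ j) →
      x ≤ 3 * ((k + 1) ^ 6 * (n + 1) ^ 4) := fun x i j hi hj hx =>
    hx.trans (Nat.mul_le_mul_left _ (mono hi hj))
  have ha' : a ≤ k + 1 := by omega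
  have hA : k - 1 ≤ k := by omega
  have hB : n - 1 ≤ n := by omega
  have hka : k - 1 - a ≤ k + 1 := by omega
  have hflen : ((List.range k).filter fun b => decide (b ≠ a)).length ≤ k + 1 :=
    (List.length_filter_le _ _).trans (by rw [List.length_range]; omega)
  have s1 : (((List.range k).filter fun b => decide (b ≠ a)).map fun b => eid k a b).sum ≤
      (k + 1) ^ 3 := by
    refine (sum_le_of (c := k * k) ?_).trans ?_
    · intro x hx
      simp only [List.mem_map, List.mem_filter, List.mem_range] at hx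
      obtain ⟨b, ⟨hb, _⟩, rfl⟩ := hx
      exact eid_le ha hb
    · rw [List.length_map]
      calc _ ≤ (k + 1) * ((k + 1) * (k + 1)) := by
            apply Nat.mul_le_mul hflen; gcongr <;> omega
        _ = _ := by ring
  have s2 : (((List.range k).filter fun b => decide (b ≠ a)).map fun b =>
      eid k a b * eid k a b).sum ≤ (k + 1) ^ 5 := by
    refine (sum_le_of (c := k * k * (k * k)) ?_).trans ?_
    · intro x hx
      simp only [List.mem_map, List.mem_filter, List.mem_range] at hx
      obtain ⟨b, ⟨hb, _⟩, rfl⟩ := hx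
      exact Nat.mul_le_mul (eid_le ha hb) (eid_le ha hb)
    · rw [List.length_map]
      calc _ ≤ (k + 1) * ((k + 1) * (k + 1) * ((k + 1) * (k + 1))) := by
            apply Nat.mul_le_mul hflen; gcongr <;> omega
        _ = _ := by ring
  have s3 : (List.range n).sum ≤ (n + 1) ^ 2 := by
    refine (sum_le_of (c := n) ?_).trans ?_
    · intro x hx
      rw [List.mem_range] at hx
      omega
    · rw [List.length_range]; nlinarith
  have s4 : ((List.range n).map fun v => v * v).sum ≤ (n + 1) ^ 3 := by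
    refine (sum_le_of (c := n * n) ?_).trans ?_
    · intro x hx
      simp only [List.mem_map, List.mem_range] at hx
      obtain ⟨v, hv, rfl⟩ := hx
      exact Nat.mul_le_mul hv.le hv.le
    · rw [List.length_map, List.length_range]
      calc n * (n * n) ≤ (n + 1) * ((n + 1) * (n + 1)) := by gcongr <;> omega
        _ = _ := by ring
  have p1 : (k - 1) * (n - 1) + 1 ≤ (k + 1) * (n + 1) := by
    have : (k - 1) * (n - 1) ≤ k * n := Nat.mul_le_mul hA hB
    nlinarith
  have hk3 : 0 < (k + 1) ^ 3 := by positivity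
  interval_cases d <;> simp only [nodeT, List.getD_cons_succ, List.getD_cons_zero]
  · refine key _ 1 1 (by omega) (by omega) ?_
    rw [pow_one, pow_one]; omega
  · refine key _ 0 0 (by omega) (by omega) (by norm_num)
  · exact Nat.zero_le _
  · refine key _ 2 1 (by omega) (by omega) ?_
    calc _ ≤ (k + 1) * (n + 1) * (k + 1) := Nat.mul_le_mul p1 ha'
      _ ≤ 3 * ((k + 1) * (n + 1) * (k + 1)) := Nat.le_mul_of_pos_left _ (by omega)
      _ = _ := by ring
  · refine key _ 3 1 (by omega) (by omega) ?_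
    calc _ ≤ (k + 1) * (n + 1) * ((k + 1) * (k + 1)) := Nat.mul_le_mul p1 (Nat.mul_le_mul ha' ha')
      _ ≤ 3 * ((k + 1) * (n + 1) * ((k + 1) * (k + 1))) := Nat.le_mul_of_pos_left _ (by omega)
      _ = _ := by ring
  · refine key _ 3 1 (by omega) (by omega) ?_
    calc _ ≤ (n + 1) * (k + 1) ^ 3 := Nat.mul_le_mul (by omega) s1
      _ ≤ 3 * ((n + 1) * (k + 1) ^ 3) := Nat.le_mul_of_pos_left _ (by omega)
      _ = _ := by ring
  · refine key _ 5 1 (by omega) (by omega) ?_
    calc _ ≤ (n + 1) * (k + 1) ^ 5 := Nat.mul_le_mul (by omega) s2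
      _ ≤ 3 * ((n + 1) * (k + 1) ^ 5) := Nat.le_mul_of_pos_left _ (by omega)
      _ = _ := by ring
  · refine key _ 1 2 (by omega) (by omega) ?_
    calc _ ≤ (k + 1) * (n + 1) ^ 2 := Nat.mul_le_mul hka s3
      _ ≤ 3 * ((k + 1) * (n + 1) ^ 2) := Nat.le_mul_of_pos_left _ (by omega)
      _ = _ := by ring
  · refine key _ 1 3 (by omega) (by omega) ?_
    calc _ ≤ (k + 1) * (n + 1) ^ 3 := Nat.mul_le_mul hka s4
      _ ≤ 3 * ((k + 1) * (n + 1) ^ 3) := Nat.le_mul_of_pos_left _ (by omega)
      _ = _ := by ring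
  · refine key _ 1 2 (by omega) (by omega) ?_
    calc _ ≤ (k + 1) * (n + 1) ^ 2 := Nat.mul_le_mul ha' s3
      _ ≤ 3 * ((k + 1) * (n + 1) ^ 2) := Nat.le_mul_of_pos_left _ (by omega)
      _ = _ := by ring
  · refine key _ 1 3 (by omega) (by omega) ?_
    calc _ ≤ (k + 1) * (n + 1) ^ 3 := Nat.mul_le_mul ha' s4
      _ ≤ 3 * ((k + 1) * (n + 1) ^ 3) := Nat.le_mul_of_pos_left _ (by omega)
      _ = _ := by ring

theorem edge_lt {n k a b : ℕ} (ha : a < k) (hb : b < k) {d : ℕ} (hd : d < 11) :
    (edgeT n k a b).getD d 0 < bs n k := by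
  apply lt_bs
  have key : ∀ x i j : ℕ, i ≤ 6 → j ≤ 4 → x ≤ 3 * ((k + 1) ^ i * (n + 1) ^ j) →
      x ≤ 3 * ((k + 1) ^ 6 * (n + 1) ^ 4) := fun x i j hi hj hx =>
    hx.trans (Nat.mul_le_mul_left _ (mono hi hj))
  have he := eid_le ha hb
  unfold edgeT
  split
  · interval_cases d <;> simp only [List.getD_cons_succ, List.getD_cons_zero]
    · exact key _ 0 0 (by omega) (by omega) (by norm_num)
    · exact Nat.zero_le _
    · exact key _ 0 0 (by omega) (by omega) (by norm_num)
    · refine key _ 1 0 (by omega) (by omega) ?_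
      rw [pow_one, pow_zero]; omega
    · refine key _ 2 0 (by omega) (by omega) ?_
      have h1 : a * a ≤ (k + 1) * (k + 1) := by gcongr <;> omega
      have h2 : b * b ≤ (k + 1) * (k + 1) := by gcongr <;> omega
      rw [pow_zero, pow_two]; omega
    · refine key _ 2 0 (by omega) (by omega) ?_
      have h1 : k * k ≤ (k + 1) * (k + 1) := by gcongr <;> omega
      rw [pow_zero, pow_two]; omega
    · refine key _ 4 0 (by omega) (by omega) ?_
      have h1 : eid k a b * eid k a b ≤ (k + 1) ^ 4 := by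
        calc _ ≤ k * k * (k * k) := Nat.mul_le_mul he he
          _ = k ^ 4 := by ring
          _ ≤ _ := Nat.pow_le_pow_left (by omega) 4
      rw [pow_zero]; omega
    · refine key _ 0 1 (by omega) (by omega) ?_
      rw [pow_one, pow_zero]; omega
    · refine key _ 0 2 (by omega) (by omega) ?_
      rw [pow_zero, pow_two]
      have h1 : n * n ≤ (n + 1) * (n + 1) := by gcongr <;> omega
      omega
    · refine key _ 0 1 (by omega) (by omega) ?_
      rw [pow_one, pow_zero]; omega
    · refine key _ 0 2 (by omega) (by omega) ?_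
      rw [pow_zero, pow_two]
      have h1 : n * n ≤ (n + 1) * (n + 1) := by gcongr <;> omega
      omega
  · interval_cases d <;> exact Nat.zero_le _

theorem tgs_spec {n k : ℕ} {l : List ℕ} (h : l ∈ tgs n k) :
    l.length = 11 ∧ ∀ d < 11, l.getD d 0 < bs n k := by
  unfold tgs at h
  simp only [List.mem_append, List.mem_map, List.mem_flatMap, List.mem_range] at h
  rcases h with ⟨a, ha, rfl⟩ | ⟨a, ha, b, hb, rfl⟩
  · exact ⟨length_nodeT _ _ _, fun d hd => node_lt ha hd⟩
  · exact ⟨length_edgeT _ _ _ _, fun d hd => edge_lt ha hb hd⟩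

/-- one bin: the sum of the numbers is right iff all digit sums are right -/
theorem bin_iff {n k : ℕ} {ad : ℕ → ℕ → Bool} (S : Finset It)
    (hS : S ⊆ (its n k ad).toFinset) {l : List ℕ} (hl : l ∈ tgs n k) :
    ∑ y ∈ S, ofD (bs n k) (dg n k y) = ofD (bs n k) l ↔
      ∀ d < 11, ∑ y ∈ S, (dg n k y).getD d 0 = l.getD d 0 := by
  obtain ⟨h1, h2⟩ := tgs_spec hl
  have e1 : ∑ y ∈ S, ofD (bs n k) (dg n k y) =
      ∑ d ∈ range 11, (∑ y ∈ S, (dg n k y).getD d 0) * bs n k ^ d := by
    simp only [ofD_eq, length_dg]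
    rw [Finset.sum_comm]
    refine Finset.sum_congr rfl fun d _ => ?_
    rw [Finset.sum_mul]
  rw [e1, ofD_eq, h1]
  constructor
  · intro h
    exact digits_inj (bs n k) 11 _ _ (fun d hd => sum_digit_lt S hS hd) h2 h
  · intro h
    refine Finset.sum_congr rfl fun d hd => ?_
    rw [h d (Finset.mem_range.1 hd)]

/-- positions and elements of a list without repetitions -/
theorem sum_pos {α : Type} [DecidableEq α] (L : List α) (hL : L.Nodup) (df : α) (F : α → ℕ)
    (f : ℕ → ℕ) (i : ℕ) :
    ∑ c ∈ (range L.length).filter (fun c => f c = i), F (L.getD c df) =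
      ∑ y ∈ L.toFinset.filter (fun y => f (L.idxOf y) = i), F y := by
  refine Finset.sum_bij' (fun c _ => L.getD c df) (fun y _ => L.idxOf y) ?_ ?_ ?_ ?_ ?_
  · intro c hc
    rw [Finset.mem_filter, Finset.mem_range] at hc
    rw [Finset.mem_filter, List.mem_toFinset, List.getD_eq_getElem _ _ hc.1]
    refine ⟨List.getElem_mem _, ?_⟩
    rw [hL.idxOf_getElem]
    exact hc.2
  · intro y hy
    rw [Finset.mem_filter, List.mem_toFinset] at hy
    rw [Finset.mem_filter, Finset.mem_range]
    exact ⟨List.idxOf_lt_length_iff.2 hy.1, hy.2⟩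
  · intro c hc
    rw [Finset.mem_filter, Finset.mem_range] at hc
    rw [List.getD_eq_getElem _ _ hc.1, hL.idxOf_getElem]
  · intro y hy
    rw [Finset.mem_filter, List.mem_toFinset] at hy
    rw [List.getD_eq_getElem _ _ (List.idxOf_lt_length_iff.2 hy.1), List.getElem_idxOf]
  · intro c _
    rfl

end T10b

open T10b

/-- T10b -/
theorem packL_iff_packD (n k : ℕ) (ad : ℕ → ℕ → Bool) :
    PackL (sizes n k ad) (bins n k) ↔ PackD n k ad := by
  have hlen : (sizes n k ad).length = (its n k ad).length := by simp [sizes]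
  have hblen : (bins n k).length = (tgs n k).length := by simp [bins]
  have hs : ∀ c, c < (its n k ad).length → (sizes n k ad).getD c 0 =
      ofD (bs n k) (dg n k ((its n k ad).getD c (.y 0 0))) := by
    intro c hc
    rw [List.getD_eq_getElem _ _ (by rw [hlen]; exact hc), List.getD_eq_getElem _ _ hc]
    simp [sizes]
  have hb : ∀ i, i < (tgs n k).length → (bins n k).getD i 0 =
      ofD (bs n k) ((tgs n k).getD i []) := by
    intro i hi
    rw [List.getD_eq_getElem _ _ (by rw [hblen]; exact hi), List.getD_eq_getElem _ _ hi]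
    simp [bins]
  have hmem : ∀ i, i < (tgs n k).length → (tgs n k).getD i [] ∈ tgs n k := by
    intro i hi
    rw [List.getD_eq_getElem _ _ hi]
    exact List.getElem_mem _
  have hsum : ∀ (f : ℕ → ℕ) (i : ℕ),
      ∑ c ∈ (range (sizes n k ad).length).filter (fun c => f c = i), (sizes n k ad).getD c 0 =
      ∑ y ∈ (its n k ad).toFinset.filter (fun y => f ((its n k ad).idxOf y) = i),
        ofD (bs n k) (dg n k y) := by
    intro f i
    rw [hlen, ← sum_pos (its n k ad) (nodup_its n k ad) (.y 0 0)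
      (fun y => ofD (bs n k) (dg n k y)) f i]
    refine Finset.sum_congr rfl fun c hc => ?_
    rw [Finset.mem_filter, Finset.mem_range] at hc
    exact hs c hc.1
  constructor
  · rintro ⟨f, hf⟩
    refine ⟨fun y => f ((its n k ad).idxOf y), fun i hi => ?_⟩
    have h := hf i (by rw [hblen]; exact hi)
    rw [hsum, hb i hi] at h
    exact (bin_iff _ (Finset.filter_subset _ _) (hmem i hi)).1 h
  · rintro ⟨g, hg⟩
    refine ⟨fun c => g ((its n k ad).getD c (.y 0 0)), fun i hi => ?_⟩
    have hi' : i < (tgs n k).length := by rw [← hblen]; exact hi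
    rw [hsum, hb i hi']
    have e : (its n k ad).toFinset.filter
        (fun y => g ((its n k ad).getD ((its n k ad).idxOf y) (.y 0 0)) = i) =
        (its n k ad).toFinset.filter (fun y => g y = i) := by
      refine Finset.filter_congr fun y hy => ?_
      rw [List.mem_toFinset] at hy
      rw [List.getD_eq_getElem _ _ (List.idxOf_lt_length_iff.2 hy), List.getElem_idxOf]
    rw [e]
    exact (bin_iff _ (Finset.filter_subset _ _) (hmem i hi')).2 (hg i hi')

end Pool.Agent.H820R2.SC
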