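import Pool.Agent.H820R2.SC.Core

/-! Task T5 (helper417): level drawing of the model of a bundle system, without the drawing
theorems of T4. -/

namespace Pool.Agent.H820R2.SC

open Finset Pool.Agent.NPC Pool.Agent.H557R2.Fpt

section general

variable {X B : Type} {S : Sys X B} {V : Type} {G : SimpleGraph V} {φ : V → X ⊕ (B × ℕ)}

/-- heights -/
def t5h (S : Sys X B) (ht : X → ℕ) : X ⊕ (B × ℕ) → ℕ
  | .inl x => ht x
  | .inr (b, _) => ht (S.p b) + 1

/-- positions -/
def t5x (N : ℕ) (xx : X → ℕ) (pos : B → ℕ) : X ⊕ (B × ℕ) → ℕ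
  | .inl x => xx x
  | .inr (b, l) => N * pos b + l

theorem t5_digits {N a l a' l' : ℕ} (h : l < N) (h' : l' < N) (e : N * a + l = N * a' + l') :
    a = a' ∧ l = l' := by
  have h1 : (N * a + l) / N = a := by
    rw [Nat.mul_add_div (by omega), Nat.div_eq_of_lt h, add_zero]
  have h2 : (N * a' + l') / N = a' := by
    rw [Nat.mul_add_div (by omega), Nat.div_eq_of_lt h', add_zero]
  have h3 : a = a' := by rw [← h1, ← h2, e]
  subst h3
  exact ⟨rfl, by omega⟩

theorem t5_lt {N a l a' l' : ℕ} (h : l < N) (h1 : a < a') : N * a + l ≤ N * a' + l' := by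
  have h2 : N * (a + 1) ≤ N * a' := Nat.mul_le_mul_left _ h1
  have h3 : N * (a + 1) = N * a + N := by ring
  omega

theorem t5_core (hM : S.IsModel G φ) (ht xx : X → ℕ) (pos : B → ℕ) (H : ℕ)
    (inj : ∀ x ∈ S.verts, ∀ y ∈ S.verts, ht x = ht y → xx x = xx y → x = y)
    (even : ∀ x ∈ S.verts, Even (ht x))
    (edge : ∀ b ∈ S.bund, ht (S.q b) = ht (S.p b) + 2)
    (posinj : ∀ b ∈ S.bund, ∀ b' ∈ S.bund, ht (S.p b) = ht (S.p b') → pos b = pos b' → b = b')
    (mono : ∀ b ∈ S.bund, ∀ b' ∈ S.bund, ht (S.p b) = ht (S.p b') → pos b < pos b' →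
      xx (S.p b) ≤ xx (S.p b') ∧ xx (S.q b) ≤ xx (S.q b'))
    (hH : ∀ x ∈ S.verts, ht x < H) : ∃ h x : V → ℕ,
      (∀ u v, h u = h v → x u = x v → u = v) ∧
      (∀ u v, G.Adj u v → h v = h u + 1 ∨ h u = h v + 1) ∧
      (∀ u v u' v', G.Adj u v → G.Adj u' v' → h v = h u + 1 → h u' = h u → h v' = h v →
        x u < x u' → x v ≤ x v') ∧ ∀ v, h v < H := by
  classical
  set N := S.bund.sup S.μ + 1 with hN
  have hμN : ∀ b ∈ S.bund, ∀ l, l < S.μ b → l < N := by
    intro b hb l hl
    have := Finset.le_sup (f := S.μ) hb
    omega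
  have hodd : ∀ x ∈ S.verts, ∀ y ∈ S.verts, ht x ≠ ht y + 1 := by
    intro x hx y hy h
    have h1 := even x hx
    have h2 := even y hy
    rw [h] at h1
    rw [Nat.even_iff] at h1 h2
    omega
  refine ⟨fun v => t5h S ht (φ v), fun v => t5x N xx pos (φ v), ?_, ?_, ?_, ?_⟩
  · intro u v h1 h2
    apply hM.inj
    have vu := hM.valid u
    have vv := hM.valid v
    rcases hu : φ u with x | ⟨b, l⟩ <;> rcases hv : φ v with y | ⟨b', l'⟩ <;>
      simp only [hu, hv] at h1 h2 vu vv
    · simp only [t5h, t5x] at h1 h2
      rw [inj x vu y vv h1 h2]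
    · simp only [t5h] at h1
      exact absurd h1 (hodd x vu _ (S.hp b' vv.1))
    · simp only [t5h] at h1
      exact absurd h1.symm (hodd y vv _ (S.hp b vu.1))
    · simp only [t5h, t5x] at h1 h2
      obtain ⟨e1, e2⟩ := t5_digits (hμN b vu.1 l vu.2) (hμN b' vv.1 l' vv.2) h2
      rw [posinj b vu.1 b' vv.1 (by omega) e1, e2]
  · intro u v hadj
    rw [hM.adj] at hadj
    have vu := hM.valid u
    have vv := hM.valid v
    show t5h S ht (φ v) = t5h S ht (φ u) + 1 ∨ t5h S ht (φ u) = t5h S ht (φ v) + 1
    rcases hu : φ u with x | ⟨b, l⟩ <;> rcases hv : φ v with y | ⟨b', l'⟩ <;>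
      simp only [hu, hv] at hadj vu vv
    · exact absurd hadj id
    · have hadj' : x = S.p b' ∨ x = S.q b' := hadj
      simp only [t5h]
      rcases hadj' with rfl | rfl
      · left; rfl
      · right; rw [edge b' vv.1]
    · have hadj' : y = S.p b ∨ y = S.q b := hadj
      simp only [t5h]
      rcases hadj' with rfl | rfl
      · right; rfl
      · left; rw [edge b vu.1]
    · exact absurd hadj id
  · intro u v u' v' hadj hadj' h1 h2 h3 hx
    rw [hM.adj] at hadj hadj'
    have vu := hM.valid u
    have vv := hM.valid v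
    have vu' := hM.valid u'
    have vv' := hM.valid v'
    show t5x N xx pos (φ v) ≤ t5x N xx pos (φ v')
    rcases hu : φ u with x | ⟨b, l⟩
    · rcases hv : φ v with y | ⟨b, l⟩
      · rw [hu, hv] at hadj
        exact absurd hadj id
      rcases hu' : φ u' with x' | ⟨b', l'⟩
      · rcases hv' : φ v' with y' | ⟨b', l'⟩
        · rw [hu', hv'] at hadj'
          exact absurd hadj' id
        simp only [hu, hv, hu', hv'] at hadj hadj' h1 h2 h3 hx vu vv vu' vv'
        simp only [t5h, t5x] at h1 h2 h3 hx ⊢
        have e := edge b vv.1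
        have e' := edge b' vv'.1
        have a1 : x = S.p b := by
          rcases (hadj : x = S.p b ∨ x = S.q b) with h | h
          · exact h
          · subst h; omega
        have a2 : x' = S.p b' := by
          rcases (hadj' : x' = S.p b' ∨ x' = S.q b') with h | h
          · exact h
          · subst h; omega
        subst a1 a2
        rcases lt_trichotomy (pos b) (pos b') with h | h | h
        · exact t5_lt (hμN b vv.1 l vv.2) h
        · have := posinj b vv.1 b' vv'.1 (by omega) h
          subst this
          omega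
        · have := (mono b' vv'.1 b vv.1 (by omega) h).1
          omega
      · simp only [hu, hu'] at h2 vu vu'
        simp only [t5h] at h2
        exact absurd h2.symm (hodd x vu _ (S.hp b' vu'.1))
    · rcases hv : φ v with y | ⟨b1, l1⟩
      · rcases hu' : φ u' with x' | ⟨b', l'⟩
        · simp only [hu, hu'] at h2 vu vu'
          simp only [t5h] at h2
          exact absurd h2 (hodd x' vu' _ (S.hp b vu.1))
        · rcases hv' : φ v' with y' | ⟨b2, l2⟩
          · simp only [hu, hv, hu', hv'] at hadj hadj' h1 h2 h3 hx vu vv vu' vv'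
            simp only [t5h, t5x] at h1 h2 h3 hx ⊢
            have e := edge b vu.1
            have e' := edge b' vu'.1
            have a1 : y = S.q b := by
              rcases (hadj : y = S.p b ∨ y = S.q b) with h | h
              · subst h; omega
              · exact h
            have a2 : y' = S.q b' := by
              rcases (hadj' : y' = S.p b' ∨ y' = S.q b') with h | h
              · subst h; omega
              · exact h
            subst a1 a2
            rcases lt_trichotomy (pos b) (pos b') with h | h | h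
            · exact (mono b vu.1 b' vu'.1 (by omega) h).2
            · have := posinj b vu.1 b' vu'.1 (by omega) h
              subst this
              exact le_rfl
            · have := t5_lt (N := N) (l' := l) (hμN b' vu'.1 l' vu'.2) h
              omega
          · rw [hu', hv'] at hadj'
            exact absurd hadj' id
      · rw [hu, hv] at hadj
        exact absurd hadj id
  · intro v
    have vv := hM.valid v
    show t5h S ht (φ v) < H
    rcases hv : φ v with y | ⟨b, l⟩ <;> simp only [hv] at vv
    · exact hH y vv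
    · simp only [t5h]
      have h1 := hH _ (S.hq b vv.1)
      rw [edge b vv.1] at h1
      omega

end general

end Pool.Agent.H820R2.SC
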